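import Pool.Agent.H16.GPS.Rel.Defs

/-! # Project FF: definitions for the relative theorem over finite abelian groups -/

set_option autoImplicit false

open Finset Pool.Agent.H16.GPS

namespace Pool.Agent.H10.FF

/-- `L j h = ∑ i, (τ j - τ i) (h i)` -/
noncomputable def La {κ : ℕ} {Γ H : Type} [AddCommGroup Γ] [AddCommGroup H]
    (τ : Fin κ → H →+ Γ) (j : Fin κ) (h : Fin κ → H) : Γ := ∑ i : Fin κ, (τ j (h i) - τ i (h i))

/-- the counting functional -/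
noncomputable def LamF {κ : ℕ} {Γ H : Type} [Fintype Γ] [AddCommGroup Γ] [Fintype H]
    [AddCommGroup H] (τ : Fin κ → H →+ Γ) (g : Γ → ℝ) : ℝ :=
  EE (unif Γ) (unif H) (fun x (h : Fin κ → H) => ∏ j : Fin κ, g (x + La τ j h))

/-- linear forms condition for `ν` -/
def LFn {κ : ℕ} {Γ H : Type} [Fintype Γ] [AddCommGroup Γ] [Fintype H]
    [AddCommGroup H] (τ : Fin κ → H →+ Γ) (ν : Γ → ℝ) (η : ℝ) : Prop :=
  LFc (unif Γ) (unif H) (fun (j : Fin κ) x h => ν (x + La τ j h)) η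

/-- linear forms condition for the cubes `x + ∑ c, Ψ (y c)` -/
def LFy (κ : ℕ) {Γ Y : Type} [Fintype Γ] [AddCommGroup Γ] [Fintype Y]
    [AddCommGroup Y] (Ψ : Y →+ Γ) (ν : Γ → ℝ) (η : ℝ) : Prop :=
  ∀ S : Finset (Finset (Fin κ)),
    |EE2 (unif Γ) (unif Y) (fun x y y' => ∏ ω ∈ S,
      ν (x + ∑ c : Fin κ, Ψ (mix y y' ω c))) - 1| ≤ η

/-- test functions for the dense model -/
def TestF {κ : ℕ} {Γ H : Type} [Fintype Γ] [AddCommGroup Γ] [Fintype H]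
    [AddCommGroup H] (τ : Fin κ → H →+ Γ) : Set (Γ → ℝ) :=
  {f | (f = fun _ => 1) ∨ ∃ (j : Fin κ) (u : Fin κ → Γ → (Fin κ → H) → ℝ),
    (∀ i p, Indep i (u i p)) ∧ (∀ i p h, 0 ≤ u i p h ∧ u i p h ≤ 1) ∧
    ∀ x, f x = ∑ h : Fin κ → H, (∏ i, unif H (h i)) *
      ∏ i ∈ univ.erase j, u i (x - La τ j h) h}

end Pool.Agent.H10.FF
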