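import Pool.Agent.H10.FF.ADefs
import Pool.Agent.H16.GPS.HJ.Main
import Pool.Agent.H16.GPS.HJ.Avg

/-!
FF (MP_a1f59e_nt). Dense functions contain many configurations (from the density Hales-Jewett theorem).
-/

set_option autoImplicit false

open Finset Pool.Agent.H16.GPS

namespace Pool.Agent.H10.FF

/-- the count of configurations `x + τ j h` -/
noncomputable def cnt {κ : ℕ} {Γ H : Type} [Fintype Γ] [AddCommGroup Γ] [Fintype H]
    [AddCommGroup H] (τ : Fin κ → H →+ Γ) (g : Γ → ℝ) : ℝ :=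
  (∑ x : Γ, ∑ h : H, ∏ j : Fin κ, g (x + τ j h)) / ((Fintype.card Γ : ℝ) * Fintype.card H)

/-- a partial sum of independent uniform elements is uniform -/
theorem sum_unifF {n : ℕ} {H : Type} [Fintype H] [AddCommGroup H] (J : Finset (Fin n))
    (hJ : J.Nonempty) (F : H → ℝ) :
    (Fintype.card H : ℝ) * ∑ ζ : Fin n → H, F (∑ i ∈ J, ζ i) =
      (Fintype.card H : ℝ) ^ n * ∑ h, F h := by
  classical
  obtain ⟨i₀, hi₀⟩ := hJ
  have h1 : ∀ h : H, ∑ ζ : Fin n → H, F (∑ i ∈ J, ζ i) =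
      ∑ ζ : Fin n → H, F (∑ i ∈ J, ζ i + h) := by
    intro h
    rw [← Equiv.sum_comp (Equiv.addRight (Pi.single i₀ h)) (fun ζ : Fin n → H => F (∑ i ∈ J, ζ i))]
    refine Finset.sum_congr rfl fun ζ _ => ?_
    simp only [Equiv.coe_addRight, Pi.add_apply, Finset.sum_add_distrib]
    rw [Finset.sum_pi_single', if_pos hi₀]
  have h2 : (Fintype.card H : ℝ) * ∑ ζ : Fin n → H, F (∑ i ∈ J, ζ i) =
      ∑ _h : H, ∑ ζ : Fin n → H, F (∑ i ∈ J, ζ i) := by
    rw [Finset.sum_const, Finset.card_univ, nsmul_eq_mul]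
  have h3 : (Fintype.card H : ℝ) ^ n * ∑ h, F h = ∑ _ζ : Fin n → H, ∑ h, F h := by
    rw [Finset.sum_const, Finset.card_univ, nsmul_eq_mul, Fintype.card_fun, Fintype.card_fin]
    push_cast
    ring
  rw [h2, h3, Finset.sum_congr rfl (fun h _ => h1 h), Finset.sum_comm]
  refine Finset.sum_congr rfl fun ζ _ => ?_
  rw [← Equiv.sum_comp (Equiv.addLeft (∑ i ∈ J, ζ i)) F]
  rfl

/-- the number of configurations with difference `h`, weighted by `g` -/
private noncomputable def dPsi {κ : ℕ} {Γ H : Type} [Fintype Γ] [AddCommGroup Γ]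
    [AddCommGroup H] (τ : Fin κ → H →+ Γ) (g : Γ → ℝ) (h : H) : ℝ :=
  ∑ x : Γ, ∏ j : Fin κ, g (x + τ j h)

private theorem dPsi_shift {κ : ℕ} {Γ H : Type} [Fintype Γ] [AddCommGroup Γ]
    [AddCommGroup H] (τ : Fin κ → H →+ Γ) (g : Γ → ℝ) (h : H) (v : Γ) :
    ∑ x : Γ, ∏ j : Fin κ, g (x + (v + τ j h)) = dPsi τ g h := by
  unfold dPsi
  rw [← Equiv.sum_comp (Equiv.addRight v) (fun x : Γ => ∏ j : Fin κ, g (x + τ j h))]
  refine Finset.sum_congr rfl (fun p _ => Finset.prod_congr rfl (fun j _ => ?_))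
  rw [Equiv.coe_addRight, add_assoc]

private theorem cnt_eq {κ : ℕ} {Γ H : Type} [Fintype Γ] [AddCommGroup Γ] [Fintype H]
    [AddCommGroup H] (τ : Fin κ → H →+ Γ) (g : Γ → ℝ) :
    cnt τ g = (∑ h, dPsi τ g h) / ((Fintype.card Γ : ℝ) * Fintype.card H) := by
  unfold cnt dPsi
  rw [Finset.sum_comm]

theorem lam_eq {κ : ℕ} (hκ : 1 ≤ κ) {Γ H : Type} [Fintype Γ] [AddCommGroup Γ] [Fintype H]
    [AddCommGroup H] (τ : Fin κ → H →+ Γ) (g : Γ → ℝ) : LamF τ g = cnt τ g := by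
  classical
  have hLL : ∀ (j : Fin κ) (h : Fin κ → H),
      La τ j h = -(∑ i : Fin κ, τ i (h i)) + τ j (∑ i : Fin κ, h i) := by
    intro j h
    unfold La
    rw [map_sum, ← Finset.sum_neg_distrib, ← Finset.sum_add_distrib]
    refine Finset.sum_congr rfl (fun i _ => ?_)
    abel
  have hG : (0 : ℝ) < Fintype.card Γ := by exact_mod_cast Fintype.card_pos
  have hH : (0 : ℝ) < Fintype.card H := by exact_mod_cast Fintype.card_pos
  rw [cnt_eq]
  unfold LamF EE unif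
  simp only [Finset.prod_const, Finset.card_univ, Fintype.card_fin]
  have e1 : ∑ p : Γ, 1 / (Fintype.card Γ : ℝ) * ∑ h : Fin κ → H,
      (1 / (Fintype.card H : ℝ)) ^ κ * ∏ j : Fin κ, g (p + La τ j h) =
      1 / (Fintype.card Γ : ℝ) * (1 / (Fintype.card H : ℝ)) ^ κ *
        ∑ h : Fin κ → H, dPsi τ g (∑ i, h i) := by
    have h1 : ∀ h : Fin κ → H, dPsi τ g (∑ i, h i) =
        ∑ p : Γ, ∏ j : Fin κ, g (p + La τ j h) := by
      intro h
      rw [← dPsi_shift τ g (∑ i, h i) (-(∑ i : Fin κ, τ i (h i)))]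
      refine Finset.sum_congr rfl (fun p _ => Finset.prod_congr rfl (fun j _ => ?_))
      rw [hLL]
    rw [Finset.sum_congr rfl (fun h _ => h1 h), Finset.sum_comm, Finset.mul_sum]
    refine Finset.sum_congr rfl (fun p _ => ?_)
    rw [Finset.mul_sum, Finset.mul_sum]
    exact Finset.sum_congr rfl (fun h _ => by ring)
  rw [e1]
  have h2 := sum_unifF (n := κ) (H := H) univ ⟨⟨0, by omega⟩, mem_univ _⟩ (dPsi τ g)
  have h3 : ∑ h : Fin κ → H, dPsi τ g (∑ i, h i) =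
      (Fintype.card H : ℝ) ^ κ * (∑ h, dPsi τ g h) / Fintype.card H := by
    rw [← h2]
    field_simp
  rw [h3, one_div, one_div, inv_pow]
  field_simp

/-- the function evaluated at a word -/
private noncomputable def dG {n κ : ℕ} {Γ H : Type} [AddCommGroup Γ] [AddCommGroup H]
    (τ : Fin κ → H →+ Γ) (g : Γ → ℝ) (t : Γ × (Fin n → H)) (w : Fin n → Fin κ) : ℝ :=
  g (t.1 + ∑ i, τ (w i) (t.2 i))

private theorem sum_dG {n κ : ℕ} {Γ H : Type} [Fintype Γ] [AddCommGroup Γ] [Fintype H]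
    [AddCommGroup H] (τ : Fin κ → H →+ Γ) (g : Γ → ℝ) (w : Fin n → Fin κ) :
    ∑ t : Γ × (Fin n → H), dG τ g t w = (Fintype.card (Fin n → H) : ℝ) * ∑ x, g x := by
  rw [Fintype.sum_prod_type_right]
  have h1 : ∀ ζ : Fin n → H, ∑ x : Γ, dG τ g (x, ζ) w = ∑ x, g x := fun ζ =>
    Equiv.sum_comp (Equiv.addRight (∑ i, τ (w i) (ζ i))) g
  rw [Finset.sum_congr rfl (fun ζ _ => h1 ζ), Finset.sum_const, Finset.card_univ, nsmul_eq_mul]

/-- a line with many monochromatic translates -/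
private theorem line_dG {n κ : ℕ} {Γ H : Type} [Fintype Γ] [AddCommGroup Γ] [Fintype H]
    [AddCommGroup H] (τ : Fin κ → H →+ Γ) (hκ : 1 ≤ κ) (hn1 : 1 ≤ n) (δ : ℝ) (hδ : 0 < δ)
    (hn : ∀ A : Finset (Fin n → Fin κ), δ / 2 / 2 ≤ H16.GPS.dens A →
      ∃ l : Combinatorics.Line (Fin κ) (Fin n), ∀ x : Fin κ, l x ∈ A)
    (g : Γ → ℝ) (hg : ∀ x, 0 ≤ g x ∧ g x ≤ 1) (hav : δ ≤ ∑ x, unif Γ x * g x) :
    ∃ l : Combinatorics.Line (Fin κ) (Fin n),
      δ / 2 / (Fintype.card (Fin n → Option (Fin κ)) : ℝ) * (δ / 2 / 2) ^ κ *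
        (Fintype.card (Γ × (Fin n → H)) : ℝ) ≤
      ∑ t : Γ × (Fin n → H), ∏ j : Fin κ, dG τ g t (l j) := by
  classical
  have : Nonempty (Fin κ) := ⟨⟨0, hκ⟩⟩
  have : Nonempty (Combinatorics.Line (Fin κ) (Fin n)) := ⟨⟨fun _ => none, ⟨⟨0, hn1⟩, rfl⟩⟩⟩
  have hW : (0 : ℝ) < Fintype.card (Fin n → Fin κ) := by exact_mod_cast Fintype.card_pos
  have hZ : (0 : ℝ) < Fintype.card (Fin n → H) := by exact_mod_cast Fintype.card_pos
  have hP : (0 : ℝ) < Fintype.card Γ := by exact_mod_cast Fintype.card_pos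
  have hT : (0 : ℝ) < Fintype.card (Γ × (Fin n → H)) := by
    exact_mod_cast Fintype.card_pos
  have hG0 : ∀ t w, 0 ≤ dG (n := n) τ g t w := fun t w => (hg _).1
  have hG1 : ∀ t w, dG (n := n) τ g t w ≤ 1 := fun t w => (hg _).2
  -- the average of `f`
  set f : Γ × (Fin n → H) → ℝ :=
    fun t => (∑ w : Fin n → Fin κ, dG τ g t w) / (Fintype.card (Fin n → Fin κ) : ℝ) with hf
  have hf1 : ∀ t, f t ≤ 1 := by
    intro t
    rw [hf]
    simp only
    rw [div_le_one hW]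
    calc ∑ w : Fin n → Fin κ, dG τ g t w ≤ ∑ _w : Fin n → Fin κ, (1 : ℝ) :=
          Finset.sum_le_sum (fun w _ => hG1 t w)
      _ = _ := by rw [Finset.sum_const, Finset.card_univ, nsmul_eq_mul, mul_one]
  have hfav : δ ≤ (∑ t, f t) / (Fintype.card (Γ × (Fin n → H)) : ℝ) := by
    have e1 : ∑ t, f t = (Fintype.card (Fin n → H) : ℝ) * ∑ p, g p := by
      rw [hf]
      simp only
      rw [← Finset.sum_div, Finset.sum_comm, Finset.sum_congr rfl (fun w _ => sum_dG τ g w),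
        Finset.sum_const, Finset.card_univ, nsmul_eq_mul]
      field_simp
    have e2 : ∑ p, unif Γ p * g p = (∑ p, g p) / (Fintype.card Γ : ℝ) := by
      unfold unif
      rw [← Finset.mul_sum]
      ring
    rw [e2] at hav
    rw [e1, Fintype.card_prod Γ]
    push_cast
    rw [mul_comm (Fintype.card Γ : ℝ)]
    rw [mul_div_mul_left _ _ hZ.ne']
    exact hav
  have hY := markov_dens f δ hδ.le hf1 hfav
  -- lines
  have hline : ∀ t ∈ univ.filter (fun t => δ / 2 ≤ f t),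
      ∃ l : Combinatorics.Line (Fin κ) (Fin n), ∀ x : Fin κ, δ / 2 / 2 ≤ dG τ g t (l x) := by
    intro t ht
    have h1 := markov_dens (fun w => dG τ g t w) (δ / 2) (by linarith) (hG1 t)
      (Finset.mem_filter.1 ht).2
    obtain ⟨l, hl⟩ := hn _ h1
    exact ⟨l, fun x => (Finset.mem_filter.1 (hl x)).2⟩
  choose! L hL using hline
  obtain ⟨T0, hT0⟩ := pigeon_dens (univ.filter (fun t => δ / 2 ≤ f t)) (δ / 2) (by linarith) hY
    (fun t => (L t).idxFun)
  have hcT : (0 : ℝ) < Fintype.card (Fin n → Option (Fin κ)) := by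
    exact_mod_cast Fintype.card_pos
  -- the fibre is nonempty
  set B := (univ.filter (fun t => δ / 2 ≤ f t)).filter (fun t => (L t).idxFun = T0) with hB
  have hBne : B.Nonempty := by
    by_contra hne
    rw [Finset.not_nonempty_iff_eq_empty] at hne
    rw [hne] at hT0
    unfold H16.GPS.dens at hT0
    rw [Finset.card_empty, Nat.cast_zero, zero_div] at hT0
    have : 0 < δ / 2 / (Fintype.card (Fin n → Option (Fin κ)) : ℝ) := by positivity
    linarith
  obtain ⟨t0, ht0⟩ := hBne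
  refine ⟨L t0, ?_⟩
  have hB1 : ∀ t ∈ B, (δ / 2 / 2) ^ κ ≤ ∏ j : Fin κ, dG τ g t ((L t0) j) := by
    intro t ht
    have h1 := Finset.mem_filter.1 ht
    have h2 := Finset.mem_filter.1 ht0
    have h3 : ∀ x : Fin κ, (L t0) x = (L t) x := by
      intro x
      funext i
      change ((L t0).idxFun i).getD x = ((L t).idxFun i).getD x
      rw [h1.2, h2.2]
    calc (δ / 2 / 2) ^ κ = ∏ _j : Fin κ, (δ / 2 / 2) := by
          rw [Finset.prod_const, Finset.card_univ, Fintype.card_fin]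
      _ ≤ ∏ j : Fin κ, dG τ g t ((L t0) j) := by
          refine Finset.prod_le_prod (fun j _ => by positivity) (fun j _ => ?_)
          rw [h3]
          exact hL t h1.1 j
  have hBs : (#B : ℝ) * (δ / 2 / 2) ^ κ ≤
      ∑ t : Γ × (Fin n → H), ∏ j : Fin κ, dG τ g t ((L t0) j) := by
    calc (#B : ℝ) * (δ / 2 / 2) ^ κ = ∑ _t ∈ B, (δ / 2 / 2) ^ κ := by
          rw [Finset.sum_const, nsmul_eq_mul]
      _ ≤ ∑ t ∈ B, ∏ j : Fin κ, dG τ g t ((L t0) j) := Finset.sum_le_sum hB1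
      _ ≤ _ := Finset.sum_le_sum_of_subset_of_nonneg (Finset.subset_univ _)
          (fun t _ _ => Finset.prod_nonneg (fun j _ => hG0 t _))
  refine le_trans ?_ hBs
  unfold H16.GPS.dens at hT0
  rw [le_div_iff₀ hT] at hT0
  have hpow : 0 ≤ (δ / 2 / 2) ^ κ := by positivity
  calc δ / 2 / (Fintype.card (Fin n → Option (Fin κ)) : ℝ) * (δ / 2 / 2) ^ κ *
        (Fintype.card (Γ × (Fin n → H)) : ℝ)
      = (δ / 2 / (Fintype.card (Fin n → Option (Fin κ)) : ℝ) *
        (Fintype.card (Γ × (Fin n → H)) : ℝ)) * (δ / 2 / 2) ^ κ := by ring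
    _ ≤ (#B : ℝ) * (δ / 2 / 2) ^ κ := mul_le_mul_of_nonneg_right hT0 hpow

/-- the product over a line, summed over everything -/
private theorem line_sum {n κ : ℕ} {Γ H : Type} [Fintype Γ] [AddCommGroup Γ] [Fintype H]
    [AddCommGroup H] (τ : Fin κ → H →+ Γ) (g : Γ → ℝ)
    (l : Combinatorics.Line (Fin κ) (Fin n)) :
    ∑ t : Γ × (Fin n → H), ∏ j : Fin κ, dG τ g t (l j) =
      ∑ ζ : Fin n → H, dPsi τ g (∑ i ∈ univ.filter (fun i => l.idxFun i = none), ζ i) := by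
  classical
  rw [Fintype.sum_prod_type_right]
  refine Finset.sum_congr rfl (fun ζ _ => ?_)
  rw [← dPsi_shift τ g _ (∑ i ∈ univ.filter (fun i => ¬ l.idxFun i = none),
    ((l.idxFun i).elim (0 : Γ) (fun a => τ a (ζ i))))]
  refine Finset.sum_congr rfl (fun p _ => Finset.prod_congr rfl (fun j _ => ?_))
  unfold dG
  congr 2
  rw [← Finset.sum_filter_add_sum_filter_not univ (fun i => l.idxFun i = none), add_comm, map_sum]
  congr 1
  · refine Finset.sum_congr rfl (fun i hi => ?_)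
    have h1 := (Finset.mem_filter.1 hi).2
    have h2 : (l j) i = (l.idxFun i).getD j := rfl
    rw [h2]
    cases h3 : l.idxFun i with
    | none => exact absurd h3 h1
    | some a => rfl
  · refine Finset.sum_congr rfl (fun i hi => ?_)
    have h1 := (Finset.mem_filter.1 hi).2
    have h2 : (l j) i = (l.idxFun i).getD j := rfl
    rw [h2, h1]
    rfl

theorem dense_lowerF (κ : ℕ) (hκ : 1 ≤ κ) (δ : ℝ) (hδ : 0 < δ) : ∃ c₁ : ℝ, 0 < c₁ ∧
    ∀ (Γ H : Type) [Fintype Γ] [AddCommGroup Γ] [Fintype H] [AddCommGroup H]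
    (τ : Fin κ → H →+ Γ) (g : Γ → ℝ), (∀ x, 0 ≤ g x ∧ g x ≤ 1) →
    δ ≤ ∑ x, unif Γ x * g x → c₁ ≤ cnt τ g := by
  classical
  obtain ⟨n0, hn0⟩ := dhj κ (by omega) (δ / 2 / 2) (by linarith)
  have hn1 : 1 ≤ max n0 1 := le_max_right _ _
  have hnn : ∀ A : Finset (Fin (max n0 1) → Fin κ), δ / 2 / 2 ≤ H16.GPS.dens A →
      ∃ l : Combinatorics.Line (Fin κ) (Fin (max n0 1)), ∀ x : Fin κ, l x ∈ A := by
    intro A hA
    exact hn0 (Fin (max n0 1)) (by rw [Fintype.card_fin]; exact le_max_left _ _) A hA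
  generalize max n0 1 = n at hn1 hnn
  have hcT : (0 : ℝ) < Fintype.card (Fin n → Option (Fin κ)) := by
    exact_mod_cast Fintype.card_pos
  refine ⟨δ / 2 / (Fintype.card (Fin n → Option (Fin κ)) : ℝ) * (δ / 2 / 2) ^ κ,
    by positivity, ?_⟩
  intro Γ H _ _ _ _ τ g hg hav
  obtain ⟨l, hl⟩ := line_dG τ hκ hn1 δ hδ hnn g hg hav
  rw [line_sum τ g l] at hl
  have hJ : (univ.filter (fun i => l.idxFun i = none)).Nonempty := by
    obtain ⟨i, hi⟩ := l.proper
    exact ⟨i, by simp [hi]⟩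
  have h2 := sum_unifF _ hJ (dPsi τ g)
  have hG : (0 : ℝ) < Fintype.card Γ := by exact_mod_cast Fintype.card_pos
  have hH : (0 : ℝ) < Fintype.card H := by exact_mod_cast Fintype.card_pos
  have hc : (Fintype.card (Γ × (Fin n → H)) : ℝ) =
      (Fintype.card Γ : ℝ) * (Fintype.card H : ℝ) ^ n := by
    rw [Fintype.card_prod Γ, Fintype.card_fun, Fintype.card_fin]
    push_cast
    ring
  rw [hc] at hl
  rw [cnt_eq, le_div_iff₀ (by positivity)]
  have h3 := mul_le_mul_of_nonneg_left hl hH.le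
  rw [h2] at h3
  have hpn : (0 : ℝ) < (Fintype.card H : ℝ) ^ n := by positivity
  refine le_of_mul_le_mul_left ?_ hpn
  refine le_trans (le_of_eq ?_) h3
  ring

end Pool.Agent.H10.FF
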