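import Pool.Agent.H10.FF.ADefs
import Pool.Agent.H16.GPS.Rel.Main

/-!
FF (MP_a1f59e_nt). `ν - 1` is nearly orthogonal to products of test functions (finite abelian groups).
Finite abelian groups `Γ, H, Y`, homomorphisms `τ j : H →+ Γ`, `ψ j i : Y →+ H`, `Ψ : Y →+ Γ` with
`τ j (ψ j i y) - τ i (ψ j i y) = Ψ y` for `i ≠ j`. All weights are uniform.
-/

set_option autoImplicit false

open Finset Pool.Agent.H16.GPS

namespace Pool.Agent.H10.FF

theorem unif_isPW (X : Type) [Fintype X] [Nonempty X] : IsPW (unif X) := by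
  unfold IsPW unif
  refine ⟨fun x => by positivity, ?_⟩
  rw [Finset.sum_const, Finset.card_univ, nsmul_eq_mul]
  have h : (Fintype.card X : ℝ) ≠ 0 := by
    have := Fintype.card_ne_zero (α := X)
    exact_mod_cast this
  field_simp

theorem La_add {κ : ℕ} {Γ H : Type} [AddCommGroup Γ] [AddCommGroup H]
    (τ : Fin κ → H →+ Γ) (j : Fin κ) (g h : Fin κ → H) :
    La τ j (g + h) = La τ j g + La τ j h := by
  unfold La
  rw [← Finset.sum_add_distrib]
  refine Finset.sum_congr rfl fun i _ => ?_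
  rw [Pi.add_apply, map_add, map_add]
  abel

theorem absorbF {κ : ℕ} {Γ H Y : Type} [Fintype Γ] [AddCommGroup Γ] [Fintype H] [AddCommGroup H]
    [Fintype Y] [AddCommGroup Y] (τ : Fin κ → H →+ Γ) (ψ : Fin κ → Fin κ → Y →+ H) (Ψ : Y →+ Γ)
    (hψ : ∀ j i, i ≠ j → ∀ y, τ j (ψ j i y) - τ i (ψ j i y) = Ψ y)
    (f : Γ → ℝ) (hf : f ∈ TestF τ) :
    ∃ v : Fin κ → Γ → (Fin κ → H) → (Fin κ → Y) → ℝ,
      (∀ i x h, Indep i (v i x h)) ∧ (∀ i x h y, 0 ≤ v i x h y ∧ v i x h y ≤ 1) ∧
      ∀ x y, f (x + ∑ c, Ψ (y c)) = ∑ h : Fin κ → H, (∏ i, unif H (h i)) * ∏ i, v i x h y := by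
  classical
  rcases hf with hf | ⟨j, u, hu1, hu2, hf⟩
  · refine ⟨fun _ _ _ _ => 1, fun _ _ _ _ _ => rfl, fun _ _ _ _ => ⟨zero_le_one, le_rfl⟩,
      fun x y => ?_⟩
    have h1 : ∑ h : Fin κ → H, (∏ i, unif H (h i)) * ∏ i : Fin κ, (1 : ℝ) = 1 := by
      simp only [Finset.prod_const_one, mul_one]
      exact sum_pi_weight (unif H) (unif_isPW H)
    rw [h1, hf]
  let sh : (Fin κ → Y) → Fin κ → H := fun y i => if i = j then 0 else ψ j i (y i)
  have hsh : ∀ y : Fin κ → Y, La τ j (sh y) + Ψ (y j) = ∑ c, Ψ (y c) := by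
    intro y
    unfold La
    rw [← Finset.add_sum_erase univ (fun i => τ j (sh y i) - τ i (sh y i)) (mem_univ j),
      ← Finset.add_sum_erase univ (fun c => Ψ (y c)) (mem_univ j), sub_self, zero_add, add_comm]
    congr 1
    refine Finset.sum_congr rfl fun i hi => ?_
    have hij : i ≠ j := Finset.ne_of_mem_erase hi
    simp only [sh, if_neg hij]
    exact hψ j i hij (y i)
  refine ⟨fun i x g y => if i = j then 1 else u i (x + Ψ (y j) - La τ j g) (g + sh y), ?_, ?_, ?_⟩
  · intro i x g y z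
    dsimp only
    by_cases hij : i = j
    · rw [if_pos hij, if_pos hij]
    · rw [if_neg hij, if_neg hij]
      have h1 : g + sh (Function.update y i z) =
          Function.update (g + sh y) i ((g + sh (Function.update y i z)) i) := by
        funext l
        by_cases hl' : l = i
        · subst hl'
          rw [Function.update_self]
        · rw [Function.update_of_ne hl']
          simp only [Pi.add_apply, sh]
          by_cases hlj : l = j
          · rw [if_pos hlj, if_pos hlj]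
          · rw [if_neg hlj, if_neg hlj, Function.update_of_ne hl']
      have h2 : Function.update y i z j = y j := Function.update_of_ne (Ne.symm hij) _ _
      rw [h1, h2]
      exact hu1 i _ _ _
  · intro i x g y
    dsimp only
    by_cases hij : i = j
    · rw [if_pos hij]
      exact ⟨zero_le_one, le_rfl⟩
    · rw [if_neg hij]
      exact hu2 i _ _
  · intro x y
    dsimp only
    rw [hf, ← Equiv.sum_comp (Equiv.addRight (sh y))]
    refine Finset.sum_congr rfl fun g _ => ?_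
    simp only [Equiv.coe_addRight]
    congr 1
    rw [← Finset.mul_prod_erase univ
      (fun i => if i = j then (1 : ℝ) else u i (x + Ψ (y j) - La τ j g) (g + sh y)) (mem_univ j),
      if_pos rfl, one_mul]
    refine Finset.prod_congr rfl fun i hi => ?_
    rw [if_neg (Finset.ne_of_mem_erase hi), La_add, ← hsh y]
    congr 1
    abel

theorem EE_shift {Γ Y : Type} [Fintype Γ] [AddCommGroup Γ] [Fintype Y] {κ : ℕ}
    (lam' : Y → ℝ) (hl' : IsPW lam') (F : Γ → ℝ) (t : (Fin κ → Y) → Γ) :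
    EE (unif Γ) lam' (fun x (y : Fin κ → Y) => F (x + t y)) = ∑ x, unif Γ x * F x := by
  unfold EE
  have h1 : ∑ p, unif Γ p * ∑ y : Fin κ → Y, (∏ i, lam' (y i)) * F (p + t y) =
      ∑ y : Fin κ → Y, (∏ i, lam' (y i)) * ∑ p, unif Γ p * F (p + t y) := by
    simp only [Finset.mul_sum]
    rw [Finset.sum_comm]
    refine Finset.sum_congr rfl fun y _ => Finset.sum_congr rfl fun p _ => by ring
  rw [h1]
  have h2 : ∀ y : Fin κ → Y, ∑ p, unif Γ p * F (p + t y) = ∑ p, unif Γ p * F p := by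
    intro y
    exact Equiv.sum_comp (Equiv.addRight (t y)) (fun p => unif Γ p * F p)
  rw [Finset.sum_congr rfl (fun y _ => by rw [h2 y]), ← Finset.sum_mul,
    sum_pi_weight (ι := Fin κ) lam' hl', one_mul]

theorem dual_productsF (κ : ℕ) (hκ : 1 ≤ κ) (ε : ℝ) (hε : 0 < ε) :
    ∃ η : ℝ, 0 < η ∧
    ∀ (Γ H Y : Type) [Fintype Γ] [AddCommGroup Γ] [Fintype H] [AddCommGroup H]
    [Fintype Y] [AddCommGroup Y] (τ : Fin κ → H →+ Γ) (ψ : Fin κ → Fin κ → Y →+ H) (Ψ : Y →+ Γ),
    (∀ j i, i ≠ j → ∀ y, τ j (ψ j i y) - τ i (ψ j i y) = Ψ y) →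
    ∀ ν : Γ → ℝ, LFy κ Ψ ν η → ∀ (K : ℕ) (φ : Fin K → Γ → ℝ), (∀ a, φ a ∈ TestF τ) →
    |∑ p, unif Γ p * ((ν p - 1) * ∏ a, φ a p)| ≤ ε := by
  refine ⟨(ε / 2) ^ (2 ^ κ), by positivity, ?_⟩
  intro Γ H Y _ _ _ _ _ _ τ ψ Ψ hψ ν hLF K' φ hφ
  classical
  generalize hη : (ε / 2) ^ (2 ^ κ) = η at hLF
  have hl : IsPW (unif H) := unif_isPW H
  have hl' : IsPW (unif Y) := unif_isPW Y
  have hunif : IsPW (unif Γ) := unif_isPW Γ
  have hA := fun a => absorbF τ ψ Ψ hψ (φ a) (hφ a)
  choose v hv1 hv2 hv3 using hA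
  let sh : (Fin κ → Y) → Γ := fun y => ∑ c, Ψ (y c)
  let G : Γ → (Fin κ → Y) → ℝ := fun p y => ν (p + sh y) - 1
  let X : Fin K' → Γ → (Fin κ → Y) → ℝ := fun a p y => φ a (p + sh y)
  let Z : Fin K' → Γ → (Fin κ → Y) → ℝ := fun a p y =>
    ∑ h : Fin κ → H, (∏ i, unif H (h i)) * ∏ i, v a i p h y
  -- step 1
  have s1 : ∑ p, unif Γ p * ((ν p - 1) * ∏ a, φ a p) =
      EE (unif Γ) (unif Y) (fun p y => G p y * ∏ a, X a p y) :=
    (EE_shift (unif Y) hl' (fun p => (ν p - 1) * ∏ a, φ a p) sh).symm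
  -- step 2
  have s2 : EE (unif Γ) (unif Y) (fun p y => G p y * ∏ a, X a p y) =
      EE (unif Γ) (unif Y) (fun p y => G p y * ∏ a, Z a p y) := by
    congr 1
    funext p y
    congr 1
    exact Finset.prod_congr rfl fun a _ => hv3 a p y
  -- step 3
  let WW : (Fin K' → Fin κ → H) → ℝ := fun E => ∏ a, ∏ i, unif H (E a i)
  let μ' : Γ × (Fin K' → Fin κ → H) → ℝ := fun q => unif Γ q.1 * WW q.2
  let c : Fin κ → Γ × (Fin K' → Fin κ → H) → (Fin κ → Y) → ℝ := fun i q y =>
    ∏ a, v a i q.1 (q.2 a) y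
  have hWWs : ∑ E, WW E = 1 := by
    have h1 := Finset.prod_univ_sum (fun _ : Fin K' => (univ : Finset (Fin κ → H)))
      (fun _ (h : Fin κ → H) => ∏ i, unif H (h i))
    rw [Fintype.piFinset_univ] at h1
    simp only [WW]
    rw [← h1]
    refine Finset.prod_eq_one fun a _ => ?_
    exact sum_pi_weight (ι := Fin κ) (unif H) hl
  have hWW0 : ∀ E, 0 ≤ WW E := fun E =>
    Finset.prod_nonneg fun a _ => Finset.prod_nonneg fun i _ => hl.1 _
  have hμ' : IsPW μ' := by
    refine ⟨fun q => mul_nonneg (hunif.1 _) (hWW0 _), ?_⟩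
    simp only [μ']
    rw [Fintype.sum_prod_type]
    simp only [← Finset.mul_sum, hWWs, mul_one]
    exact hunif.2
  have s3 : EE (unif Γ) (unif Y) (fun p y => G p y * ∏ a, Z a p y) =
      EE μ' (unif Y) (fun q (y : Fin κ → Y) =>
        G q.1 y * ∏ i ∈ (univ : Finset (Fin κ)), c i q y) := by
    unfold EE
    conv_rhs => rw [Fintype.sum_prod_type]
    refine Finset.sum_congr rfl fun p _ => ?_
    simp only [μ', Finset.mul_sum]
    rw [Finset.sum_comm]
    refine Finset.sum_congr rfl fun y _ => ?_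
    have h1 : ∏ a, Z a p y = ∑ E : Fin K' → Fin κ → H, WW E * ∏ i, c i (p, E) y := by
      have h2 := Finset.prod_univ_sum (fun _ : Fin K' => (univ : Finset (Fin κ → H)))
        (fun a (h : Fin κ → H) => (∏ i, unif H (h i)) * ∏ i, v a i p h y)
      rw [Fintype.piFinset_univ] at h2
      simp only [Z]
      rw [h2]
      refine Finset.sum_congr rfl fun E _ => ?_
      rw [Finset.prod_mul_distrib]
      simp only [WW, c]
      congr 1
      exact Finset.prod_comm
    rw [h1]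
    simp only [Finset.mul_sum]
    refine Finset.sum_congr rfl fun E _ => ?_
    ring
  -- step 4
  have s4 := bcs μ' (unif Y) hμ' hl' (univ : Finset (Fin κ)) (fun q y => G q.1 y) c
    (fun _ _ _ => 1)
    (fun i _ q y x => by
      simp only [c]
      exact Finset.prod_congr rfl fun a _ => hv1 a i _ _ y x)
    (fun i _ q y x => rfl)
    (fun i _ q y => by
      simp only [c]
      rw [Finset.abs_prod]
      refine Finset.prod_le_one (fun _ _ => abs_nonneg _) fun a _ => ?_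
      rw [abs_of_nonneg (hv2 a i _ _ _).1]
      exact (hv2 a i _ _ _).2)
    1 le_rfl
    (fun i _ J' _ => by
      simp only [Finset.prod_const_one]
      have h1 := EE2_mix μ' (unif Y) hl' (∅ : Finset (Fin κ)) (fun _ _ => (1 : ℝ))
      rw [h1, EE_one _ _ hμ' hl'])
  simp only [one_pow, one_mul, Finset.prod_const_one, mul_one] at s4
  rw [Finset.card_univ, Fintype.card_fin] at s4
  -- step 5
  have s5 : EE2 μ' (unif Y) (fun q (h h' : Fin κ → Y) =>
      ∏ ω ∈ (univ : Finset (Fin κ)).powerset, G q.1 (mix h h' ω)) =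
      EE2 (unif Γ) (unif Y) (fun p h h' =>
        ∏ ω ∈ (univ : Finset (Fin κ)).powerset,
          (ν (p + ∑ c : Fin κ, Ψ (mix h h' ω c)) - 1)) := by
    unfold EE2
    conv_lhs => rw [Fintype.sum_prod_type]
    refine Finset.sum_congr rfl fun p _ => ?_
    simp only [μ']
    rw [← Finset.sum_mul, ← Finset.mul_sum, hWWs, mul_one]
  -- step 6
  have s6 := du_expand (unif Γ) (unif Y)
    (fun (ω : Finset (Fin κ)) p h h' => ν (p + ∑ c : Fin κ, Ψ (mix h h' ω c)))
    η (fun S => hLF S)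
  rw [Fintype.card_fin] at s6
  rw [s1, s2, s3]
  have h1 : |EE μ' (unif Y) (fun q y => G q.1 y * ∏ i ∈ (univ : Finset (Fin κ)), c i q y)| ^ (2 ^ κ)
      ≤ ε ^ (2 ^ κ) := by
    have hev : Even (2 ^ κ) := (Nat.even_pow.2 ⟨even_two, by omega⟩)
    rw [hev.pow_abs]
    refine s4.trans ?_
    rw [s5]
    refine (le_abs_self _).trans (s6.trans ?_)
    rw [← hη, ← mul_pow]
    have h2 : 2 * (ε / 2) = ε := by ring
    rw [h2]
  exact le_of_pow_le_pow_left₀ (by positivity) (by positivity) h1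

end Pool.Agent.H10.FF
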