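import Pool.Agent.H10.FF.ADual
import Pool.Agent.H10.FF.ADense
import Pool.Agent.H16.GPS.Rel.Main

/-!
FF (MP_a1f59e_nt). Relative theorem for finite abelian groups.
-/

set_option autoImplicit false

open Finset Pool.Agent.H16.GPS

namespace Pool.Agent.H10.FF

private theorem La_upd {κ : ℕ} {Γ H : Type} [AddCommGroup Γ] [AddCommGroup H]
    (τ : Fin κ → H →+ Γ) (j : Fin κ) (h : Fin κ → H) (x : H) :
    La τ j (Function.update h j x) = La τ j h := by
  unfold La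
  refine Finset.sum_congr rfl fun i _ => ?_
  by_cases hi : i = j
  · subst hi
    simp
  · rw [Function.update_of_ne hi]

private theorem test_le {κ : ℕ} {Γ H : Type} [Fintype Γ] [AddCommGroup Γ] [Fintype H]
    [AddCommGroup H] (τ : Fin κ → H →+ Γ) (φ : Γ → ℝ) (hφ : φ ∈ TestF τ) (x : Γ) :
    |φ x| ≤ 1 := by
  have hl : IsPW (unif H) := unif_isPW H
  rcases hφ with h | ⟨j, u, _, hu, h⟩
  · rw [h]
    simp
  · rw [h x]
    have hw : ∀ h : Fin κ → H, 0 ≤ ∏ i, unif H (h i) :=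
      fun h => Finset.prod_nonneg fun i _ => hl.1 _
    have h1 : ∀ g : Fin κ → H, 0 ≤ ∏ i ∈ univ.erase j, u i (x - La τ j g) g :=
      fun g => Finset.prod_nonneg fun i _ => (hu _ _ _).1
    have h2 : ∀ g : Fin κ → H, ∏ i ∈ univ.erase j, u i (x - La τ j g) g ≤ 1 :=
      fun g => Finset.prod_le_one (fun i _ => (hu _ _ _).1) (fun i _ => (hu _ _ _).2)
    rw [abs_of_nonneg (Finset.sum_nonneg fun g _ => mul_nonneg (hw g) (h1 g))]
    calc ∑ g : Fin κ → H, (∏ i, unif H (g i)) * ∏ i ∈ univ.erase j, u i (x - La τ j g) g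
        ≤ ∑ g : Fin κ → H, (∏ i, unif H (g i)) * 1 :=
          Finset.sum_le_sum fun g _ => mul_le_mul_of_nonneg_left (h2 g) (hw g)
      _ = 1 := by
          simp only [mul_one]
          exact sum_pi_weight (unif H) hl

private theorem close_eq {κ : ℕ} {Γ H : Type} [Fintype Γ] [AddCommGroup Γ] [Fintype H]
    [AddCommGroup H] (τ : Fin κ → H →+ Γ) (f ft : Γ → ℝ) (j : Fin κ)
    (u : Fin κ → Γ → (Fin κ → H) → ℝ) :
    EE (unif Γ) (unif H) (fun p (h : Fin κ → H) =>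
      (f (p + La τ j h) - ft (p + La τ j h)) * ∏ i ∈ univ.erase j, u i p h) =
    ∑ p, unif Γ p * ((f p - ft p) * ∑ h : Fin κ → H, (∏ i, unif H (h i)) *
      ∏ i ∈ univ.erase j, u i (p - La τ j h) h) := by
  unfold EE unif
  simp only [Finset.mul_sum]
  rw [Finset.sum_comm]
  conv_rhs => rw [Finset.sum_comm]
  refine Finset.sum_congr rfl fun h _ => ?_
  rw [← Equiv.sum_comp (Equiv.subRight (La τ j h))]
  refine Finset.sum_congr rfl fun p _ => ?_
  simp only [Equiv.subRight_apply, sub_add_cancel]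
  ring

theorem rel_ff (κ : ℕ) (hκ : 2 ≤ κ) (δ : ℝ) (hδ : 0 < δ) :
    ∃ η : ℝ, 0 < η ∧ ∃ c : ℝ, 0 < c ∧
    ∀ (Γ H Y : Type) [Fintype Γ] [AddCommGroup Γ] [Fintype H] [AddCommGroup H]
    [Fintype Y] [AddCommGroup Y] (τ : Fin κ → H →+ Γ) (ψ : Fin κ → Fin κ → Y →+ H) (Ψ : Y →+ Γ),
    (∀ j i, i ≠ j → ∀ y, τ j (ψ j i y) - τ i (ψ j i y) = Ψ y) →
    ∀ ν f : Γ → ℝ, LFn τ ν η → LFy κ Ψ ν η → (∀ p, 0 ≤ f p ∧ f p ≤ ν p) →
    δ ≤ ∑ p, unif Γ p * f p → c ≤ cnt τ f := by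
  obtain ⟨c₁, hc, hdense⟩ := dense_lowerF κ (by omega) (δ / 2) (by linarith)
  obtain ⟨ε', hε', η₁, hη₁, _, hcount⟩ := count_all κ κ hκ (c₁ / 2) (by linarith)
  obtain ⟨K₀, η₂, hη₂, hdm⟩ := dense_model (min ε' (δ / 2)) (lt_min hε' (by linarith))
  obtain ⟨η₃, hη₃, hdual⟩ := dual_productsF κ (by omega) η₂ hη₂
  refine ⟨min η₁ η₃, lt_min hη₁ hη₃, c₁ / 2, by linarith, ?_⟩
  intro Γ H Y _ _ _ _ _ _ τ ψ Ψ hψ ν f hLF hLFd hf hfδ
  have hu : IsPW (unif Γ) := unif_isPW Γ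
  have hl : IsPW (unif H) := unif_isPW H
  have hν : ∀ p, 0 ≤ ν p := fun p => (hf p).1.trans (hf p).2
  have hLF1 : LFn τ ν η₁ := fun S hS => (hLF S hS).trans (min_le_left _ _)
  have hLF2 : LFy κ Ψ ν η₃ := fun S => (hLFd S).trans (min_le_right _ _)
  obtain ⟨ft, hft, hclose⟩ := hdm Γ (unif Γ) hu ν f hf (TestF τ)
    (fun φ hφ x => test_le τ φ hφ x)
    (fun K hK φ hφ => hdual Γ H Y τ ψ Ψ hψ ν hLF2 K φ hφ)
  have h1 : δ / 2 ≤ ∑ p, unif Γ p * ft p := by
    have h2 := (hclose (fun _ => 1) (Or.inl rfl)).trans (min_le_right _ _)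
    have h3 : ∑ x, unif Γ x * ((f x - ft x) * 1) =
        ∑ p, unif Γ p * f p - ∑ p, unif Γ p * ft p := by
      rw [← Finset.sum_sub_distrib]
      refine Finset.sum_congr rfl fun p _ => ?_
      ring
    rw [h3] at h2
    linarith [(abs_le.1 h2).2]
  have h4 := hdense Γ H τ ft hft h1
  have h5 := hcount Γ H (unif Γ) (unif H) hu hl
    (fun j p h => ν (p + La τ j h)) (fun j p h => f (p + La τ j h))
    (fun j p h => ft (p + La τ j h)) (fun j p h => hν _)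
    (fun j p h x => by simp only [La_upd]) (fun j p h x => by simp only [La_upd])
    (fun j p h x => by simp only [La_upd]) hLF1 univ (by simp)
    (fun j p h => by
      unfold Nh
      rw [if_pos (Finset.mem_univ j)]
      exact hf _) (fun j p h => hft _)
    (fun j u hu1 hu2 => by
      rw [close_eq τ f ft j u]
      exact (hclose _ (Or.inr ⟨j, u, hu1, hu2, fun p => rfl⟩)).trans (min_le_left _ _))
  have h6 : |LamF τ f - LamF τ ft| ≤ c₁ / 2 := h5
  rw [lam_eq (by omega), lam_eq (by omega)] at h6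
  linarith [(abs_le.1 h6).1]

end Pool.Agent.H10.FF
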