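import Pool.Agent.H10.FF.Sums

/-!
JOB FF-B6 (MP_a1f59e_nt). Abel summation and the three sums `Gam`, `YY`, `Gam'`.

PROOFS. For `g : ℕ → ℝ` antitone and nonnegative and `J ≤ R`:
`TS F w R J g = g J * TS F w R J 1 + ∑ j < J, (g j - g (j + 1)) * TS F w R j 1` (Abel: `PS F w R J` is the disjoint union of the
classes `dg t = j`, `g (dg t) = g J + ∑_{dg t ≤ j < J} (g j - g (j+1))`). Insert `SS_lower` (`j + 1`) resp. `SS_upper` (`w + j`):
`abel_lower`, `abel_upper` (`∑_{j<J} (g j - g (j+1)) (j+1) + g J (J+1) = ∑_{j ≤ J} g j`).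
Then with `g = bet α`, `bet α ^ 2`: comparison with integrals (or elementary telescoping):
`1/(1+αj) ≥ (1/α) (log (1+α(j+1)) - log (1+αj))` (`log (1+x) ≤ x`), `1/(1+αj) ≤ (1/α)(log (1+αj) - log (1+α(j-1)))` for `j ≥ 1`,
`1/(1+αj)² ≤ (1/α) (1/(1+α(j-1)) - 1/(1+αj))` for `j ≥ 1`, `1/(1+αj)² ≥ (1/α)(1/(1+αj) - 1/(1+α(j+1)))`.
With `a = α R`: `Gam_upper` needs `10 α w ≤ 1`: `(10/ω)(w + 1/α) ≤ 11/(ω α)`. `Gam_lower`: `(1/(ωα)) (1 - 1/(1+α(R+1))) ≥ 1/(2ωα)` if
`αR ≥ 1`. `YY_lower` with `J = R / 4` (`J + 1 ≥ R/4`). `Gamd_upper`: `d β(d)² ≤ β(d)/α`, `(10/ω)(w + (1/α) log (1+αR)) ≤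
(11/(ωα)) log (1 + αR)` if `10 α w ≤ log (1 + α R)` (it follows from `10 α w ≤ 1/2` and `αR ≥ 1`, `log 2 ≥ 1/2`). ~200 lines.
-/

namespace Pool.Agent.H10.FF

open Polynomial Finset
open scoped Classical

variable {F : Type} [Field F] [Fintype F]

/-- Abel summation -/
private theorem abelH_sum (m g : ℕ → ℝ) (J : ℕ) :
    ∑ d ∈ Finset.range (J + 1), g d * m d =
      g J * ∑ d ∈ Finset.range (J + 1), m d +
        ∑ j ∈ Finset.range J, (g j - g (j + 1)) * ∑ d ∈ Finset.range (j + 1), m d := by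
  induction J with
  | zero => simp
  | succ J ih =>
    rw [Finset.sum_range_succ, ih, Finset.sum_range_succ (fun d => m d) (J + 1),
      Finset.sum_range_succ (fun j => (g j - g (j + 1)) * ∑ d ∈ Finset.range (j + 1), m d) J]
    ring

private theorem abelH_le (m m' g : ℕ → ℝ) (J : ℕ) (hg : Antitone g) (hg0 : ∀ j, 0 ≤ g j)
    (h : ∀ j ≤ J, ∑ d ∈ Finset.range (j + 1), m d ≤ ∑ d ∈ Finset.range (j + 1), m' d) :
    ∑ d ∈ Finset.range (J + 1), g d * m d ≤ ∑ d ∈ Finset.range (J + 1), g d * m' d := by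
  rw [abelH_sum, abelH_sum]
  refine add_le_add (mul_le_mul_of_nonneg_left (h J le_rfl) (hg0 J)) ?_
  refine Finset.sum_le_sum fun j hj => ?_
  have hj' := Finset.mem_range.1 hj
  exact mul_le_mul_of_nonneg_left (h j hj'.le) (sub_nonneg.2 (hg (Nat.le_succ j)))

/-- mass of the sets of total degree `d` -/
private noncomputable def abelH_m (F : Type) [Field F] [Fintype F] (w R d : ℕ) : ℝ :=
  ∑ t ∈ (PR F w R).powerset.filter (fun t => dg t = d), ∏ P ∈ t, vP P

private theorem abelH_TS (w R J : ℕ) (g : ℕ → ℝ) :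
    TS F w R J g = ∑ d ∈ Finset.range (J + 1), g d * abelH_m F w R d := by
  induction J with
  | zero =>
    rw [Finset.sum_range_one, abelH_m, TS, Finset.mul_sum]
    have e : PS F w R 0 = (PR F w R).powerset.filter (fun t => dg t = 0) := by
      unfold PS
      refine Finset.filter_congr fun t _ => ?_
      omega
    rw [e]
    refine Finset.sum_congr rfl fun t ht => ?_
    rw [(Finset.mem_filter.1 ht).2]
  | succ J ih =>
    rw [Finset.sum_range_succ, ← ih, abelH_m, TS, TS, Finset.mul_sum]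
    have e : PS F w R (J + 1) =
        PS F w R J ∪ (PR F w R).powerset.filter (fun t => dg t = J + 1) := by
      unfold PS
      ext t
      simp only [Finset.mem_union, Finset.mem_filter]
      constructor
      · rintro ⟨h1, h2⟩
        rcases Nat.lt_or_ge (dg t) (J + 1) with h3 | h3
        · exact Or.inl ⟨h1, by omega⟩
        · exact Or.inr ⟨h1, by omega⟩
      · rintro (⟨h1, h2⟩ | ⟨h1, h2⟩)
        · exact ⟨h1, by omega⟩
        · exact ⟨h1, by omega⟩
    have hd : Disjoint (PS F w R J) ((PR F w R).powerset.filter (fun t => dg t = J + 1)) := by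
      rw [Finset.disjoint_left]
      intro t h1 h2
      unfold PS at h1
      rw [Finset.mem_filter] at h1 h2
      omega
    rw [e, Finset.sum_union hd]
    congr 1
    refine Finset.sum_congr rfl fun t ht => ?_
    rw [(Finset.mem_filter.1 ht).2]

private theorem abelH_M (w R j : ℕ) :
    ∑ d ∈ Finset.range (j + 1), abelH_m F w R d = TS F w R j (fun _ => 1) := by
  rw [abelH_TS]
  simp

private theorem abelH_mono (w R J : ℕ) (g g' : ℕ → ℝ) (h : ∀ d, g d ≤ g' d) :
    TS F w R J g ≤ TS F w R J g' := by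
  unfold TS
  refine Finset.sum_le_sum fun t ht => ?_
  refine mul_le_mul_of_nonneg_right (h _) (Finset.prod_nonneg fun P hP => ?_)
  unfold PS at ht
  rw [Finset.mem_filter, Finset.mem_powerset] at ht
  exact (vP_pos (ht.1 hP)).le

private theorem abelH_smul (w R J : ℕ) (c : ℝ) (g : ℕ → ℝ) :
    TS F w R J (fun d => c * g d) = c * TS F w R J g := by
  unfold TS
  rw [Finset.mul_sum]
  refine Finset.sum_congr rfl fun t _ => ?_
  ring

private theorem abelH_den {α : ℝ} (hα : 0 < α) (d : ℕ) : 1 ≤ 1 + α * (d : ℝ) := by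
  have : 0 ≤ α * (d : ℝ) := mul_nonneg hα.le (Nat.cast_nonneg d)
  linarith

private theorem abelH_bet_nonneg {α : ℝ} (hα : 0 < α) (d : ℕ) : 0 ≤ bet α d := by
  unfold bet
  have := abelH_den hα d
  exact one_div_nonneg.2 (by linarith)

private theorem abelH_bet_anti {α : ℝ} (hα : 0 < α) : Antitone (bet α) := by
  refine antitone_nat_of_succ_le fun n => ?_
  unfold bet
  have := abelH_den hα n
  refine one_div_le_one_div_of_le (by linarith) ?_
  push_cast
  nlinarith

private theorem abelH_bet_sq_anti {α : ℝ} (hα : 0 < α) : Antitone (fun d => bet α d ^ 2) := by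
  intro a b hab
  exact pow_le_pow_left₀ (abelH_bet_nonneg hα b) (abelH_bet_anti hα hab) 2

private theorem abelH_bet_zero (α : ℝ) : bet α 0 = 1 := by
  unfold bet
  simp

/-- `bet j - bet (j + 1) = α bet j bet (j + 1)` -/
private theorem abelH_bet_sub {α : ℝ} (hα : 0 < α) (j : ℕ) :
    bet α j - bet α (j + 1) = α * (bet α j * bet α (j + 1)) := by
  unfold bet
  have h1 := abelH_den hα j
  have h2 := abelH_den hα (j + 1)
  have h3 : (1 + α * (j : ℝ)) ≠ 0 := by linarith
  have h4 : (1 + α * ((j + 1 : ℕ) : ℝ)) ≠ 0 := by linarith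
  field_simp
  push_cast
  ring

private theorem abelH_log_le {α : ℝ} (hα : 0 < α) (j : ℕ) :
    Real.log (1 + α * ((j + 1 : ℕ) : ℝ)) - Real.log (1 + α * (j : ℝ)) ≤ α * bet α j := by
  have h1 := abelH_den hα j
  have h2 := abelH_den hα (j + 1)
  rw [← Real.log_div (by linarith) (by linarith)]
  refine (Real.log_le_sub_one_of_pos (div_pos (by linarith) (by linarith))).trans (le_of_eq ?_)
  unfold bet
  have h3 : (1 + α * (j : ℝ)) ≠ 0 := by linarith
  field_simp
  push_cast
  ring

private theorem abelH_log_ge {α : ℝ} (hα : 0 < α) (j : ℕ) :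
    α * bet α (j + 1) ≤ Real.log (1 + α * ((j + 1 : ℕ) : ℝ)) - Real.log (1 + α * (j : ℝ)) := by
  have h1 := abelH_den hα j
  have h2 := abelH_den hα (j + 1)
  rw [← neg_le_neg_iff, neg_sub, ← Real.log_div (by linarith) (by linarith)]
  refine (Real.log_le_sub_one_of_pos (div_pos (by linarith) (by linarith))).trans (le_of_eq ?_)
  unfold bet
  have h3 : (1 + α * ((j + 1 : ℕ) : ℝ)) ≠ 0 := by linarith
  field_simp
  push_cast
  ring

private theorem abelH_sq_upper {α : ℝ} (hα : 0 < α) (J : ℕ) :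
    α * ∑ j ∈ Finset.Icc 1 J, bet α j ^ 2 ≤ 1 - bet α J := by
  induction J with
  | zero => simp [abelH_bet_zero]
  | succ J ih =>
    rw [Finset.sum_Icc_succ_top (by omega), mul_add]
    have h1 := abelH_bet_sub hα J
    have h2 := abelH_bet_anti hα (Nat.le_succ J)
    have h3 := abelH_bet_nonneg hα (J + 1)
    have h4 : bet α (J + 1) ^ 2 ≤ bet α J * bet α (J + 1) := by
      rw [sq]
      exact mul_le_mul_of_nonneg_right h2 h3
    have h5 := mul_le_mul_of_nonneg_left h4 hα.le
    linarith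

private theorem abelH_sq_lower {α : ℝ} (hα : 0 < α) (J : ℕ) :
    1 - bet α (J + 1) ≤ α * ∑ j ∈ Finset.range (J + 1), bet α j ^ 2 := by
  induction J with
  | zero =>
    have h1 := abelH_bet_sub hα 0
    rw [Finset.sum_range_one, abelH_bet_zero] at *
    have h2 := abelH_bet_anti hα (Nat.zero_le 1)
    rw [abelH_bet_zero] at h2
    rw [h1]
    refine mul_le_mul_of_nonneg_left ?_ hα.le
    linarith
  | succ J ih =>
    rw [Finset.sum_range_succ, mul_add]
    have h1 := abelH_bet_sub hα (J + 1)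
    have h2 := abelH_bet_anti hα (Nat.le_succ (J + 1))
    have h3 := abelH_bet_nonneg hα (J + 1)
    have h4 : bet α (J + 1) * bet α (J + 1 + 1) ≤ bet α (J + 1) ^ 2 := by
      rw [sq]
      exact mul_le_mul_of_nonneg_left h2 h3
    have h5 := mul_le_mul_of_nonneg_left h4 hα.le
    linarith

private theorem abelH_upper {α : ℝ} (hα : 0 < α) (J : ℕ) :
    α * ∑ j ∈ Finset.Icc 1 J, bet α j ≤ Real.log (1 + α * J) := by
  induction J with
  | zero => simp
  | succ J ih =>
    rw [Finset.sum_Icc_succ_top (by omega), mul_add]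
    have := abelH_log_ge hα J
    linarith

private theorem abelH_lower {α : ℝ} (hα : 0 < α) (J : ℕ) :
    Real.log (1 + α * ((J + 1 : ℕ) : ℝ)) ≤ α * ∑ j ∈ Finset.range (J + 1), bet α j := by
  induction J with
  | zero =>
    have := abelH_log_le hα 0
    simpa using this
  | succ J ih =>
    rw [Finset.sum_range_succ, mul_add]
    have := abelH_log_le hα (J + 1)
    linarith

theorem abel_lower (w R J : ℕ) (hJ : J ≤ R) (g : ℕ → ℝ) (hg : Antitone g) (hg0 : ∀ j, 0 ≤ g j) :
    (1 / om F w) * ∑ j ∈ Finset.range (J + 1), g j ≤ TS F w R J g := by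
  have hom := om_pos (F := F) w
  rw [abelH_TS, Finset.mul_sum]
  have h := abelH_le (fun _ => 1 / om F w) (abelH_m F w R) g J hg hg0 (fun j hj => by
    rw [abelH_M, Finset.sum_const, Finset.card_range, nsmul_eq_mul]
    have := SS_lower (F := F) w R j (hj.trans hJ)
    push_cast
    rw [mul_one_div]
    exact this)
  refine le_trans (le_of_eq ?_) h
  refine Finset.sum_congr rfl fun j _ => ?_
  ring

theorem abel_upper (w R J : ℕ) (hw : 1 ≤ w) (hJ : J ≤ R) (g : ℕ → ℝ) (hg : Antitone g)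
    (hg0 : ∀ j, 0 ≤ g j) :
    TS F w R J g ≤ (10 / om F w) * (w * g 0 + ∑ j ∈ Finset.Icc 1 J, g j) := by
  have hom := om_pos (F := F) w
  rw [abelH_TS]
  have hsum : ∀ (f : ℕ → ℝ) (j : ℕ), ∑ d ∈ Finset.range (j + 1),
      f d * ((10 / om F w) * (if d = 0 then (w : ℝ) else 1)) =
        (10 / om F w) * (w * f 0 + ∑ d ∈ Finset.Icc 1 j, f d) := by
    intro f j
    induction j with
    | zero => simp; ring
    | succ j ih =>
      rw [Finset.sum_range_succ, ih, Finset.sum_Icc_succ_top (by omega), if_neg (by omega)]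
      ring
  rw [← hsum g J]
  refine abelH_le (abelH_m F w R) (fun d => (10 / om F w) * (if d = 0 then (w : ℝ) else 1))
    g J hg hg0 (fun j hj => ?_)
  rw [abelH_M]
  have h1 := hsum (fun _ => 1) j
  simp only [one_mul, mul_one, Finset.sum_const, Nat.card_Icc, Nat.add_sub_cancel,
    nsmul_eq_mul] at h1
  rw [h1]
  refine (SS_upper (F := F) w R j hw (hj.trans hJ)).trans (le_of_eq ?_)
  ring

theorem Gam_upper (w R : ℕ) (hw : 1 ≤ w) (α : ℝ) (hα : 0 < α) (h : 10 * α * w ≤ 1) :
    Gam F w R α ≤ 11 / (om F w * α) := by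
  have hom := om_pos (F := F) w
  have h1 := abel_upper (F := F) w R R hw le_rfl (fun d => bet α d ^ 2) (abelH_bet_sq_anti hα)
    (fun j => sq_nonneg _)
  have h2 := abelH_sq_upper hα R
  have h3 := abelH_bet_nonneg hα R
  unfold Gam
  refine h1.trans ?_
  rw [abelH_bet_zero, one_pow, mul_one, div_mul_eq_mul_div, div_le_div_iff₀ hom (by positivity)]
  have h4 : α * (∑ j ∈ Finset.Icc 1 R, bet α j ^ 2) ≤ 1 := by linarith
  have h5 : 10 * (w + ∑ j ∈ Finset.Icc 1 R, bet α j ^ 2) * α ≤ 11 := by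
    have e : 10 * (w + ∑ j ∈ Finset.Icc 1 R, bet α j ^ 2) * α =
        10 * α * w + 10 * (α * (∑ j ∈ Finset.Icc 1 R, bet α j ^ 2)) := by ring
    rw [e]
    linarith
  calc 10 * (w + ∑ j ∈ Finset.Icc 1 R, bet α j ^ 2) * (om F w * α) =
        (10 * (w + ∑ j ∈ Finset.Icc 1 R, bet α j ^ 2) * α) * om F w := by ring
    _ ≤ 11 * om F w := mul_le_mul_of_nonneg_right h5 hom.le

theorem Gam_lower (w R : ℕ) (α : ℝ) (hα : 0 < α) (h : 1 ≤ α * R) :
    1 / (2 * om F w * α) ≤ Gam F w R α := by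
  have hom := om_pos (F := F) w
  have h1 := abel_lower (F := F) w R R le_rfl (fun d => bet α d ^ 2) (abelH_bet_sq_anti hα)
    (fun j => sq_nonneg _)
  have h2 := abelH_sq_lower hα R
  unfold Gam
  refine le_trans ?_ h1
  have h3 : bet α (R + 1) ≤ 1 / 2 := by
    unfold bet
    refine one_div_le_one_div_of_le (by norm_num) ?_
    push_cast
    nlinarith
  have h4 : 1 / 2 ≤ α * ∑ j ∈ Finset.range (R + 1), bet α j ^ 2 := by linarith
  rw [div_mul_eq_mul_div, one_mul, div_le_div_iff₀ (by positivity) hom]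
  calc 1 * om F w = (1 / 2) * (2 * om F w) := by ring
    _ ≤ (α * ∑ j ∈ Finset.range (R + 1), bet α j ^ 2) * (2 * om F w) :=
        mul_le_mul_of_nonneg_right h4 (by positivity)
    _ = (∑ j ∈ Finset.range (R + 1), bet α j ^ 2) * (2 * om F w * α) := by ring

theorem YY_lower (w R : ℕ) (α : ℝ) (hα : 0 < α) :
    Real.log (1 + α * R / 4) / (om F w * α) ≤ TS F w R (R / 4) (bet α) := by
  have hom := om_pos (F := F) w
  have h1 := abel_lower (F := F) w R (R / 4) (Nat.div_le_self R 4) (bet α) (abelH_bet_anti hα)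
    (abelH_bet_nonneg hα)
  have h2 := abelH_lower hα (R / 4)
  refine le_trans ?_ h1
  have h3 : Real.log (1 + α * R / 4) ≤ Real.log (1 + α * ((R / 4 + 1 : ℕ) : ℝ)) := by
    have h4 : (R : ℝ) / 4 ≤ ((R / 4 + 1 : ℕ) : ℝ) := by
      rw [div_le_iff₀ (by norm_num)]
      have : R ≤ (R / 4 + 1) * 4 := by omega
      exact_mod_cast this
    have h5 : 0 ≤ α * R / 4 := by positivity
    refine Real.log_le_log (by linarith) ?_
    have h6 := mul_le_mul_of_nonneg_left h4 hα.le
    have e : α * (R : ℝ) / 4 = α * ((R : ℝ) / 4) := by ring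
    rw [e]
    linarith
  rw [div_mul_eq_mul_div, one_mul, div_le_div_iff₀ (by positivity) hom]
  calc Real.log (1 + α * R / 4) * om F w ≤
        (α * ∑ j ∈ Finset.range (R / 4 + 1), bet α j) * om F w :=
        mul_le_mul_of_nonneg_right (h3.trans h2) hom.le
    _ = (∑ j ∈ Finset.range (R / 4 + 1), bet α j) * (om F w * α) := by ring

theorem Gamd_upper (w R : ℕ) (hw : 1 ≤ w) (α : ℝ) (hα : 0 < α) (h : 20 * α * w ≤ 1)
    (h1 : 1 ≤ α * R) :
    TS F w R R (fun d => d * bet α d ^ 2) ≤ 11 * Real.log (1 + α * R) / (om F w * α ^ 2) := by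
  have hom := om_pos (F := F) w
  have h2 : ∀ d : ℕ, (d : ℝ) * bet α d ^ 2 ≤ (1 / α) * bet α d := by
    intro d
    have h3 := abelH_bet_nonneg hα d
    have h4 : α * (d : ℝ) * bet α d ≤ 1 := by
      unfold bet
      have := abelH_den hα d
      rw [mul_one_div, div_le_one (by linarith)]
      linarith
    rw [one_div, inv_mul_eq_div, le_div_iff₀ hα]
    calc (d : ℝ) * bet α d ^ 2 * α = (α * (d : ℝ) * bet α d) * bet α d := by ring
      _ ≤ 1 * bet α d := mul_le_mul_of_nonneg_right h4 h3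
      _ = bet α d := one_mul _
  have h5 := abelH_mono (F := F) w R R _ _ h2
  rw [abelH_smul] at h5
  refine h5.trans ?_
  have h6 := abel_upper (F := F) w R R hw le_rfl (bet α) (abelH_bet_anti hα)
    (abelH_bet_nonneg hα)
  have h7 := abelH_upper hα R
  have h8 : 1 / 2 ≤ Real.log (1 + α * R) := by
    have h9 : Real.log 2 ≤ Real.log (1 + α * R) := Real.log_le_log (by norm_num) (by linarith)
    have := Real.log_two_gt_d9
    linarith
  rw [abelH_bet_zero, mul_one] at h6
  set T := TS F w R R (bet α) with hT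
  set L := Real.log (1 + α * R) with hL
  set S := ∑ j ∈ Finset.Icc 1 R, bet α j with hS
  have h10 : T * (om F w * α) ≤ 11 * L := by
    have h11 : T * om F w ≤ 10 * (w + S) := by
      have := mul_le_mul_of_nonneg_right h6 hom.le
      have e : 10 / om F w * (w + S) * om F w = 10 * (w + S) := by
        field_simp
      rwa [e] at this
    calc T * (om F w * α) = (T * om F w) * α := by ring
      _ ≤ (10 * (w + S)) * α := mul_le_mul_of_nonneg_right h11 hα.le
      _ = 10 * α * w + 10 * (α * S) := by ring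
      _ ≤ 11 * L := by linarith
  rw [one_div, inv_mul_eq_div, div_le_div_iff₀ hα (by positivity)]
  calc T * (om F w * α ^ 2) = (T * (om F w * α)) * α := by ring
    _ ≤ 11 * L * α := mul_le_mul_of_nonneg_right h10 hα.le

end Pool.Agent.H10.FF
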