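import Pool.Agent.H10.FF.Defs
import Pool.Agent.H81.FF.Fin

/-! # Block D, final statement: distribution of the irreducibles of degree `M` at level `1/4` -/

namespace Pool.Agent.H10.FF

open Polynomial Finset
open scoped Classical

theorem bv (F : Type) [Field F] [Fintype F] (C2 A : ℝ) (w M0 : ℕ) (hC2 : 1 ≤ C2)
    (hw : C2 ^ 10 ≤ (Fintype.card F : ℝ) ^ w) :
    ∃ M : ℕ, M0 ≤ M ∧ ∀ c : Finset F[X] → F[X] → F[X],
      (∀ D, ∀ P ∈ PR F 0 M, ¬ P ∣ c D P) →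
      ∑ D ∈ (PR F w M).powerset.filter (fun D => 4 * dg D ≤ M),
        C2 ^ D.card * |((((irrs F M).filter
            (fun n => ∀ P ∈ PR F 0 w ∪ D, P ∣ n - c D P)).card : ℕ) : ℝ)
          - ((irrs F M).card : ℝ) / phi (PR F 0 w ∪ D)|
        ≤ (Fintype.card F : ℝ) ^ M / (M : ℝ) ^ A :=
  Pool.Agent.H81.FF.bv_main F C2 A w M0 hC2 hw

end Pool.Agent.H10.FF
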