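import Pool.Agent.H10.FF.Core

/-!
JOB FF-B8 (MP_a1f59e_nt). Coloured sets and tuples of sets (pure combinatorics, no polynomials).

`c : ι → Option K` is a coloured subset of `ι`; `cls c i` its colour class. A tuple of subsets is `t : K → Finset ι`.

PROOFS. `col_le_tuple`: `c ↦ cls c` is injective and the two terms agree: `∏_P (c P = some i ↦ f i P) = ∏_i ∏_{P ∈ cls c i} f i P`.
`tuple_prod`: `Finset.prod_univ_sum`, `Fintype.piFinset_univ`.
`tuple_le_col`: apply `core_le` with `Ω = Finset K × Bool`, `o0 = (∅, false)`, `M0 = {o0} ∪ {({i}, false)}`,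
`e P (J, false) = v P ^ #J` for `#J ≥ 2` or `J = ∅`, `e P ({i}, false) = v' P`, `e P ({i}, true) = v P - v' P`, `e P (J, true) = 0`
otherwise (`#J ≠ 1`), `τ P = 3 v P ^ 2` (`v P ^ #J ≤ v P ^ 2`), `wt c = Wt c = Wt (i ↦ {P | i ∈ (c P).1})` (antitone: `wt c ≤ Wt (res c)`).
`∑_c wt c ∏ e P (c P)`: group by the tuple `t i = {P | i ∈ (c P).1}` (the sets `J_P = {i | P ∈ t i}` and the booleans are free):
`∑_b e P (J, b) = v P ^ #J` for every `J`, so the sum is `∑_t Wt t ∏_P v P ^ #J_P = ∑_t Wt t ∏_i ∏_{P ∈ t i} v P`. The main patterns are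
the coloured sets. `card Ω * τ = 2 · 2 ^ card K · 3 v² `. ~180 lines.
-/

namespace Pool.Agent.H10.FF

open Finset

section

variable {ι K : Type} [Fintype ι] [DecidableEq ι] [Fintype K] [DecidableEq K]

/-- colour class -/
def cls (c : ι → Option K) (i : K) : Finset ι := univ.filter (fun P => c P = some i)

private theorem col_cls_inj : Function.Injective (cls : (ι → Option K) → (K → Finset ι)) := by
  intro c c' h
  funext P
  have h1 : ∀ i : K, c P = some i ↔ c' P = some i := by
    intro i
    have h2 := congrFun h i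
    have h3 : P ∈ cls c i ↔ P ∈ cls c' i := by rw [h2]
    simpa [cls] using h3
  exact Option.ext fun i => by
    simpa [Option.mem_def] using h1 i

private theorem col_prod (c : ι → Option K) (f : K → ι → ℝ) :
    ∏ P, (c P).elim 1 (fun i => f i P) = ∏ i, ∏ P ∈ cls c i, f i P := by
  have h1 : ∀ i : K, ∏ P ∈ cls c i, f i P = ∏ P, (if c P = some i then f i P else 1) := by
    intro i
    rw [cls, Finset.prod_filter]
  simp_rw [h1]
  rw [Finset.prod_comm]
  refine Finset.prod_congr rfl fun P _ => ?_
  rcases hc : c P with _ | j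
  · simp
  · simp only [Option.elim_some, Option.some.injEq]
    rw [Finset.prod_ite_eq]
    simp

theorem col_le_tuple (Wt : (K → Finset ι) → ℝ) (hW : ∀ t, 0 ≤ Wt t) (f : K → ι → ℝ)
    (hf : ∀ i P, 0 ≤ f i P) :
    ∑ c : ι → Option K, Wt (cls c) * ∏ P, (c P).elim 1 (fun i => f i P) ≤
      ∑ t : K → Finset ι, Wt t * ∏ i, ∏ P ∈ t i, f i P := by
  classical
  have h1 : ∑ c : ι → Option K, Wt (cls c) * ∏ P, (c P).elim 1 (fun i => f i P)
      = ∑ t ∈ (univ : Finset (ι → Option K)).image cls, Wt t * ∏ i, ∏ P ∈ t i, f i P := by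
    rw [Finset.sum_image (fun a _ b _ hab => col_cls_inj hab)]
    exact Finset.sum_congr rfl fun c _ => by rw [col_prod]
  rw [h1]
  refine Finset.sum_le_sum_of_subset_of_nonneg (Finset.subset_univ _) fun t _ _ => ?_
  exact mul_nonneg (hW t) (Finset.prod_nonneg fun i _ => Finset.prod_nonneg fun P _ => hf i P)

theorem tuple_prod (g : K → Finset ι → ℝ) :
    ∑ t : K → Finset ι, ∏ i, g i (t i) = ∏ i, ∑ s : Finset ι, g i s := by
  rw [Finset.prod_univ_sum, Fintype.piFinset_univ]

/-- local pattern of a colour -/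
private def col_emb (o : Option K) : Finset K × Bool := (o.elim ∅ (fun i => {i}), false)

omit [Fintype K] [DecidableEq K] in
private theorem col_emb_inj : Function.Injective (col_emb : Option K → Finset K × Bool) := by
  intro a b h
  rcases a with _ | a <;> rcases b with _ | b
  · rfl
  · exact absurd (congrArg Prod.fst h).symm (Finset.singleton_ne_empty b)
  · exact absurd (congrArg Prod.fst h) (Finset.singleton_ne_empty a)
  · have h1 : ({a} : Finset K) = {b} := congrArg Prod.fst h
    rw [Finset.singleton_injective h1]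

/-- local weights -/
private def col_e (v v' : ι → ℝ) (P : ι) (ω : Finset K × Bool) : ℝ :=
  if ω.2 then (if ω.1.card = 1 then v P - v' P else 0)
  else (if ω.1.card = 1 then v' P else v P ^ ω.1.card)

omit [Fintype ι] [DecidableEq ι] [Fintype K] [DecidableEq K] in
private theorem col_e_add (v v' : ι → ℝ) (P : ι) (J : Finset K) :
    ∑ b : Bool, col_e v v' P (J, b) = v P ^ J.card := by
  rw [Fintype.sum_bool]
  by_cases h : J.card = 1
  · simp [col_e, h]
  · simp [col_e, h]

/-- tuple of a family of subsets of `K` -/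
private def col_tr (J : ι → Finset K) : K → Finset ι := fun i => univ.filter (fun P => i ∈ J P)

private def col_trEquiv : (ι → Finset K) ≃ (K → Finset ι) where
  toFun := col_tr
  invFun t := fun P => univ.filter (fun i => P ∈ t i)
  left_inv J := by
    funext P; ext i; simp [col_tr]
  right_inv t := by
    funext i; ext P; simp [col_tr]

private theorem col_tr_prod (v : ι → ℝ) (J : ι → Finset K) :
    ∏ P, v P ^ (J P).card = ∏ i, ∏ P ∈ col_tr J i, v P := by
  have h1 : ∀ i : K, ∏ P ∈ col_tr J i, v P = ∏ P, (if i ∈ J P then v P else 1) := by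
    intro i
    rw [col_tr, Finset.prod_filter]
  simp_rw [h1]
  rw [Finset.prod_comm]
  refine Finset.prod_congr rfl fun P _ => ?_
  rw [Finset.prod_ite_mem, Finset.univ_inter, Finset.prod_const]

private theorem col_lhs (Wt : (K → Finset ι) → ℝ) (v v' : ι → ℝ) :
    ∑ c : ι → Finset K × Bool, Wt (col_tr fun P => (c P).1) * ∏ P, col_e v v' P (c P) =
      ∑ t : K → Finset ι, Wt t * ∏ i, ∏ P ∈ t i, v P := by
  classical
  rw [← (Equiv.arrowProdEquivProdArrow ι (fun _ => Finset K) (fun _ => Bool)).symm.sum_comp,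
    Fintype.sum_prod_type, ← (col_trEquiv (ι := ι) (K := K)).sum_comp]
  refine Finset.sum_congr rfl fun J _ => ?_
  have h1 : ∀ b : ι → Bool, Wt (col_tr fun P =>
      (((Equiv.arrowProdEquivProdArrow ι (fun _ => Finset K) (fun _ => Bool)).symm (J, b)) P).1) *
      ∏ P, col_e v v' P ((Equiv.arrowProdEquivProdArrow ι (fun _ => Finset K) (fun _ => Bool)).symm (J, b) P)
      = Wt (col_tr J) * ∏ P, col_e v v' P (J P, b P) := fun b => rfl
  simp_rw [h1]
  rw [← Finset.mul_sum]
  have h2 : ∑ b : ι → Bool, ∏ P, col_e v v' P (J P, b P) = ∏ P, ∑ b : Bool, col_e v v' P (J P, b) := by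
    rw [Finset.prod_univ_sum, Fintype.piFinset_univ]
  rw [h2]
  simp_rw [col_e_add]
  rw [col_tr_prod]
  rfl

theorem tuple_le_col (Wt : (K → Finset ι) → ℝ) (hW : ∀ t, 0 ≤ Wt t)
    (hWm : ∀ t t' : K → Finset ι, (∀ i, t i ⊆ t' i) → Wt t' ≤ Wt t)
    (v v' : ι → ℝ) (hv0 : ∀ P, 0 ≤ v P) (hv1 : ∀ P, v P ≤ 1) (hv'0 : ∀ P, 0 ≤ v' P)
    (hv' : ∀ P, v' P ≤ v P) (hvv : ∀ P, v P - v' P ≤ 3 * v P ^ 2) :
    ∑ t : K → Finset ι, Wt t * ∏ i, ∏ P ∈ t i, v P ≤
      (∏ P, (1 + (6 * 2 ^ Fintype.card K : ℝ) * v P ^ 2)) *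
        ∑ c : ι → Option K, Wt (cls c) * ∏ P, (c P).elim 1 (fun _ => v' P) := by
  classical
  set M0 : Finset (Finset K × Bool) := univ.image col_emb with hM0
  have ho : ((∅, false) : Finset K × Bool) ∈ M0 :=
    Finset.mem_image.mpr ⟨none, Finset.mem_univ _, rfl⟩
  have hmem : ∀ o : Option K, col_emb o ∈ M0 := fun o =>
    Finset.mem_image.mpr ⟨o, Finset.mem_univ _, rfl⟩
  have key := core_le (ι := ι) (Ω := Finset K × Bool) (∅, false) M0 ho (col_e v v')
    (fun P => by simp [col_e]) (fun P => 3 * v P ^ 2) (fun P => by positivity)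
    (by
      intro P ω hω
      rcases ω with ⟨J, b⟩
      have hv2 : 0 ≤ 3 * v P ^ 2 := by positivity
      rcases b with _ | _
      · have hJ0 : J.card ≠ 0 := by
          intro h0
          rw [Finset.card_eq_zero] at h0
          apply hω
          rw [h0]; exact ho
        have hJ1 : J.card ≠ 1 := by
          intro h1
          obtain ⟨i, hi⟩ := Finset.card_eq_one.mp h1
          apply hω
          rw [hi]; exact hmem (some i)
        have hJ2 : 2 ≤ J.card := by omega
        have h1 : col_e v v' P (J, false) = v P ^ J.card := by simp [col_e, hJ1]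
        rw [h1, abs_of_nonneg (pow_nonneg (hv0 P) _)]
        have h2 : v P ^ J.card ≤ v P ^ 2 := pow_le_pow_of_le_one (hv0 P) (hv1 P) hJ2
        have h3 : 0 ≤ v P ^ 2 := by positivity
        show v P ^ J.card ≤ 3 * v P ^ 2
        linarith
      · show |col_e v v' P (J, true)| ≤ 3 * v P ^ 2
        by_cases h1 : J.card = 1
        · have h2 : col_e v v' P (J, true) = v P - v' P := by simp [col_e, h1]
          rw [h2, abs_of_nonneg (by linarith [hv' P])]
          exact hvv P
        · have h2 : col_e v v' P (J, true) = 0 := by simp [col_e, h1]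
          rw [h2, abs_zero]; exact hv2)
    (fun c => Wt (col_tr fun P => (c P).1)) (fun c => Wt (col_tr fun P => (c P).1))
    (by
      intro c
      show |Wt (col_tr fun P => (c P).1)| ≤ Wt (col_tr fun P => (res (∅, false) M0 c P).1)
      rw [abs_of_nonneg (hW _)]
      apply hWm
      intro i P hP
      simp only [col_tr, Finset.mem_filter, Finset.mem_univ, true_and, res] at hP ⊢
      split_ifs at hP with hc
      · exact hP
      · simp at hP)
    (fun c => hW _)
  rw [col_lhs] at key
  have hcard : (Fintype.card (Finset K × Bool) : ℝ) = 2 ^ Fintype.card K * 2 := by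
    rw [Fintype.card_prod, Fintype.card_finset, Fintype.card_bool]; push_cast; ring
  have hprod : ∏ P, (1 + (Fintype.card (Finset K × Bool) : ℝ) * (3 * v P ^ 2)) =
      ∏ P, (1 + (6 * 2 ^ Fintype.card K : ℝ) * v P ^ 2) := by
    refine Finset.prod_congr rfl fun P _ => ?_
    rw [hcard]; ring
  rw [hprod] at key
  have hmain : ∑ c ∈ univ.filter (fun c : ι → Finset K × Bool => ∀ P, c P ∈ M0),
      Wt (col_tr fun P => (c P).1) * ∏ P, |col_e v v' P (c P)| =
      ∑ c : ι → Option K, Wt (cls c) * ∏ P, (c P).elim 1 (fun _ => v' P) := by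
    symm
    refine Finset.sum_nbij (fun c P => col_emb (c P)) ?_ ?_ ?_ ?_
    · intro c _
      simp only [Finset.mem_filter, Finset.mem_univ, true_and]
      exact fun P => hmem _
    · intro c _ c' _ h
      funext P
      exact col_emb_inj (congrFun h P)
    · intro c hc
      have hc' : ∀ P, c P ∈ M0 := by simpa using hc
      have h1 : ∀ P, ∃ o : Option K, col_emb o = c P := by
        intro P
        obtain ⟨o, -, ho'⟩ := Finset.mem_image.mp (hc' P)
        exact ⟨o, ho'⟩
      choose o ho' using h1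
      exact ⟨o, Finset.mem_coe.mpr (Finset.mem_univ _), funext ho'⟩
    · intro c _
      congr 1
      · congr 1
        funext i
        ext P
        simp only [cls, col_tr, Finset.mem_filter, Finset.mem_univ, true_and]
        rcases c P with _ | j
        · simp [col_emb]
        · simp only [col_emb, Option.elim_some, Finset.mem_singleton, Option.some.injEq]
          exact eq_comm
      · refine Finset.prod_congr rfl fun P _ => ?_
        show (c P).elim 1 (fun _ => v' P) = |col_e v v' P (col_emb (c P))|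
        rcases c P with _ | j
        · simp [col_emb, col_e]
        · simp [col_emb, col_e, abs_of_nonneg (hv'0 P)]
  rw [hmain] at key
  exact le_trans (le_abs_self _) key

end

end Pool.Agent.H10.FF
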