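import Pool.Agent.H10.FF.Base
import Pool.Agent.H10.FF.Colored

/-!
JOB FF-B9 (MP_a1f59e_nt). Translation between the index type `Ix F w R` and finite sets of primes; monotonicity of the weights.

PROOFS. Routine: `Ix F w R = {P // P ∈ PR F w R}`; subsets of `PR F w R` are the images of the `s : Finset (Ix F w R)` under
`Subtype.val` (`Finset.map (Function.Embedding.subtype _)`). `dgi c i = dgI (cls c i)`, `dgt c = ∑ i, dgi c i`.
`BB α c ≤ BB α c'` if `c'` is obtained from `c` by uncolouring (`∀ P, c' P = none ∨ c' P = c P`): the degrees decrease, `bet α` is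
antitone for `α ≥ 0`, all factors are nonnegative. ~150 lines.
-/

namespace Pool.Agent.H10.FF

open Polynomial Finset
open scoped Classical

variable {F : Type} [Field F] [Fintype F]

/-- degree of a set of primes of the index type -/
noncomputable def dgI {w R : ℕ} (s : Finset (Ix F w R)) : ℕ := ∑ P ∈ s, P.1.natDegree

/-- the underlying set of polynomials -/
noncomputable def vl {w R : ℕ} (s : Finset (Ix F w R)) : Finset F[X] :=
  s.map (Function.Embedding.subtype _)

theorem dg_vl {w R : ℕ} (s : Finset (Ix F w R)) : dg (vl s) = dgI s := by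
  unfold dg vl dgI
  rw [Finset.sum_map]
  rfl

theorem prod_vl {w R : ℕ} (s : Finset (Ix F w R)) (f : F[X] → ℝ) :
    ∏ P ∈ vl s, f P = ∏ P ∈ s, f P.1 := by
  unfold vl
  rw [Finset.prod_map]
  rfl

theorem prod_Ix {w R : ℕ} (f : F[X] → ℝ) : ∏ P : Ix F w R, f P.1 = ∏ P ∈ PR F w R, f P := by
  exact Finset.prod_coe_sort (PR F w R) f

private theorem vl_injective {w R : ℕ} : Function.Injective (vl : Finset (Ix F w R) → Finset F[X]) := by
  intro s t h
  exact Finset.map_injective _ h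

private theorem vl_image {w R : ℕ} :
    (Finset.univ : Finset (Finset (Ix F w R))).image vl = (PR F w R).powerset := by
  ext t
  rw [Finset.mem_image, Finset.mem_powerset]
  constructor
  · rintro ⟨s, -, rfl⟩
    intro P hP
    unfold vl at hP
    rw [Finset.mem_map] at hP
    obtain ⟨Q, -, rfl⟩ := hP
    exact Q.2
  · intro ht
    refine ⟨Finset.univ.filter (fun Q : Ix F w R => Q.1 ∈ t), Finset.mem_univ _, ?_⟩
    ext P
    unfold vl
    rw [Finset.mem_map]
    constructor
    · rintro ⟨Q, hQ, rfl⟩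
      exact (Finset.mem_filter.1 hQ).2
    · intro hP
      exact ⟨⟨P, ht hP⟩, Finset.mem_filter.2 ⟨Finset.mem_univ _, hP⟩, rfl⟩

/-- sums over sets of primes -/
theorem sum_PS {w R : ℕ} (J : ℕ) (g : Finset F[X] → ℝ) :
    ∑ t ∈ PS F w R J, g t = ∑ s : Finset (Ix F w R), if dgI s ≤ J then g (vl s) else 0 := by
  unfold PS
  rw [Finset.sum_filter, ← vl_image, Finset.sum_image (fun a _ b _ h => vl_injective h)]
  refine Finset.sum_congr rfl fun s _ => ?_
  rw [dg_vl]

theorem TS_eq {w R : ℕ} (J : ℕ) (g : ℕ → ℝ) :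
    TS F w R J g = ∑ s : Finset (Ix F w R),
      if dgI s ≤ J then g (dgI s) * ∏ P ∈ s, vP P.1 else 0 := by
  unfold TS
  rw [sum_PS]
  refine Finset.sum_congr rfl fun s _ => ?_
  rw [dg_vl, prod_vl]

theorem dgi_eq {K : Type} {w R : ℕ} [DecidableEq K] (c : Ix F w R → Option K) (i : K) :
    dgi c i = dgI (cls c i) := by
  unfold dgi dgI cls
  rw [Finset.sum_filter]
  refine Finset.sum_congr rfl fun P _ => ?_
  by_cases h : c P = some i
  · rw [if_pos h, if_pos h]
  · rw [if_neg h, if_neg h]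

theorem dgt_eq {K : Type} [Fintype K] [DecidableEq K] {w R : ℕ} (c : Ix F w R → Option K) :
    dgt c = ∑ i, dgi c i := by
  unfold dgt dgi
  rw [Finset.sum_comm]
  refine Finset.sum_congr rfl fun P _ => ?_
  rcases h : c P with _ | j
  · rw [if_pos rfl]
    symm
    refine Finset.sum_eq_zero fun i _ => ?_
    rw [if_neg (by simp)]
  · rw [if_neg (by simp), Finset.sum_eq_single j]
    · rw [if_pos rfl]
    · intro b _ hb
      rw [if_neg]
      intro h2
      exact hb (Option.some.inj h2).symm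
    · intro h2
      exact absurd (Finset.mem_univ _) h2

theorem bet_pos {α : ℝ} (hα : 0 ≤ α) (d : ℕ) : 0 < bet α d := by
  unfold bet
  have : 0 ≤ α * (d : ℝ) := mul_nonneg hα (Nat.cast_nonneg d)
  exact one_div_pos.2 (by linarith)

theorem bet_le_one {α : ℝ} (hα : 0 ≤ α) (d : ℕ) : bet α d ≤ 1 := by
  unfold bet
  have : 0 ≤ α * (d : ℝ) := mul_nonneg hα (Nat.cast_nonneg d)
  rw [div_le_one (by linarith)]
  linarith

theorem bet_anti {α : ℝ} (hα : 0 ≤ α) {d d' : ℕ} (h : d ≤ d') : bet α d' ≤ bet α d := by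
  unfold bet
  have h1 : 0 ≤ α * (d : ℝ) := mul_nonneg hα (Nat.cast_nonneg d)
  have h2 : α * (d : ℝ) ≤ α * (d' : ℝ) := mul_le_mul_of_nonneg_left (by exact_mod_cast h) hα
  exact one_div_le_one_div_of_le (by linarith) (by linarith)

private theorem prod_bet_nonneg {K : Type} [Fintype K] {w R : ℕ} {α : ℝ} (hα : 0 ≤ α)
    (c : Ix F w R → Option K) : 0 ≤ ∏ i : K, bet α (dgi c i) :=
  Finset.prod_nonneg fun _ _ => (bet_pos hα _).le

private theorem prod_bet_le_one {K : Type} [Fintype K] {w R : ℕ} {α : ℝ} (hα : 0 ≤ α)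
    (c : Ix F w R → Option K) : ∏ i : K, bet α (dgi c i) ≤ 1 :=
  Finset.prod_le_one (fun _ _ => (bet_pos hα _).le) fun _ _ => bet_le_one hα _

theorem BB_nonneg {K : Type} [Fintype K] {w R : ℕ} {α : ℝ} (hα : 0 ≤ α)
    (c : Ix F w R → Option K) : 0 ≤ BB α c := by
  exact mul_nonneg (prod_bet_nonneg hα c) (le_max_left _ _)

private theorem dgt_zero_of_R {K : Type} {w : ℕ} (c : Ix F w 0 → Option K) : dgt c = 0 := by
  unfold dgt
  refine Finset.sum_eq_zero fun P _ => ?_
  exfalso
  have := mem_PR.1 P.2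
  omega

theorem BB_eq_zero {K : Type} [Fintype K] {w R : ℕ} {α : ℝ} (c : Ix F w R → Option K)
    (h : R < dgt c) : BB α c = 0 := by
  rcases Nat.eq_zero_or_pos R with rfl | hR
  · rw [dgt_zero_of_R c] at h
    exact absurd h (lt_irrefl _)
  · unfold BB
    have hR' : (0 : ℝ) < R := by exact_mod_cast hR
    have h1 : (1 : ℝ) ≤ (dgt c : ℝ) / (R : ℝ) := by
      rw [one_le_div hR']
      exact_mod_cast h.le
    rw [max_eq_left (by linarith), mul_zero]

theorem BB_le_Bs {K : Type} [Fintype K] {w R : ℕ} {α : ℝ} (hα : 0 ≤ α)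
    (c : Ix F w R → Option K) : BB α c ≤ Bs α c := by
  rcases Nat.lt_or_ge R (dgt c) with h | h
  · rw [BB_eq_zero c h]
    unfold Bs
    rw [if_neg (not_le.2 h)]
  · unfold Bs
    rw [if_pos h]
    unfold BB
    have h1 : max 0 (1 - (dgt c : ℝ) / (R : ℝ)) ≤ 1 := by
      refine max_le zero_le_one ?_
      have : 0 ≤ (dgt c : ℝ) / (R : ℝ) := by positivity
      linarith
    calc _ ≤ (∏ i : K, bet α (dgi c i)) * 1 :=
          mul_le_mul_of_nonneg_left h1 (prod_bet_nonneg hα c)
      _ = _ := mul_one _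

theorem Bs_le_one {K : Type} [Fintype K] {w R : ℕ} {α : ℝ} (hα : 0 ≤ α)
    (c : Ix F w R → Option K) : Bs α c ≤ 1 := by
  unfold Bs
  split_ifs
  · exact prod_bet_le_one hα c
  · exact zero_le_one

theorem Bs_nonneg {K : Type} [Fintype K] {w R : ℕ} {α : ℝ} (hα : 0 ≤ α)
    (c : Ix F w R → Option K) : 0 ≤ Bs α c := by
  unfold Bs
  split_ifs
  · exact prod_bet_nonneg hα c
  · exact le_rfl

private theorem dgi_mono {K : Type} {w R : ℕ} (c c' : Ix F w R → Option K)
    (h : ∀ P, c' P = none ∨ c' P = c P) (i : K) : dgi c' i ≤ dgi c i := by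
  unfold dgi
  refine Finset.sum_le_sum fun P _ => ?_
  by_cases h1 : c' P = some i
  · rw [if_pos h1]
    rcases h P with h2 | h2
    · rw [h2] at h1
      exact absurd h1 (by simp)
    · rw [if_pos (by rw [← h2]; exact h1)]
  · rw [if_neg h1]
    exact Nat.zero_le _

private theorem dgt_mono {K : Type} {w R : ℕ} (c c' : Ix F w R → Option K)
    (h : ∀ P, c' P = none ∨ c' P = c P) : dgt c' ≤ dgt c := by
  unfold dgt
  refine Finset.sum_le_sum fun P _ => ?_
  by_cases h1 : c' P = none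
  · rw [if_pos h1]
    exact Nat.zero_le _
  · rw [if_neg h1]
    rcases h P with h2 | h2
    · exact absurd h2 h1
    · rw [if_neg (by rw [← h2]; exact h1)]

private theorem prod_bet_anti {K : Type} [Fintype K] {w R : ℕ} {α : ℝ} (hα : 0 ≤ α)
    (c c' : Ix F w R → Option K) (h : ∀ P, c' P = none ∨ c' P = c P) :
    ∏ i : K, bet α (dgi c i) ≤ ∏ i : K, bet α (dgi c' i) :=
  Finset.prod_le_prod (fun _ _ => (bet_pos hα _).le) fun i _ => bet_anti hα (dgi_mono c c' h i)

theorem BB_anti {K : Type} [Fintype K] {w R : ℕ} {α : ℝ} (hα : 0 ≤ α)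
    (c c' : Ix F w R → Option K) (h : ∀ P, c' P = none ∨ c' P = c P) : BB α c ≤ BB α c' := by
  unfold BB
  refine mul_le_mul (prod_bet_anti hα c c' h) ?_ (le_max_left _ _) (prod_bet_nonneg hα c')
  refine max_le_max le_rfl ?_
  have h1 : (dgt c' : ℝ) ≤ (dgt c : ℝ) := by exact_mod_cast dgt_mono c c' h
  have h2 : (dgt c' : ℝ) / (R : ℝ) ≤ (dgt c : ℝ) / (R : ℝ) :=
    div_le_div_of_nonneg_right h1 (Nat.cast_nonneg R)
  linarith

theorem Bs_anti {K : Type} [Fintype K] {w R : ℕ} {α : ℝ} (hα : 0 ≤ α)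
    (c c' : Ix F w R → Option K) (h : ∀ P, c' P = none ∨ c' P = c P) : Bs α c ≤ Bs α c' := by
  rcases Nat.lt_or_ge R (dgt c) with h1 | h1
  · have : Bs α c = 0 := by
      unfold Bs
      rw [if_neg (not_le.2 h1)]
    rw [this]
    exact Bs_nonneg hα c'
  · unfold Bs
    rw [if_pos h1, if_pos ((dgt_mono c c' h).trans h1)]
    exact prod_bet_anti hα c c' h

end Pool.Agent.H10.FF
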