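import Pool.Agent.H10.FF.Indep
import Pool.Agent.H10.FF.Ixs

/-!
JOB FF-C2 (MP_a1f59e_nt). Local averages of the sieve functions and independence.

PROOFS. `dvd_nn_iff`: `P ∤ WW` (`WW_not_dvd`), let `P ∣ V * WW - 1`; `r = -(X ^ N) - V * C (a i)`. `av_dvd_nn`: `av_class` with
`ℓ = polHom F N` (onto modulo `P` as `deg P ≤ N`: `pol z = r %ₘ P`). `not_dvd_both`: `P ∣ nn i - nn j = C (a i - a j)`, `not_dvd_C`.
`e1_eq`: `uu P n = v - (1 + v) 1_{P ∣ n}`; with `E 1 = 1 / |P|` and `E 1_i 1_j = 0`: `E u_i = v - (1+v)/|P| = 0` (`vP_eq`),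
`E u_i ^ 2 = v ^ 2 + (1 - v ^ 2)/|P| = v`, `E u_i u_j = v ^ 2 - 2 v (1+v)/|P| = -v ^ 2`.
`pair_av`: `indep_one` with `s = {P ∈ PR F w R | c P ≠ none ∨ c' P ≠ none}`, `dg s ≤ dgt c + dgt c' ≤ 2 R ≤ N`, `f P x = UU P .. * UU P ..`
(periodic by `dvd_nn_iff`); the factors of the other `P` are `1`. `pair_av_bad`: the same with the extra prime `P₀` whose function is the
indicator (`c P₀ = c' P₀ = none`). ~220 lines.
-/

namespace Pool.Agent.H10.FF

open Polynomial Finset
open scoped Classical

variable {F : Type} [Field F] [Fintype F] {K : Type} [Fintype K] [DecidableEq K]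

private theorem loc_cop {w R : ℕ} {P : F[X]} (hP : P ∈ PR F w R) : IsCoprime P (WW F w) :=
  (mem_PR.1 hP).2.1.coprime_iff_not_dvd.2 (WW_not_dvd hP)

omit [Fintype K] [DecidableEq K] in
private theorem loc_per {w N : ℕ} (a : K → F[X]) (P : F[X]) (x y : Fin N → F)
    (h : P ∣ pol x - pol y) (i : K) : P ∣ nn w N a x i ↔ P ∣ nn w N a y i := by
  have h1 : nn w N a x i = nn w N a y i + WW F w * (pol x - pol y) := by
    unfold nn
    ring
  rw [h1]
  exact dvd_add_left (h.mul_left _)

theorem dvd_nn_iff {w R : ℕ} (N : ℕ) (a : K → F[X]) {P : F[X]} (hP : P ∈ PR F w R) (i : K) :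
    ∃ r : F[X], ∀ x : Fin N → F, P ∣ nn w N a x i ↔ P ∣ pol x - r := by
  have hc := loc_cop hP
  obtain ⟨V, U, hUV⟩ := hc
  refine ⟨-(X ^ N) - U * a i, fun x => ?_⟩
  have key : WW F w * (pol x - (-(X ^ N) - U * a i)) =
      nn w N a x i - P * (V * a i) := by
    unfold nn
    linear_combination (a i) * hUV
  constructor
  · intro h
    have h1 : P ∣ WW F w * (pol x - (-(X ^ N) - U * a i)) := by
      rw [key]
      exact dvd_sub h (dvd_mul_right _ _)
    exact (loc_cop hP).dvd_of_dvd_mul_left h1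
  · intro h
    have h1 : P ∣ nn w N a x i - P * (V * a i) := by
      rw [← key]
      exact h.mul_left _
    have h2 := dvd_add h1 (dvd_mul_right P (V * a i))
    rwa [sub_add_cancel] at h2

theorem av_dvd_nn {w R : ℕ} (N : ℕ) (a : K → F[X]) {P : F[X]} (hP : P ∈ PR F w R)
    (hN : P.natDegree ≤ N) (i : K) :
    av (fun x : Fin N → F => if P ∣ nn w N a x i then (1 : ℝ) else 0) = 1 / nrm P := by
  obtain ⟨r, hr⟩ := dvd_nn_iff (w := w) (R := R) N a hP i
  have hm : P.Monic := (mem_PR.1 hP).1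
  have hs : ∀ r : F[X], ∃ z, P ∣ polHom F N z - r := by
    intro r
    have hd : (r %ₘ P).degree < N := by
      refine lt_of_lt_of_le (degree_modByMonic_lt _ hm) ?_
      rw [degree_eq_natDegree hm.ne_zero]
      exact_mod_cast hN
    refine ⟨fun j => (r %ₘ P).coeff j, ?_⟩
    have h1 : polHom F N (fun j => (r %ₘ P).coeff j) = r %ₘ P := pol_surj _ hd
    rw [h1]
    have h2 := modByMonic_add_div r P
    refine ⟨-(r /ₘ P), ?_⟩
    linear_combination h2
  have h := av_class (polHom F N) P hm hs r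
  rw [← h]
  congr 1
  funext x
  change (if P ∣ nn w N a x i then (1 : ℝ) else 0) = if P ∣ pol x - r then (1 : ℝ) else 0
  by_cases hx : P ∣ nn w N a x i
  · rw [if_pos hx, if_pos ((hr x).1 hx)]
  · rw [if_neg hx, if_neg (fun h' => hx ((hr x).2 h'))]

theorem not_dvd_both {w R : ℕ} (N : ℕ) (a : K → F[X]) (ha : Dif w R a) {P : F[X]}
    (hP : P ∈ PR F w R) (i j : K) (hij : i ≠ j) (x : Fin N → F) (h : P ∣ nn w N a x i) :
    ¬ P ∣ nn w N a x j := by
  intro h'
  have h1 := dvd_sub h h'
  have h2 : nn w N a x i - nn w N a x j = a i - a j := by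
    unfold nn
    ring
  rw [h2] at h1
  exact ha i j hij P hP h1

private theorem loc_av_const {X : Type} [Fintype X] [Nonempty X] (c : ℝ) :
    av (fun _ : X => c) = c := by
  unfold av
  rw [Finset.sum_const, Finset.card_univ, nsmul_eq_mul]
  have : (Fintype.card X : ℝ) ≠ 0 := by exact_mod_cast Fintype.card_ne_zero
  field_simp

private theorem loc_av_lin2 {X : Type} [Fintype X] [Nonempty X] (c d e : ℝ) (f g : X → ℝ) :
    av (fun x => c + d * f x + e * g x) = c + d * av f + e * av g := by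
  unfold av
  rw [Finset.sum_add_distrib, Finset.sum_add_distrib, Finset.sum_const, Finset.card_univ,
    nsmul_eq_mul, ← Finset.mul_sum, ← Finset.mul_sum]
  have : (Fintype.card X : ℝ) ≠ 0 := by exact_mod_cast Fintype.card_ne_zero
  field_simp

private theorem loc_uu (P n : F[X]) :
    uu P n = vP P - (1 + vP P) * (if P ∣ n then (1 : ℝ) else 0) := by
  unfold uu
  by_cases h : P ∣ n
  · rw [if_pos h, if_pos h]
    ring
  · rw [if_neg h, if_neg h]
    ring

private theorem loc_one {w R : ℕ} (N : ℕ) (a : K → F[X]) {P : F[X]}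
    (hP : P ∈ PR F w R) (hN : P.natDegree ≤ N) (i : K) :
    av (fun x : Fin N → F => uu P (nn w N a x i)) = 0 := by
  have h1 := loc_av_lin2 (vP P) (-(1 + vP P)) 0
    (fun x : Fin N → F => if P ∣ nn w N a x i then (1 : ℝ) else 0) (fun _ => 0)
  have h2 : (fun x : Fin N → F => uu P (nn w N a x i)) = fun x : Fin N → F =>
      vP P + -(1 + vP P) * (if P ∣ nn w N a x i then (1 : ℝ) else 0) + 0 * 0 := by
    funext x
    rw [loc_uu]
    ring
  rw [h2, h1, av_dvd_nn N a hP hN i]
  have h3 := vP_eq hP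
  have h4 : (1 + vP P) * (1 / nrm P) = vP P := by
    rw [mul_one_div]
    exact h3.symm
  linear_combination -h4

theorem e1_eq {w R : ℕ} (N : ℕ) (a : K → F[X]) (ha : Dif w R a) {P : F[X]}
    (hP : P ∈ PR F w R) (hN : P.natDegree ≤ N) (o o' : Option K) :
    av (fun x : Fin N → F => UU P (nn w N a x) o * UU P (nn w N a x) o') = e1 P o o' := by
  have h4 : (1 + vP P) * (1 / nrm P) = vP P := by
    rw [mul_one_div]
    exact (vP_eq hP).symm
  rcases o with _ | i
  · rcases o' with _ | j
    · have h0 : (fun x : Fin N → F => UU P (nn w N a x) none * UU P (nn w N a x) none) =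
          fun _ => (1 : ℝ) := by
        funext x
        change (1 : ℝ) * 1 = 1
        norm_num
      rw [h0, loc_av_const]
      unfold e1
      rw [if_pos rfl, if_pos rfl]
    · have h0 : (fun x : Fin N → F => UU P (nn w N a x) none * UU P (nn w N a x) (some j)) =
          fun x => uu P (nn w N a x j) := by
        funext x
        change (1 : ℝ) * uu P (nn w N a x j) = _
        rw [one_mul]
      rw [h0, loc_one N a hP hN j]
      unfold e1
      rw [if_neg (by simp), if_pos (Or.inl rfl)]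
  · rcases o' with _ | j
    · have h0 : (fun x : Fin N → F => UU P (nn w N a x) (some i) * UU P (nn w N a x) none) =
          fun x => uu P (nn w N a x i) := by
        funext x
        change uu P (nn w N a x i) * (1 : ℝ) = _
        rw [mul_one]
      rw [h0, loc_one N a hP hN i]
      unfold e1
      rw [if_neg (by simp), if_pos (Or.inr rfl)]
    · by_cases hij : i = j
      · subst hij
        have h0 : (fun x : Fin N → F => UU P (nn w N a x) (some i) * UU P (nn w N a x) (some i)) =
            fun x => vP P ^ 2 + (1 - vP P ^ 2) *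
              (if P ∣ nn w N a x i then (1 : ℝ) else 0) + 0 * 0 := by
          funext x
          change uu P (nn w N a x i) * uu P (nn w N a x i) = _
          rw [loc_uu]
          by_cases hx : P ∣ nn w N a x i
          · rw [if_pos hx]
            ring
          · rw [if_neg hx]
            ring
        have h1 := loc_av_lin2 (vP P ^ 2) (1 - vP P ^ 2) 0
          (fun x : Fin N → F => if P ∣ nn w N a x i then (1 : ℝ) else 0) (fun _ => 0)
        rw [h0, h1, av_dvd_nn N a hP hN i]
        unfold e1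
        rw [if_pos rfl, if_neg (by simp)]
        linear_combination (1 - vP P) * h4
      · have h0 : (fun x : Fin N → F => UU P (nn w N a x) (some i) * UU P (nn w N a x) (some j)) =
            fun x => vP P ^ 2 + (-(vP P * (1 + vP P))) *
              (if P ∣ nn w N a x i then (1 : ℝ) else 0) + (-(vP P * (1 + vP P))) *
              (if P ∣ nn w N a x j then (1 : ℝ) else 0) := by
          funext x
          change uu P (nn w N a x i) * uu P (nn w N a x j) = _
          rw [loc_uu, loc_uu]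
          by_cases hx : P ∣ nn w N a x i
          · rw [if_pos hx, if_neg (not_dvd_both N a ha hP i j hij x hx)]
            ring
          · rw [if_neg hx]
            ring
        have h1 := loc_av_lin2 (vP P ^ 2) (-(vP P * (1 + vP P))) (-(vP P * (1 + vP P)))
          (fun x : Fin N → F => if P ∣ nn w N a x i then (1 : ℝ) else 0)
          (fun x : Fin N → F => if P ∣ nn w N a x j then (1 : ℝ) else 0)
        rw [h0, h1, av_dvd_nn N a hP hN i, av_dvd_nn N a hP hN j]
        unfold e1
        rw [if_neg (fun h => hij (Option.some.inj h)), if_neg (by simp)]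
        linear_combination (-2 * vP P) * h4

private theorem loc_indep {w R : ℕ} (N : ℕ) (s : Finset (Ix F w R)) (hs : dgI s ≤ N)
    (g : Ix F w R → (Fin N → F) → ℝ) (h1 : ∀ P, P ∉ s → ∀ x, g P x = 1)
    (hg : ∀ P : Ix F w R, ∀ x y, P.1 ∣ pol x - pol y → g P x = g P y) :
    av (fun x => ∏ P : Ix F w R, g P x) = ∏ P : Ix F w R, av (g P) := by
  have hone : ∀ P, P ∉ s → av (g P) = 1 := by
    intro P hP
    have h2 : g P = fun _ => (1 : ℝ) := funext fun x => h1 P hP x
    rw [h2, loc_av_const]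
  have e1' : ∏ P : Ix F w R, av (g P) = ∏ P ∈ s, av (g P) :=
    (Finset.prod_subset (Finset.subset_univ s) fun P _ hP => hone P hP).symm
  have e2 : ∀ x, ∏ P : Ix F w R, g P x = ∏ P ∈ s, g P x := fun x =>
    (Finset.prod_subset (Finset.subset_univ s) fun P _ hP => h1 P hP x).symm
  rw [e1']
  simp_rw [e2]
  let f : F[X] → (Fin N → F) → ℝ := fun Q x => if h : Q ∈ PR F w R then g ⟨Q, h⟩ x else 1
  have hf : ∀ (P : Ix F w R), f P.1 = g P := by
    intro P
    funext x
    change (if h : P.1 ∈ PR F w R then g ⟨P.1, h⟩ x else 1) = g P x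
    rw [dif_pos P.2]
  have e3 : ∀ x, ∏ P ∈ s, g P x = ∏ Q ∈ vl s, f Q x := by
    intro x
    rw [prod_vl s (fun Q => f Q x)]
    exact Finset.prod_congr rfl fun P _ => by rw [hf P]
  have e4 : ∏ P ∈ s, av (g P) = ∏ Q ∈ vl s, av (f Q) := by
    rw [prod_vl s (fun Q => av (f Q))]
    exact Finset.prod_congr rfl fun P _ => by rw [hf P]
  rw [e4]
  simp_rw [e3]
  have hmem : ∀ Q ∈ vl s, ∃ P : Ix F w R, P.1 = Q := by
    intro Q hQ
    unfold vl at hQ
    rw [Finset.mem_map] at hQ
    obtain ⟨P, -, hP⟩ := hQ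
    exact ⟨P, hP⟩
  refine indep_one N (vl s) ?_ ?_ f ?_
  · intro Q hQ
    obtain ⟨P, rfl⟩ := hmem Q hQ
    exact ⟨(mem_PR.1 P.2).1, (mem_PR.1 P.2).2.1⟩
  · rw [dg_vl]
    exact hs
  · intro Q hQ x y hxy
    obtain ⟨P, rfl⟩ := hmem Q hQ
    rw [hf P]
    exact hg P x y hxy

private theorem loc_uu_per {w N : ℕ} (a : K → F[X]) (P : F[X]) (x y : Fin N → F)
    (h : P ∣ pol x - pol y) (i : K) : uu P (nn w N a x i) = uu P (nn w N a y i) := by
  rw [loc_uu, loc_uu]
  by_cases hx : P ∣ nn w N a x i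
  · rw [if_pos hx, if_pos ((loc_per a P x y h i).1 hx)]
  · rw [if_neg hx, if_neg (fun h' => hx ((loc_per a P x y h i).2 h'))]

omit [Fintype K] [DecidableEq K] in
private theorem loc_UU_none (P : F[X]) (n : K → F[X]) : UU P n none = 1 := by
  unfold UU
  exact Option.elim_none _ _

omit [Fintype K] [DecidableEq K] in
private theorem loc_UU_some (P : F[X]) (n : K → F[X]) (i : K) : UU P n (some i) = uu P (n i) := by
  unfold UU
  exact Option.elim_some _ _ _

private theorem loc_UU_per {w N : ℕ} (a : K → F[X]) (P : F[X]) (x y : Fin N → F)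
    (h : P ∣ pol x - pol y) (o : Option K) : UU P (nn w N a x) o = UU P (nn w N a y) o := by
  rcases o with _ | i
  · rw [loc_UU_none, loc_UU_none]
  · rw [loc_UU_some, loc_UU_some]
    exact loc_uu_per a P x y h i

private theorem loc_dgI {w R : ℕ} (c c' : Ix F w R → Option K) :
    dgI (Finset.univ.filter fun P : Ix F w R => c P ≠ none ∨ c' P ≠ none) ≤ dgt c + dgt c' := by
  unfold dgI dgt
  rw [Finset.sum_filter, ← Finset.sum_add_distrib]
  refine Finset.sum_le_sum fun P _ => ?_
  by_cases h : c P = none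
  · by_cases h' : c' P = none
    · rw [if_neg (fun h1 => h1.elim (fun h2 => h2 h) (fun h2 => h2 h'))]
      exact Nat.zero_le _
    · rw [if_pos (Or.inr h'), if_pos h, if_neg h', zero_add]
  · rw [if_pos (Or.inl h), if_neg h]
    exact Nat.le_add_right _ _

private theorem loc_deg_le {w R N : ℕ} (h : R ≤ N) (P : Ix F w R) : P.1.natDegree ≤ N :=
  (mem_PR.1 P.2).2.2.2.trans h

theorem pair_av {w R : ℕ} (N : ℕ) (a : K → F[X]) (ha : Dif w R a) (hN : 2 * R ≤ N)
    (c c' : Ix F w R → Option K) (hc : dgt c ≤ R) (hc' : dgt c' ≤ R) :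
    av (fun x : Fin N → F => (∏ P : Ix F w R, UU P.1 (nn w N a x) (c P)) *
        ∏ P : Ix F w R, UU P.1 (nn w N a x) (c' P)) =
      ∏ P : Ix F w R, e1 P.1 (c P) (c' P) := by
  have hA : ∀ P : Ix F w R, P ∉ (Finset.univ.filter fun P : Ix F w R => c P ≠ none ∨ c' P ≠ none) →
      ∀ x : Fin N → F, UU P.1 (nn w N a x) (c P) * UU P.1 (nn w N a x) (c' P) = 1 := by
    intro P hP x
    have h2 : c P = none ∧ c' P = none := by
      rw [Finset.mem_filter] at hP
      by_contra h3
      apply hP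
      refine ⟨Finset.mem_univ _, ?_⟩
      by_contra h4
      exact h3 ⟨by_contra fun h5 => h4 (Or.inl h5), by_contra fun h5 => h4 (Or.inr h5)⟩
    rw [h2.1, h2.2, loc_UU_none]
    exact mul_one 1
  have hB : ∀ P : Ix F w R, ∀ x y : Fin N → F, P.1 ∣ pol x - pol y →
      UU P.1 (nn w N a x) (c P) * UU P.1 (nn w N a x) (c' P) =
        UU P.1 (nn w N a y) (c P) * UU P.1 (nn w N a y) (c' P) := by
    intro P x y hxy
    rw [loc_UU_per a P.1 x y hxy, loc_UU_per a P.1 x y hxy]
  have hD : dgI (Finset.univ.filter fun P : Ix F w R => c P ≠ none ∨ c' P ≠ none) ≤ N :=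
    (loc_dgI c c').trans (by omega)
  have h1 := loc_indep N (Finset.univ.filter fun P : Ix F w R => c P ≠ none ∨ c' P ≠ none) hD
    (fun P x => UU P.1 (nn w N a x) (c P) * UU P.1 (nn w N a x) (c' P)) hA hB
  have h2 : (fun x : Fin N → F => (∏ P : Ix F w R, UU P.1 (nn w N a x) (c P)) *
        ∏ P : Ix F w R, UU P.1 (nn w N a x) (c' P)) =
      fun x : Fin N → F => ∏ P : Ix F w R,
        (UU P.1 (nn w N a x) (c P) * UU P.1 (nn w N a x) (c' P)) := by
    funext x
    exact Finset.prod_mul_distrib.symm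
  rw [h2]
  refine h1.trans ?_
  exact Finset.prod_congr rfl fun P _ => e1_eq N a ha P.2 (loc_deg_le (by omega) P) _ _

theorem pair_av_bad {w R : ℕ} (N : ℕ) (a : K → F[X]) (ha : Dif w R a) (hN : 3 * R ≤ N)
    (P₀ : Ix F w R) (i₀ : K)
    (c c' : Ix F w R → Option K) (hc : dgt c ≤ R) (hc' : dgt c' ≤ R) (h0 : c P₀ = none)
    (h0' : c' P₀ = none) :
    av (fun x : Fin N → F => (if P₀.1 ∣ nn w N a x i₀ then (1 : ℝ) else 0) *
        ((∏ P : Ix F w R, UU P.1 (nn w N a x) (c P)) *
        ∏ P : Ix F w R, UU P.1 (nn w N a x) (c' P))) =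
      (1 / nrm P₀.1) * ∏ P : Ix F w R, e1 P.1 (c P) (c' P) := by
  have hd : dgI (insert P₀ (Finset.univ.filter fun P : Ix F w R => c P ≠ none ∨ c' P ≠ none)) ≤
      N := by
    have h2 : P₀ ∉ Finset.univ.filter fun P : Ix F w R => c P ≠ none ∨ c' P ≠ none := by
      rw [Finset.mem_filter]
      push Not
      exact fun _ => ⟨h0, h0'⟩
    have h3 := loc_dgI c c'
    have h4 : P₀.1.natDegree ≤ R := (mem_PR.1 P₀.2).2.2.2
    unfold dgI at h3 ⊢
    rw [Finset.sum_insert h2]
    omega
  have h1 := loc_indep N _ hd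
    (fun P x => (if P = P₀ then (if P₀.1 ∣ nn w N a x i₀ then (1 : ℝ) else 0) else 1) *
      (UU P.1 (nn w N a x) (c P) * UU P.1 (nn w N a x) (c' P)))
    (by
      intro P hP x
      rw [Finset.mem_insert, Finset.mem_filter] at hP
      push Not at hP
      have h2 : c P = none ∧ c' P = none := hP.2 (Finset.mem_univ _)
      change (if P = P₀ then (if P₀.1 ∣ nn w N a x i₀ then (1 : ℝ) else 0) else 1) *
        (UU P.1 (nn w N a x) (c P) * UU P.1 (nn w N a x) (c' P)) = 1
      rw [h2.1, h2.2, if_neg hP.1, loc_UU_none]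
      norm_num)
    (by
      intro P x y hxy
      have h3 : (if P = P₀ then (if P₀.1 ∣ nn w N a x i₀ then (1 : ℝ) else 0) else 1) =
          (if P = P₀ then (if P₀.1 ∣ nn w N a y i₀ then (1 : ℝ) else 0) else 1) := by
        by_cases hP : P = P₀
        · rw [if_pos hP, if_pos hP]
          rw [hP] at hxy
          by_cases hx : P₀.1 ∣ nn w N a x i₀
          · rw [if_pos hx, if_pos ((loc_per a P₀.1 x y hxy i₀).1 hx)]
          · rw [if_neg hx, if_neg (fun h' => hx ((loc_per a P₀.1 x y hxy i₀).2 h'))]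
        · rw [if_neg hP, if_neg hP]
      rw [loc_UU_per a P.1 x y hxy, loc_UU_per a P.1 x y hxy, h3])
  have e0 : (fun x : Fin N → F => (if P₀.1 ∣ nn w N a x i₀ then (1 : ℝ) else 0) *
        ((∏ P : Ix F w R, UU P.1 (nn w N a x) (c P)) *
        ∏ P : Ix F w R, UU P.1 (nn w N a x) (c' P))) =
      fun x => ∏ P : Ix F w R, (if P = P₀ then
        (if P₀.1 ∣ nn w N a x i₀ then (1 : ℝ) else 0) else 1) *
        (UU P.1 (nn w N a x) (c P) * UU P.1 (nn w N a x) (c' P)) := by
    funext x
    rw [Finset.prod_mul_distrib, Finset.prod_mul_distrib,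
      Finset.prod_ite_eq' Finset.univ P₀
        (fun _ => (if P₀.1 ∣ nn w N a x i₀ then (1 : ℝ) else 0)), if_pos (Finset.mem_univ _)]
  rw [e0, h1]
  have e5 : ∀ P : Ix F w R, av (fun x : Fin N → F => (if P = P₀ then
        (if P₀.1 ∣ nn w N a x i₀ then (1 : ℝ) else 0) else 1) *
        (UU P.1 (nn w N a x) (c P) * UU P.1 (nn w N a x) (c' P))) =
      (if P = P₀ then 1 / nrm P₀.1 else 1) * e1 P.1 (c P) (c' P) := by
    intro P
    by_cases hP : P = P₀
    · subst hP
      simp only [if_true, h0, h0']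
      have h2 : (fun x : Fin N → F => (if P.1 ∣ nn w N a x i₀ then (1 : ℝ) else 0) *
          (UU P.1 (nn w N a x) none * UU P.1 (nn w N a x) none)) =
          fun x => (if P.1 ∣ nn w N a x i₀ then (1 : ℝ) else 0) := by
        funext x
        rw [loc_UU_none]
        ring
      rw [h2, av_dvd_nn N a P.2 (loc_deg_le (by omega) P) i₀]
      unfold e1
      rw [if_pos rfl, if_pos rfl, mul_one]
    · simp only [if_neg hP, one_mul]
      exact e1_eq N a ha P.2 (loc_deg_le (by omega) P) _ _
  rw [Finset.prod_congr rfl fun P _ => e5 P, Finset.prod_mul_distrib,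
    Finset.prod_ite_eq' Finset.univ P₀ (fun _ => 1 / nrm P₀.1), if_pos (Finset.mem_univ _)]

end Pool.Agent.H10.FF
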