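import Pool.Agent.H10.FF.S1
import Pool.Agent.H10.FF.Loc

/-!
JOB FF-C3 (MP_a1f59e_nt). Second moment of the sieve function, and its second moment on the multiples of a prime.

PROOF of `S1_le`. Expand the square; `BB c ≠ 0` implies `dgt c ≤ R` (`BB_eq_zero`), so `pair_av` applies to all terms with nonzero
coefficients; `S1comb` with `b = BB`, `κ₀ = 1` (`BB_le_Bs`).
PROOF of `Phi_bad`. Group the coloured sets by the colour of `P₀`: if `P₀ ∣ n i₀` then `UU P₀ n none = 1`, `UU P₀ n (some i₀) = -1`,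
`UU P₀ n (some i) = v` for `i ≠ i₀` (`not_dvd_both`). So `Phi = ∑_c bb c ∏_P UU P (c P)` with `bb c = 0` if `c P₀ ≠ none` and
`bb c = BB c - BB c[P₀ := i₀] + v ∑_{i ≠ i₀} BB c[P₀ := i]` otherwise.
PROOF of `bb_le`. Let `c P₀ = none`, `d₀ = deg P₀`. `0 ≤ BB c[P₀ := i] ≤ BB c ≤ Bs c`. If `dgt c > R` everything vanishes. Otherwise, with
`B = ∏ bet (dgi c i)`, `BB c = B (1 - dgt c / R)`, `BB c[P₀ := i₀] = B * ρ * max 0 (1 - (dgt c + d₀) / R)`, `ρ = bet (d + d₀) / bet d =
(1 + α d)/(1 + α d + α d₀) ≥ 1 - α d₀`, and `max 0 (1 - (dgt c + d₀)/R) ≥ 1 - dgt c / R - d₀ / R`, so the difference is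
`≤ B (α d₀ + d₀ / R)` (`x - ρ y ≤ (1 - ρ) x + ρ (x - y)` with `x ≤ 1`). For `R = 0` the index type is empty.
PROOF of `bad_le`. By `Phi_bad` the average is the average of the indicator times `(∑ bb c ∏ UU) ^ 2`; `pair_av_bad`, `S1comb`.
~250 lines.
-/

namespace Pool.Agent.H10.FF

open Polynomial Finset
open scoped Classical

variable {F : Type} [Field F] [Fintype F] {K : Type} [Fintype K] [DecidableEq K]

private theorem bad_expand {X ι : Type} [Fintype X] [Fintype ι] (I : X → ℝ) (b : ι → ℝ)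
    (U : ι → X → ℝ) (e : ι → ι → ℝ) (κ : ℝ)
    (h : ∀ c c', b c ≠ 0 → b c' ≠ 0 → av (fun x => I x * (U c x * U c' x)) = κ * e c c') :
    av (fun x => I x * (∑ c, b c * U c x) ^ 2) = κ * ∑ c, ∑ c', b c * b c' * e c c' := by
  have h1 : ∀ x, I x * (∑ c, b c * U c x) ^ 2 =
      ∑ c, ∑ c', b c * b c' * (I x * (U c x * U c' x)) := by
    intro x
    rw [sq, Finset.sum_mul_sum, Finset.mul_sum]
    refine Finset.sum_congr rfl fun c _ => ?_
    rw [Finset.mul_sum]
    exact Finset.sum_congr rfl fun c' _ => by ring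
  have h2 : av (fun x => ∑ c, ∑ c', b c * b c' * (I x * (U c x * U c' x))) =
      ∑ c, ∑ c', b c * b c' * av (fun x => I x * (U c x * U c' x)) := by
    unfold av
    rw [Finset.sum_comm, Finset.sum_div]
    refine Finset.sum_congr rfl fun c _ => ?_
    rw [Finset.sum_comm, Finset.sum_div]
    refine Finset.sum_congr rfl fun c' _ => ?_
    rw [← Finset.mul_sum, mul_div_assoc]
  simp_rw [h1]
  rw [h2, Finset.mul_sum]
  refine Finset.sum_congr rfl fun c _ => ?_
  rw [Finset.mul_sum]
  refine Finset.sum_congr rfl fun c' _ => ?_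
  by_cases hc : b c = 0
  · rw [hc, zero_mul, zero_mul, zero_mul, mul_zero]
  by_cases hc' : b c' = 0
  · rw [hc', mul_zero, zero_mul, zero_mul, mul_zero]
  rw [h c c' hc hc']
  ring

private theorem bad_group {w R : ℕ} (P₀ : Ix F w R) (f : (Ix F w R → Option K) → ℝ) :
    ∑ c, f c = ∑ c : Ix F w R → Option K,
      if c P₀ = none then (f c + ∑ i, f (Function.update c P₀ (some i))) else 0 := by
  rw [← Finset.sum_filter, ← Finset.sum_fiberwise (s := Finset.univ)
    (g := fun c : Ix F w R → Option K => c P₀)]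
  have h1 : ∀ o : Option K, ∑ c ∈ univ.filter (fun c : Ix F w R → Option K => c P₀ = o), f c =
      ∑ c ∈ univ.filter (fun c : Ix F w R → Option K => c P₀ = none),
        f (Function.update c P₀ o) := by
    intro o
    refine Finset.sum_bij' (fun c _ => Function.update c P₀ none)
      (fun c _ => Function.update c P₀ o) ?_ ?_ ?_ ?_ ?_
    · intro c _
      exact Finset.mem_filter.2 ⟨Finset.mem_univ _, Function.update_self _ _ _⟩
    · intro c _
      exact Finset.mem_filter.2 ⟨Finset.mem_univ _, Function.update_self _ _ _⟩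
    · intro c hc
      have h2 := (Finset.mem_filter.1 hc).2
      rw [Function.update_idem, ← h2, Function.update_eq_self]
    · intro c hc
      have h2 := (Finset.mem_filter.1 hc).2
      rw [Function.update_idem, ← h2, Function.update_eq_self]
    · intro c hc
      have h2 := (Finset.mem_filter.1 hc).2
      rw [Function.update_idem, ← h2, Function.update_eq_self]
  rw [Finset.sum_congr rfl fun o _ => h1 o, Finset.sum_comm]
  refine Finset.sum_congr rfl fun c hc => ?_
  have h2 := (Finset.mem_filter.1 hc).2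
  rw [Fintype.sum_option]
  congr 1
  rw [← h2, Function.update_eq_self]

private theorem bad_dgi {w R : ℕ} (c : Ix F w R → Option K) (P₀ : Ix F w R)
    (h0 : c P₀ = none) (i₀ i : K) :
    dgi (Function.update c P₀ (some i₀)) i =
      dgi c i + if i = i₀ then P₀.1.natDegree else 0 := by
  unfold dgi
  have h2 : (if i = i₀ then P₀.1.natDegree else 0) = ∑ P : Ix F w R,
      if P = P₀ then (if i = i₀ then P₀.1.natDegree else 0) else 0 := by
    rw [Finset.sum_ite_eq', if_pos (Finset.mem_univ _)]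
  rw [h2, ← Finset.sum_add_distrib]
  refine Finset.sum_congr rfl fun P _ => ?_
  by_cases h : P = P₀
  · subst h
    rw [Function.update_self, h0, if_pos (rfl : P = P),
      if_neg (Option.some_ne_none i).symm, zero_add]
    by_cases hi : i = i₀
    · subst hi
      rw [if_pos rfl, if_pos rfl]
    · rw [if_neg hi, if_neg (fun h => hi (Option.some.inj h).symm)]
  · rw [Function.update_of_ne h, if_neg h, add_zero]

private theorem bad_dgt {w R : ℕ} (c : Ix F w R → Option K) (P₀ : Ix F w R)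
    (h0 : c P₀ = none) (i₀ : K) :
    dgt (Function.update c P₀ (some i₀)) = dgt c + P₀.1.natDegree := by
  unfold dgt
  have h1 : ∀ P : Ix F w R, (if (Function.update c P₀ (some i₀)) P = none then 0 else
      P.1.natDegree) = (if c P = none then 0 else P.1.natDegree) +
        (if P = P₀ then P₀.1.natDegree else 0) := by
    intro P
    by_cases h : P = P₀
    · subst h
      rw [Function.update_self, h0, if_pos (rfl : P = P), if_neg (by simp), if_pos rfl, zero_add]
    · rw [Function.update_of_ne h, if_neg h, add_zero]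
  rw [Finset.sum_congr rfl fun P _ => h1 P, Finset.sum_add_distrib, Finset.sum_ite_eq',
    if_pos (Finset.mem_univ _)]

private theorem bad_uncol {w R : ℕ} (c : Ix F w R → Option K) (P₀ : Ix F w R)
    (h0 : c P₀ = none) (i₀ : K) (P : Ix F w R) :
    c P = none ∨ c P = (Function.update c P₀ (some i₀)) P := by
  by_cases h : P = P₀
  · subst h
    exact Or.inl h0
  · right
    rw [Function.update_of_ne h]

private theorem bad_bet {α : ℝ} (hα : 0 ≤ α) (d d₀ : ℕ) :
    bet α d - bet α (d + d₀) ≤ α * d₀ * bet α d := by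
  unfold bet
  have h1 : 0 ≤ α * (d : ℝ) := mul_nonneg hα (Nat.cast_nonneg d)
  have h2 : 0 ≤ α * (d₀ : ℝ) := mul_nonneg hα (Nat.cast_nonneg d₀)
  push_cast
  have h3 : 0 < 1 + α * (d : ℝ) := by linarith
  have h4 : 0 < 1 + α * ((d : ℝ) + d₀) := by nlinarith
  rw [div_sub_div _ _ h3.ne' h4.ne', mul_one_div, div_le_div_iff₀ (mul_pos h3 h4) h3]
  have h5 : 1 * (1 + α * ((d : ℝ) + d₀)) - (1 + α * (d : ℝ)) * 1 = α * d₀ := by ring
  rw [h5]
  have h6 : α * (d₀ : ℝ) * ((1 + α * d) * (1 + α * (d + d₀))) =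
      α * d₀ * (1 + α * d) * (1 + α * (d + d₀)) := by ring
  rw [h6]
  refine le_mul_of_one_le_right (mul_nonneg h2 h3.le) ?_
  nlinarith

private theorem bad_diff {w R : ℕ} (α : ℝ) (hα : 0 ≤ α) (P₀ : Ix F w R) (i₀ : K)
    (c : Ix F w R → Option K) (h0 : c P₀ = none) :
    BB α c - BB α (Function.update c P₀ (some i₀)) ≤
      (α * P₀.1.natDegree + P₀.1.natDegree / R) * Bs α c := by
  have hd : (0 : ℝ) ≤ P₀.1.natDegree := Nat.cast_nonneg _
  have hR : 0 < R := lt_of_lt_of_le (lt_of_le_of_lt (Nat.zero_le _) (mem_PR.1 P₀.2).2.2.1)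
    (mem_PR.1 P₀.2).2.2.2
  have hR' : (0 : ℝ) < R := by exact_mod_cast hR
  rcases Nat.lt_or_ge R (dgt c) with h | h
  · rw [BB_eq_zero c h]
    have h1 := BB_nonneg hα (Function.update c P₀ (some i₀))
    have h2 := Bs_nonneg hα c
    have h3 : 0 ≤ (α * P₀.1.natDegree + P₀.1.natDegree / R) * Bs α c := by positivity
    linarith
  · unfold BB Bs
    rw [if_pos h, bad_dgt c P₀ h0 i₀]
    have h1 : ∏ i : K, bet α (dgi (Function.update c P₀ (some i₀)) i) =
        bet α (dgi c i₀ + P₀.1.natDegree) * ∏ i ∈ univ.erase i₀, bet α (dgi c i) := by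
      rw [← Finset.mul_prod_erase _ _ (Finset.mem_univ i₀), bad_dgi c P₀ h0, if_pos rfl]
      congr 1
      refine Finset.prod_congr rfl fun i hi => ?_
      rw [bad_dgi c P₀ h0, if_neg (Finset.ne_of_mem_erase hi), add_zero]
    have h2 : ∏ i : K, bet α (dgi c i) =
        bet α (dgi c i₀) * ∏ i ∈ univ.erase i₀, bet α (dgi c i) :=
      (Finset.mul_prod_erase _ _ (Finset.mem_univ i₀)).symm
    rw [h1, h2]
    have hB : 0 ≤ ∏ i ∈ univ.erase i₀, bet α (dgi c i) :=
      Finset.prod_nonneg fun _ _ => (bet_pos hα _).le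
    set B := ∏ i ∈ univ.erase i₀, bet α (dgi c i) with hBdef
    have hu : 0 ≤ 1 - (dgt c : ℝ) / R := by
      rw [sub_nonneg, div_le_one hR']
      exact_mod_cast h
    have hu1 : 1 - (dgt c : ℝ) / R ≤ 1 := by
      have : 0 ≤ (dgt c : ℝ) / R := by positivity
      linarith
    rw [max_eq_right hu]
    have hu' : 1 - (dgt c : ℝ) / R - P₀.1.natDegree / R ≤
        max 0 (1 - ((dgt c + P₀.1.natDegree : ℕ) : ℝ) / R) := by
      refine le_trans (le_of_eq ?_) (le_max_right _ _)
      rw [Nat.cast_add, add_div]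
      ring
    set u := 1 - (dgt c : ℝ) / R with hudef
    set u' := max 0 (1 - ((dgt c + P₀.1.natDegree : ℕ) : ℝ) / R) with hu'def
    have hb1 := bad_bet hα (dgi c i₀) P₀.1.natDegree
    have hb2 : bet α (dgi c i₀ + P₀.1.natDegree) ≤ bet α (dgi c i₀) :=
      bet_anti hα (Nat.le_add_right _ _)
    have hb3 := (bet_pos hα (dgi c i₀)).le
    have hb4 := (bet_pos hα (dgi c i₀ + P₀.1.natDegree)).le
    set b := bet α (dgi c i₀) with hb
    set b' := bet α (dgi c i₀ + P₀.1.natDegree) with hb'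
    have hdR : 0 ≤ (P₀.1.natDegree : ℝ) / R := by positivity
    have e1 : (b - b') * u ≤ α * P₀.1.natDegree * b := by
      calc (b - b') * u ≤ (b - b') * 1 := mul_le_mul_of_nonneg_left hu1 (sub_nonneg.2 hb2)
        _ ≤ _ := by rw [mul_one]; exact hb1
    have e2 : b' * (u - u') ≤ b * (P₀.1.natDegree / R) := by
      calc b' * (u - u') ≤ b' * (P₀.1.natDegree / R) :=
            mul_le_mul_of_nonneg_left (by linarith) hb4
        _ ≤ _ := mul_le_mul_of_nonneg_right hb2 hdR
    calc b * B * u - b' * B * u' = B * ((b - b') * u + b' * (u - u')) := by ring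
      _ ≤ B * (α * P₀.1.natDegree * b + b * (P₀.1.natDegree / R)) :=
        mul_le_mul_of_nonneg_left (add_le_add e1 e2) hB
      _ = (α * P₀.1.natDegree + P₀.1.natDegree / R) * (b * B) := by ring

private theorem bad_prod {w R : ℕ} (n : K → F[X]) (c : Ix F w R → Option K) (P₀ : Ix F w R)
    (h0 : c P₀ = none) (o : Option K) :
    ∏ P : Ix F w R, UU P.1 n ((Function.update c P₀ o) P) =
      UU P₀.1 n o * ∏ P : Ix F w R, UU P.1 n (c P) := by
  rw [← Finset.mul_prod_erase _ _ (Finset.mem_univ P₀), Function.update_self]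
  congr 1
  rw [← Finset.mul_prod_erase univ (fun P : Ix F w R => UU P.1 n (c P)) (Finset.mem_univ P₀), h0]
  have h1 : UU P₀.1 n (none : Option K) = 1 := rfl
  rw [h1, one_mul]
  refine Finset.prod_congr rfl fun P hP => ?_
  rw [Function.update_of_ne (Finset.ne_of_mem_erase hP)]

theorem S1_le {w R : ℕ} (N : ℕ) (a : K → F[X]) (ha : Dif w R a) (hN : 2 * R ≤ N)
    (α : ℝ) (hα : 0 ≤ α) :
    av (fun x : Fin N → F => Phi w R α (nn w N a x) ^ 2) ≤
      tt F (((Fintype.card K : ℝ) + 1) ^ 2) w R * Gam F w R α ^ Fintype.card K := by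
  have h := bad_expand (X := Fin N → F) (fun _ => 1) (BB α : (Ix F w R → Option K) → ℝ)
    (fun c x => ∏ P : Ix F w R, UU P.1 (nn w N a x) (c P))
    (fun c c' => ∏ P : Ix F w R, e1 P.1 (c P) (c' P)) 1 (fun c c' hc hc' => by
      simp only [one_mul]
      exact pair_av N a ha hN c c' (not_lt.1 fun h => hc (BB_eq_zero c h))
        (not_lt.1 fun h => hc' (BB_eq_zero c' h)))
  simp only [one_mul] at h
  have h2 := S1comb w R α hα (BB α : (Ix F w R → Option K) → ℝ) 1 zero_le_one (fun c => by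
    rw [one_mul, abs_of_nonneg (BB_nonneg hα c)]
    exact BB_le_Bs hα c)
  rw [one_pow, one_mul] at h2
  unfold Phi
  rw [h]
  exact (le_abs_self _).trans h2

/-- modified weights on the multiples of `P₀` -/
noncomputable def bb {w R : ℕ} (α : ℝ) (P₀ : Ix F w R) (i₀ : K) (c : Ix F w R → Option K) : ℝ :=
  if c P₀ = none then
    BB α c - BB α (Function.update c P₀ (some i₀)) +
      vP P₀.1 * ∑ i ∈ univ.erase i₀, BB α (Function.update c P₀ (some i))
  else 0

theorem Phi_bad {w R : ℕ} (N : ℕ) (a : K → F[X]) (ha : Dif w R a) (α : ℝ)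
    (P₀ : Ix F w R) (i₀ : K) (x : Fin N → F) (h : P₀.1 ∣ nn w N a x i₀) :
    Phi w R α (nn w N a x) =
      ∑ c : Ix F w R → Option K, bb α P₀ i₀ c * ∏ P : Ix F w R, UU P.1 (nn w N a x) (c P) := by
  unfold Phi
  rw [bad_group P₀]
  refine Finset.sum_congr rfl fun c _ => ?_
  unfold bb
  by_cases h0 : c P₀ = none
  · rw [if_pos h0, if_pos h0]
    have h1 : ∀ i, BB α (Function.update c P₀ (some i)) *
        ∏ P : Ix F w R, UU P.1 (nn w N a x) ((Function.update c P₀ (some i)) P) =
        (BB α (Function.update c P₀ (some i)) * uu P₀.1 (nn w N a x i)) *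
          ∏ P : Ix F w R, UU P.1 (nn w N a x) (c P) := by
      intro i
      rw [bad_prod _ c P₀ h0, ← mul_assoc]
      rfl
    rw [Finset.sum_congr rfl fun i _ => h1 i, ← Finset.sum_mul, ← add_mul]
    congr 1
    rw [← Finset.add_sum_erase _ _ (Finset.mem_univ i₀)]
    have h2 : uu P₀.1 (nn w N a x i₀) = -1 := by
      unfold uu
      rw [if_pos h]
    rw [h2, Finset.mul_sum]
    have h3 : ∑ i ∈ univ.erase i₀, BB α (Function.update c P₀ (some i)) *
        uu P₀.1 (nn w N a x i) =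
        ∑ i ∈ univ.erase i₀, vP P₀.1 * BB α (Function.update c P₀ (some i)) := by
      refine Finset.sum_congr rfl fun i hi => ?_
      have h4 : uu P₀.1 (nn w N a x i) = vP P₀.1 := by
        unfold uu
        rw [if_neg (not_dvd_both N a ha P₀.2 i₀ i (Finset.ne_of_mem_erase hi).symm x h)]
      rw [h4, mul_comm]
    rw [h3]
    ring
  · rw [if_neg h0, if_neg h0, zero_mul]

theorem bb_le {w R : ℕ} (α : ℝ) (hα : 0 ≤ α) (P₀ : Ix F w R) (i₀ : K)
    (c : Ix F w R → Option K) :
    |bb α P₀ i₀ c| ≤ (α * P₀.1.natDegree + P₀.1.natDegree / R + Fintype.card K * vP P₀.1) *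
      Bs α c := by
  have hv := (vP_pos P₀.2).le
  have hB := Bs_nonneg hα c
  have hd : (0 : ℝ) ≤ P₀.1.natDegree := Nat.cast_nonneg _
  unfold bb
  by_cases h0 : c P₀ = none
  · rw [if_pos h0]
    have h1 : ∀ i, BB α (Function.update c P₀ (some i)) ≤ BB α c := fun i =>
      BB_anti hα _ _ (bad_uncol c P₀ h0 i)
    have h2 : ∀ i, 0 ≤ BB α (Function.update c P₀ (some i)) := fun i => BB_nonneg hα _
    have h3 := bad_diff α hα P₀ i₀ c h0
    have h4 : 0 ≤ ∑ i ∈ univ.erase i₀, BB α (Function.update c P₀ (some i)) :=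
      Finset.sum_nonneg fun i _ => h2 i
    have h5 : ∑ i ∈ univ.erase i₀, BB α (Function.update c P₀ (some i)) ≤
        Fintype.card K * Bs α c := by
      calc ∑ i ∈ univ.erase i₀, BB α (Function.update c P₀ (some i))
          ≤ ∑ i : K, BB α (Function.update c P₀ (some i)) :=
            Finset.sum_le_sum_of_subset_of_nonneg (Finset.erase_subset _ _) fun i _ _ => h2 i
        _ ≤ ∑ _i : K, Bs α c := Finset.sum_le_sum fun i _ => (h1 i).trans (BB_le_Bs hα c)
        _ = _ := by rw [Finset.sum_const, Finset.card_univ, nsmul_eq_mul]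
    have h6 : vP P₀.1 * ∑ i ∈ univ.erase i₀, BB α (Function.update c P₀ (some i)) ≤
        vP P₀.1 * (Fintype.card K * Bs α c) := mul_le_mul_of_nonneg_left h5 hv
    have h7 : 0 ≤ vP P₀.1 * ∑ i ∈ univ.erase i₀, BB α (Function.update c P₀ (some i)) :=
      mul_nonneg hv h4
    rw [abs_of_nonneg (by linarith [h1 i₀])]
    calc _ ≤ (α * P₀.1.natDegree + P₀.1.natDegree / R) * Bs α c +
          vP P₀.1 * (Fintype.card K * Bs α c) := add_le_add h3 h6
      _ = _ := by ring
  · rw [if_neg h0, abs_zero]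
    positivity

theorem bad_le {w R : ℕ} (N : ℕ) (a : K → F[X]) (ha : Dif w R a) (hN : 3 * R ≤ N)
    (α : ℝ) (hα : 0 ≤ α) (P₀ : Ix F w R) (i₀ : K) :
    av (fun x : Fin N → F => (if P₀.1 ∣ nn w N a x i₀ then (1 : ℝ) else 0) *
        Phi w R α (nn w N a x) ^ 2) ≤
      (1 / nrm P₀.1) *
        (α * P₀.1.natDegree + P₀.1.natDegree / R + Fintype.card K * vP P₀.1) ^ 2 *
        (tt F (((Fintype.card K : ℝ) + 1) ^ 2) w R * Gam F w R α ^ Fintype.card K) := by
  have hv := (vP_pos P₀.2).le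
  have hd : (0 : ℝ) ≤ P₀.1.natDegree := Nat.cast_nonneg _
  have hbs : ∀ c : Ix F w R → Option K, bb α P₀ i₀ c ≠ 0 → c P₀ = none ∧ dgt c ≤ R := by
    intro c hc
    constructor
    · by_contra h0
      refine hc ?_
      unfold bb
      rw [if_neg h0]
    · refine not_lt.1 fun h => hc ?_
      have h1 := bb_le α hα P₀ i₀ c
      have h2 : Bs α c = 0 := by
        unfold Bs
        rw [if_neg (not_le.2 h)]
      rw [h2, mul_zero] at h1
      exact abs_nonpos_iff.1 h1
  have h := bad_expand (X := Fin N → F) (fun x => if P₀.1 ∣ nn w N a x i₀ then (1 : ℝ) else 0)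
    (bb α P₀ i₀ : (Ix F w R → Option K) → ℝ)
    (fun c x => ∏ P : Ix F w R, UU P.1 (nn w N a x) (c P))
    (fun c c' => ∏ P : Ix F w R, e1 P.1 (c P) (c' P)) (1 / nrm P₀.1) (fun c c' hc hc' =>
      pair_av_bad N a ha hN P₀ i₀ c c' (hbs c hc).2 (hbs c' hc').2 (hbs c hc).1 (hbs c' hc').1)
  have h1 : (fun x : Fin N → F => (if P₀.1 ∣ nn w N a x i₀ then (1 : ℝ) else 0) *
        Phi w R α (nn w N a x) ^ 2) =
      fun x : Fin N → F => (if P₀.1 ∣ nn w N a x i₀ then (1 : ℝ) else 0) *
        (∑ c : Ix F w R → Option K, bb α P₀ i₀ c *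
          ∏ P : Ix F w R, UU P.1 (nn w N a x) (c P)) ^ 2 := by
    funext x
    by_cases hx : P₀.1 ∣ nn w N a x i₀
    · rw [Phi_bad N a ha α P₀ i₀ x hx]
    · rw [if_neg hx, zero_mul, zero_mul]
  rw [h1, h, mul_assoc (1 / nrm P₀.1)]
  refine mul_le_mul_of_nonneg_left ?_ (div_nonneg zero_le_one (nrm_pos _).le)
  refine (le_abs_self _).trans ?_
  have h2 := S1comb w R α hα (bb α P₀ i₀ : (Ix F w R → Option K) → ℝ)
    (α * P₀.1.natDegree + P₀.1.natDegree / R + Fintype.card K * vP P₀.1) (by positivity)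
    (fun c => bb_le α hα P₀ i₀ c)
  rw [mul_assoc] at h2
  exact h2

end Pool.Agent.H10.FF
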