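import Pool.Agent.H10.FF.Defs2

/-!
JOB FF-B1 (MP_a1f59e_nt). Basic facts on `pol`, `irrs`, `PR`, `nrm`.

PROOFS. All routine. `pol v` has coefficients `v`, degree `< n`. `mem_irrs`: a monic polynomial of degree `n` is
`X ^ n + pol v` with `v i = P.coeff i`. `nrm` is multiplicative on monic (nonzero) polynomials. Distinct monic irreducibles are
coprime: `prod_dvd_of_forall`. ~150 lines.
-/

namespace Pool.Agent.H10.FF

open Polynomial Finset
open scoped Classical

variable {F : Type} [Field F] [Fintype F]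

theorem pol_coeff_gen {n : ℕ} (v : Fin n → F) (j : ℕ) :
    (pol v).coeff j = if h : j < n then v ⟨j, h⟩ else 0 := by
  unfold pol
  rw [finsetSum_coeff]
  by_cases h : j < n
  · rw [dif_pos h, Finset.sum_eq_single (⟨j, h⟩ : Fin n)]
    · rw [coeff_C_mul, coeff_X_pow, if_pos rfl, mul_one]
    · intro b _ hb
      rw [coeff_C_mul, coeff_X_pow, if_neg, mul_zero]
      intro h2
      exact hb (Fin.ext h2.symm)
    · intro h2
      exact absurd (Finset.mem_univ _) h2
  · rw [dif_neg h]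
    refine Finset.sum_eq_zero fun i _ => ?_
    rw [coeff_C_mul, coeff_X_pow, if_neg, mul_zero]
    intro h2
    exact h (h2 ▸ i.2)

theorem base_not_unit {P : F[X]} (hP : P.Monic ∧ Irreducible P) : 0 < P.natDegree :=
  hP.2.natDegree_pos

theorem base_eq_of_dvd {P Q : F[X]} (hP : P.Monic ∧ Irreducible P) (hQ : Q.Monic ∧ Irreducible Q)
    (h : P ∣ Q) : P = Q :=
  eq_of_monic_of_associated hP.1 hQ.1 ((hP.2.dvd_irreducible_iff_associated hQ.2).1 h)

theorem base_coprime {P Q : F[X]} (hP : P.Monic ∧ Irreducible P) (hQ : Q.Monic ∧ Irreducible Q)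
    (h : P ≠ Q) : IsCoprime P Q := by
  rw [hP.2.coprime_iff_not_dvd]
  intro h2
  exact h (base_eq_of_dvd hP hQ h2)

theorem pol_coeff {n : ℕ} (v : Fin n → F) (i : Fin n) : (pol v).coeff i = v i := by
  rw [pol_coeff_gen, dif_pos i.2]

theorem pol_degree_lt {n : ℕ} (v : Fin n → F) : (pol v).degree < n := by
  exact degree_sum_fin_lt v

theorem pol_surj {n : ℕ} (f : F[X]) (hf : f.degree < n) :
    pol (fun i : Fin n => f.coeff i) = f := by
  ext j
  rw [pol_coeff_gen]
  by_cases h : j < n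
  · rw [dif_pos h]
  · rw [dif_neg h]
    exact (coeff_eq_zero_of_degree_lt (hf.trans_le (by exact_mod_cast not_lt.1 h))).symm

theorem pol_inj {n : ℕ} : Function.Injective (pol : (Fin n → F) → F[X]) := by
  intro v v' h
  funext i
  rw [← pol_coeff v i, ← pol_coeff v' i, h]

theorem pol_add {n : ℕ} (v v' : Fin n → F) : pol (v + v') = pol v + pol v' := by
  ext j
  rw [coeff_add, pol_coeff_gen, pol_coeff_gen, pol_coeff_gen]
  by_cases h : j < n
  · simp only [dif_pos h, Pi.add_apply]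
  · simp only [dif_neg h, add_zero]

theorem pol_sub {n : ℕ} (v v' : Fin n → F) : pol (v - v') = pol v - pol v' := by
  ext j
  rw [coeff_sub, pol_coeff_gen, pol_coeff_gen, pol_coeff_gen]
  by_cases h : j < n
  · simp only [dif_pos h, Pi.sub_apply]
  · simp only [dif_neg h, sub_zero]

theorem pol_zero {n : ℕ} : pol (0 : Fin n → F) = 0 := by
  ext j
  rw [pol_coeff_gen]
  by_cases h : j < n
  · simp only [dif_pos h, Pi.zero_apply, coeff_zero]
  · simp only [dif_neg h, coeff_zero]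

/-- `pol` as an additive map -/
noncomputable def polHom (F : Type) [Field F] [Fintype F] (n : ℕ) : (Fin n → F) →+ F[X] where
  toFun := pol
  map_zero' := pol_zero
  map_add' := pol_add

theorem mem_irrs {n : ℕ} {P : F[X]} :
    P ∈ irrs F n ↔ P.Monic ∧ Irreducible P ∧ P.natDegree = n := by
  unfold irrs
  rw [Finset.mem_filter, Finset.mem_image]
  constructor
  · rintro ⟨⟨v, _, hv⟩, hirr⟩
    subst hv
    refine ⟨monic_X_pow_add (pol_degree_lt v), hirr, ?_⟩
    rw [natDegree_add_eq_left_of_degree_lt (by rw [degree_X_pow]; exact pol_degree_lt v),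
      natDegree_X_pow]
  · rintro ⟨hm, hi, hn⟩
    refine ⟨⟨fun i => P.coeff i, Finset.mem_univ _, ?_⟩, hi⟩
    ext j
    rw [coeff_add, coeff_X_pow, pol_coeff_gen]
    rcases lt_trichotomy j n with h | h | h
    · rw [if_neg h.ne, dif_pos h, zero_add]
    · subst h
      rw [if_pos rfl, dif_neg (lt_irrefl _), add_zero]
      have := hm.coeff_natDegree
      rw [hn] at this
      exact this.symm
    · rw [if_neg h.ne', dif_neg (not_lt.2 h.le), add_zero]
      exact (coeff_eq_zero_of_natDegree_lt (by rw [hn]; exact h)).symm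

theorem mem_PR {w R : ℕ} {P : F[X]} :
    P ∈ PR F w R ↔ P.Monic ∧ Irreducible P ∧ w < P.natDegree ∧ P.natDegree ≤ R := by
  unfold PR
  rw [Finset.mem_biUnion]
  constructor
  · rintro ⟨n, hn, hP⟩
    rw [mem_irrs] at hP
    rw [Finset.mem_Ioc] at hn
    obtain ⟨h1, h2, h3⟩ := hP
    exact ⟨h1, h2, by omega, by omega⟩
  · rintro ⟨h1, h2, h3, h4⟩
    exact ⟨P.natDegree, Finset.mem_Ioc.2 ⟨h3, h4⟩, mem_irrs.2 ⟨h1, h2, rfl⟩⟩

theorem PR_subset {w w' R R' : ℕ} (hw : w' ≤ w) (hR : R ≤ R') : PR F w R ⊆ PR F w' R' := by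
  intro P hP
  rw [mem_PR] at hP ⊢
  exact ⟨hP.1, hP.2.1, lt_of_le_of_lt hw hP.2.2.1, hP.2.2.2.trans hR⟩

theorem PR_split {w R : ℕ} (h : w ≤ R) : PR F 0 R = PR F 0 w ∪ PR F w R := by
  ext P
  rw [Finset.mem_union, mem_PR, mem_PR, mem_PR]
  constructor
  · rintro ⟨h1, h2, h3, h4⟩
    rcases Nat.lt_or_ge w P.natDegree with h5 | h5
    · exact Or.inr ⟨h1, h2, h5, h4⟩
    · exact Or.inl ⟨h1, h2, h3, h5⟩
  · rintro (⟨h1, h2, h3, h4⟩ | ⟨h1, h2, h3, h4⟩)
    · exact ⟨h1, h2, h3, h4.trans h⟩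
    · exact ⟨h1, h2, (Nat.zero_le w).trans_lt h3, h4⟩

theorem PR_disj {w R : ℕ} : Disjoint (PR F 0 w) (PR F w R) := by
  rw [Finset.disjoint_left]
  intro P h1 h2
  rw [mem_PR] at h1 h2
  exact absurd h1.2.2.2 (not_le.2 h2.2.2.1)

theorem card_ge_two : (2 : ℝ) ≤ (Fintype.card F : ℝ) := by
  exact_mod_cast Fintype.one_lt_card

theorem nrm_pos (P : F[X]) : 0 < nrm P := by
  exact pow_pos (lt_of_lt_of_le two_pos (card_ge_two (F := F))) _

theorem nrm_mul {P Q : F[X]} (hP : P ≠ 0) (hQ : Q ≠ 0) : nrm (P * Q) = nrm P * nrm Q := by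
  unfold nrm
  rw [natDegree_mul hP hQ, pow_add]

/-- `|P| ≥ 2` for a prime -/
theorem nrm_ge_two {w R : ℕ} {P : F[X]} (hP : P ∈ PR F w R) : 2 ≤ nrm P := by
  rw [mem_PR] at hP
  have h1 : 1 ≤ P.natDegree := by omega
  have h2 : (1 : ℝ) ≤ (Fintype.card F : ℝ) := by linarith [card_ge_two (F := F)]
  calc (2 : ℝ) ≤ (Fintype.card F : ℝ) := card_ge_two
    _ = (Fintype.card F : ℝ) ^ 1 := (pow_one _).symm
    _ ≤ (Fintype.card F : ℝ) ^ P.natDegree := pow_le_pow_right₀ h2 h1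

theorem vP_pos {w R : ℕ} {P : F[X]} (hP : P ∈ PR F w R) : 0 < vP P := by
  have := nrm_ge_two hP
  unfold vP
  exact one_div_pos.2 (by linarith)

theorem vP_le_one {w R : ℕ} {P : F[X]} (hP : P ∈ PR F w R) : vP P ≤ 1 := by
  have := nrm_ge_two hP
  unfold vP
  rw [div_le_one (by linarith)]
  linarith

/-- `v = (1 + v) / |P|` -/
theorem vP_eq {w R : ℕ} {P : F[X]} (hP : P ∈ PR F w R) : vP P = (1 + vP P) / nrm P := by
  have h := nrm_ge_two hP
  unfold vP
  have h1 : nrm P - 1 ≠ 0 := by linarith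
  have h2 : nrm P ≠ 0 := by linarith
  field_simp
  ring

theorem vP_le {w R : ℕ} {P : F[X]} (hP : P ∈ PR F w R) : vP P ≤ 2 / nrm P := by
  have h := nrm_ge_two hP
  unfold vP
  rw [div_le_div_iff₀ (by linarith) (by linarith)]
  linarith

theorem one_div_nrm_le {w R : ℕ} {P : F[X]} (hP : P ∈ PR F w R) : 1 / nrm P ≤ vP P := by
  have h := nrm_ge_two hP
  unfold vP
  exact one_div_le_one_div_of_le (by linarith) (by linarith)

theorem WW_monic (w : ℕ) : (WW F w).Monic := by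
  exact monic_prod_of_monic _ _ fun P hP => (mem_PR.1 hP).1

theorem WW_natDegree (w : ℕ) : (WW F w).natDegree = dg (PR F 0 w) := by
  exact natDegree_prod_of_monic _ _ fun P hP => (mem_PR.1 hP).1

theorem WW_not_dvd {w R : ℕ} {P : F[X]} (hP : P ∈ PR F w R) : ¬ P ∣ WW F w := by
  intro h
  rw [mem_PR] at hP
  obtain ⟨Q, hQ, hd⟩ := (hP.2.1.prime.dvd_finsetProd_iff _).1 h
  rw [mem_PR] at hQ
  have := base_eq_of_dvd ⟨hP.1, hP.2.1⟩ ⟨hQ.1, hQ.2.1⟩ hd
  subst this
  omega

/-- `|W| = om * φ (W)` -/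
theorem om_mul_phi (w : ℕ) :
    om F w * phi (PR F 0 w) = (Fintype.card F : ℝ) ^ (WW F w).natDegree := by
  rw [WW_natDegree, om, phi, dg, ← Finset.prod_mul_distrib, ← Finset.prod_pow_eq_pow_sum]
  refine Finset.prod_congr rfl fun P hP => ?_
  have h := nrm_ge_two hP
  have h1 : nrm P - 1 ≠ 0 := by linarith
  have h2 : (1 + vP P) * (nrm P - 1) = nrm P := by
    unfold vP
    field_simp
    ring
  rw [h2]
  rfl

theorem phi_pos {w R : ℕ} (s : Finset F[X]) (hs : s ⊆ PR F w R) : 0 < phi s := by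
  refine Finset.prod_pos fun P hP => ?_
  have := nrm_ge_two (hs hP)
  linarith

theorem om_pos (w : ℕ) : 0 < om F w := by
  refine Finset.prod_pos fun P hP => ?_
  have := vP_pos hP
  linarith

theorem one_le_om (w : ℕ) : 1 ≤ om F w := by
  unfold om
  have h : ∏ P ∈ PR F 0 w, (1 : ℝ) ≤ ∏ P ∈ PR F 0 w, (1 + vP P) := by
    refine Finset.prod_le_prod (fun _ _ => zero_le_one) fun P hP => ?_
    have := vP_pos hP
    linarith
  rwa [Finset.prod_const_one] at h

/-- products of distinct monic irreducibles dividing `n` divide `n` -/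
theorem prod_dvd_of_forall (s : Finset F[X]) (hs : ∀ P ∈ s, P.Monic ∧ Irreducible P) (n : F[X])
    (h : ∀ P ∈ s, P ∣ n) : (∏ P ∈ s, P) ∣ n := by
  refine Finset.prod_dvd_of_coprime ?_ h
  intro P hP Q hQ hne
  exact base_coprime (hs P hP) (hs Q hQ) hne

/-- distinct monic irreducibles are coprime -/
theorem isCoprime_prod {P : F[X]} (hP : P.Monic ∧ Irreducible P) (s : Finset F[X])
    (hs : ∀ Q ∈ s, Q.Monic ∧ Irreducible Q) (h : P ∉ s) : IsCoprime P (∏ Q ∈ s, Q) := by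
  refine IsCoprime.prod_right fun Q hQ => ?_
  refine base_coprime hP (hs Q hQ) ?_
  rintro rfl
  exact h hQ

theorem prod_natDegree (s : Finset F[X]) (hs : ∀ P ∈ s, P.Monic ∧ Irreducible P) :
    (∏ P ∈ s, P).natDegree = dg s := by
  exact natDegree_prod_of_monic _ _ fun P hP => (hs P hP).1

/-- a nonzero constant is not divisible by a prime -/
theorem not_dvd_C {w R : ℕ} {P : F[X]} (hP : P ∈ PR F w R) {a : F} (ha : a ≠ 0) :
    ¬ P ∣ (C a : F[X]) := by
  intro h
  rw [mem_PR] at hP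
  exact hP.2.1.not_isUnit (isUnit_of_dvd_unit h (isUnit_C.2 (isUnit_iff_ne_zero.2 ha)))

end Pool.Agent.H10.FF
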