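import Mathlib

/-!
JOB FF-B4 (MP_a1f59e_nt). The core lemma (pure finite combinatorics, no polynomials).

`ι` = set of primes, `Ω` = set of local patterns, `o0` = trivial pattern, `M0` = set of main patterns. A global pattern is
`c : ι → Ω`; `res c` replaces the non-main local patterns by `o0`.

PROOF of `core`. Let `t = res c`, `Z = {P | c P ∉ M0}`. `|wt c * ∏ e P (c P)| ≤ Wt t * ∏_P |e P (t P)| * ∏_P y_P(c P)` with
`y_P(ω) = 1` if `ω ∈ M0`, `τ P` otherwise (`e P o0 = 1`). So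
`∑ over c not main ≤ ∑ over main t, Wt t ∏ |e P (t P)| * (∑ over c with res c = t, c ≠ t, ∏ y_P (c P))` and
`∑ over c with res c = t of ∏ y_P(c P) = ∏_P ∑ over ω with res ω = t P of y_P(ω) ≤ ∏_P (1 + card Ω * τ P)`
(`Finset.prod_univ_sum` / `Fintype.piFinset`), and the term `c = t` is `1`. For every `c` not main, `res c ≠ c`, `res c` is main.
`core_le` / `core_ge` are direct consequences. ~130 lines.
-/

namespace Pool.Agent.H10.FF

open Finset

section

variable {ι Ω : Type} [Fintype ι] [DecidableEq ι] [Fintype Ω] [DecidableEq Ω]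

/-- replace the non-main patterns by the trivial one -/
def res (o0 : Ω) (M0 : Finset Ω) (c : ι → Ω) : ι → Ω := fun P => if c P ∈ M0 then c P else o0

omit [Fintype ι] [DecidableEq ι] [Fintype Ω] in
private theorem core_res_main (o0 : Ω) (M0 : Finset Ω) (ho : o0 ∈ M0) (c : ι → Ω) (P : ι) :
    res o0 M0 c P ∈ M0 := by
  unfold res
  by_cases h : c P ∈ M0
  · rw [if_pos h]; exact h
  · rw [if_neg h]; exact ho

omit [Fintype ι] [DecidableEq ι] [Fintype Ω] in
private theorem core_res_eq (o0 : Ω) (M0 : Finset Ω) (c : ι → Ω) (h : ∀ P, c P ∈ M0) :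
    res o0 M0 c = c := by
  funext P
  unfold res
  rw [if_pos (h P)]

/-- the local factor -/
private def coreY (M0 : Finset Ω) (τ : ι → ℝ) (P : ι) (ω : Ω) : ℝ := if ω ∈ M0 then 1 else τ P

omit [Fintype ι] [DecidableEq ι] in
private theorem core_loc (o0 : Ω) (M0 : Finset Ω) (τ : ι → ℝ) (hτ0 : ∀ P, 0 ≤ τ P) (P : ι) (s : Ω) :
    ∑ ω ∈ univ.filter (fun ω => (if ω ∈ M0 then ω else o0) = s), coreY M0 τ P ω ≤
      1 + (Fintype.card Ω : ℝ) * τ P := by
  rw [Finset.sum_filter]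
  calc ∑ ω, (if (if ω ∈ M0 then ω else o0) = s then coreY M0 τ P ω else 0)
      ≤ ∑ ω, ((if ω = s then (1 : ℝ) else 0) + τ P) := by
        refine Finset.sum_le_sum fun ω _ => ?_
        unfold coreY
        by_cases h : ω ∈ M0
        · simp only [if_pos h]
          by_cases h2 : ω = s
          · simp only [if_pos h2]
            linarith [hτ0 P]
          · simp only [if_neg h2]
            linarith [hτ0 P]
        · simp only [if_neg h]
          have h3 : (0 : ℝ) ≤ (if ω = s then (1 : ℝ) else 0) := by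
            split_ifs
            · exact zero_le_one
            · exact le_rfl
          by_cases h2 : o0 = s
          · rw [if_pos h2]
            linarith
          · rw [if_neg h2]
            linarith [hτ0 P]
    _ = 1 + (Fintype.card Ω : ℝ) * τ P := by
        rw [Finset.sum_add_distrib, Finset.sum_ite_eq' univ s, if_pos (Finset.mem_univ s),
          Finset.sum_const, Finset.card_univ, nsmul_eq_mul]

private theorem core_fiber (o0 : Ω) (M0 : Finset Ω) (τ : ι → ℝ) (hτ0 : ∀ P, 0 ≤ τ P) (t : ι → Ω) :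
    ∑ c ∈ univ.filter (fun c : ι → Ω => res o0 M0 c = t), ∏ P, coreY M0 τ P (c P) ≤
      ∏ P, (1 + (Fintype.card Ω : ℝ) * τ P) := by
  have h1 : univ.filter (fun c : ι → Ω => res o0 M0 c = t) =
      Fintype.piFinset (fun P => univ.filter (fun ω => (if ω ∈ M0 then ω else o0) = t P)) := by
    ext c
    rw [Fintype.mem_piFinset, Finset.mem_filter]
    constructor
    · rintro ⟨_, h⟩ P
      rw [Finset.mem_filter]
      exact ⟨Finset.mem_univ _, congrFun h P⟩
    · intro h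
      refine ⟨Finset.mem_univ _, funext fun P => ?_⟩
      exact (Finset.mem_filter.1 (h P)).2
  rw [h1, ← Finset.prod_univ_sum]
  refine Finset.prod_le_prod (fun P _ => Finset.sum_nonneg fun ω _ => ?_) fun P _ =>
    core_loc o0 M0 τ hτ0 P (t P)
  unfold coreY
  split_ifs
  · exact zero_le_one
  · exact hτ0 P

theorem core (o0 : Ω) (M0 : Finset Ω) (ho : o0 ∈ M0) (e : ι → Ω → ℝ) (he0 : ∀ P, e P o0 = 1)
    (τ : ι → ℝ) (hτ0 : ∀ P, 0 ≤ τ P) (hτ : ∀ P, ∀ ω ∉ M0, |e P ω| ≤ τ P)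
    (wt Wt : (ι → Ω) → ℝ) (hw : ∀ c, |wt c| ≤ Wt (res o0 M0 c)) (hW : ∀ c, 0 ≤ Wt c) :
    |∑ c : ι → Ω, wt c * ∏ P, e P (c P) -
        ∑ c ∈ univ.filter (fun c : ι → Ω => ∀ P, c P ∈ M0), wt c * ∏ P, e P (c P)| ≤
      (∏ P, (1 + (Fintype.card Ω : ℝ) * τ P) - 1) *
        ∑ c ∈ univ.filter (fun c : ι → Ω => ∀ P, c P ∈ M0), Wt c * ∏ P, |e P (c P)| := by
  have hy0 : ∀ (P : ι) (ω : Ω), 0 ≤ coreY M0 τ P ω := by
    intro P ω
    unfold coreY
    split_ifs
    · exact zero_le_one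
    · exact hτ0 P
  -- the sum over the non-main patterns
  have h1 : ∑ c : ι → Ω, wt c * ∏ P, e P (c P) -
        ∑ c ∈ univ.filter (fun c : ι → Ω => ∀ P, c P ∈ M0), wt c * ∏ P, e P (c P) =
      ∑ c ∈ univ.filter (fun c : ι → Ω => ¬ ∀ P, c P ∈ M0), wt c * ∏ P, e P (c P) := by
    rw [← Finset.sum_filter_add_sum_filter_not univ (fun c : ι → Ω => ∀ P, c P ∈ M0)]
    ring
  rw [h1]
  -- pointwise bound
  have h2 : ∀ c : ι → Ω, |wt c * ∏ P, e P (c P)| ≤
      (Wt (res o0 M0 c) * ∏ P, |e P (res o0 M0 c P)|) * ∏ P, coreY M0 τ P (c P) := by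
    intro c
    rw [abs_mul, Finset.abs_prod, mul_assoc, ← Finset.prod_mul_distrib]
    refine mul_le_mul (hw c) ?_ (Finset.prod_nonneg fun P _ => abs_nonneg _) (hW _)
    refine Finset.prod_le_prod (fun P _ => abs_nonneg _) fun P _ => ?_
    unfold res coreY
    by_cases h : c P ∈ M0
    · simp only [if_pos h, mul_one]
      exact le_rfl
    · simp only [if_neg h, he0, abs_one, one_mul]
      exact hτ P _ h
  have hB : ∀ t : ι → Ω, 0 ≤ Wt t * ∏ P, |e P (t P)| := fun t =>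
    mul_nonneg (hW t) (Finset.prod_nonneg fun P _ => abs_nonneg _)
  calc |∑ c ∈ univ.filter (fun c : ι → Ω => ¬ ∀ P, c P ∈ M0), wt c * ∏ P, e P (c P)|
      ≤ ∑ c ∈ univ.filter (fun c : ι → Ω => ¬ ∀ P, c P ∈ M0), |wt c * ∏ P, e P (c P)| :=
        Finset.abs_sum_le_sum_abs _ _
    _ ≤ ∑ c ∈ univ.filter (fun c : ι → Ω => ¬ ∀ P, c P ∈ M0),
        (Wt (res o0 M0 c) * ∏ P, |e P (res o0 M0 c P)|) * ∏ P, coreY M0 τ P (c P) :=
        Finset.sum_le_sum fun c _ => h2 c
    _ = ∑ t ∈ univ.filter (fun c : ι → Ω => ∀ P, c P ∈ M0),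
        ∑ c ∈ (univ.filter (fun c : ι → Ω => ¬ ∀ P, c P ∈ M0)).filter
          (fun c => res o0 M0 c = t),
        (Wt (res o0 M0 c) * ∏ P, |e P (res o0 M0 c P)|) * ∏ P, coreY M0 τ P (c P) := by
        rw [Finset.sum_fiberwise_of_maps_to]
        intro c _
        rw [Finset.mem_filter]
        exact ⟨Finset.mem_univ _, core_res_main o0 M0 ho c⟩
    _ ≤ ∑ t ∈ univ.filter (fun c : ι → Ω => ∀ P, c P ∈ M0),
        (∏ P, (1 + (Fintype.card Ω : ℝ) * τ P) - 1) * (Wt t * ∏ P, |e P (t P)|) := by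
        refine Finset.sum_le_sum fun t ht => ?_
        have htm := (Finset.mem_filter.1 ht).2
        have h3 : ∑ c ∈ (univ.filter (fun c : ι → Ω => ¬ ∀ P, c P ∈ M0)).filter
            (fun c => res o0 M0 c = t),
            (Wt (res o0 M0 c) * ∏ P, |e P (res o0 M0 c P)|) * ∏ P, coreY M0 τ P (c P) =
            (∑ c ∈ (univ.filter (fun c : ι → Ω => ¬ ∀ P, c P ∈ M0)).filter
            (fun c => res o0 M0 c = t), ∏ P, coreY M0 τ P (c P)) *
              (Wt t * ∏ P, |e P (t P)|) := by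
          rw [Finset.sum_mul]
          refine Finset.sum_congr rfl fun c hc => ?_
          rw [(Finset.mem_filter.1 hc).2, mul_comm]
        rw [h3]
        refine mul_le_mul_of_nonneg_right ?_ (hB t)
        have h4 : (univ.filter (fun c : ι → Ω => res o0 M0 c = t)) =
            insert t ((univ.filter (fun c : ι → Ω => ¬ ∀ P, c P ∈ M0)).filter
            (fun c => res o0 M0 c = t)) := by
          ext c
          rw [Finset.mem_insert, Finset.mem_filter, Finset.mem_filter, Finset.mem_filter]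
          constructor
          · rintro ⟨_, h⟩
            by_cases hc : ∀ P, c P ∈ M0
            · left
              rw [← h, core_res_eq o0 M0 c hc]
            · right
              exact ⟨⟨Finset.mem_univ _, hc⟩, h⟩
          · rintro (h | h)
            · subst h
              exact ⟨Finset.mem_univ _, core_res_eq o0 M0 c htm⟩
            · exact ⟨Finset.mem_univ _, h.2⟩
        have h5 := core_fiber o0 M0 τ hτ0 t
        rw [h4, Finset.sum_insert (by
          rw [Finset.mem_filter, Finset.mem_filter]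
          rintro ⟨⟨_, h⟩, _⟩
          exact h htm)] at h5
        have h6 : ∏ P, coreY M0 τ P (t P) = 1 := by
          refine Finset.prod_eq_one fun P _ => ?_
          unfold coreY
          rw [if_pos (htm P)]
        rw [h6] at h5
        linarith
    _ = _ := by rw [Finset.mul_sum]

/-- upper bound when the main terms are dominated by `Wt` -/
theorem core_le (o0 : Ω) (M0 : Finset Ω) (ho : o0 ∈ M0) (e : ι → Ω → ℝ) (he0 : ∀ P, e P o0 = 1)
    (τ : ι → ℝ) (hτ0 : ∀ P, 0 ≤ τ P) (hτ : ∀ P, ∀ ω ∉ M0, |e P ω| ≤ τ P)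
    (wt Wt : (ι → Ω) → ℝ) (hw : ∀ c, |wt c| ≤ Wt (res o0 M0 c)) (hW : ∀ c, 0 ≤ Wt c) :
    |∑ c : ι → Ω, wt c * ∏ P, e P (c P)| ≤
      (∏ P, (1 + (Fintype.card Ω : ℝ) * τ P)) *
        ∑ c ∈ univ.filter (fun c : ι → Ω => ∀ P, c P ∈ M0), Wt c * ∏ P, |e P (c P)| := by
  have h1 := core o0 M0 ho e he0 τ hτ0 hτ wt Wt hw hW
  have h2 : |∑ c ∈ univ.filter (fun c : ι → Ω => ∀ P, c P ∈ M0), wt c * ∏ P, e P (c P)| ≤
      ∑ c ∈ univ.filter (fun c : ι → Ω => ∀ P, c P ∈ M0), Wt c * ∏ P, |e P (c P)| := by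
    refine (Finset.abs_sum_le_sum_abs _ _).trans (Finset.sum_le_sum fun c hc => ?_)
    rw [abs_mul, Finset.abs_prod]
    refine mul_le_mul_of_nonneg_right ?_ (Finset.prod_nonneg fun P _ => abs_nonneg _)
    have h3 := hw c
    rwa [core_res_eq o0 M0 c (Finset.mem_filter.1 hc).2] at h3
  have h3 := abs_sub_abs_le_abs_sub (∑ c : ι → Ω, wt c * ∏ P, e P (c P))
    (∑ c ∈ univ.filter (fun c : ι → Ω => ∀ P, c P ∈ M0), wt c * ∏ P, e P (c P))
  nlinarith [h1, h2, h3]

/-- lower bound when `wt ≥ 0` decreases under adding non-main patterns and the main `e` are nonnegative -/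
theorem core_ge (o0 : Ω) (M0 : Finset Ω) (ho : o0 ∈ M0) (e : ι → Ω → ℝ) (he0 : ∀ P, e P o0 = 1)
    (hem : ∀ P, ∀ ω ∈ M0, 0 ≤ e P ω)
    (τ : ι → ℝ) (hτ0 : ∀ P, 0 ≤ τ P) (hτ : ∀ P, ∀ ω ∉ M0, |e P ω| ≤ τ P)
    (wt : (ι → Ω) → ℝ) (hw0 : ∀ c, 0 ≤ wt c) (hw : ∀ c, wt c ≤ wt (res o0 M0 c)) :
    (2 - ∏ P, (1 + (Fintype.card Ω : ℝ) * τ P)) *
        ∑ c ∈ univ.filter (fun c : ι → Ω => ∀ P, c P ∈ M0), wt c * ∏ P, e P (c P) ≤
      ∑ c : ι → Ω, wt c * ∏ P, e P (c P) := by
  have h1 := core o0 M0 ho e he0 τ hτ0 hτ wt wt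
    (fun c => by rw [abs_of_nonneg (hw0 c)]; exact hw c) hw0
  have h2 : ∑ c ∈ univ.filter (fun c : ι → Ω => ∀ P, c P ∈ M0), wt c * ∏ P, |e P (c P)| =
      ∑ c ∈ univ.filter (fun c : ι → Ω => ∀ P, c P ∈ M0), wt c * ∏ P, e P (c P) := by
    refine Finset.sum_congr rfl fun c hc => ?_
    congr 1
    refine Finset.prod_congr rfl fun P _ => ?_
    exact abs_of_nonneg (hem P _ ((Finset.mem_filter.1 hc).2 P))
  rw [h2] at h1
  have h3 := (abs_le.1 h1).1
  nlinarith [h3]

end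

end Pool.Agent.H10.FF
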