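import Mathlib

/-! # Project FF (MP_a1f59e_nt): definitions

`F` is a finite field with `q` elements.  All definitions are about `F[X]`.
-/

namespace Pool.Agent.H10.FF

open Polynomial Finset
open scoped Classical

variable {F : Type} [Field F] [Fintype F]

/-- polynomial with coefficient vector `v` -/
noncomputable def pol {n : ℕ} (v : Fin n → F) : F[X] := ∑ i, C (v i) * X ^ (i : ℕ)

/-- monic irreducible polynomials of degree `n` -/
noncomputable def irrs (F : Type) [Field F] [Fintype F] (n : ℕ) : Finset F[X] :=
  (Finset.univ.image (fun v : Fin n → F => X ^ n + pol v)).filter Irreducible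

/-- monic irreducible polynomials with degree in `(w, R]` -/
noncomputable def PR (F : Type) [Field F] [Fintype F] (w R : ℕ) : Finset F[X] :=
  (Finset.Ioc w R).biUnion (irrs F)

/-- norm `q ^ deg` -/
noncomputable def nrm (P : F[X]) : ℝ := (Fintype.card F : ℝ) ^ P.natDegree

/-- degree of the product of a finset of polynomials -/
noncomputable def dg (s : Finset F[X]) : ℕ := ∑ P ∈ s, P.natDegree

/-- Euler function of the product of a finset of primes -/
noncomputable def phi (s : Finset F[X]) : ℝ := ∏ P ∈ s, (nrm P - 1)

end Pool.Agent.H10.FF
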