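import Pool.Agent.H10.FF.Defs

/-! # Project FF (MP_a1f59e_nt): definitions for the sieve part -/

namespace Pool.Agent.H10.FF

open Polynomial Finset
open scoped Classical

variable {F : Type} [Field F] [Fintype F]

/-- average over a finite type -/
noncomputable def av {X : Type} [Fintype X] (f : X → ℝ) : ℝ := (∑ x, f x) / (Fintype.card X : ℝ)

/-- `1 / (|P| - 1)` -/
noncomputable def vP (P : F[X]) : ℝ := 1 / (nrm P - 1)

/-- centered local function: `-1` if `P ∣ n`, `1 / (|P| - 1)` otherwise -/
noncomputable def uu (P n : F[X]) : ℝ := if P ∣ n then -1 else vP P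

/-- `∏ (1 + v_P)` over the primes of degree at most `w`, that is `|W| / φ (W)` -/
noncomputable def om (F : Type) [Field F] [Fintype F] (w : ℕ) : ℝ := ∏ P ∈ PR F 0 w, (1 + vP P)

/-- product of the monic irreducibles of degree at most `w` -/
noncomputable def WW (F : Type) [Field F] [Fintype F] (w : ℕ) : F[X] := ∏ P ∈ PR F 0 w, P

/-- sets of primes with degrees in `(w, R]` and total degree at most `J` -/
noncomputable def PS (F : Type) [Field F] [Fintype F] (w R J : ℕ) : Finset (Finset F[X]) :=
  (PR F w R).powerset.filter (fun t => dg t ≤ J)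

/-- weighted sum `∑ g (deg t) ∏ v_P` over sets of primes -/
noncomputable def TS (F : Type) [Field F] [Fintype F] (w R J : ℕ) (g : ℕ → ℝ) : ℝ :=
  ∑ t ∈ PS F w R J, g (dg t) * ∏ P ∈ t, vP P

/-- `∑ ∏ v_P` over sets of primes of total degree at most `D` -/
noncomputable def SS (F : Type) [Field F] [Fintype F] (w D : ℕ) : ℝ :=
  ∑ t ∈ PS F w D D, ∏ P ∈ t, vP P

/-- the tail product `∏ (1 + C v_P ^ 2)` -/
noncomputable def tt (F : Type) [Field F] [Fintype F] (C : ℝ) (w R : ℕ) : ℝ :=
  ∏ P ∈ PR F w R, (1 + C * vP P ^ 2)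

/-- the truncated divisor sum of the majorant -/
noncomputable def GG (w D : ℕ) (n : F[X]) : ℝ := ∑ t ∈ PS F w D D, ∏ P ∈ t, uu P n

/-- the `k`-tuple `W (X ^ N + pol x) + s i` -/
noncomputable def nn {K : Type} (w N : ℕ) (s : K → F[X]) (x : Fin N → F) (i : K) : F[X] :=
  WW F w * (X ^ N + pol x) + s i

/-- the majorant -/
noncomputable def nu {K : Type} [Fintype K] (w N D : ℕ) (s : K → F[X]) (x : Fin N → F) : ℝ :=
  ∏ i : K, GG w D (nn w N s x i) ^ 2 / SS F w D

/-- the differences of the shifts are prime to the primes of degree in `(w, R]` -/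
def Dif {K : Type} (w R : ℕ) (s : K → F[X]) : Prop :=
  ∀ i j, i ≠ j → ∀ P ∈ PR F w R, ¬ P ∣ s i - s j

/-- the primes with degree in `(w, R]` as a type -/
abbrev Ix (F : Type) [Field F] [Fintype F] (w R : ℕ) : Type := {P : F[X] // P ∈ PR F w R}

/-- degree of the colour class `i` -/
noncomputable def dgi {K : Type} {w R : ℕ} (c : Ix F w R → Option K) (i : K) : ℕ :=
  ∑ P : Ix F w R, if c P = some i then P.1.natDegree else 0

/-- total degree of a coloured set -/
noncomputable def dgt {K : Type} {w R : ℕ} (c : Ix F w R → Option K) : ℕ :=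
  ∑ P : Ix F w R, if c P = none then 0 else P.1.natDegree

/-- `1 / (1 + α d)` -/
noncomputable def bet (α : ℝ) (d : ℕ) : ℝ := 1 / (1 + α * d)

/-- the weights of the sieve -/
noncomputable def BB {K : Type} [Fintype K] {w R : ℕ} (α : ℝ) (c : Ix F w R → Option K) : ℝ :=
  (∏ i : K, bet α (dgi c i)) * max 0 (1 - (dgt c : ℝ) / (R : ℝ))

/-- a majorant of the weights -/
noncomputable def Bs {K : Type} [Fintype K] {w R : ℕ} (α : ℝ) (c : Ix F w R → Option K) : ℝ :=
  if dgt c ≤ R then ∏ i : K, bet α (dgi c i) else 0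

/-- local factor of a coloured set -/
noncomputable def UU {K : Type} (P : F[X]) (n : K → F[X]) (o : Option K) : ℝ :=
  o.elim 1 (fun i => uu P (n i))

/-- the sieve function -/
noncomputable def Phi {K : Type} [Fintype K] (w R : ℕ) (α : ℝ) (n : K → F[X]) : ℝ :=
  ∑ c : Ix F w R → Option K, BB α c * ∏ P : Ix F w R, UU P.1 n (c P)

/-- `∑ β (deg t) ^ 2 ∏ v_P` -/
noncomputable def Gam (F : Type) [Field F] [Fintype F] (w R : ℕ) (α : ℝ) : ℝ :=
  TS F w R R (fun d => bet α d ^ 2)

/-- local second moments -/
noncomputable def e1 {K : Type} (P : F[X]) (o o' : Option K) : ℝ :=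
  if o = o' then (if o = none then 1 else vP P)
  else if o = none ∨ o' = none then 0 else -(vP P) ^ 2

/-- value of `UU P` with colour `o` when `P` divides `n i` (`j = some i`) or none of the `n` (`j = none`) -/
noncomputable def vv {K : Type} (P : F[X]) (j o : Option K) : ℝ :=
  if o = none then 1 else if o = j then -1 else vP P

/-- coefficients of the expansion of `UU P n o * UU P n o'` in the indicators of `P ∣ n i`, `i ≠ l` -/
noncomputable def Aco {K : Type} (P : F[X]) (l : K) (o o' j : Option K) : ℝ :=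
  if j = none then vv P none o * vv P none o'
  else if j = some l then 0
  else vv P j o * vv P j o' - vv P none o * vv P none o'

/-- local second moments on the residue classes where `n l` is prime to `P` -/
noncomputable def e2 {K : Type} [Fintype K] (P : F[X]) (l : K) (o o' : Option K) : ℝ :=
  Aco P l o o' none + ∑ i : K, Aco P l o o' (some i) * vP P

/-- main patterns for the second moment with `n l` irreducible -/
def M2 {K : Type} (l : K) : Set (Option K × Option K) :=
  {o | o.1 = o.2 ∨ ((o.1 = none ∨ o.1 = some l) ∧ (o.2 = none ∨ o.2 = some l))}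

end Pool.Agent.H10.FF
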