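import Pool.Agent.H10.FF.Ixs

/-!
JOB FF-C5 (MP_a1f59e_nt). The local averages `e2` and the expansion coefficients `Aco`.

`0 < v ≤ 1` for `P ∈ PR F w R`. VALUES (direct from the definitions, `l` fixed, `i, j ≠ l`):
`e2 none none = 1`, `e2 (some l) none = e2 none (some l) = v`, `e2 (some l) (some l) = v ^ 2`, `e2 (some i) (some i) = v ^ 2 + (1 - v ^ 2) v ≥ v`,
`e2 (some i) none = v - (1 + v) v = -v ^ 2`, `e2 (some i) (some j) = v ^ 2 - 2 (v + v ^ 2) v = -v ^ 2 - 2 v ^ 3` (`i ≠ j`),
`e2 (some l) (some i) = v (v - (1 + v) v) = -v ^ 3`. (In the sum over `i : K` in the definition of `e2` at most two terms are nonzero: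
the coefficient of `some k` vanishes if `k = l` or `k` is not one of the colours `o`, `o'`.)
`Aco_none`: `|Aco none| ≤ v` unless `o = o' = none`; `Aco_some`: `|Aco (some i)| ≤ 2` (`|1 - v ^ 2|`, `|-1 - v|`, `|-v - v ^ 2|`), and it
vanishes for `o = o' = none`. `UU_expand`: if `P ∤ n l` and `P` divides at most one of the `n i`, then
`UU P n o * UU P n o' = ∑_{j : Option K} Aco P l o o' j * ind P n j`. ~180 lines.
-/

namespace Pool.Agent.H10.FF

open Polynomial Finset
open scoped Classical

variable {F : Type} [Field F] [Fintype F] {K : Type} [Fintype K] [DecidableEq K]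

/-- indicator of `P ∣ n i` for `some i`, `1` for `none` -/
noncomputable def ind (P : F[X]) (n : K → F[X]) (j : Option K) : ℝ :=
  j.elim 1 (fun i => if P ∣ n i then 1 else 0)

private theorem vv_none' (P : F[X]) (j : Option K) : vv P j none = 1 := by
  unfold vv
  rw [if_pos rfl]

private theorem vv_none_some (P : F[X]) (a : K) : vv P none (some a) = vP P := by
  unfold vv
  rw [if_neg (by simp), if_neg (by simp)]

private theorem vv_some_same (P : F[X]) (a : K) : vv P (some a) (some a) = -1 := by
  unfold vv
  rw [if_neg (by simp), if_pos rfl]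

private theorem vv_some_ne (P : F[X]) {a i : K} (h : a ≠ i) : vv P (some i) (some a) = vP P := by
  unfold vv
  rw [if_neg (by simp), if_neg (by simpa using h)]

private theorem Aco_val_none (P : F[X]) (l : K) (o o' : Option K) :
    Aco P l o o' none = vv P none o * vv P none o' := by
  unfold Aco
  rw [if_pos rfl]

private theorem Aco_val_l (P : F[X]) (l : K) (o o' : Option K) :
    Aco P l o o' (some l) = 0 := by
  unfold Aco
  rw [if_neg (by simp), if_pos rfl]

private theorem Aco_val_some (P : F[X]) {l i : K} (h : i ≠ l) (o o' : Option K) :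
    Aco P l o o' (some i) =
      vv P (some i) o * vv P (some i) o' - vv P none o * vv P none o' := by
  unfold Aco
  rw [if_neg (by simp), if_neg (by simpa using h)]

private theorem e2_nn (P : F[X]) (l : K) : e2 P l none none = 1 := by
  unfold e2
  have h : ∀ i : K, Aco P l none none (some i) * vP P = 0 := by
    intro i
    by_cases hi : i = l
    · subst hi
      rw [Aco_val_l, zero_mul]
    · rw [Aco_val_some P hi, vv_none', vv_none']
      ring
  rw [Finset.sum_congr rfl fun i _ => h i, Finset.sum_const_zero, Aco_val_none, vv_none']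
  ring

private theorem e2_sn (P : F[X]) (l a : K) :
    e2 P l (some a) none = if a = l then vP P else -(vP P) ^ 2 := by
  unfold e2
  have h : ∀ i : K, Aco P l (some a) none (some i) * vP P =
      if i = a then (if a = l then 0 else (-1 - vP P) * vP P) else 0 := by
    intro i
    by_cases hi : i = l
    · subst hi
      rw [Aco_val_l, zero_mul]
      by_cases h2 : i = a
      · rw [if_pos h2, if_pos h2.symm]
      · rw [if_neg h2]
    · rw [Aco_val_some P hi, vv_none', vv_none', vv_none_some]
      by_cases h2 : i = a
      · subst h2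
        rw [vv_some_same, if_pos rfl, if_neg hi]
        ring
      · rw [vv_some_ne P (Ne.symm h2), if_neg h2]
        ring
  rw [Finset.sum_congr rfl fun i _ => h i, Finset.sum_ite_eq' Finset.univ a,
    if_pos (Finset.mem_univ _), Aco_val_none, vv_none', vv_none_some]
  by_cases h2 : a = l
  · rw [if_pos h2, if_pos h2]
    ring
  · rw [if_neg h2, if_neg h2]
    ring

private theorem e2_ns (P : F[X]) (l a : K) :
    e2 P l none (some a) = if a = l then vP P else -(vP P) ^ 2 := by
  rw [← e2_sn P l a]
  unfold e2
  congr 1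
  · rw [Aco_val_none, Aco_val_none, mul_comm]
  · refine Finset.sum_congr rfl fun i _ => ?_
    by_cases hi : i = l
    · subst hi
      rw [Aco_val_l, Aco_val_l]
    · rw [Aco_val_some P hi, Aco_val_some P hi]
      ring

private theorem e2_ss (P : F[X]) (l a : K) :
    e2 P l (some a) (some a) =
      if a = l then (vP P) ^ 2 else (vP P) ^ 2 + (1 - (vP P) ^ 2) * vP P := by
  unfold e2
  have h : ∀ i : K, Aco P l (some a) (some a) (some i) * vP P =
      if i = a then (if a = l then 0 else (1 - (vP P) ^ 2) * vP P) else 0 := by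
    intro i
    by_cases hi : i = l
    · subst hi
      rw [Aco_val_l, zero_mul]
      by_cases h2 : i = a
      · rw [if_pos h2, if_pos h2.symm]
      · rw [if_neg h2]
    · rw [Aco_val_some P hi, vv_none_some]
      by_cases h2 : i = a
      · subst h2
        rw [vv_some_same, if_pos rfl, if_neg hi]
        ring
      · rw [vv_some_ne P (Ne.symm h2), if_neg h2]
        ring
  rw [Finset.sum_congr rfl fun i _ => h i, Finset.sum_ite_eq' Finset.univ a,
    if_pos (Finset.mem_univ _), Aco_val_none, vv_none_some]
  by_cases h2 : a = l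
  · rw [if_pos h2, if_pos h2]
    ring
  · rw [if_neg h2, if_neg h2]
    ring

private theorem e2_st (P : F[X]) (l : K) {a b : K} (hab : a ≠ b) :
    e2 P l (some a) (some b) = (vP P) ^ 2 +
      (if a = l then 0 else (-(vP P) - (vP P) ^ 2) * vP P) +
      (if b = l then 0 else (-(vP P) - (vP P) ^ 2) * vP P) := by
  unfold e2
  have h : ∀ i : K, Aco P l (some a) (some b) (some i) * vP P =
      (if i = a then (if a = l then 0 else (-(vP P) - (vP P) ^ 2) * vP P) else 0) +
      (if i = b then (if b = l then 0 else (-(vP P) - (vP P) ^ 2) * vP P) else 0) := by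
    intro i
    by_cases hi : i = l
    · subst hi
      rw [Aco_val_l, zero_mul]
      by_cases h2 : i = a
      · subst h2
        rw [if_pos rfl, if_pos rfl, if_neg hab]
        ring
      · rw [if_neg h2]
        by_cases h3 : i = b
        · subst h3
          rw [if_pos rfl, if_pos rfl]
          ring
        · rw [if_neg h3]
          ring
    · rw [Aco_val_some P hi, vv_none_some, vv_none_some]
      by_cases h2 : i = a
      · subst h2
        rw [vv_some_same, vv_some_ne P (Ne.symm hab), if_pos rfl, if_neg hi, if_neg hab]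
        ring
      · rw [vv_some_ne P (Ne.symm h2), if_neg h2]
        by_cases h3 : i = b
        · subst h3
          rw [vv_some_same, if_pos rfl, if_neg hi]
          ring
        · rw [vv_some_ne P (Ne.symm h3), if_neg h3]
          ring
  rw [Finset.sum_congr rfl fun i _ => h i, Finset.sum_add_distrib,
    Finset.sum_ite_eq' Finset.univ a, Finset.sum_ite_eq' Finset.univ b,
    if_pos (Finset.mem_univ _), if_pos (Finset.mem_univ _), Aco_val_none, vv_none_some,
    vv_none_some]
  ring

theorem e2_none {P : F[X]} (l : K) : e2 P l none none = 1 := by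
  exact e2_nn P l

/-- the pairs of colours in `{none, l}` factor -/
theorem e2_l {w R : ℕ} {P : F[X]} (hP : P ∈ PR F w R) (l : K) (s s' : Bool) :
    e2 P l (if s then some l else none) (if s' then some l else none) =
      (if s then vP P else 1) * (if s' then vP P else 1) := by
  cases s <;> cases s'
  · simp [e2_nn]
  · simp [e2_ns]
  · simp [e2_sn]
  · simp [e2_ss, sq]

theorem e2_diag {w R : ℕ} {P : F[X]} (hP : P ∈ PR F w R) (l i : K) (hi : i ≠ l) :
    vP P ≤ e2 P l (some i) (some i) := by
  have h0 := vP_pos hP
  have h1 := vP_le_one hP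
  rw [e2_ss, if_neg hi]
  nlinarith [mul_nonneg (sq_nonneg (vP P)) (sub_nonneg.2 h1)]

theorem e2_nonneg {w R : ℕ} {P : F[X]} (hP : P ∈ PR F w R) (l : K) (o : Option K × Option K)
    (ho : o ∈ M2 l) : 0 ≤ e2 P l o.1 o.2 := by
  have h0 := vP_pos hP
  have h1 := vP_le_one hP
  obtain ⟨o1, o2⟩ := o
  have key : ∀ a : K, 0 ≤ e2 P l (some a) (some a) := by
    intro a
    rw [e2_ss]
    split_ifs
    · positivity
    · nlinarith [mul_nonneg (sq_nonneg (vP P)) (sub_nonneg.2 h1)]
  rcases ho with ho | ⟨h2, h3⟩
  · simp only at ho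
    subst ho
    rcases o1 with _ | a
    · simp only [e2_nn]
      exact zero_le_one
    · exact key a
  · simp only at h2 h3 ⊢
    rcases h2 with rfl | rfl <;> rcases h3 with rfl | rfl
    · rw [e2_nn]
      exact zero_le_one
    · rw [e2_ns, if_pos rfl]
      exact h0.le
    · rw [e2_sn, if_pos rfl]
      exact h0.le
    · exact key l

theorem e2_off {w R : ℕ} {P : F[X]} (hP : P ∈ PR F w R) (l : K) (o : Option K × Option K)
    (ho : o ∉ M2 l) : |e2 P l o.1 o.2| ≤ 3 * vP P ^ 2 := by
  have h0 := vP_pos hP
  have h1 := vP_le_one hP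
  obtain ⟨o1, o2⟩ := o
  have hcub : vP P ^ 3 ≤ vP P ^ 2 := by
    nlinarith [mul_nonneg (sq_nonneg (vP P)) (sub_nonneg.2 h1)]
  have hcub0 : 0 < vP P ^ 3 := by positivity
  have hsq0 : 0 < vP P ^ 2 := by positivity
  have ho1 : ¬ (o1 = o2) := fun h => ho (Or.inl h)
  have ho2 : ¬ ((o1 = none ∨ o1 = some l) ∧ (o2 = none ∨ o2 = some l)) := fun h => ho (Or.inr h)
  simp only
  rcases o1 with _ | a <;> rcases o2 with _ | b
  · exact absurd rfl ho1
  · rw [e2_ns]
    have hb : b ≠ l := by
      rintro rfl
      exact ho2 ⟨Or.inl rfl, Or.inr rfl⟩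
    rw [if_neg hb, abs_neg, abs_of_pos hsq0]
    linarith
  · rw [e2_sn]
    have ha : a ≠ l := by
      rintro rfl
      exact ho2 ⟨Or.inr rfl, Or.inl rfl⟩
    rw [if_neg ha, abs_neg, abs_of_pos hsq0]
    linarith
  · have hab : a ≠ b := fun h => ho1 (by rw [h])
    rw [e2_st P l hab]
    have hexp : (-(vP P) - (vP P) ^ 2) * vP P = -(vP P ^ 2) - vP P ^ 3 := by ring
    rw [hexp, abs_le]
    split_ifs with ha hb hb
    · exact absurd (ha.trans hb.symm) hab
    · constructor <;> linarith
    · constructor <;> linarith
    · constructor <;> linarith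

theorem Aco_none {w R : ℕ} {P : F[X]} (hP : P ∈ PR F w R) (l : K) (o o' : Option K) :
    |Aco P l o o' none| ≤ if o = none ∧ o' = none then 1 else vP P := by
  have h0 := vP_pos hP
  have h1 := vP_le_one hP
  rw [Aco_val_none]
  rcases o with _ | a <;> rcases o' with _ | b
  · rw [vv_none', if_pos ⟨rfl, rfl⟩]
    norm_num
  · rw [vv_none', vv_none_some, if_neg (by simp), one_mul, abs_of_pos h0]
  · rw [vv_none', vv_none_some, if_neg (by simp), mul_one, abs_of_pos h0]
  · rw [vv_none_some, vv_none_some, if_neg (by simp), abs_of_pos (mul_pos h0 h0)]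
    nlinarith

theorem Aco_some {w R : ℕ} {P : F[X]} (hP : P ∈ PR F w R) (l : K) (o o' : Option K) (i : K) :
    |Aco P l o o' (some i)| ≤ if o = none ∧ o' = none then 0 else 2 := by
  have h0 := vP_pos hP
  have h1 := vP_le_one hP
  by_cases hi : i = l
  · subst hi
    rw [Aco_val_l, abs_zero]
    split_ifs
    · exact le_rfl
    · norm_num
  · rw [Aco_val_some P hi]
    have hv : ∀ a : K, -1 ≤ vv P (some i) (some a) ∧ vv P (some i) (some a) ≤ 1 := by
      intro a
      by_cases ha : a = i
      · subst ha
        rw [vv_some_same]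
        constructor <;> linarith
      · rw [vv_some_ne P ha]
        constructor <;> linarith
    rcases o with _ | a <;> rcases o' with _ | b
    · rw [vv_none', vv_none', if_pos ⟨rfl, rfl⟩]
      norm_num
    · rw [vv_none', vv_none', vv_none_some, if_neg (by simp), abs_le]
      have := hv b
      constructor <;> linarith [this.1, this.2]
    · rw [vv_none', vv_none', vv_none_some, if_neg (by simp), abs_le]
      have := hv a
      constructor <;> linarith [this.1, this.2]
    · rw [vv_none_some, vv_none_some, if_neg (by simp)]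
      have ha := abs_le.2 (hv a)
      have hb := abs_le.2 (hv b)
      have h2 : |vv P (some i) (some a) * vv P (some i) (some b)| ≤ 1 := by
        rw [abs_mul]
        exact mul_le_one₀ ha (abs_nonneg _) hb
      have h3 := abs_le.1 h2
      have h4 : vP P * vP P ≤ 1 := by nlinarith
      have h5 : 0 ≤ vP P * vP P := by positivity
      rw [abs_le]
      constructor <;> linarith [h3.1, h3.2]

theorem Aco_l {P : F[X]} (l : K) (o o' : Option K) : Aco P l o o' (some l) = 0 := by
  exact Aco_val_l P l o o'

theorem UU_expand {w R : ℕ} {P : F[X]} (hP : P ∈ PR F w R) (l : K) (n : K → F[X])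
    (hl : ¬ P ∣ n l) (h1 : ∀ i j, i ≠ j → P ∣ n i → ¬ P ∣ n j) (o o' : Option K) :
    UU P n o * UU P n o' = ∑ j : Option K, Aco P l o o' j * ind P n j := by
  rw [Fintype.sum_option]
  have hn : ind P n none = 1 := rfl
  have hs : ∀ i, ind P n (some i) = if P ∣ n i then 1 else 0 := fun i => rfl
  rw [hn, mul_one]
  by_cases hex : ∃ i, P ∣ n i
  · obtain ⟨i, hi⟩ := hex
    have hil : i ≠ l := by
      rintro rfl
      exact hl hi
    have hsum : ∑ k : K, Aco P l o o' (some k) * ind P n (some k) = Aco P l o o' (some i) := by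
      rw [Finset.sum_eq_single i]
      · rw [hs, if_pos hi, mul_one]
      · intro k _ hk
        rw [hs, if_neg (h1 i k (Ne.symm hk) hi), mul_zero]
      · intro h
        exact absurd (Finset.mem_univ _) h
    rw [hsum, Aco_val_none, Aco_val_some P hil]
    have hU : ∀ q : Option K, UU P n q = vv P (some i) q := by
      intro q
      rcases q with _ | a
      · rw [vv_none']
        rfl
      · change uu P (n a) = _
        unfold uu
        by_cases ha : a = i
        · subst ha
          rw [if_pos hi, vv_some_same]
        · rw [if_neg (h1 i a (Ne.symm ha) hi), vv_some_ne P ha]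
    rw [hU, hU]
    ring
  · have hsum : ∑ k : K, Aco P l o o' (some k) * ind P n (some k) = 0 := by
      refine Finset.sum_eq_zero fun k _ => ?_
      rw [hs, if_neg (fun h => hex ⟨k, h⟩), mul_zero]
    rw [hsum, Aco_val_none, add_zero]
    have hU : ∀ q : Option K, UU P n q = vv P none q := by
      intro q
      rcases q with _ | a
      · rw [vv_none']
        rfl
      · change uu P (n a) = _
        unfold uu
        rw [if_neg (fun h => hex ⟨a, h⟩), vv_none_some]
    rw [hU, hU]

end Pool.Agent.H10.FF
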