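import Pool.Agent.H10.FF.AMain

/-! # Project FF, block E: nonzero configurations from a lower bound for the count -/

set_option autoImplicit false

open Finset Pool.Agent.H16.GPS

namespace Pool.Agent.H10.FF

theorem cnt_pos {κ : ℕ} {Γ H : Type} [Fintype Γ] [AddCommGroup Γ] [Fintype H]
    [AddCommGroup H] (τ : Fin κ → H →+ Γ) (f : Γ → ℝ) (hf0 : ∀ x, 0 ≤ f x) (B c : ℝ)
    (hB : ∀ x, f x ≤ B) (h : c ≤ cnt τ f) (hlt : B ^ κ < c * Fintype.card H) :
    ∃ x, ∃ y : H, y ≠ 0 ∧ ∀ j, 0 < f (x + τ j y) := by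
  classical
  by_contra hcon
  push Not at hcon
  have hH : (0 : ℝ) < (Fintype.card H : ℝ) := by
    have : 0 < Fintype.card H := Fintype.card_pos
    exact_mod_cast this
  have hΓ : (0 : ℝ) < (Fintype.card Γ : ℝ) := by
    have : 0 < Fintype.card Γ := Fintype.card_pos
    exact_mod_cast this
  have hsum : ∑ x : Γ, ∑ y : H, ∏ j : Fin κ, f (x + τ j y) ≤ (Fintype.card Γ : ℝ) * B ^ κ := by
    calc ∑ x : Γ, ∑ y : H, ∏ j : Fin κ, f (x + τ j y)
        ≤ ∑ _x : Γ, B ^ κ := by
          refine Finset.sum_le_sum fun x _ => ?_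
          rw [Finset.sum_eq_single (0 : H)]
          · calc ∏ j : Fin κ, f (x + τ j 0) ≤ ∏ _j : Fin κ, B :=
                Finset.prod_le_prod (fun j _ => hf0 _) fun j _ => hB _
              _ = B ^ κ := by rw [Finset.prod_const, Finset.card_univ, Fintype.card_fin]
          · intro y _ hy
            obtain ⟨j, hj⟩ := hcon x y hy
            exact Finset.prod_eq_zero (Finset.mem_univ j) (le_antisymm hj (hf0 _))
          · intro h0
            exact absurd (Finset.mem_univ _) h0
      _ = (Fintype.card Γ : ℝ) * B ^ κ := by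
          rw [Finset.sum_const, Finset.card_univ, nsmul_eq_mul]
  have h1 : cnt τ f ≤ B ^ κ / Fintype.card H := by
    unfold cnt
    rw [div_le_div_iff₀ (by positivity) hH]
    calc (∑ x : Γ, ∑ y : H, ∏ j : Fin κ, f (x + τ j y)) * (Fintype.card H : ℝ)
        ≤ (Fintype.card Γ : ℝ) * B ^ κ * (Fintype.card H : ℝ) :=
          mul_le_mul_of_nonneg_right hsum hH.le
      _ = B ^ κ * ((Fintype.card Γ : ℝ) * Fintype.card H) := by ring
  have h2 : B ^ κ / Fintype.card H < c := by
    rw [div_lt_iff₀ hH]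
    exact hlt
  linarith

end Pool.Agent.H10.FF
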