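import Pool.Agent.H10.FF.LFinst

/-! # Project FF, block E: from the configuration of sieve values to `f, g` -/

namespace Pool.Agent.H10.FF

open Polynomial Finset
open scoped Classical

variable {F : Type} [Field F] [Fintype F]

theorem pol_natDegree_lt {n : ℕ} (v : Fin n → F) (hv : v ≠ 0) : (pol v).natDegree < n := by
  have h0 : pol v ≠ 0 := by
    intro h
    apply hv
    apply pol_inj
    rw [h, pol_zero]
  exact (natDegree_lt_iff_degree_lt h0).mpr (pol_degree_lt v)

theorem monic_add_pol {N : ℕ} (x : Fin N → F) : (X ^ N + pol x).Monic ∧ (X ^ N + pol x).natDegree = N := by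
  refine ⟨monic_X_pow_add (pol_degree_lt x), ?_⟩
  rw [natDegree_add_eq_left_of_degree_lt (by rw [degree_X_pow]; exact pol_degree_lt x), natDegree_X_pow]

theorem fin_poly {m : ℕ} (hm : 2 ≤ m) {k κ : ℕ} (a : Fin k → F) (ha : Function.Injective a)
    (I : Finset (Fin k)) (hI : I.card = m) (W : F[X]) (hW : W.Monic) (b h : F[X]) (N d : ℕ)
    (hs : ∀ i, (b + C (a i) * h).natDegree < W.natDegree + N)
    (c : Fin κ → F[X]) (hd : ∀ j, (c j).natDegree + d ≤ N) (x : Fin N → F) (v : Fin d → F)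
    (hv : v ≠ 0)
    (hirr : ∀ i ∈ I, ∀ j, Irreducible (W * (X ^ N + pol (x + mulHom (c j) d N v)) + (b + C (a i) * h)))
    (N1 : ℕ) (hN1 : N1 ≤ W.natDegree) :
    ∃ T : Finset F, m ≤ T.card ∧ (0 : F) ∈ T ∧ (1 : F) ∈ T ∧ ∃ f g : F[X], g ≠ 0 ∧
      N1 ≤ f.natDegree ∧ N1 ≤ g.natDegree ∧
      ∀ j, (c j * g).natDegree < f.natDegree ∧ ∀ t ∈ T, Irreducible (f + c j * g + C t * h) := by
  obtain ⟨i1, hi1, i2, hi2, hne⟩ := Finset.one_lt_card.mp (by omega : 1 < I.card)
  have hane : a i1 - a i2 ≠ 0 := sub_ne_zero.mpr fun h => hne (ha h)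
  set u : F := (a i1 - a i2)⁻¹ with hu
  have hu0 : u ≠ 0 := inv_ne_zero hane
  have hCu : IsUnit (C u : F[X]) := isUnit_C.2 (isUnit_iff_ne_zero.2 hu0)
  have hCu0 : (C u : F[X]) ≠ 0 := hCu.ne_zero
  have hv0 : pol v ≠ 0 := by
    intro h
    apply hv
    apply pol_inj
    rw [h, pol_zero]
  have hW0 : W ≠ 0 := hW.ne_zero
  set f : F[X] := C u * (W * (X ^ N + pol x) + (b + C (a i2) * h)) with hf
  set g : F[X] := C u * (W * pol v) with hg
  have hg0 : g ≠ 0 := mul_ne_zero hCu0 (mul_ne_zero hW0 hv0)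
  have hfdeg : f.natDegree = W.natDegree + N := by
    rw [hf, natDegree_C_mul hu0]
    have h1 : (W * (X ^ N + pol x)).natDegree = W.natDegree + N := by
      rw [hW.natDegree_mul (monic_add_pol x).1, (monic_add_pol x).2]
    rw [natDegree_add_eq_left_of_natDegree_lt (by rw [h1]; exact hs i2), h1]
  have hgdeg : g.natDegree = W.natDegree + (pol v).natDegree := by
    rw [hg, natDegree_C_mul hu0, natDegree_mul hW0 hv0]
  refine ⟨I.image (fun i => u * (a i - a i2)), ?_, ?_, ?_, f, g, hg0, ?_, ?_, ?_⟩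
  · rw [Finset.card_image_of_injOn, hI]
    intro i _ j _ hij
    simp only at hij
    have h1 := mul_left_cancel₀ hu0 hij
    exact ha (sub_left_inj.mp h1)
  · rw [Finset.mem_image]
    exact ⟨i2, hi2, by simp⟩
  · rw [Finset.mem_image]
    exact ⟨i1, hi1, by rw [hu, inv_mul_cancel₀ hane]⟩
  · rw [hfdeg]; omega
  · rw [hgdeg]; omega
  · intro j
    constructor
    · rw [hfdeg]
      have h1 := pol_natDegree_lt v hv
      have h2 := hd j
      calc (c j * g).natDegree ≤ (c j).natDegree + g.natDegree := natDegree_mul_le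
        _ < W.natDegree + N := by rw [hgdeg]; omega
    · intro t ht
      rw [Finset.mem_image] at ht
      obtain ⟨i, hi, rfl⟩ := ht
      have h1 : f + c j * g + C (u * (a i - a i2)) * h =
          C u * (W * (X ^ N + pol (x + mulHom (c j) d N v)) + (b + C (a i) * h)) := by
        rw [pol_add, pol_mulHom (c j) d N (hd j) v, hf, hg]
        simp only [C_mul, C_sub]
        ring
      rw [h1]
      exact (irreducible_isUnit_mul hCu).mpr (hirr i hi j)

end Pool.Agent.H10.FF
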