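import Pool.Agent.H10.FF.EPig
import Pool.Agent.H10.FF.AMain

/-! # Project FF, block E: the weight function of one index set -/

namespace Pool.Agent.H10.FF

open Polynomial Finset Pool.Agent.H16.GPS
open scoped Classical

theorem pig_f {k : ℕ} {X : Type} [Fintype X] (good : X → Prop) (irr : X → Fin k → Prop) (m : ℕ)
    (hm : m ≤ k) (ε S : ℝ) (hS : 0 ≤ S)
    (h : ε ≤ av (fun x => if good x ∧ m ≤ (univ.filter (irr x)).card then (1 : ℝ) else 0)) :
    ∃ I : Finset (Fin k), I.card = m ∧ ∃ f : X → ℝ, (∀ x, 0 ≤ f x ∧ f x ≤ S) ∧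
      (∀ x, ¬ good x → f x = 0) ∧ (∀ x, 0 < f x → ∀ i ∈ I, irr x i) ∧
      S * (ε / 2 ^ k) ≤ ∑ x, unif X x * f x := by
  obtain ⟨I, hI, hIav⟩ := pig good irr m hm ε h
  refine ⟨I, hI, fun x => if good x ∧ ∀ i ∈ I, irr x i then S else 0, ?_, ?_, ?_, ?_⟩
  · intro x
    dsimp only
    split_ifs
    · exact ⟨hS, le_rfl⟩
    · exact ⟨le_rfl, hS⟩
  · intro x hx
    dsimp only
    rw [if_neg fun h => hx h.1]
  · intro x hx i hi
    dsimp only at hx
    split_ifs at hx with h2
    · exact h2.2 i hi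
    · exact absurd hx (lt_irrefl _)
  · have h1 : ∑ x, unif X x * (if good x ∧ ∀ i ∈ I, irr x i then S else 0) = S *
        av (fun x => if good x ∧ ∀ i ∈ I, irr x i then (1 : ℝ) else 0) := by
      unfold av unif
      rw [mul_div_assoc', Finset.mul_sum, Finset.sum_div]
      refine Finset.sum_congr rfl fun x _ => ?_
      split_ifs
      · ring
      · ring
    rw [h1]
    exact mul_le_mul_of_nonneg_left hIav hS

end Pool.Agent.H10.FF
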