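import Pool.Agent.H10.FF.Num

/-!
JOB FF-B7 (MP_a1f59e_nt). Tail products over primes of degree `> w`.

PROOF. `∑_{P ∈ PR F w R} v_P ^ 2 ≤ ∑_{d > w} (q ^ d / d) * (2 / q ^ d) ^ 2 ≤ 4 ∑_{d > w} q ^ (-d) ≤ 4 q ^ (-w) ≤ 4 / 2 ^ w`
(`vP_le`, `sum_PR_le` with `g d = 4 / q ^ d`, `∑_{d > w} 2 ^ (-d) = 2 ^ (-w)`); `tt ≤ exp (C ∑ v_P ^ 2) ≤ exp (4 C / 2 ^ w) → 1`.
~60 lines.

Status: complete (helper26).
-/

namespace Pool.Agent.H10.FF

open Polynomial Finset
open scoped Classical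

variable {F : Type} [Field F] [Fintype F]

private theorem tail_geom (w R : ℕ) : ∑ d ∈ Finset.Ioc w R, (4 : ℝ) / 2 ^ d ≤ 4 / 2 ^ w := by
  rcases Nat.lt_or_ge R w with h | h
  · rw [Finset.Ioc_eq_empty (by omega), Finset.sum_empty]
    positivity
  · have key : ∀ R, w ≤ R → ∑ d ∈ Finset.Ioc w R, (4 : ℝ) / 2 ^ d = 4 / 2 ^ w - 4 / 2 ^ R := by
      intro R hR
      induction R, hR using Nat.le_induction with
      | base => simp
      | succ n hn ih =>
        rw [Finset.sum_Ioc_succ_top hn, ih, pow_succ]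
        field_simp
        ring
    rw [key R h]
    have : (0 : ℝ) < 4 / 2 ^ R := by positivity
    linarith

theorem sum_vP_sq (w R : ℕ) : ∑ P ∈ PR F w R, vP P ^ 2 ≤ 4 / 2 ^ w := by
  have hq := card_ge_two (F := F)
  calc ∑ P ∈ PR F w R, vP P ^ 2
      ≤ ∑ P ∈ PR F w R, (fun d : ℕ => (4 : ℝ) / (Fintype.card F : ℝ) ^ d) P.natDegree / nrm P := by
        refine Finset.sum_le_sum fun P hP => ?_
        have h1 := vP_le hP
        have h0 := (vP_pos hP).le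
        have h2 : vP P ^ 2 ≤ (2 / nrm P) ^ 2 := pow_le_pow_left₀ h0 h1 2
        refine h2.trans (le_of_eq ?_)
        have h3 : (Fintype.card F : ℝ) ^ P.natDegree = nrm P := rfl
        simp only [h3]
        have := nrm_pos P
        field_simp
        norm_num
    _ ≤ ∑ d ∈ Finset.Ioc w R, (fun d : ℕ => (4 : ℝ) / (Fintype.card F : ℝ) ^ d) d / d :=
        sum_PR_le w R (fun d : ℕ => (4 : ℝ) / (Fintype.card F : ℝ) ^ d) fun d => by positivity
    _ ≤ ∑ d ∈ Finset.Ioc w R, (4 : ℝ) / 2 ^ d := by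
        refine Finset.sum_le_sum fun d hd => ?_
        have hd1 : 1 ≤ d := by
          have := (Finset.mem_Ioc.1 hd).1
          omega
        have hd2 : (1 : ℝ) ≤ (d : ℝ) := by exact_mod_cast hd1
        have h4 : (2 : ℝ) ^ d ≤ (Fintype.card F : ℝ) ^ d := pow_le_pow_left₀ (by norm_num) hq d
        calc (4 : ℝ) / (Fintype.card F : ℝ) ^ d / d ≤ 4 / (Fintype.card F : ℝ) ^ d :=
              div_le_self (by positivity) hd2
          _ ≤ 4 / 2 ^ d := div_le_div_of_nonneg_left (by norm_num) (by positivity) h4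
    _ ≤ 4 / 2 ^ w := tail_geom w R

theorem tt_le (C : ℝ) (hC : 0 ≤ C) (w R : ℕ) : tt F C w R ≤ Real.exp (4 * C / 2 ^ w) := by
  unfold tt
  calc ∏ P ∈ PR F w R, (1 + C * vP P ^ 2) ≤ ∏ P ∈ PR F w R, Real.exp (C * vP P ^ 2) := by
        refine Finset.prod_le_prod (fun P _ => by positivity) fun P _ => ?_
        rw [add_comm]
        exact Real.add_one_le_exp _
    _ = Real.exp (C * ∑ P ∈ PR F w R, vP P ^ 2) := by
        rw [← Real.exp_sum, Finset.mul_sum]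
    _ ≤ Real.exp (4 * C / 2 ^ w) := by
        refine Real.exp_le_exp.2 ?_
        calc C * ∑ P ∈ PR F w R, vP P ^ 2 ≤ C * (4 / 2 ^ w) :=
              mul_le_mul_of_nonneg_left (sum_vP_sq w R) hC
          _ = 4 * C / 2 ^ w := by ring

theorem one_le_tt (C : ℝ) (hC : 0 ≤ C) (w R : ℕ) : 1 ≤ tt F C w R := by
  unfold tt
  calc (1 : ℝ) = ∏ P ∈ PR F w R, (1 : ℝ) := by rw [Finset.prod_const_one]
    _ ≤ ∏ P ∈ PR F w R, (1 + C * vP P ^ 2) := by
        refine Finset.prod_le_prod (fun P _ => zero_le_one) fun P _ => ?_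
        have : 0 ≤ C * vP P ^ 2 := by positivity
        linarith

theorem tt_mono (C C' : ℝ) (hC : 0 ≤ C) (h : C ≤ C') (w R : ℕ) : tt F C w R ≤ tt F C' w R := by
  unfold tt
  refine Finset.prod_le_prod (fun P _ => by positivity) fun P _ => ?_
  have : C * vP P ^ 2 ≤ C' * vP P ^ 2 := mul_le_mul_of_nonneg_right h (by positivity)
  linarith

/-- uniform smallness: `w₀` does not depend on the field -/
theorem tt_small (C ε : ℝ) (hC : 0 ≤ C) (hε : 0 < ε) : ∃ w₀ : ℕ, ∀ w : ℕ, w₀ ≤ w →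
    ∀ (F : Type) [Field F] [Fintype F] (R : ℕ), tt F C w R ≤ 1 + ε := by
  have hlog : 0 < Real.log (1 + ε) := Real.log_pos (by linarith)
  obtain ⟨w₀, hw₀⟩ := pow_unbounded_of_one_lt (4 * C / Real.log (1 + ε)) (one_lt_two : (1 : ℝ) < 2)
  refine ⟨w₀, fun w hw F _ _ R => ?_⟩
  refine (tt_le C hC w R).trans ?_
  have h2 : (2 : ℝ) ^ w₀ ≤ 2 ^ w := pow_le_pow_right₀ (by norm_num) hw
  have h3 : 4 * C / 2 ^ w ≤ Real.log (1 + ε) := by
    rw [div_le_iff₀ (by positivity)]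
    rw [div_lt_iff₀ hlog] at hw₀
    nlinarith
  calc Real.exp (4 * C / 2 ^ w) ≤ Real.exp (Real.log (1 + ε)) := Real.exp_le_exp.2 h3
    _ = 1 + ε := Real.exp_log (by linarith)

end Pool.Agent.H10.FF
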