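import Pool.Agent.H10.FF.Sums
import Pool.Agent.H10.FF.Tail

/-! # Project FF, block E: the degree of `W`, growth of the parameters -/

namespace Pool.Agent.H10.FF

open Polynomial Finset Filter
open scoped Classical

variable {F : Type} [Field F] [Fintype F]

/-- `deg W ≥ w` for `w ≥ 4` -/
theorem WW_degree_ge (w : ℕ) (hw : 4 ≤ w) : w ≤ (WW F w).natDegree := by
  rw [WW_natDegree]
  have h1 := irrs_card_ge (F := F) w hw
  have hq : (0 : ℝ) < (Fintype.card F : ℝ) := by linarith [card_ge_two (F := F)]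
  have h2 : (0 : ℝ) < ((irrs F w).card : ℝ) := by
    have : (0 : ℝ) < (w : ℝ) := by exact_mod_cast (by omega : 0 < w)
    exact lt_of_lt_of_le (by positivity) h1
  have h3 : 0 < (irrs F w).card := by exact_mod_cast h2
  obtain ⟨P, hP⟩ := Finset.card_pos.mp h3
  rw [mem_irrs] at hP
  have hPR : P ∈ PR F 0 w := mem_PR.mpr ⟨hP.1, hP.2.1, by omega, by omega⟩
  unfold dg
  calc w = P.natDegree := hP.2.2.symm
    _ ≤ ∑ P ∈ PR F 0 w, P.natDegree :=
      Finset.single_le_sum (f := fun P : F[X] => P.natDegree) (fun _ _ => Nat.zero_le _) hPR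

theorem SS_eq_TS (w D : ℕ) : SS F w D = TS F w D D (fun _ => 1) := by
  unfold SS TS
  simp

theorem SS_ge (w D : ℕ) : ((D : ℝ) + 1) / om F w ≤ SS F w D := by
  rw [SS_eq_TS]
  exact SS_lower w D D le_rfl

theorem SS_le (w D : ℕ) (hw : 1 ≤ w) : SS F w D ≤ 10 * ((w : ℝ) + D) := by
  rw [SS_eq_TS]
  refine (SS_upper w D D hw le_rfl).trans ?_
  apply div_le_self (by positivity) (one_le_om w)

/-- a power of `20 N` is eventually smaller than `c 2 ^ (N / 2)` -/
theorem ev_pow (e : ℕ) (c : ℝ) (hc : 0 < c) : ∃ N0 : ℕ, ∀ N : ℕ, N0 ≤ N →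
    (30 * (N : ℝ)) ^ e < c * 2 ^ (N / 2) := by
  have h1 : Tendsto (fun n : ℕ => (n : ℝ) ^ e / 2 ^ n) atTop (nhds 0) :=
    tendsto_pow_const_div_const_pow_of_one_lt e (by norm_num)
  have h2 : 0 < c / (90 : ℝ) ^ e := by positivity
  obtain ⟨n0, hn0⟩ := eventually_atTop.mp (h1.eventually (gt_mem_nhds h2))
  refine ⟨2 * n0 + 2, fun N hN => ?_⟩
  have h3 := hn0 (N / 2) (by omega)
  rw [div_lt_div_iff₀ (by positivity) (by positivity)] at h3
  have h4 : (N : ℝ) ≤ 3 * ((N / 2 : ℕ) : ℝ) := by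
    have : N ≤ 3 * (N / 2) := by omega
    exact_mod_cast this
  calc (30 * (N : ℝ)) ^ e ≤ (90 * ((N / 2 : ℕ) : ℝ)) ^ e := by
        apply pow_le_pow_left₀ (by positivity)
        linarith
    _ = ((N / 2 : ℕ) : ℝ) ^ e * 90 ^ e := by rw [mul_pow]; ring
    _ < c * 2 ^ (N / 2) := h3

end Pool.Agent.H10.FF
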