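import Pool.Agent.H10.FF.Base

/-! # Project FF, block E: shifts `b + C (a i) * h` prime to all small primes -/

namespace Pool.Agent.H10.FF

open Polynomial Finset
open scoped Classical

variable {F : Type} [Field F] [Fintype F]

/-- one prime: a suitable constant -/
theorem exists_const {k : ℕ} (a : Fin k → F) (hk : k < Fintype.card F) (h P : F[X])
    (hP : Irreducible P) : ∃ t : F, ∀ i, ¬ P ∣ C t + C (a i) * h := by
  by_contra hcon
  push Not at hcon
  choose φ hφ using hcon
  have hinj : Function.Injective φ := by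
    intro t t' htt
    by_contra hne
    have h1 := hφ t
    have h2 := hφ t'
    rw [htt] at h1
    have h3 := dvd_sub h1 h2
    have h4 : C t + C (a (φ t')) * h - (C t' + C (a (φ t')) * h) = C (t - t') := by
      rw [C_sub]; ring
    rw [h4] at h3
    exact hP.not_isUnit (isUnit_of_dvd_unit h3
      (isUnit_C.2 (isUnit_iff_ne_zero.2 (sub_ne_zero.mpr hne))))
  have := Fintype.card_le_of_injective φ hinj
  rw [Fintype.card_fin] at this
  omega

theorem exists_shift {k : ℕ} (a : Fin k → F) (hk : k < Fintype.card F) (h : F[X]) (w : ℕ) :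
    ∃ b : F[X], b.natDegree ≤ (WW F w).natDegree ∧
      ∀ i, ∀ P ∈ PR F 0 w, ¬ P ∣ b + C (a i) * h := by
  choose! t ht using fun (P : F[X]) (hP : Irreducible P) => exists_const a hk h P hP
  obtain ⟨r, hr⟩ := Ideal.exists_forall_sub_mem_ideal (ι := {P : F[X] // P ∈ PR F 0 w})
    (I := fun P => Ideal.span {P.1})
    (by
      intro P Q hne
      change IsCoprime (Ideal.span {P.1}) (Ideal.span {Q.1})
      rw [Ideal.isCoprime_span_singleton_iff]
      exact base_coprime ⟨(mem_PR.1 P.2).1, (mem_PR.1 P.2).2.1⟩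
        ⟨(mem_PR.1 Q.2).1, (mem_PR.1 Q.2).2.1⟩ fun h2 => hne (Subtype.ext h2))
    (fun P => C (t P.1))
  refine ⟨r %ₘ WW F w, natDegree_modByMonic_le _ (WW_monic w), ?_⟩
  intro i P hP hdvd
  have h1 : P ∣ r - C (t P) := Ideal.mem_span_singleton.mp (hr ⟨P, hP⟩)
  have h2 : P ∣ WW F w := Finset.dvd_prod_of_mem (fun P => P) hP
  have h3 : P ∣ r - r %ₘ WW F w := by
    have : r - r %ₘ WW F w = WW F w * (r /ₘ WW F w) := by
      rw [sub_eq_iff_eq_add, add_comm]
      exact (modByMonic_add_div r (WW F w)).symm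
    rw [this]
    exact Dvd.dvd.mul_right h2 _
  apply ht P (mem_PR.1 hP).2.1 i
  have h4 : C (t P) + C (a i) * h = (r %ₘ WW F w + C (a i) * h) + (r - r %ₘ WW F w) - (r - C (t P)) := by
    ring
  rw [h4]
  exact dvd_sub (dvd_add hdvd h3) h1

end Pool.Agent.H10.FF
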