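import Pool.Agent.H10.FF.Maynard
import Pool.Agent.H10.FF.EShift
import Pool.Agent.H10.FF.AMain
import Pool.Agent.H10.FF.EMean
import Pool.Agent.H10.FF.ECnt
import Pool.Agent.H10.FF.EFin
import Pool.Agent.H10.FF.EPar

/-! # Project FF, block E: the engine -/

namespace Pool.Agent.H10.FF

open Polynomial Finset Pool.Agent.H16.GPS
open scoped Classical

/-- product of all differences -/
noncomputable def MpP {F : Type} [Field F] [Fintype F] {κ : ℕ} (c : Fin κ → F[X]) : F[X] :=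
  ∏ p ∈ (univ : Finset (Fin κ × Fin κ)).filter (fun p => p.1 ≠ p.2), (c p.1 - c p.2)

/-- product of all differences but one -/
noncomputable def QpP {F : Type} [Field F] [Fintype F] {κ : ℕ} (c : Fin κ → F[X]) (j i : Fin κ) :
    F[X] :=
  ∏ p ∈ ((univ : Finset (Fin κ × Fin κ)).filter (fun p => p.1 ≠ p.2)).erase (j, i), (c p.1 - c p.2)

section

variable {F : Type} [Field F] [Fintype F] {κ : ℕ}

theorem mul_QpP (c : Fin κ → F[X]) {j i : Fin κ} (h : i ≠ j) : (c j - c i) * QpP c j i = MpP c := by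
  unfold QpP MpP
  exact Finset.mul_prod_erase _ (fun p : Fin κ × Fin κ => c p.1 - c p.2)
    (Finset.mem_filter.mpr ⟨Finset.mem_univ _, fun h2 => h h2.symm⟩)

theorem MpP_ne (c : Fin κ → F[X]) (hc : Function.Injective c) : MpP c ≠ 0 := by
  unfold MpP
  rw [Finset.prod_ne_zero_iff]
  intro p hp h
  exact (Finset.mem_filter.mp hp).2 (hc (sub_eq_zero.mp h))

theorem QpP_deg (c : Fin κ → F[X]) (hc : Function.Injective c) {j i : Fin κ} (h : i ≠ j) :
    (QpP c j i).natDegree ≤ (MpP c).natDegree := by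
  have h1 := mul_QpP c h
  have h2 := MpP_ne c hc
  rw [← h1] at h2
  rw [← h1, natDegree_mul (left_ne_zero_of_mul h2) (right_ne_zero_of_mul h2)]
  omega

theorem mulHom_rel (c : Fin κ → F[X]) (N d d' : ℕ) (hd : ∀ j, (c j).natDegree + d ≤ N)
    {j i : Fin κ} (h : i ≠ j) (hq : (QpP c j i).natDegree + d' ≤ d)
    (hM : (MpP c).natDegree + d' ≤ N) (y : Fin d' → F) :
    mulHom (c j) d N (mulHom (QpP c j i) d' d y) - mulHom (c i) d N (mulHom (QpP c j i) d' d y) =
      mulHom (MpP c) d' N y := by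
  apply pol_inj
  rw [pol_sub, pol_mulHom _ _ _ (hd j), pol_mulHom _ _ _ (hd i), pol_mulHom _ _ _ hq,
    pol_mulHom _ _ _ hM, ← mul_QpP c h]
  ring

end

theorem lfc_mono {P ι X : Type} [Fintype P] [Fintype ι] [DecidableEq ι] [Fintype X]
    (μ : P → ℝ) (lam : X → ℝ) (N : ι → P → (ι → X) → ℝ) {η η' : ℝ} (h : η ≤ η')
    (hl : LFc μ lam N η) : LFc μ lam N η' := fun S hS => (hl S hS).trans h

/-- one configuration for given multipliers -/
theorem engine (m : ℕ) (hm : 2 ≤ m) : ∃ k : ℕ, m ≤ k ∧ ∀ (F : Type) [Field F] [Fintype F]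
    (a : Fin k → F), Function.Injective a → k < Fintype.card F → ∀ h : F[X], h ≠ 0 →
    ∀ (κ : ℕ) (_ : 2 ≤ κ)
    (c : Fin κ → F[X]), Function.Injective c → ∀ N1 : ℕ,
    ∃ T : Finset F, m ≤ T.card ∧ (0 : F) ∈ T ∧ (1 : F) ∈ T ∧ ∃ f g : F[X], g ≠ 0 ∧
      N1 ≤ f.natDegree ∧ N1 ≤ g.natDegree ∧
      ∀ j, (c j * g).natDegree < f.natDegree ∧ ∀ t ∈ T, Irreducible (f + c j * g + C t * h) := by
  obtain ⟨k, hmk, hmay⟩ := maynard m hm
  refine ⟨k, hmk, ?_⟩
  intro F _ _ a ha hkF h hh0 κ hκ c hc N1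
  -- parameters
  set KK : ℕ := κ * 2 ^ κ * (k + 1) with hKK
  have hKK0 : 0 < KK := by positivity
  have hKKr : (0 : ℝ) < (KK : ℝ) := by exact_mod_cast hKK0
  obtain ⟨δ, hδ, hδ0, cM, hcM, hmay2⟩ := hmay (1 / (32 * (KK : ℝ))) (by positivity)
  set δ' : ℝ := δ ^ k * cM / 2 ^ k with hδ'
  have hδ'0 : 0 < δ' := by positivity
  obtain ⟨η, hη, c₁, hc₁, hrel⟩ := rel_ff κ hκ δ' hδ'0
  obtain ⟨w₀, hw₀⟩ := hmay2 F
  obtain ⟨w₁, hw₁⟩ := tt_small (6 * 8 ^ (κ * 2 ^ κ * Fintype.card (Fin k))) (η / 2) (by positivity)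
    (by positivity)
  obtain ⟨w₂, hw₂⟩ := tt_small (6 * 8 ^ (2 ^ κ * Fintype.card (Fin k))) (η / 2) (by positivity)
    (by positivity)
  set Dm : ℕ := (MpP c).natDegree + ∑ j, (c j).natDegree with hDm
  set w : ℕ := w₀ + w₁ + w₂ + Dm + N1 + h.natDegree + 4 with hw
  have hcdeg : ∀ j, (c j).natDegree ≤ Dm := by
    intro j
    have : (c j).natDegree ≤ ∑ j, (c j).natDegree :=
      Finset.single_le_sum (f := fun j => (c j).natDegree) (fun _ _ => Nat.zero_le _)
        (Finset.mem_univ j)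
    omega
  have hcdiff : ∀ i j, i ≠ j → c i ≠ c j ∧ (c i - c j).natDegree ≤ w := by
    intro i j hij
    refine ⟨fun h => hij (hc h), ?_⟩
    refine (natDegree_sub_le _ _).trans ?_
    have h1 := hcdeg i
    have h2 := hcdeg j
    rw [max_le_iff]
    constructor <;> omega
  obtain ⟨N2, hN2⟩ := ev_pow (k * κ) c₁ hc₁
  obtain ⟨M, N, D, hN0, hMN, hDM, hDM1, hav0⟩ := hw₀ w (by omega)
    ((WW F w).natDegree + 4 * w + 8 + N2)
  obtain ⟨b, hbdeg, hbdvd⟩ := exists_shift a hkF h w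
  set s : Fin k → F[X] := fun i => b + C (a i) * h with hs
  have hsM : ∀ i, (s i).natDegree < N + (WW F w).natDegree := by
    intro i
    have h1 : (C (a i) * h).natDegree ≤ h.natDegree := natDegree_C_mul_le _ _
    have h2 := natDegree_add_le b (C (a i) * h)
    have h3 : (s i).natDegree ≤ max b.natDegree (C (a i) * h).natDegree := h2
    refine lt_of_le_of_lt h3 ?_
    rw [max_lt_iff]
    constructor <;> omega
  have hsV : ∀ i j, i ≠ j → ∀ P : F[X], P.Monic → Irreducible P → w < P.natDegree →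
      ¬ P ∣ s i - s j := by
    intro i j hij P _ hPi hPw hdvd
    have h1 : s i - s j = C (a i - a j) * h := by
      rw [hs]
      simp only [C_sub]
      ring
    rw [h1] at hdvd
    have h2 : a i - a j ≠ 0 := sub_ne_zero.mpr fun h => hij (ha h)
    have h3 := natDegree_le_of_dvd hdvd (mul_ne_zero (C_ne_zero.mpr h2) hh0)
    rw [natDegree_C_mul h2] at h3
    omega
  have hsV' : ∀ i j, i ≠ j → ∀ P ∈ PR F w D, ¬ P ∣ s i - s j := by
    intro i j hij P hP
    exact hsV i j hij P (mem_PR.1 hP).1 (mem_PR.1 hP).2.1 (mem_PR.1 hP).2.2.1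
  have hav := hav0 s hbdvd hsV (by rw [hMN]; exact hsM)
  set d : ℕ := N / 2 with hd
  set d' : ℕ := N / 4 with hd'
  have hNpos : (0 : ℝ) < (N : ℝ) := by exact_mod_cast (by omega : 0 < N)
  have hM2 : M ≤ 2 * N := by omega
  have hMr : (M : ℝ) ≤ 2 * N := by exact_mod_cast hM2
  have hMpos : (0 : ℝ) < (M : ℝ) := by exact_mod_cast (by omega : 0 < M)
  -- D is small
  have hDN : 16 * KK * D ≤ N := by
    have h1 : (D : ℝ) ≤ 1 / (32 * (KK : ℝ)) * (2 * N) := by
      refine hDM.trans ?_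
      apply mul_le_mul hδ0 hMr hMpos.le (by positivity)
    have h2 : 16 * (KK : ℝ) * D ≤ N := by
      calc 16 * (KK : ℝ) * D ≤ 16 * (KK : ℝ) * (1 / (32 * (KK : ℝ)) * (2 * N)) :=
            mul_le_mul_of_nonneg_left h1 (by positivity)
        _ = N := by field_simp; ring
    exact_mod_cast h2
  have hk1 : κ * 2 ^ κ * k ≤ KK := by
    rw [hKK]
    exact Nat.mul_le_mul_left _ (Nat.le_succ k)
  have hk2 : 2 ^ κ * k ≤ KK := by
    refine le_trans ?_ hk1
    rw [mul_assoc]
    exact Nat.le_mul_of_pos_left _ (by omega)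
  have hA : 2 * (κ * 2 ^ κ * k) * D ≤ N / 8 := by
    rw [Nat.le_div_iff_mul_le (by norm_num)]
    calc 2 * (κ * 2 ^ κ * k) * D * 8 ≤ 2 * KK * D * 8 := by gcongr
      _ = 16 * KK * D := by ring
      _ ≤ N := hDN
  have hA' : 2 * (2 ^ κ * k) * D ≤ N / 8 := by
    rw [Nat.le_div_iff_mul_le (by norm_num)]
    calc 2 * (2 ^ κ * k) * D * 8 ≤ 2 * KK * D * 8 := by gcongr
      _ = 16 * KK * D := by ring
      _ ≤ N := hDN
  have hD16 : D ≤ N / 8 := by
    rw [Nat.le_div_iff_mul_le (by norm_num)]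
    calc D * 8 ≤ 16 * KK * D := by nlinarith
      _ ≤ N := hDN
  -- linear forms conditions
  have hcd : ∀ j, (c j).natDegree + d ≤ N := fun j => by
    have := hcdeg j
    omega
  have hLF : LFn (fun j => mulHom (c j) d N) (nu w N D s) η := by
    refine lfc_mono _ _ _ ?_ (lf_n s c w N d D hsV' hcdiff hcd (by omega) (by omega)
      (by rw [Fintype.card_fin]; omega))
    have := hw₁ w (by omega) F D
    linarith
  have hLY : LFy κ (mulHom (MpP c) d' N) (nu w N D s) η := by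
    intro S
    refine (lf_y s κ (MpP c) w N d' D hsV' ⟨MpP_ne c hc, by omega⟩ (by omega) (by omega)
      (by rw [Fintype.card_fin]; omega) S).trans ?_
    have := hw₂ w (by omega) F D
    linarith
  -- pigeonhole
  have hSS0 : 0 < SS F w D := lt_of_lt_of_le (by have := om_pos (F := F) w; positivity) (SS_ge w D)
  obtain ⟨I, hI, f, hfS, hfgood, hfirr, hfm⟩ := pig_f
    (fun x : Fin N → F => ∀ i, ∀ P ∈ PR F w D, ¬ P ∣ nn w N s x i)
    (fun x i => Irreducible (nn w N s x i)) m hmk (cM * (om F w / M) ^ k) (SS F w D ^ k)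
    (by positivity) (by convert hav)
  have hf0 : ∀ x, 0 ≤ f x := fun x => (hfS x).1
  have hfν : ∀ x, 0 ≤ f x ∧ f x ≤ nu w N D s x := by
    intro x
    refine ⟨hf0 x, ?_⟩
    by_cases h : ∀ i, ∀ P ∈ PR F w D, ¬ P ∣ nn w N s x i
    · rw [nu_good s w N D x h, Fintype.card_fin]
      exact (hfS x).2
    · rw [hfgood x h]
      exact nu_nonneg s w N D x
  have hom := om_pos (F := F) w
  have hmean : δ' ≤ ∑ x, unif (Fin N → F) x * f x := by
    refine le_trans ?_ hfm
    have h2 : δ * M / om F w ≤ SS F w D := by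
      refine le_trans ?_ (SS_ge w D)
      exact div_le_div_of_nonneg_right hDM1.le hom.le
    calc δ' = (δ * M / om F w) ^ k * (cM * (om F w / M) ^ k / 2 ^ k) := by
          rw [hδ', div_pow, div_pow, mul_pow]
          field_simp
      _ ≤ SS F w D ^ k * (cM * (om F w / M) ^ k / 2 ^ k) := by
          apply mul_le_mul_of_nonneg_right (pow_le_pow_left₀ (by positivity) h2 k)
          positivity
  -- relative theorem
  have hcnt := hrel (Fin N → F) (Fin d → F) (Fin d' → F) (fun j => mulHom (c j) d N)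
    (fun j i => mulHom (QpP c j i) d' d) (mulHom (MpP c) d' N)
    (fun j i hij y => mulHom_rel c N d d' hcd hij
      (by have := QpP_deg c hc hij; omega) (by omega) y)
    (nu w N D s) f hLF hLY hfν hmean
  -- upper bound
  have hfB : ∀ x, f x ≤ (30 * (N : ℝ)) ^ k := by
    intro x
    refine (hfS x).2.trans ?_
    apply pow_le_pow_left₀ hSS0.le
    refine (SS_le w D (by omega)).trans ?_
    have h1 : (w : ℝ) ≤ N := by exact_mod_cast (by omega : w ≤ N)
    have h2 : (D : ℝ) ≤ N := by exact_mod_cast (by omega : D ≤ N)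
    linarith
  have hlt : ((30 * (N : ℝ)) ^ k) ^ κ < c₁ * Fintype.card (Fin d → F) := by
    rw [← pow_mul]
    refine (hN2 N (by omega)).trans_le ?_
    apply mul_le_mul_of_nonneg_left _ hc₁.le
    rw [Fintype.card_fun, Fintype.card_fin]
    push_cast
    exact pow_le_pow_left₀ (by norm_num) card_ge_two _
  obtain ⟨x, v, hv, hpos⟩ := cnt_pos (fun j => mulHom (c j) d N) f hf0 _ _ hfB hcnt hlt
  have hirr : ∀ i ∈ I, ∀ j, Irreducible (WW F w * (X ^ N + pol (x + mulHom (c j) d N v)) +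
      (b + C (a i) * h)) := by
    intro i hi j
    have h3 := hfirr _ (hpos j) i hi
    simp only [nn] at h3
    exact h3
  exact fin_poly hm a ha I hI (WW F w) (WW_monic w) b h N d
    (fun i => by rw [add_comm (WW F w).natDegree]; exact hsM i) c hcd x v hv hirr N1
    ((by omega : N1 ≤ w).trans (WW_degree_ge w (by omega)))

end Pool.Agent.H10.FF
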