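import Pool.Agent.H10.FF.Defs2

/-! # Project FF, block E: pigeonhole over the index sets -/

namespace Pool.Agent.H10.FF

open Polynomial Finset
open scoped Classical

theorem av_nonneg' {X : Type} [Fintype X] (f : X → ℝ) (h : ∀ x, 0 ≤ f x) : 0 ≤ av f :=
  div_nonneg (Finset.sum_nonneg fun x _ => h x) (Nat.cast_nonneg _)

theorem pig {k : ℕ} {X : Type} [Fintype X] (good : X → Prop) (irr : X → Fin k → Prop) (m : ℕ)
    (hm : m ≤ k) (ε : ℝ)
    (h : ε ≤ av (fun x => if good x ∧ m ≤ (univ.filter (irr x)).card then (1 : ℝ) else 0)) :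
    ∃ I : Finset (Fin k), I.card = m ∧
      ε / 2 ^ k ≤ av (fun x => if good x ∧ ∀ i ∈ I, irr x i then (1 : ℝ) else 0) := by
  by_contra hcon
  push Not at hcon
  obtain ⟨I0, -, hI0⟩ := Finset.exists_subset_card_eq (s := (univ : Finset (Fin k))) (n := m)
    (by rw [Finset.card_univ, Fintype.card_fin]; exact hm)
  have h0 : 0 ≤ av (fun x => if good x ∧ ∀ i ∈ I0, irr x i then (1 : ℝ) else 0) :=
    av_nonneg' _ fun x => by split_ifs <;> norm_num
  have hε : 0 < ε := by
    have h1 := hcon I0 hI0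
    have h2 : 0 < ε / 2 ^ k := lt_of_le_of_lt h0 h1
    by_contra h3
    have : ε / 2 ^ k ≤ 0 := div_nonpos_of_nonpos_of_nonneg (not_lt.mp h3) (by positivity)
    linarith
  set J := (univ : Finset (Fin k)).powersetCard m with hJ
  have hle : av (fun x => if good x ∧ m ≤ (univ.filter (irr x)).card then (1 : ℝ) else 0) ≤
      ∑ I ∈ J, av (fun x => if good x ∧ ∀ i ∈ I, irr x i then (1 : ℝ) else 0) := by
    unfold av
    rw [← Finset.sum_div]
    apply div_le_div_of_nonneg_right _ (Nat.cast_nonneg _)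
    rw [Finset.sum_comm]
    refine Finset.sum_le_sum fun x _ => ?_
    split_ifs with hx
    · obtain ⟨I, hI, hIc⟩ := Finset.exists_subset_card_eq hx.2
      have hIJ : I ∈ J := by
        rw [hJ, Finset.mem_powersetCard]
        exact ⟨Finset.subset_univ _, hIc⟩
      have h1 : (1 : ℝ) = if good x ∧ ∀ i ∈ I, irr x i then (1 : ℝ) else 0 := by
        rw [if_pos]
        exact ⟨hx.1, fun i hi => (Finset.mem_filter.mp (hI hi)).2⟩
      refine h1.le.trans ?_
      exact Finset.single_le_sum (f := fun I => if good x ∧ ∀ i ∈ I, irr x i then (1 : ℝ) else 0)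
        (fun I _ => by split_ifs <;> norm_num) hIJ
    · exact Finset.sum_nonneg fun I _ => by split_ifs <;> norm_num
  have hlt : ∑ I ∈ J, av (fun x => if good x ∧ ∀ i ∈ I, irr x i then (1 : ℝ) else 0) <
      ∑ _I ∈ J, ε / 2 ^ k := by
    apply Finset.sum_lt_sum_of_nonempty
    · exact ⟨I0, by rw [hJ, Finset.mem_powersetCard]; exact ⟨Finset.subset_univ _, hI0⟩⟩
    · intro I hI
      exact hcon I (Finset.mem_powersetCard.mp hI).2
  rw [Finset.sum_const, nsmul_eq_mul] at hlt
  have hcard : (J.card : ℝ) ≤ 2 ^ k := by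
    have h1 : J ⊆ (univ : Finset (Fin k)).powerset := by
      intro I hI
      exact Finset.mem_powerset.mpr (Finset.subset_univ _)
    have h2 := Finset.card_le_card h1
    rw [Finset.card_powerset, Finset.card_univ, Fintype.card_fin] at h2
    exact_mod_cast h2
  have hfin : (J.card : ℝ) * (ε / 2 ^ k) ≤ ε := by
    calc (J.card : ℝ) * (ε / 2 ^ k) ≤ 2 ^ k * (ε / 2 ^ k) :=
          mul_le_mul_of_nonneg_right hcard (by positivity)
      _ = ε := by field_simp
  linarith

end Pool.Agent.H10.FF
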