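import Pool.Agent.H10.FF.Loc

/-!
JOB FF-C4 (MP_a1f59e_nt). Size of the sieve function on good points.

PROOF of `Phi_le`. `|Phi| ≤ ∑_{c, dgt c ≤ R} ∏_P |UU P (c P)|` (`0 ≤ BB ≤ Bs ≤ 1`, `BB = 0` for `dgt c > R`). `col_le_tuple` with
`f i P = |uu P (n i)|` and `Wt t = [∀ i, dgI (t i) ≤ R]`, `tuple_prod`: `≤ ∏_i ∑_{s, dgI s ≤ R} ∏_{P ∈ s} |uu P (n i)|`. Here
`|uu P n| = 1` if `P ∣ n`, `v` otherwise, so with `Z = {P | P ∣ n i}`, `#Z ≤ L`: `∑_s ∏_{P ∈ s} |uu| ≤ ∑_{s₁ ⊆ Z} ∑_{s₂} ∏_{P ∈ s₂} v ≤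
2 ^ L * TS F w R R 1` (`s = (s ∩ Z) ∪ (s \ Z)`, `dgI (s \ Z) ≤ R`).
PROOF of `few_primes`. The primes of degree `> D` dividing `n` are distinct monic irreducibles, their product divides `n`
(`prod_dvd_of_forall`), so `#Z * (D + 1) ≤ natDegree n`. `nn_natDegree`: `WW * (X ^ N + pol x) + a i` is monic of degree
`deg WW + N` if the shifts have smaller degree. ~150 lines.
-/

namespace Pool.Agent.H10.FF

open Polynomial Finset
open scoped Classical

variable {F : Type} [Field F] [Fintype F] {K : Type} [Fintype K] [DecidableEq K]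

private theorem good_single {w R : ℕ} (n : F[X]) (L : ℕ)
    (h : ((PR F w R).filter (fun P => P ∣ n)).card ≤ L) :
    ∑ s : Finset (Ix F w R), (if dgI s ≤ R then ∏ P ∈ s, |uu P.1 n| else 0) ≤
      2 ^ L * TS F w R R (fun _ => 1) := by
  set Z : Finset (Ix F w R) := Finset.univ.filter (fun P => P.1 ∣ n) with hZ
  have hZc : Z.card ≤ L := by
    refine le_trans ?_ h
    refine Finset.card_le_card_of_injOn (fun P : Ix F w R => P.1) ?_ ?_
    · intro P hP
      have hP' : P ∈ Z := hP
      rw [hZ, Finset.mem_filter] at hP'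
      exact Finset.mem_coe.2 (Finset.mem_filter.2 ⟨P.2, hP'.2⟩)
    · intro P _ Q _ hPQ
      exact Subtype.ext hPQ
  set G : Finset (Ix F w R) → ℝ := fun t => if dgI t ≤ R then ∏ P ∈ t, vP P.1 else 0 with hG
  have hG0 : ∀ t, 0 ≤ G t := by
    intro t
    rw [hG]
    dsimp only
    split_ifs
    · exact Finset.prod_nonneg fun P _ => (vP_pos P.2).le
    · exact le_rfl
  have hTS : TS F w R R (fun _ => 1) = ∑ t, G t := by
    rw [TS_eq]
    refine Finset.sum_congr rfl fun t _ => ?_
    rw [one_mul]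
  have hle : ∀ t : Finset (Ix F w R), (if dgI t ≤ R then ∏ P ∈ t, |uu P.1 n| else 0) ≤
      G (t \ Z) := by
    intro t
    by_cases ht : dgI t ≤ R
    · have h1 : dgI (t \ Z) ≤ R :=
        le_trans (Finset.sum_le_sum_of_subset Finset.sdiff_subset) ht
      rw [if_pos ht, hG]
      dsimp only
      rw [if_pos h1, ← Finset.prod_inter_mul_prod_sdiff t Z (fun P => |uu P.1 n|)]
      have h2 : ∏ P ∈ t ∩ Z, |uu P.1 n| = 1 := by
        refine Finset.prod_eq_one fun P hP => ?_
        have h3 : P.1 ∣ n := (Finset.mem_filter.1 (Finset.mem_inter.1 hP).2).2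
        rw [uu, if_pos h3, abs_neg, abs_one]
      have h4 : ∏ P ∈ t \ Z, |uu P.1 n| = ∏ P ∈ t \ Z, vP P.1 := by
        refine Finset.prod_congr rfl fun P hP => ?_
        have h3 : ¬ P.1 ∣ n := fun hd =>
          (Finset.mem_sdiff.1 hP).2 (Finset.mem_filter.2 ⟨Finset.mem_univ _, hd⟩)
        rw [uu, if_neg h3, abs_of_pos (vP_pos P.2)]
      rw [h2, h4, one_mul]
    · rw [if_neg ht]
      exact hG0 _
  have hinj : Function.Injective (fun t : Finset (Ix F w R) => (t ∩ Z, t \ Z)) := by
    intro t t' htt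
    have h1 : t ∩ Z = t' ∩ Z := congrArg Prod.fst htt
    have h2 : t \ Z = t' \ Z := congrArg Prod.snd htt
    rw [← Finset.sdiff_union_inter t Z, h1, h2, Finset.sdiff_union_inter]
  calc ∑ t : Finset (Ix F w R), (if dgI t ≤ R then ∏ P ∈ t, |uu P.1 n| else 0)
      ≤ ∑ t : Finset (Ix F w R), G (t \ Z) := Finset.sum_le_sum fun t _ => hle t
    _ = ∑ q ∈ Finset.univ.image (fun t : Finset (Ix F w R) => (t ∩ Z, t \ Z)), G q.2 := by
        rw [Finset.sum_image (fun a _ b _ hab => hinj hab)]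
    _ ≤ ∑ q ∈ Z.powerset ×ˢ (Finset.univ : Finset (Finset (Ix F w R))), G q.2 := by
        refine Finset.sum_le_sum_of_subset_of_nonneg ?_ (fun q _ _ => hG0 q.2)
        intro q hq
        obtain ⟨t, -, rfl⟩ := Finset.mem_image.1 hq
        exact Finset.mem_product.2 ⟨Finset.mem_powerset.2 Finset.inter_subset_right,
          Finset.mem_univ _⟩
    _ = 2 ^ Z.card * ∑ t, G t := by
        rw [Finset.sum_product]
        change ∑ x ∈ Z.powerset, ∑ y, G y = _
        rw [Finset.sum_const, Finset.card_powerset, nsmul_eq_mul]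
        push_cast
        rfl
    _ ≤ 2 ^ L * TS F w R R (fun _ => 1) := by
        rw [hTS]
        exact mul_le_mul_of_nonneg_right (pow_le_pow_right₀ (by norm_num) hZc)
          (Finset.sum_nonneg fun t _ => hG0 t)

theorem Phi_le {w R : ℕ} (α : ℝ) (hα : 0 ≤ α) (n : K → F[X]) (L : ℕ)
    (h : ∀ i, ((PR F w R).filter (fun P => P ∣ n i)).card ≤ L) :
    |Phi w R α n| ≤ (2 ^ L * TS F w R R (fun _ => 1)) ^ Fintype.card K := by
  set Wt : (K → Finset (Ix F w R)) → ℝ := fun t => if ∀ i, dgI (t i) ≤ R then 1 else 0 with hWt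
  have hW0 : ∀ t, 0 ≤ Wt t := by
    intro t
    rw [hWt]
    dsimp only
    split_ifs
    · exact zero_le_one
    · exact le_rfl
  have h1 : |Phi w R α n| ≤ ∑ c : Ix F w R → Option K,
      Wt (cls c) * ∏ P : Ix F w R, (c P).elim 1 (fun i => |uu P.1 (n i)|) := by
    unfold Phi
    refine le_trans (Finset.abs_sum_le_sum_abs _ _) (Finset.sum_le_sum fun c _ => ?_)
    rw [abs_mul, Finset.abs_prod, abs_of_nonneg (BB_nonneg hα c)]
    have h2 : ∏ P : Ix F w R, |UU P.1 n (c P)| =
        ∏ P : Ix F w R, (c P).elim 1 (fun i => |uu P.1 (n i)|) := by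
      refine Finset.prod_congr rfl fun P _ => ?_
      rcases c P with _ | i
      · exact abs_one
      · rfl
    rw [h2]
    refine mul_le_mul_of_nonneg_right ?_ (Finset.prod_nonneg fun P _ => ?_)
    · rcases Nat.lt_or_ge R (dgt c) with h3 | h3
      · rw [BB_eq_zero c h3]
        exact hW0 _
      · have h4 : Wt (cls c) = 1 := by
          rw [hWt]
          dsimp only
          rw [if_pos]
          intro i
          rw [← dgi_eq]
          refine le_trans ?_ h3
          rw [dgt_eq]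
          exact Finset.single_le_sum (f := fun i => dgi c i) (fun _ _ => Nat.zero_le _)
            (Finset.mem_univ i)
        rw [h4]
        exact (BB_le_Bs hα c).trans (Bs_le_one hα c)
    · rcases c P with _ | i
      · exact zero_le_one
      · exact abs_nonneg _
  refine h1.trans ((col_le_tuple Wt hW0 (fun i P => |uu P.1 (n i)|)
    (fun i P => abs_nonneg _)).trans ?_)
  have h5 : ∀ t : K → Finset (Ix F w R), Wt t * ∏ i, ∏ P ∈ t i, |uu P.1 (n i)| =
      ∏ i, (fun (i : K) (s : Finset (Ix F w R)) =>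
        if dgI s ≤ R then ∏ P ∈ s, |uu P.1 (n i)| else 0) i (t i) := by
    intro t
    by_cases h : ∀ i, dgI (t i) ≤ R
    · rw [hWt]
      dsimp only
      rw [if_pos h, one_mul]
      refine Finset.prod_congr rfl fun i _ => ?_
      rw [if_pos (h i)]
    · rw [hWt]
      dsimp only
      rw [if_neg h, zero_mul]
      push Not at h
      obtain ⟨i, hi⟩ := h
      symm
      refine Finset.prod_eq_zero (Finset.mem_univ i) ?_
      rw [if_neg (not_le.2 hi)]
  have h6 := tuple_prod (K := K) (ι := Ix F w R) (fun (i : K) (s : Finset (Ix F w R)) =>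
        if dgI s ≤ R then ∏ P ∈ s, |uu P.1 (n i)| else 0)
  rw [Finset.sum_congr rfl fun t _ => h5 t]
  refine le_trans (le_of_eq h6) ?_
  calc _ ≤ ∏ _i : K, (2 ^ L * TS F w R R (fun _ => 1)) := by
        refine Finset.prod_le_prod (fun i _ => Finset.sum_nonneg fun s _ => ?_)
          (fun i _ => good_single (n i) L (h i))
        split_ifs
        · exact Finset.prod_nonneg fun P _ => abs_nonneg _
        · exact le_rfl
    _ = _ := by rw [Finset.prod_const, Finset.card_univ]

omit [Fintype K] [DecidableEq K] in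
theorem nn_monic (w N : ℕ) (a : K → F[X]) (hd : ∀ i, (a i).natDegree < N + (WW F w).natDegree)
    (x : Fin N → F) (i : K) : (nn w N a x i).Monic := by
  have h1 : (X ^ N + pol x : F[X]).Monic := monic_X_pow_add (pol_degree_lt x)
  have h2 : (WW F w * (X ^ N + pol x)).Monic := (WW_monic w).mul h1
  refine h2.add_of_left ?_
  refine lt_of_le_of_lt degree_le_natDegree ?_
  rw [degree_eq_natDegree h2.ne_zero, (WW_monic w).natDegree_mul h1,
    natDegree_add_eq_left_of_degree_lt (by rw [degree_X_pow]; exact pol_degree_lt x),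
    natDegree_X_pow, add_comm]
  exact_mod_cast hd i

omit [Fintype K] [DecidableEq K] in
theorem nn_natDegree (w N : ℕ) (a : K → F[X])
    (hd : ∀ i, (a i).natDegree < N + (WW F w).natDegree) (x : Fin N → F) (i : K) :
    (nn w N a x i).natDegree = N + (WW F w).natDegree := by
  have h1 : (X ^ N + pol x : F[X]).Monic := monic_X_pow_add (pol_degree_lt x)
  have h3 : (WW F w * (X ^ N + pol x)).natDegree = N + (WW F w).natDegree := by
    rw [(WW_monic w).natDegree_mul h1,
      natDegree_add_eq_left_of_degree_lt (by rw [degree_X_pow]; exact pol_degree_lt x),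
      natDegree_X_pow, add_comm]
  unfold nn
  rw [natDegree_add_eq_left_of_natDegree_lt (by rw [h3]; exact hd i), h3]

theorem few_primes (w D R : ℕ) (n : F[X]) (hn : n ≠ 0)
    (h : ∀ P ∈ PR F w D, ¬ P ∣ n) :
    ((PR F w R).filter (fun P => P ∣ n)).card * (D + 1) ≤ n.natDegree := by
  have h1 : ∀ P ∈ (PR F w R).filter (fun P => P ∣ n), P.Monic ∧ Irreducible P := by
    intro P hP
    have h2 := mem_PR.1 (Finset.mem_filter.1 hP).1
    exact ⟨h2.1, h2.2.1⟩
  have h3 := prod_dvd_of_forall _ h1 n (fun P hP => (Finset.mem_filter.1 hP).2)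
  have h4 := natDegree_le_of_dvd h3 hn
  rw [prod_natDegree _ h1] at h4
  refine le_trans ?_ h4
  unfold dg
  rw [← smul_eq_mul]
  refine Finset.card_nsmul_le_sum _ _ _ fun P hP => ?_
  have h2 := mem_PR.1 (Finset.mem_filter.1 hP).1
  by_contra h5
  push Not at h5
  exact h P (mem_PR.2 ⟨h2.1, h2.2.1, h2.2.2.1, by omega⟩) (Finset.mem_filter.1 hP).2

end Pool.Agent.H10.FF
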