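import Pool.Agent.H10.FF.Base

/-!
JOB FF-B3 (MP_a1f59e_nt). Independence of the reductions modulo distinct primes.

SETTING. `X` is a finite abelian group with coordinate polynomials `p a : X →+ F[X]` such that every family of
polynomials of degree `< L` is attained (`hL`). `f P` depends only on the `p a x` modulo `P`.

PROOF of `indep_abs`: Let `K, K'` be subgroups of a finite abelian group with `K ⊔ K' = ⊤`, `f` invariant under `K`, `g`
under `K'`. Then `av (f g) = av f * av g`: for `z ∈ K`, `∑ x, f x * g x = ∑ x, f (x + z) * g (x + z) = ∑ x, f x * g (x + z)`.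
So `card K * ∑ x, f x g x = ∑ x, f x * G x`, `G x = ∑ z ∈ K, g (x + z)`. `G` is invariant under `K` (reindex) and under `K'`
(as `g` is), so under `K ⊔ K' = ⊤`: constant, `G x = card K / card X * ∑ g`.
`indep_prod`: induction on `s` (insert `P` into `s`): `K = {z | ∀ a, P ∣ p a z}`, `K' = {z | ∀ a, (∏ Q ∈ s, Q) ∣ p a z}`
(additive subgroups). `f P` is `K`-invariant, `∏ Q ∈ s, f Q` is `K'`-invariant. `K ⊔ K' = ⊤`: let `x : X`,
`G = ∏ Q ∈ s, Q`, coprime to `P` (`isCoprime_prod`). For every `a` there is `B a` with `degree (B a) < degree P` and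
`G * B a ≡ p a x mod P` (`IsCoprime`: `u P + v G = 1`, `B a = (v * p a x) %ₘ P`). By `hL` (degree of `G * B a` is
`< dg (insert P s) ≤ L`; careful when `B a = 0`, then the degree is `⊥`) there is `z` with `p a z = G * B a` for all `a`. So
`z ∈ K'`, `x - z ∈ K`. ~120 lines.
`hL_single`: `X = Fin N → F`, `A = Unit`. `hL_triple`: `X = (Fin N → F) × (κ → Fin d → F) × (κ → Fin d → F)`.
-/

namespace Pool.Agent.H10.FF

open Polynomial Finset
open scoped Classical

variable {F : Type} [Field F] [Fintype F]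

theorem indep_abs {X : Type} [AddCommGroup X] [Fintype X] (K K' : AddSubgroup X) (h : K ⊔ K' = ⊤)
    (f g : X → ℝ) (hf : ∀ x, ∀ z ∈ K, f (x + z) = f x) (hg : ∀ x, ∀ z ∈ K', g (x + z) = g x) :
    av (fun x => f x * g x) = av f * av g := by
  have hX : (0 : ℝ) < Fintype.card X := by exact_mod_cast Fintype.card_pos
  have hK : (0 : ℝ) < Fintype.card K := by exact_mod_cast Fintype.card_pos
  let G : X → ℝ := fun x => ∑ z : K, g (x + z)
  have h1 : ∑ x, f x * G x = Fintype.card K * ∑ x, f x * g x := by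
    have e1 : ∑ x, f x * G x = ∑ z : K, ∑ x, f (x + z) * g (x + z) := by
      rw [Finset.sum_comm]
      refine Finset.sum_congr rfl fun x _ => ?_
      change f x * ∑ z : K, g (x + z) = _
      rw [Finset.mul_sum]
      exact Finset.sum_congr rfl fun z _ => by rw [hf x z z.2]
    have e2 : ∀ z : K, ∑ x, f (x + z) * g (x + z) = ∑ x, f x * g x := fun z =>
      Fintype.sum_equiv (Equiv.addRight (z : X)) _ _ fun x => rfl
    rw [e1, Finset.sum_congr rfl fun z _ => e2 z, Finset.sum_const, Finset.card_univ,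
      nsmul_eq_mul]
  have h2 : ∀ x, G x = G 0 := by
    intro x
    have hx : x ∈ K ⊔ K' := by rw [h]; trivial
    obtain ⟨k, hk, k', hk', rfl⟩ := AddSubgroup.mem_sup.1 hx
    change ∑ z : K, g (k + k' + z) = ∑ z : K, g (0 + z)
    have e1 : ∀ z : K, g (k + k' + z) = g (0 + ((⟨k, hk⟩ + z : K) : X)) := by
      intro z
      have e2 := hg (k + z) k' hk'
      have e3 : k + (z : X) + k' = k + k' + z := by abel
      rw [e3] at e2
      rw [e2, zero_add]
      rfl
    rw [Finset.sum_congr rfl fun z _ => e1 z]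
    exact Fintype.sum_equiv (Equiv.addLeft (⟨k, hk⟩ : K)) _ _ fun z => rfl
  have h3 : ∑ x, G x = Fintype.card K * ∑ x, g x := by
    have e1 : ∑ x, G x = ∑ z : K, ∑ x, g (x + z) := Finset.sum_comm
    have e2 : ∀ z : K, ∑ x, g (x + z) = ∑ x, g x := fun z =>
      Fintype.sum_equiv (Equiv.addRight (z : X)) _ _ fun x => rfl
    rw [e1, Finset.sum_congr rfl fun z _ => e2 z, Finset.sum_const, Finset.card_univ,
      nsmul_eq_mul]
  rw [Finset.sum_congr rfl fun x _ => h2 x, Finset.sum_const, Finset.card_univ,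
    nsmul_eq_mul] at h3
  simp_rw [h2] at h1
  rw [← Finset.sum_mul] at h1
  have h4 : (Fintype.card X : ℝ) * ∑ x, f x * g x = (∑ x, f x) * ∑ x, g x := by
    have e1 : (Fintype.card K : ℝ) * ((Fintype.card X : ℝ) * ∑ x, f x * g x) =
        Fintype.card K * ((∑ x, f x) * ∑ x, g x) := by
      linear_combination (-(Fintype.card X : ℝ)) * h1 + (∑ x, f x) * h3
    exact mul_left_cancel₀ hK.ne' e1
  unfold av
  rw [div_mul_div_comm, ← h4]
  field_simp

theorem indep_prod {X A : Type} [AddCommGroup X] [Fintype X] (p : A → X →+ F[X]) (L : ℕ)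
    (hL : ∀ g : A → F[X], (∀ a, (g a).degree < L) → ∃ z : X, ∀ a, p a z = g a)
    (s : Finset F[X]) (hs : ∀ P ∈ s, P.Monic ∧ Irreducible P) (hdeg : dg s ≤ L)
    (f : F[X] → X → ℝ)
    (hf : ∀ P ∈ s, ∀ x y, (∀ a, P ∣ p a x - p a y) → f P x = f P y) :
    av (fun x => ∏ P ∈ s, f P x) = ∏ P ∈ s, av (f P) := by
  induction s using Finset.induction_on with
  | empty =>
    simp only [Finset.prod_empty]
    unfold av
    rw [Finset.sum_const, Finset.card_univ, nsmul_eq_mul, mul_one, div_self]
    exact_mod_cast Fintype.card_ne_zero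
  | insert P s hPs ih =>
    have hP := hs P (Finset.mem_insert_self _ _)
    have hs' : ∀ Q ∈ s, Q.Monic ∧ Irreducible Q := fun Q hQ => hs Q (Finset.mem_insert_of_mem hQ)
    have hdg : dg (insert P s) = P.natDegree + dg s := by
      unfold dg
      rw [Finset.sum_insert hPs]
    set G : F[X] := ∏ Q ∈ s, Q with hG
    have hGm : G.Monic := monic_prod_of_monic _ _ fun Q hQ => (hs' Q hQ).1
    let K : AddSubgroup X :=
      { carrier := {z | ∀ a, P ∣ p a z}
        add_mem' := fun {x y} hx hy a => by rw [map_add]; exact dvd_add (hx a) (hy a)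
        zero_mem' := fun a => by rw [map_zero]; exact dvd_zero _
        neg_mem' := fun {x} hx a => by rw [map_neg]; exact (dvd_neg).2 (hx a) }
    let K' : AddSubgroup X :=
      { carrier := {z | ∀ a, G ∣ p a z}
        add_mem' := fun {x y} hx hy a => by rw [map_add]; exact dvd_add (hx a) (hy a)
        zero_mem' := fun a => by rw [map_zero]; exact dvd_zero _
        neg_mem' := fun {x} hx a => by rw [map_neg]; exact (dvd_neg).2 (hx a) }
    have hsup : K ⊔ K' = ⊤ := by
      rw [eq_top_iff]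
      intro x _
      obtain ⟨u, v, huv⟩ := isCoprime_prod hP s hs' hPs
      rw [← hG] at huv
      obtain ⟨z, hz⟩ := hL (fun a => G * ((v * p a x) %ₘ P)) (by
        intro a
        have h1 : ((v * p a x) %ₘ P).degree < P.degree := degree_modByMonic_lt _ hP.1
        have h2 : G.degree + ((v * p a x) %ₘ P).degree < G.degree + P.degree :=
          WithBot.add_lt_add_left (degree_ne_bot.2 hGm.ne_zero) h1
        rw [degree_mul]
        refine lt_of_lt_of_le h2 ?_
        rw [degree_eq_natDegree hGm.ne_zero, degree_eq_natDegree hP.1.ne_zero,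
          prod_natDegree s hs', ← Nat.cast_add]
        have h3 : dg s + P.natDegree ≤ L := by omega
        exact_mod_cast h3)
      rw [AddSubgroup.mem_sup]
      refine ⟨x - z, ?_, z, ?_, sub_add_cancel _ _⟩
      · intro a
        rw [map_sub, hz a]
        have h1 := modByMonic_add_div (v * p a x) P
        refine ⟨u * p a x + G * ((v * p a x) /ₘ P), ?_⟩
        linear_combination (-(p a x)) * huv - G * h1
      · intro a
        rw [hz a]
        exact dvd_mul_right _ _
    have h1 := indep_abs K K' hsup (f P) (fun x => ∏ Q ∈ s, f Q x)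
      (fun x z hz => hf P (Finset.mem_insert_self _ _) _ _ (fun a => by
        rw [map_add, add_sub_cancel_left]
        exact hz a))
      (fun x z hz => Finset.prod_congr rfl fun Q hQ =>
        hf Q (Finset.mem_insert_of_mem hQ) _ _ (fun a => by
          rw [map_add, add_sub_cancel_left]
          exact (Finset.dvd_prod_of_mem _ hQ).trans (hz a)))
    simp_rw [Finset.prod_insert hPs]
    rw [h1, ih hs' (by omega) (fun Q hQ => hf Q (Finset.mem_insert_of_mem hQ))]

/-- one variable -/
theorem hL_single (N : ℕ) (g : Unit → F[X]) (hg : ∀ a, (g a).degree < N) :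
    ∃ z : Fin N → F, ∀ a : Unit, (fun _ : Unit => polHom F N) a z = g a :=
  ⟨fun i => (g ()).coeff i, fun _ => pol_surj (g ()) (hg ())⟩

/-- `indep_prod` for one polynomial of degree `< N` -/
theorem indep_one (N : ℕ) (s : Finset F[X]) (hs : ∀ P ∈ s, P.Monic ∧ Irreducible P)
    (hdeg : dg s ≤ N) (f : F[X] → (Fin N → F) → ℝ)
    (hf : ∀ P ∈ s, ∀ x y, P ∣ pol x - pol y → f P x = f P y) :
    av (fun x => ∏ P ∈ s, f P x) = ∏ P ∈ s, av (f P) :=
  indep_prod (fun _ : Unit => polHom F N) N (fun g hg => hL_single N g hg) s hs hdeg f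
    (fun P hP x y h => hf P hP x y (h ()))

/-- the coordinate polynomials of a triple `(x, h, h')` -/
noncomputable def p3 (F : Type) [Field F] [Fintype F] (N d : ℕ) (κ : Type) (a : Unit ⊕ κ ⊕ κ) :
    ((Fin N → F) × (κ → Fin d → F) × (κ → Fin d → F)) →+ F[X] :=
  match a with
  | Sum.inl _ => (polHom F N).comp (AddMonoidHom.fst _ _)
  | Sum.inr (Sum.inl i) => (polHom F d).comp ((Pi.evalAddMonoidHom _ i).comp
      ((AddMonoidHom.fst _ _).comp (AddMonoidHom.snd _ _)))
  | Sum.inr (Sum.inr i) => (polHom F d).comp ((Pi.evalAddMonoidHom _ i).comp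
      ((AddMonoidHom.snd _ _).comp (AddMonoidHom.snd _ _)))

theorem hL_triple (N d : ℕ) (hd : d ≤ N) (κ : Type) (g : Unit ⊕ κ ⊕ κ → F[X])
    (hg : ∀ a, (g a).degree < d) : ∃ z, ∀ a, p3 F N d κ a z = g a := by
  refine ⟨(fun i => (g (Sum.inl ())).coeff i, fun i j => (g (Sum.inr (Sum.inl i))).coeff j,
    fun i j => (g (Sum.inr (Sum.inr i))).coeff j), ?_⟩
  rintro (a | i | i)
  · exact pol_surj (g (Sum.inl ())) (lt_of_lt_of_le (hg _) (by exact_mod_cast hd))
  · exact pol_surj (g (Sum.inr (Sum.inl i))) (hg _)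
  · exact pol_surj (g (Sum.inr (Sum.inr i))) (hg _)

/-- averages of a real function of a homomorphism to a finite group that is onto -/
theorem av_of_surj {X Y : Type} [AddCommGroup X] [Fintype X] [AddCommGroup Y] [Fintype Y]
    (π : X →+ Y) (hπ : Function.Surjective π) (f : Y → ℝ) : av (fun x => f (π x)) = av f := by
  set c : ℕ := (Finset.univ.filter fun x => π x = 0).card with hc
  have hfib : ∀ y : Y, (Finset.univ.filter fun x => π x = y).card = c := by
    intro y
    obtain ⟨x0, hx0⟩ := hπ y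
    refine Finset.card_bij' (fun x _ => x - x0) (fun x _ => x + x0) ?_ ?_ ?_ ?_
    · intro x hx
      rw [Finset.mem_filter] at hx ⊢
      exact ⟨Finset.mem_univ _, by rw [map_sub, hx.2, hx0, sub_self]⟩
    · intro x hx
      rw [Finset.mem_filter] at hx ⊢
      exact ⟨Finset.mem_univ _, by rw [map_add, hx.2, hx0, zero_add]⟩
    · intro x _
      exact sub_add_cancel _ _
    · intro x _
      exact add_sub_cancel_right _ _
  have hsum : ∀ g : Y → ℝ, ∑ x, g (π x) = c * ∑ y, g y := by
    intro g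
    rw [← Finset.sum_fiberwise (s := Finset.univ) (g := fun x => π x), Finset.mul_sum]
    refine Finset.sum_congr rfl fun y _ => ?_
    have h1 : ∑ x ∈ Finset.univ.filter (fun x => π x = y), g (π x) =
        ∑ _x ∈ Finset.univ.filter (fun x => π x = y), g y :=
      Finset.sum_congr rfl fun x hx => by rw [(Finset.mem_filter.1 hx).2]
    rw [h1, Finset.sum_const, hfib, nsmul_eq_mul]
  have hc0 : (c : ℝ) ≠ 0 := by
    have h1 : 0 < c := by
      rw [hc]
      exact Finset.card_pos.2 ⟨0, by simp⟩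
    exact_mod_cast h1.ne'
  have hcard : (Fintype.card X : ℝ) = c * Fintype.card Y := by
    have h1 := hsum (fun _ => 1)
    simp only [Finset.sum_const, Finset.card_univ, nsmul_eq_mul, mul_one] at h1
    exact h1
  unfold av
  rw [hsum, hcard, mul_div_mul_left _ _ hc0]

/-- coefficients of the remainder modulo `P` -/
private noncomputable def indep_v (P : F[X]) : F[X] →+ (Fin P.natDegree → F) where
  toFun f i := (f %ₘ P).coeff i
  map_zero' := by
    ext i
    rw [zero_modByMonic, coeff_zero]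
    rfl
  map_add' f g := by
    ext i
    rw [add_modByMonic, coeff_add]
    rfl

private theorem indep_v_eq {P : F[X]} (hP : P.Monic) {f g : F[X]} :
    indep_v P f = indep_v P g ↔ P ∣ f - g := by
  have hdeg : ∀ f : F[X], (f %ₘ P).degree < P.natDegree := by
    intro f
    rw [← degree_eq_natDegree hP.ne_zero]
    exact degree_modByMonic_lt f hP
  have h1 : indep_v P f = indep_v P g ↔ f %ₘ P = g %ₘ P := by
    constructor
    · intro h
      rw [← pol_surj _ (hdeg f), ← pol_surj _ (hdeg g)]
      exact congrArg pol h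
    · intro h
      ext i
      change (f %ₘ P).coeff i = (g %ₘ P).coeff i
      rw [h]
  rw [h1, ← modByMonic_eq_zero_iff_dvd hP, sub_modByMonic, sub_eq_zero]

private theorem indep_v_pol {P : F[X]} (hP : P.Monic) (w : Fin P.natDegree → F) :
    indep_v P (pol w) = w := by
  ext i
  change ((pol w) %ₘ P).coeff i = w i
  rw [(modByMonic_eq_self_iff hP).2, pol_coeff]
  rw [degree_eq_natDegree hP.ne_zero]
  exact pol_degree_lt w

private theorem indep_av_single {Y : Type} [Fintype Y] (y0 : Y) :
    av (fun y : Y => if y = y0 then (1 : ℝ) else 0) = 1 / Fintype.card Y := by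
  unfold av
  rw [Finset.sum_ite_eq' Finset.univ y0 (fun _ => (1 : ℝ)), if_pos (Finset.mem_univ _)]

/-- a class modulo `P` has density `1 / |P|` -/
theorem av_class {X : Type} [AddCommGroup X] [Fintype X] (ℓ : X →+ F[X]) (P : F[X])
    (hP : P.Monic) (hs : ∀ r : F[X], ∃ z, P ∣ ℓ z - r) (r : F[X]) :
    av (fun z => if P ∣ ℓ z - r then (1 : ℝ) else 0) = 1 / nrm P := by
  have h1 := av_of_surj ((indep_v P).comp ℓ) (by
    intro w
    obtain ⟨z, hz⟩ := hs (pol w)
    refine ⟨z, ?_⟩
    change indep_v P (ℓ z) = w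
    rw [(indep_v_eq hP).2 hz, indep_v_pol hP]) (fun y => if y = indep_v P r then (1 : ℝ) else 0)
  have h2 : av (fun y : Fin P.natDegree → F => if y = indep_v P r then (1 : ℝ) else 0) =
      1 / Fintype.card (Fin P.natDegree → F) := by
    convert indep_av_single (indep_v P r)
  rw [h2, Fintype.card_fun, Fintype.card_fin] at h1
  unfold nrm
  rw [Nat.cast_pow] at h1
  rw [← h1]
  congr 1
  funext z
  change _ = if indep_v P (ℓ z) = indep_v P r then (1 : ℝ) else 0
  by_cases h : P ∣ ℓ z - r
  · rw [if_pos h, if_pos ((indep_v_eq hP).2 h)]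
  · rw [if_neg h, if_neg (fun h' => h ((indep_v_eq hP).1 h'))]

/-- a pair of classes modulo `P` has density `1 / |P| ^ 2` -/
theorem av_class2 {X : Type} [AddCommGroup X] [Fintype X] (ℓ ℓ' : X →+ F[X]) (P : F[X])
    (hP : P.Monic) (hs : ∀ r r' : F[X], ∃ z, P ∣ ℓ z - r ∧ P ∣ ℓ' z - r') (r r' : F[X]) :
    av (fun z => if P ∣ ℓ z - r ∧ P ∣ ℓ' z - r' then (1 : ℝ) else 0) = 1 / nrm P ^ 2 := by
  have h1 := av_of_surj (((indep_v P).comp ℓ).prod ((indep_v P).comp ℓ')) (by
    rintro ⟨w, w'⟩
    obtain ⟨z, hz, hz'⟩ := hs (pol w) (pol w')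
    refine ⟨z, ?_⟩
    change (indep_v P (ℓ z), indep_v P (ℓ' z)) = (w, w')
    rw [(indep_v_eq hP).2 hz, indep_v_pol hP, (indep_v_eq hP).2 hz', indep_v_pol hP])
    (fun y => if y = (indep_v P r, indep_v P r') then (1 : ℝ) else 0)
  have h2 : av (fun y : (Fin P.natDegree → F) × (Fin P.natDegree → F) =>
      if y = (indep_v P r, indep_v P r') then (1 : ℝ) else 0) =
      1 / Fintype.card ((Fin P.natDegree → F) × (Fin P.natDegree → F)) := by
    convert indep_av_single (indep_v P r, indep_v P r')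
  rw [h2, Fintype.card_prod, Fintype.card_fun, Fintype.card_fin] at h1
  unfold nrm
  rw [Nat.cast_mul, Nat.cast_pow] at h1
  rw [sq, ← h1]
  congr 1
  funext z
  change _ = if (indep_v P (ℓ z), indep_v P (ℓ' z)) = (indep_v P r, indep_v P r') then (1 : ℝ) else 0
  by_cases h : P ∣ ℓ z - r ∧ P ∣ ℓ' z - r'
  · rw [if_pos h, if_pos (by rw [(indep_v_eq hP).2 h.1, (indep_v_eq hP).2 h.2])]
  · rw [if_neg h, if_neg (fun h' => h ⟨(indep_v_eq hP).1 (congrArg Prod.fst h'),
      (indep_v_eq hP).1 (congrArg Prod.snd h')⟩)]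

end Pool.Agent.H10.FF
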