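import Pool.Agent.H10.FF.LFgen
import Pool.Agent.H10.FF.Tail

/-!
JOB FF-B11 (MP_a1f59e_nt). Linear forms condition for the majorant of the `k`-tuple along a family of affine forms.

PROOF. Apply `LFgen` with `I = Λ × K`, `n (λ, i) z = WW * (X ^ N + ℓ λ z) + s i`. `P ∤ WW` (`WW_not_dvd`), so there is `V` with
`P ∣ V * WW - 1`; then `P ∣ WW * (X ^ N + y) + C a ↔ P ∣ y - r`, `r = -(X ^ N) - V * C a`. `h1`: `av_class`. `h2`: same `λ`,
`i ≠ i'`: both divisible would give `P ∣ C (a i - a i')`, impossible (`not_dvd_C`), average `0`; different `λ`: `av_class2`.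
`hper`: `P ∣ p a x - p a y = p a (x - y)` for all `a` gives `P ∣ ℓ λ (x - y)`. ~100 lines.
-/

namespace Pool.Agent.H10.FF

open Polynomial Finset
open scoped Classical

variable {F : Type} [Field F] [Fintype F]

private theorem lff_class {w R : ℕ} {P : F[X]} (hP : P ∈ PR F w R) (N : ℕ) :
    ∃ V : F[X], ∀ (y : F[X]) (c : F[X]),
      (P ∣ WW F w * (X ^ N + y) + c ↔ P ∣ y - (-(X ^ N) - V * c)) := by
  obtain ⟨u, V, h⟩ := ((mem_PR.1 hP).2.1.coprime_iff_not_dvd).2 (WW_not_dvd hP)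
  refine ⟨V, fun y c => ?_⟩
  have h1 : WW F w * (X ^ N + y) + c =
      WW F w * (y - (-(X ^ N) - V * c)) + P * (u * c) := by
    linear_combination (-c) * h
  rw [h1, dvd_add_left (dvd_mul_right _ _)]
  constructor
  · intro h2
    rcases (mem_PR.1 hP).2.1.prime.dvd_or_dvd h2 with h3 | h3
    · exact absurd h3 (WW_not_dvd hP)
    · exact h3
  · intro h2
    exact Dvd.dvd.mul_left h2 _

theorem LFforms {Z A Λ K : Type} [AddCommGroup Z] [Fintype Z] [Fintype Λ] [DecidableEq Λ]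
    [Fintype K] [DecidableEq K] (s : K → F[X])
    (p : A → Z →+ F[X]) (L : ℕ)
    (hL : ∀ g : A → F[X], (∀ a, (g a).degree < L) → ∃ z : Z, ∀ a, p a z = g a)
    (w D N : ℕ) (hs : Dif w D s) (ℓ : Λ → Z →+ F[X])
    (hper : ∀ P ∈ PR F w D, ∀ z, (∀ a, P ∣ p a z) → ∀ t, P ∣ ℓ t z)
    (hs1 : ∀ P ∈ PR F w D, ∀ t, ∀ r : F[X], ∃ z, P ∣ ℓ t z - r)
    (hs2 : ∀ P ∈ PR F w D, ∀ t t', t ≠ t' → ∀ r r' : F[X], ∃ z, P ∣ ℓ t z - r ∧ P ∣ ℓ t' z - r')
    (hD : 2 * (Fintype.card Λ * Fintype.card K) * D ≤ L) :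
    |av (fun z => ∏ t, ∏ i : K,
        (GG w D (WW F w * (X ^ N + ℓ t z) + s i) ^ 2 / SS F w D)) - 1| ≤
      2 * (tt F (6 * 8 ^ (Fintype.card Λ * Fintype.card K)) w D - 1) := by
  have hD' : 2 * Fintype.card (Λ × K) * D ≤ L := by
    rw [Fintype.card_prod]
    exact hD
  have h := LFgen (I := Λ × K) p L hL w D
    (fun x z => WW F w * (X ^ N + ℓ x.1 z) + s x.2) ?_ ?_ ?_ hD'
  · rw [Fintype.card_prod] at h
    simp only [Fintype.prod_prod_type] at h
    exact h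
  · rintro P hP x y hxy ⟨t, i⟩
    have h1 : P ∣ ℓ t (x - y) := by
      refine hper P hP (x - y) (fun b => ?_) t
      rw [map_sub]
      exact hxy b
    apply dvd_iff_dvd_of_dvd_sub
    have h2 : WW F w * (X ^ N + ℓ t x) + s i - (WW F w * (X ^ N + ℓ t y) + s i) =
        WW F w * ℓ t (x - y) := by
      rw [map_sub]
      ring
    change P ∣ WW F w * (X ^ N + ℓ t x) + s i - (WW F w * (X ^ N + ℓ t y) + s i)
    rw [h2]
    exact Dvd.dvd.mul_left h1 _
  · rintro P hP ⟨t, i⟩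
    obtain ⟨V, hV⟩ := lff_class hP N
    simp only [hV]
    exact av_class (ℓ t) P (mem_PR.1 hP).1 (hs1 P hP t) _
  · rintro P hP ⟨t, i⟩ ⟨t', i'⟩ hne
    obtain ⟨V, hV⟩ := lff_class hP N
    by_cases ht : t = t'
    · subst ht
      have hi : i ≠ i' := fun h => hne (by rw [h])
      have h0 : ∀ z, ¬ (P ∣ WW F w * (X ^ N + ℓ t z) + s i ∧
          P ∣ WW F w * (X ^ N + ℓ t z) + s i') := by
        rintro z ⟨h1, h2⟩
        refine hs i i' hi P hP ?_
        have h3 := dvd_sub h1 h2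
        rw [add_sub_add_left_eq_sub] at h3
        exact h3
      simp only [h0, if_false]
      have h4 : av (fun _ : Z => (0 : ℝ)) = 0 := by
        unfold av
        rw [Finset.sum_const_zero, zero_div]
      rw [h4]
      exact div_nonneg zero_le_one (sq_nonneg _)
    · simp only [hV]
      exact (av_class2 (ℓ t) (ℓ t') P (mem_PR.1 hP).1 (hs2 P hP t t' ht) _ _).le

end Pool.Agent.H10.FF
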