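import Pool.Agent.H10.FF.Indep
import Pool.Agent.H10.FF.Ixs

/-!
JOB FF-B10 (MP_a1f59e_nt). Correlations of the majorant: general linear forms condition.

PROOF of `eloc_bounds`. `u = v - (1 + v) 1_{P | n}` (check both cases), so `E u = v - (1 + v) / |P| = 0` (`vP_eq`),
`E u ^ 2 = v ^ 2 + (1 - v ^ 2) / |P| = v` (`vP_eq`). If the pattern `ω` has at least two nontrivial indices `J`, then, as `|u| ≤ 1` and
`|u| ≤ v + 1_{P | n_i}`: `|∏| ≤ ∏_{i ∈ J} (v + 1_i) = ∑_{T ⊆ J} v ^ (#J - #T) ∏_{i ∈ T} 1_i`, and the average of each of the `2 ^ #J` terms is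
`≤ v ^ 2` (`T = ∅`: `v ^ #J`; `#T = 1`: `v ^ (#J-1) / |P| ≤ v ^ 2`; `#T ≥ 2`: `≤ 1 / |P| ^ 2 ≤ v ^ 2`).
PROOF of `LFgen`. `GG w D n = ∑_{s : Finset (Ix F w D)} [dgI s ≤ D] ∏_{P ∈ s} uu P n` (`sum_PS`). Expand
`∏_i GG (n i x) ^ 2 = ∑_{c : Ix → (I → Bool × Bool)} wt c ∏_P g_P(c P)(x)`, where `wt c = 1` if all the sets `{P | (c P i).1}`,
`{P | (c P i).2}` have degree `≤ D` and `0` otherwise, `g_P(ω)(x) = ∏_i (..)` as in `eloc`. For `wt c ≠ 0` the set of `P` with `c P`
nontrivial has total degree `≤ 2 card I D ≤ L`; `indep_prod` gives `av ∏_P g_P = ∏_P eloc n P (c P)`. `core` with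
`o0 = fun _ => (false, false)`, `M0 = {o0} ∪ {update o0 i (true, true)}`, `τ P = 2 ^ card I * v ^ 2`, `card Ω = 4 ^ card I`, `Wt = wt`:
`|∑ - main| ≤ (tt (8 ^ card I) - 1) * main` (the main `e` are `≥ 0`). The main patterns are the coloured sets `c' : Ix → Option I` with all classes
of degree `≤ D`: `main ≤ ∑_tuples = ∏_i SS = SS ^ card I` (`col_le_tuple`, `tuple_prod`) and `SS ^ card I ≤ tt (6 * 2 ^ card I) * main`
(`tuple_le_col` with `v' = v`), so `main ≥ (2 - tt) SS ^ card I`. Divide by `SS ^ card I`. ~300 lines (may be split).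
-/

namespace Pool.Agent.H10.FF

open Polynomial Finset
open scoped Classical

variable {F : Type} [Field F] [Fintype F]

/-- local average of a pattern -/
noncomputable def eloc {X I : Type} [Fintype X] [Fintype I] (n : I → X → F[X]) (P : F[X])
    (ω : I → Bool × Bool) : ℝ :=
  av (fun x => ∏ i, ((if (ω i).1 = true then uu P (n i x) else 1) *
    (if (ω i).2 = true then uu P (n i x) else 1)))

section lfg_av

variable {X : Type} [Fintype X]

private theorem lfg_av_add (f g : X → ℝ) : av (fun x => f x + g x) = av f + av g := by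
  unfold av
  rw [Finset.sum_add_distrib, add_div]

private theorem lfg_av_mul (c : ℝ) (f : X → ℝ) : av (fun x => c * f x) = c * av f := by
  unfold av
  rw [← Finset.mul_sum, mul_div_assoc]

private theorem lfg_av_const [Nonempty X] (c : ℝ) : av (fun _ : X => c) = c := by
  unfold av
  rw [Finset.sum_const, Finset.card_univ, nsmul_eq_mul, mul_comm, mul_div_assoc, div_self, mul_one]
  exact_mod_cast Fintype.card_ne_zero

private theorem lfg_av_mono {f g : X → ℝ} (h : ∀ x, f x ≤ g x) : av f ≤ av g := by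
  unfold av
  exact div_le_div_of_nonneg_right (Finset.sum_le_sum fun x _ => h x) (Nat.cast_nonneg _)

private theorem lfg_abs_av (f : X → ℝ) : |av f| ≤ av (fun x => |f x|) := by
  unfold av
  rw [abs_div, Nat.abs_cast]
  exact div_le_div_of_nonneg_right (Finset.abs_sum_le_sum_abs _ _) (Nat.cast_nonneg _)

private theorem lfg_av_sum {J : Type} (s : Finset J) (f : J → X → ℝ) :
    av (fun x => ∑ i ∈ s, f i x) = ∑ i ∈ s, av (f i) := by
  unfold av
  rw [Finset.sum_comm, Finset.sum_div]

end lfg_av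

/-- local factor at one index -/
private noncomputable def lfgFac (P m : F[X]) (b : Bool × Bool) : ℝ :=
  (if b.1 = true then uu P m else 1) * (if b.2 = true then uu P m else 1)

private theorem lfg_eloc {X I : Type} [Fintype X] [Fintype I] (n : I → X → F[X]) (P : F[X])
    (ω : I → Bool × Bool) : eloc n P ω = av (fun x => ∏ i, lfgFac P (n i x) (ω i)) := rfl

private theorem lfgFac_ff (P m : F[X]) : lfgFac P m (false, false) = 1 := by
  simp [lfgFac]

private theorem lfg_uu_abs {w D : ℕ} {P : F[X]} (hP : P ∈ PR F w D) (m : F[X]) :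
    |uu P m| ≤ 1 := by
  unfold uu
  split_ifs
  · rw [abs_neg, abs_one]
  · rw [abs_of_pos (vP_pos hP)]
    exact vP_le_one hP

private theorem lfg_uu_le {w D : ℕ} {P : F[X]} (hP : P ∈ PR F w D) (m : F[X]) :
    |uu P m| ≤ vP P + (if P ∣ m then 1 else 0) := by
  unfold uu
  have h := vP_pos hP
  split_ifs
  · rw [abs_neg, abs_one]
    linarith
  · rw [abs_of_pos h]
    linarith

private theorem lfgFac_abs {w D : ℕ} {P : F[X]} (hP : P ∈ PR F w D) (m : F[X])
    (b : Bool × Bool) : |lfgFac P m b| ≤ 1 := by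
  have h := lfg_uu_abs hP m
  unfold lfgFac
  rw [abs_mul]
  have h1 : ∀ c : Bool, |if c = true then uu P m else (1 : ℝ)| ≤ 1 := by
    intro c
    split_ifs
    · exact h
    · rw [abs_one]
  calc _ ≤ (1 : ℝ) * 1 := mul_le_mul (h1 _) (h1 _) (abs_nonneg _) zero_le_one
    _ = 1 := one_mul 1

private theorem lfgFac_le {w D : ℕ} {P : F[X]} (hP : P ∈ PR F w D) (m : F[X])
    (b : Bool × Bool) (hb : b ≠ (false, false)) :
    |lfgFac P m b| ≤ vP P + (if P ∣ m then 1 else 0) := by
  have h := lfg_uu_abs hP m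
  have h' := lfg_uu_le hP m
  rcases b with ⟨b1, b2⟩
  unfold lfgFac
  rw [abs_mul]
  rcases b1 with _ | _ <;> rcases b2 with _ | _
  · exact absurd rfl hb
  · simpa using h'
  · simpa using h'
  · simp only [if_true]
    calc |uu P m| * |uu P m| ≤ |uu P m| * 1 := mul_le_mul_of_nonneg_left h (abs_nonneg _)
      _ ≤ _ := by rw [mul_one]; exact h'

private theorem lfg_uu_sq (P m : F[X]) :
    uu P m * uu P m = vP P ^ 2 + (1 - vP P ^ 2) * (if P ∣ m then (1 : ℝ) else 0) := by
  unfold uu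
  split_ifs
  · ring
  · ring

private theorem lfg_uu_lin (P m : F[X]) :
    uu P m = vP P + (-(1 + vP P)) * (if P ∣ m then (1 : ℝ) else 0) := by
  unfold uu
  split_ifs
  · ring
  · ring

theorem eloc_zero {X I : Type} [Nonempty X] [Fintype X] [Fintype I] (n : I → X → F[X])
    (P : F[X]) : eloc n P (fun _ => (false, false)) = 1 := by
  rw [lfg_eloc]
  simp only [lfgFac_ff, Finset.prod_const_one]
  exact lfg_av_const 1

private theorem lfg_prod_update {I : Type} [Fintype I] [DecidableEq I] (P : F[X]) (m : I → F[X])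
    (i : I) (b : Bool × Bool) :
    ∏ j, lfgFac P (m j) (Function.update (fun _ => (false, false)) i b j) = lfgFac P (m i) b := by
  rw [Finset.prod_eq_single i]
  · rw [Function.update_self]
  · intro j _ hj
    rw [Function.update_of_ne hj]
    exact lfgFac_ff _ _
  · intro h
    exact absurd (Finset.mem_univ i) h

theorem eloc_main {X I : Type} [Nonempty X] [Fintype X] [Fintype I] [DecidableEq I] (w D : ℕ)
    (n : I → X → F[X]) (P : F[X]) (hP : P ∈ PR F w D)
    (h1 : ∀ i, av (fun x => if P ∣ n i x then (1 : ℝ) else 0) = 1 / nrm P) (i : I) :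
    eloc n P (Function.update (fun _ => (false, false)) i (true, true)) = vP P := by
  rw [lfg_eloc]
  have h2 : (fun x => ∏ j, lfgFac P (n j x)
      (Function.update (fun _ => (false, false)) i (true, true) j)) =
      fun x => vP P ^ 2 + (1 - vP P ^ 2) * (if P ∣ n i x then (1 : ℝ) else 0) := by
    funext x
    rw [lfg_prod_update P (fun j => n j x) i (true, true)]
    unfold lfgFac
    simp only [if_true]
    exact lfg_uu_sq P _
  rw [h2, lfg_av_add, lfg_av_mul, lfg_av_const, h1]
  have h3 := vP_eq hP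
  have h4 : (1 - vP P ^ 2) * (1 / nrm P) = (1 - vP P) * ((1 + vP P) / nrm P) := by ring
  rw [h4, ← h3]
  ring

theorem eloc_off {X I : Type} [Nonempty X] [Fintype X] [Fintype I] [DecidableEq I] (w D : ℕ)
    (n : I → X → F[X]) (P : F[X]) (hP : P ∈ PR F w D)
    (h1 : ∀ i, av (fun x => if P ∣ n i x then (1 : ℝ) else 0) = 1 / nrm P)
    (h2 : ∀ i j, i ≠ j →
      av (fun x => if P ∣ n i x ∧ P ∣ n j x then (1 : ℝ) else 0) ≤ 1 / nrm P ^ 2)
    (ω : I → Bool × Bool) (hω0 : ω ≠ fun _ => (false, false))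
    (hω1 : ∀ i, ω ≠ Function.update (fun _ => (false, false)) i (true, true)) :
    |eloc n P ω| ≤ 2 ^ Fintype.card I * vP P ^ 2 := by
  have hv := vP_pos hP
  have hexi : ∃ i, ω i ≠ (false, false) := by
    by_contra hcon
    push Not at hcon
    exact hω0 (funext hcon)
  obtain ⟨i, hi⟩ := hexi
  by_cases hex : ∃ j, j ≠ i ∧ ω j ≠ (false, false)
  · obtain ⟨j, hji, hj⟩ := hex
    rw [lfg_eloc]
    have hpt : ∀ x, |∏ k, lfgFac P (n k x) (ω k)| ≤
        (vP P ^ 2 + vP P * (if P ∣ n i x then (1 : ℝ) else 0)) +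
          (vP P * (if P ∣ n j x then (1 : ℝ) else 0) +
            (if P ∣ n i x ∧ P ∣ n j x then (1 : ℝ) else 0)) := by
      intro x
      rw [Finset.abs_prod]
      have hsplit : ∏ k, |lfgFac P (n k x) (ω k)| =
          |lfgFac P (n i x) (ω i)| * (|lfgFac P (n j x) (ω j)| *
            ∏ k ∈ (univ.erase i).erase j, |lfgFac P (n k x) (ω k)|) := by
        rw [← Finset.mul_prod_erase univ _ (Finset.mem_univ i),
          ← Finset.mul_prod_erase (univ.erase i) _ (Finset.mem_erase.2 ⟨hji, Finset.mem_univ j⟩)]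
      rw [hsplit]
      have hrest : ∏ k ∈ (univ.erase i).erase j, |lfgFac P (n k x) (ω k)| ≤ 1 :=
        Finset.prod_le_one (fun _ _ => abs_nonneg _) fun k _ => lfgFac_abs hP _ _
      have hrest0 : 0 ≤ ∏ k ∈ (univ.erase i).erase j, |lfgFac P (n k x) (ω k)| :=
        Finset.prod_nonneg fun _ _ => abs_nonneg _
      have ha := lfgFac_le hP (n i x) (ω i) hi
      have hb := lfgFac_le hP (n j x) (ω j) hj
      have ha0 := abs_nonneg (lfgFac P (n i x) (ω i))
      have hb0 := abs_nonneg (lfgFac P (n j x) (ω j))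
      calc _ ≤ |lfgFac P (n i x) (ω i)| * (|lfgFac P (n j x) (ω j)| * 1) :=
            mul_le_mul_of_nonneg_left (mul_le_mul_of_nonneg_left hrest hb0) ha0
        _ ≤ (vP P + (if P ∣ n i x then (1 : ℝ) else 0)) *
            (vP P + (if P ∣ n j x then (1 : ℝ) else 0)) := by
            rw [mul_one]
            exact mul_le_mul ha hb hb0 (ha0.trans ha)
        _ = _ := by
            by_cases c1 : P ∣ n i x <;> by_cases c2 : P ∣ n j x
            · simp only [c1, c2, and_self, if_true]; ring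
            · simp only [c1, c2, and_false, if_true, if_false]; ring
            · simp only [c1, c2, false_and, if_true, if_false]; ring
            · simp only [c1, c2, and_self, if_false]; ring
    have hcard : 2 ≤ Fintype.card I := by
      have h3 : ({i, j} : Finset I).card = 2 := Finset.card_pair (Ne.symm hji)
      rw [← h3]
      exact Finset.card_le_univ _
    have hN : 1 / nrm P ≤ vP P := one_div_nrm_le hP
    have hN0 : 0 < nrm P := nrm_pos P
    have hN2 : 1 / nrm P ^ 2 ≤ vP P ^ 2 := by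
      have h3 : 1 / nrm P ^ 2 = (1 / nrm P) ^ 2 := by rw [div_pow, one_pow]
      rw [h3]
      exact pow_le_pow_left₀ (by positivity) hN 2
    calc _ ≤ av (fun x => |∏ k, lfgFac P (n k x) (ω k)|) := lfg_abs_av _
      _ ≤ av (fun x => (vP P ^ 2 + vP P * (if P ∣ n i x then (1 : ℝ) else 0)) +
          (vP P * (if P ∣ n j x then (1 : ℝ) else 0) +
            (if P ∣ n i x ∧ P ∣ n j x then (1 : ℝ) else 0))) := lfg_av_mono hpt
      _ = (vP P ^ 2 + vP P * (1 / nrm P)) + (vP P * (1 / nrm P) +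
          av (fun x => if P ∣ n i x ∧ P ∣ n j x then (1 : ℝ) else 0)) := by
          rw [lfg_av_add, lfg_av_add, lfg_av_add, lfg_av_mul, lfg_av_mul, lfg_av_const, h1, h1]
      _ ≤ (vP P ^ 2 + vP P * vP P) + (vP P * vP P + vP P ^ 2) := by
          have h3 := (h2 i j (Ne.symm hji)).trans hN2
          have h4 : vP P * (1 / nrm P) ≤ vP P * vP P := mul_le_mul_of_nonneg_left hN hv.le
          linarith
      _ = 2 ^ 2 * vP P ^ 2 := by ring
      _ ≤ 2 ^ Fintype.card I * vP P ^ 2 := by
          refine mul_le_mul_of_nonneg_right ?_ (by positivity)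
          exact pow_le_pow_right₀ (by norm_num) hcard
  · push Not at hex
    have hωeq : ω = Function.update (fun _ => (false, false)) i (ω i) := by
      funext j
      by_cases hji : j = i
      · subst hji
        rw [Function.update_self]
      · rw [Function.update_of_ne hji]
        exact hex j hji
    have hne : ω i ≠ (true, true) := by
      intro h
      rw [h] at hωeq
      exact hω1 i hωeq
    have hfac : ∀ m : F[X], lfgFac P m (ω i) = uu P m := by
      intro m
      unfold lfgFac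
      rcases hb : ω i with ⟨b1, b2⟩
      rw [hb] at hi hne
      rcases b1 with _ | _ <;> rcases b2 with _ | _
      · exact absurd rfl hi
      · simp
      · simp
      · exact absurd rfl hne
    have hzero : eloc n P ω = 0 := by
      rw [lfg_eloc, hωeq]
      have h3 : (fun x => ∏ j, lfgFac P (n j x)
          (Function.update (fun _ => (false, false)) i (ω i) j)) =
          fun x => vP P + (-(1 + vP P)) * (if P ∣ n i x then (1 : ℝ) else 0) := by
        funext x
        rw [lfg_prod_update P (fun j => n j x) i (ω i), hfac]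
        exact lfg_uu_lin P _
      rw [h3, lfg_av_add, lfg_av_mul, lfg_av_const, h1]
      have h4 := vP_eq hP
      have h5 : -(1 + vP P) * (1 / nrm P) = -((1 + vP P) / nrm P) := by ring
      rw [h5, ← h4]
      ring
    rw [hzero, abs_zero]
    positivity

theorem SS_pos (w D : ℕ) : 0 < SS F w D := by
  unfold SS
  have h0 : (∅ : Finset F[X]) ∈ PS F w D D := by
    unfold PS
    rw [Finset.mem_filter]
    refine ⟨Finset.empty_mem_powerset _, ?_⟩
    unfold dg
    rw [Finset.sum_empty]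
    exact Nat.zero_le _
  have hnn : ∀ t ∈ PS F w D D, 0 ≤ ∏ P ∈ t, vP P := by
    intro t ht
    unfold PS at ht
    rw [Finset.mem_filter, Finset.mem_powerset] at ht
    exact Finset.prod_nonneg fun P hP => (vP_pos (ht.1 hP)).le
  calc (0 : ℝ) < 1 := zero_lt_one
    _ = ∏ P ∈ (∅ : Finset F[X]), vP P := by rw [Finset.prod_empty]
    _ ≤ _ := Finset.single_le_sum hnn h0

section lfg_comb

variable {ι I : Type} [Fintype ι] [DecidableEq ι] [Fintype I]

/-- first tuple of sets of a pattern -/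
private noncomputable def lfgT1 (c : ι → I → Bool × Bool) (i : I) : Finset ι :=
  univ.filter (fun P => (c P i).1 = true)

/-- second tuple of sets of a pattern -/
private noncomputable def lfgT2 (c : ι → I → Bool × Bool) (i : I) : Finset ι :=
  univ.filter (fun P => (c P i).2 = true)

private noncomputable def lfgEquiv : (ι → I → Bool × Bool) ≃ (I → Finset ι) × (I → Finset ι) where
  toFun c := (lfgT1 c, lfgT2 c)
  invFun t := fun P i => (decide (P ∈ t.1 i), decide (P ∈ t.2 i))
  left_inv c := by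
    funext P i
    simp [lfgT1, lfgT2]
  right_inv t := by
    refine Prod.ext ?_ ?_
    · funext i
      ext P
      simp [lfgT1]
    · funext i
      ext P
      simp [lfgT2]

private theorem lfg_swap1 (c : ι → I → Bool × Bool) (a : I → ι → ℝ) :
    ∏ i, ∏ P ∈ lfgT1 c i, a i P = ∏ P, ∏ i, (if (c P i).1 = true then a i P else 1) := by
  rw [Finset.prod_comm]
  refine Finset.prod_congr rfl fun i _ => ?_
  rw [lfgT1, Finset.prod_filter]

private theorem lfg_swap2 (c : ι → I → Bool × Bool) (a : I → ι → ℝ) :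
    ∏ i, ∏ P ∈ lfgT2 c i, a i P = ∏ P, ∏ i, (if (c P i).2 = true then a i P else 1) := by
  rw [Finset.prod_comm]
  refine Finset.prod_congr rfl fun i _ => ?_
  rw [lfgT2, Finset.prod_filter]

private theorem lfg_expand [DecidableEq I] (W : Finset ι → ℝ) (a : I → ι → ℝ) :
    ∏ i, (∑ s : Finset ι, W s * ∏ P ∈ s, a i P) ^ 2 =
      ∑ c : ι → I → Bool × Bool, (∏ i, (W (lfgT1 c i) * W (lfgT2 c i))) *
        ∏ P, ∏ i, ((if (c P i).1 = true then a i P else 1) *
          (if (c P i).2 = true then a i P else 1)) := by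
  have h1 : ∏ i, (∑ s : Finset ι, W s * ∏ P ∈ s, a i P) =
      ∑ t : I → Finset ι, ∏ i, (W (t i) * ∏ P ∈ t i, a i P) :=
    (tuple_prod (fun i s => W s * ∏ P ∈ s, a i P)).symm
  rw [Finset.prod_pow, sq, h1, Finset.sum_mul_sum,
    ← Fintype.sum_prod_type (f := fun t : (I → Finset ι) × (I → Finset ι) =>
      (∏ i, (W (t.1 i) * ∏ P ∈ t.1 i, a i P)) * ∏ i, (W (t.2 i) * ∏ P ∈ t.2 i, a i P)),
    ← lfgEquiv.sum_comp]
  refine Finset.sum_congr rfl fun c _ => ?_
  change (∏ i, (W (lfgT1 c i) * ∏ P ∈ lfgT1 c i, a i P)) *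
    (∏ i, (W (lfgT2 c i) * ∏ P ∈ lfgT2 c i, a i P)) = _
  rw [Finset.prod_mul_distrib, Finset.prod_mul_distrib, lfg_swap1, lfg_swap2,
    Finset.prod_mul_distrib]
  have h2 : ∏ P, ∏ i, ((if (c P i).1 = true then a i P else 1) *
      (if (c P i).2 = true then a i P else 1)) =
      (∏ P, ∏ i, (if (c P i).1 = true then a i P else 1)) *
        ∏ P, ∏ i, (if (c P i).2 = true then a i P else 1) := by
    rw [← Finset.prod_mul_distrib]
    refine Finset.prod_congr rfl fun P _ => ?_
    rw [← Finset.prod_mul_distrib]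
  rw [h2]
  ring

private theorem lfg_av_expand_gen [DecidableEq I] {X : Type} [Fintype X] (W : Finset ι → ℝ)
    (a : X → I → ι → ℝ) :
    av (fun x => ∏ i, (∑ s : Finset ι, W s * ∏ P ∈ s, a x i P) ^ 2) =
      ∑ c : ι → I → Bool × Bool, (∏ i, (W (lfgT1 c i) * W (lfgT2 c i))) *
        av (fun x => ∏ P, ∏ i, ((if (c P i).1 = true then a x i P else 1) *
          (if (c P i).2 = true then a x i P else 1))) := by
  have h1 : (fun x => ∏ i, (∑ s : Finset ι, W s * ∏ P ∈ s, a x i P) ^ 2) = fun x =>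
      ∑ c : ι → I → Bool × Bool, (∏ i, (W (lfgT1 c i) * W (lfgT2 c i))) *
        ∏ P, ∏ i, ((if (c P i).1 = true then a x i P else 1) *
          (if (c P i).2 = true then a x i P else 1)) := by
    funext x
    exact lfg_expand W (a x)
  rw [h1, lfg_av_sum]
  exact Finset.sum_congr rfl fun c _ => lfg_av_mul _ _

private theorem lfg_deg (d : ι → ℕ) (c : ι → I → Bool × Bool) (D : ℕ)
    (h1 : ∀ i, ∑ P ∈ lfgT1 c i, d P ≤ D) (h2 : ∀ i, ∑ P ∈ lfgT2 c i, d P ≤ D) :
    ∑ P ∈ univ.filter (fun P => c P ≠ fun _ => (false, false)), d P ≤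
      2 * Fintype.card I * D := by
  rw [Finset.sum_filter]
  calc _ ≤ ∑ P, ∑ i, ((if (c P i).1 = true then d P else 0) +
        (if (c P i).2 = true then d P else 0)) := by
        refine Finset.sum_le_sum fun P _ => ?_
        split_ifs with h
        · obtain ⟨i, hi⟩ : ∃ i, c P i ≠ (false, false) := by
            by_contra hcon
            push Not at hcon
            exact h (funext hcon)
          refine le_trans ?_ (Finset.single_le_sum (f := fun i =>
            ((if (c P i).1 = true then d P else 0) + (if (c P i).2 = true then d P else 0)))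
            (fun _ _ => Nat.zero_le _) (Finset.mem_univ i))
          rcases hb : c P i with ⟨b1, b2⟩
          rw [hb] at hi
          rcases b1 with _ | _ <;> rcases b2 with _ | _
          · exact absurd rfl hi
          · simp [hb]
          · simp [hb]
          · simp [hb]
        · exact Nat.zero_le _
    _ = ∑ i, (∑ P ∈ lfgT1 c i, d P + ∑ P ∈ lfgT2 c i, d P) := by
        rw [Finset.sum_comm]
        refine Finset.sum_congr rfl fun i _ => ?_
        rw [Finset.sum_add_distrib]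
        unfold lfgT1 lfgT2
        rw [Finset.sum_filter, Finset.sum_filter]
    _ ≤ ∑ _i : I, (D + D) := Finset.sum_le_sum fun i _ => Nat.add_le_add (h1 i) (h2 i)
    _ = 2 * Fintype.card I * D := by
        rw [Finset.sum_const, Finset.card_univ, smul_eq_mul]
        ring

/-- main patterns -/
private def lfgEmb [DecidableEq I] (o : Option I) : I → Bool × Bool :=
  o.elim (fun _ => (false, false)) (fun i => Function.update (fun _ => (false, false)) i (true, true))

omit [Fintype I] in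
private theorem lfgEmb_1 [DecidableEq I] (o : Option I) (i : I) :
    (lfgEmb o i).1 = true ↔ o = some i := by
  rcases o with _ | j
  · simp [lfgEmb]
  · by_cases h : i = j
    · subst h
      simp [lfgEmb]
    · have h' : j ≠ i := Ne.symm h
      simp [lfgEmb, Function.update_of_ne h, h']

omit [Fintype I] in
private theorem lfgEmb_2 [DecidableEq I] (o : Option I) (i : I) :
    (lfgEmb o i).2 = true ↔ o = some i := by
  rcases o with _ | j
  · simp [lfgEmb]
  · by_cases h : i = j
    · subst h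
      simp [lfgEmb]
    · have h' : j ≠ i := Ne.symm h
      simp [lfgEmb, Function.update_of_ne h, h']

omit [Fintype I] in
private theorem lfgEmb_inj [DecidableEq I] :
    Function.Injective (lfgEmb : Option I → I → Bool × Bool) := by
  intro a b h
  refine Option.ext fun i => ?_
  rw [← lfgEmb_1, ← lfgEmb_1, h]

private theorem lfg_main_sum [DecidableEq I] (W : Finset ι → ℝ) (hW : ∀ s, W s * W s = W s)
    (e : ι → (I → Bool × Bool) → ℝ) (v : ι → ℝ)
    (he0 : ∀ P, e P (fun _ => (false, false)) = 1)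
    (he1 : ∀ P i, e P (Function.update (fun _ => (false, false)) i (true, true)) = v P) :
    ∑ c ∈ univ.filter (fun c : ι → I → Bool × Bool =>
        ∀ P, c P ∈ univ.image (lfgEmb : Option I → I → Bool × Bool)),
      (∏ i, (W (lfgT1 c i) * W (lfgT2 c i))) * ∏ P, e P (c P) =
    ∑ c : ι → Option I, (∏ i, W (cls c i)) * ∏ P, (c P).elim 1 (fun _ => v P) := by
  symm
  refine Finset.sum_nbij (fun (c' : ι → Option I) (P : ι) => lfgEmb (c' P)) ?_ ?_ ?_ ?_
  · intro c' _
    rw [Finset.mem_filter]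
    exact ⟨Finset.mem_univ _, fun P => Finset.mem_image.2 ⟨c' P, Finset.mem_univ _, rfl⟩⟩
  · intro a _ b _ hab
    funext P
    exact lfgEmb_inj (congrFun hab P)
  · intro c hc
    have hc' : ∀ P, c P ∈ univ.image (lfgEmb : Option I → I → Bool × Bool) :=
      (Finset.mem_filter.1 hc).2
    choose g hg using fun P => Finset.mem_image.1 (hc' P)
    refine ⟨g, Finset.mem_coe.2 (Finset.mem_univ _), ?_⟩
    funext P
    exact (hg P).2
  · intro c' _
    have t1 : ∀ i, lfgT1 (fun P => lfgEmb (c' P)) i = cls c' i := by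
      intro i
      unfold lfgT1 cls
      refine Finset.filter_congr fun P _ => ?_
      exact lfgEmb_1 _ _
    have t2 : ∀ i, lfgT2 (fun P => lfgEmb (c' P)) i = cls c' i := by
      intro i
      unfold lfgT2 cls
      refine Finset.filter_congr fun P _ => ?_
      exact lfgEmb_2 _ _
    have t3 : ∀ P, e P (lfgEmb (c' P)) = (c' P).elim 1 (fun _ => v P) := by
      intro P
      rcases c' P with _ | i
      · exact he0 P
      · exact he1 P i
    have t4 : ∀ i, W (lfgT1 (fun P => lfgEmb (c' P)) i) * W (lfgT2 (fun P => lfgEmb (c' P)) i) =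
        W (cls c' i) := fun i => by rw [t1 i, t2 i, hW]
    have t5 : ∏ i, (W (lfgT1 (fun P => lfgEmb (c' P)) i) * W (lfgT2 (fun P => lfgEmb (c' P)) i)) =
        ∏ i, W (cls c' i) := Finset.prod_congr rfl fun i _ => t4 i
    have t6 : ∏ P, e P (lfgEmb (c' P)) = ∏ P, (c' P).elim 1 (fun _ => v P) :=
      Finset.prod_congr rfl fun P _ => t3 P
    exact (congrArg₂ (· * ·) t5 t6).symm

private theorem lfg_wt_res [DecidableEq I] (W : Finset ι → ℝ) (hW0 : ∀ s, 0 ≤ W s)
    (hWa : ∀ s t, s ⊆ t → W t ≤ W s) (M0 : Finset (I → Bool × Bool)) (c : ι → I → Bool × Bool) :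
    ∏ i, (W (lfgT1 c i) * W (lfgT2 c i)) ≤
      ∏ i, (W (lfgT1 (res (fun _ => (false, false)) M0 c) i) *
        W (lfgT2 (res (fun _ => (false, false)) M0 c) i)) := by
  have t1 : ∀ i, lfgT1 (res (fun _ => (false, false)) M0 c) i ⊆ lfgT1 c i := by
    intro i P hP
    unfold lfgT1 res at hP
    rw [Finset.mem_filter] at hP
    have h := hP.2
    by_cases h1 : c P ∈ M0
    · rw [if_pos h1] at h
      exact Finset.mem_filter.2 ⟨Finset.mem_univ _, h⟩
    · rw [if_neg h1] at h
      exact absurd h (by simp)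
  have t2 : ∀ i, lfgT2 (res (fun _ => (false, false)) M0 c) i ⊆ lfgT2 c i := by
    intro i P hP
    unfold lfgT2 res at hP
    rw [Finset.mem_filter] at hP
    have h := hP.2
    by_cases h1 : c P ∈ M0
    · rw [if_pos h1] at h
      exact Finset.mem_filter.2 ⟨Finset.mem_univ _, h⟩
    · rw [if_neg h1] at h
      exact absurd h (by simp)
  refine Finset.prod_le_prod (fun i _ => mul_nonneg (hW0 _) (hW0 _)) fun i _ => ?_
  exact mul_le_mul (hWa _ _ (t1 i)) (hWa _ _ (t2 i)) (hW0 _) (hW0 _)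

private theorem lfg_real (A M S T T1 T2 : ℝ) (h1 : |A - M| ≤ (T1 - 1) * M) (h2 : M ≤ S)
    (h3 : S ≤ T2 * M) (hM : 0 ≤ M) (hT1 : T1 ≤ T) (hT2 : T2 ≤ T) (hT : 1 ≤ T1) (hT' : 1 ≤ T2) :
    |A - S| ≤ 2 * (T - 1) * S := by
  have h4 : |A - S| ≤ |A - M| + |M - S| := abs_sub_le A M S
  have h5 : |M - S| = S - M := by
    rw [abs_sub_comm, abs_of_nonneg (by linarith)]
  have h6 : (T1 - 1) * M ≤ (T - 1) * S :=
    mul_le_mul (by linarith) h2 hM (by linarith)
  have h7 : S - M ≤ (T2 - 1) * M := by linarith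
  have h8 : (T2 - 1) * M ≤ (T - 1) * S := mul_le_mul (by linarith) h2 hM (by linarith)
  linarith

private theorem lfg_abs_main [DecidableEq I] (W : Finset ι → ℝ) (hW0 : ∀ s, 0 ≤ W s)
    (hWs : ∀ s, W s * W s = W s) (hWa : ∀ s t, s ⊆ t → W t ≤ W s)
    (e : ι → (I → Bool × Bool) → ℝ) (v : ι → ℝ) (hv0 : ∀ P, 0 ≤ v P) (hv1 : ∀ P, v P ≤ 1)
    (he0 : ∀ P, e P (fun _ => (false, false)) = 1)
    (he1 : ∀ P i, e P (Function.update (fun _ => (false, false)) i (true, true)) = v P)
    (he2 : ∀ P ω, ω ≠ (fun _ => (false, false)) →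
      (∀ i, ω ≠ Function.update (fun _ => (false, false)) i (true, true)) →
      |e P ω| ≤ 2 ^ Fintype.card I * v P ^ 2) :
    |∑ c : ι → I → Bool × Bool, (∏ i, (W (lfgT1 c i) * W (lfgT2 c i))) * ∏ P, e P (c P) -
        (∑ s : Finset ι, W s * ∏ P ∈ s, v P) ^ Fintype.card I| ≤
      2 * (∏ P, (1 + (6 * 8 ^ Fintype.card I : ℝ) * v P ^ 2) - 1) *
        (∑ s : Finset ι, W s * ∏ P ∈ s, v P) ^ Fintype.card I := by
  set k := Fintype.card I with hk
  let o0 : I → Bool × Bool := fun _ => (false, false)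
  let M0 : Finset (I → Bool × Bool) := univ.image (lfgEmb : Option I → I → Bool × Bool)
  have ho : o0 ∈ M0 := Finset.mem_image.2 ⟨none, Finset.mem_univ _, rfl⟩
  let wt : (ι → I → Bool × Bool) → ℝ := fun c => ∏ i, (W (lfgT1 c i) * W (lfgT2 c i))
  have hwt0 : ∀ c, 0 ≤ wt c := fun c =>
    Finset.prod_nonneg fun i _ => mul_nonneg (hW0 _) (hW0 _)
  have hcore := core o0 M0 ho e he0 (fun P => 2 ^ k * v P ^ 2)
    (fun P => by positivity)
    (fun P ω hω => by
      refine he2 P ω ?_ ?_
      · intro h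
        rw [h] at hω
        exact hω ho
      · intro i h
        rw [h] at hω
        exact hω (Finset.mem_image.2 ⟨some i, Finset.mem_univ _, rfl⟩))
    wt wt (fun c => by
      rw [abs_of_nonneg (hwt0 c)]
      exact lfg_wt_res W hW0 hWa M0 c) hwt0
  have hm1 := lfg_main_sum W hWs e v he0 he1
  have hm2 := lfg_main_sum W hWs (fun P ω => |e P ω|) v
    (fun P => by
      change |e P (fun _ => (false, false))| = 1
      rw [he0, abs_one])
    (fun P i => by
      change |e P (Function.update (fun _ => (false, false)) i (true, true))| = v P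
      rw [he1, abs_of_nonneg (hv0 P)])
  set M : ℝ := ∑ c : ι → Option I, (∏ i, W (cls c i)) * ∏ P, (c P).elim 1 (fun _ => v P) with hM
  have hcard : (Fintype.card (I → Bool × Bool) : ℝ) = 4 ^ k := by
    rw [Fintype.card_fun, Fintype.card_prod, Fintype.card_bool, ← hk]
    push_cast
    norm_num
  have hcore' : |∑ c : ι → I → Bool × Bool, wt c * ∏ P, e P (c P) - M| ≤
      (∏ P, (1 + (8 ^ k : ℝ) * v P ^ 2) - 1) * M := by
    have e1 : ∏ P : ι, (1 + (Fintype.card (I → Bool × Bool) : ℝ) * (2 ^ k * v P ^ 2)) =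
        ∏ P, (1 + (8 ^ k : ℝ) * v P ^ 2) := by
      refine Finset.prod_congr rfl fun P _ => ?_
      rw [hcard, ← mul_assoc, ← mul_pow]
      norm_num
    rw [← e1]
    calc _ = |∑ c : ι → I → Bool × Bool, wt c * ∏ P, e P (c P) -
        ∑ c ∈ univ.filter (fun c : ι → I → Bool × Bool => ∀ P, c P ∈ M0),
          wt c * ∏ P, e P (c P)| := by rw [← hm1]
      _ ≤ _ := hcore
      _ = _ := by rw [← hm2]
  have hWt0 : ∀ t : I → Finset ι, 0 ≤ ∏ i, W (t i) := fun t => Finset.prod_nonneg fun i _ => hW0 _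
  have hSS : ∑ t : I → Finset ι, (∏ i, W (t i)) * ∏ i, ∏ P ∈ t i, v P =
      (∑ s : Finset ι, W s * ∏ P ∈ s, v P) ^ k := by
    have e1 := tuple_prod (K := I) (fun _ s => W s * ∏ P ∈ s, v P)
    rw [Finset.prod_const, Finset.card_univ] at e1
    rw [hk, ← e1]
    exact Finset.sum_congr rfl fun t _ => (Finset.prod_mul_distrib).symm
  have hle : M ≤ (∑ s : Finset ι, W s * ∏ P ∈ s, v P) ^ k := by
    rw [← hSS]
    exact col_le_tuple (fun t => ∏ i, W (t i)) hWt0 (fun _ P => v P) (fun _ P => hv0 P)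
  have hge : (∑ s : Finset ι, W s * ∏ P ∈ s, v P) ^ k ≤
      (∏ P, (1 + (6 * 2 ^ k : ℝ) * v P ^ 2)) * M := by
    rw [← hSS]
    exact tuple_le_col (fun t => ∏ i, W (t i)) hWt0
      (fun t t' h => Finset.prod_le_prod (fun i _ => hW0 _) fun i _ => hWa _ _ (h i)) v v hv0 hv1
      hv0 (fun P => le_rfl) (fun P => by
        have := sq_nonneg (v P)
        linarith)
  have hM0 : 0 ≤ M := by
    rw [hM]
    refine Finset.sum_nonneg fun c _ => mul_nonneg (Finset.prod_nonneg fun i _ => hW0 _)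
      (Finset.prod_nonneg fun P _ => ?_)
    rcases c P with _ | i
    · exact zero_le_one
    · exact hv0 P
  have hmono : ∀ a b : ℝ, 0 ≤ a → a ≤ b →
      ∏ P, (1 + a * v P ^ 2) ≤ ∏ P, (1 + b * v P ^ 2) := by
    intro a b ha hab
    refine Finset.prod_le_prod (fun P _ => by positivity) fun P _ => ?_
    have := mul_le_mul_of_nonneg_right hab (sq_nonneg (v P))
    linarith
  have hone : ∀ a : ℝ, 0 ≤ a → 1 ≤ ∏ P, (1 + a * v P ^ 2) := by
    intro a ha
    have h := hmono 0 a le_rfl ha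
    simpa using h
  have h8 : (1 : ℝ) ≤ 8 ^ k := one_le_pow₀ (by norm_num)
  have h28 : (2 : ℝ) ^ k ≤ 8 ^ k := pow_le_pow_left₀ (by norm_num) (by norm_num) k
  exact lfg_real _ M _ _ _ _ hcore' hle hge hM0 (hmono _ _ (by positivity) (by linarith))
    (hmono _ _ (by positivity) (by linarith)) (hone _ (by positivity)) (hone _ (by positivity))

end lfg_comb

/-- the truncation weight -/
private noncomputable def lfgW {w D : ℕ} (s : Finset (Ix F w D)) : ℝ := if dgI s ≤ D then 1 else 0

private theorem lfgW_nonneg {w D : ℕ} (s : Finset (Ix F w D)) : 0 ≤ lfgW s := by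
  unfold lfgW
  split_ifs
  · exact zero_le_one
  · exact le_rfl

private theorem lfgW_sq {w D : ℕ} (s : Finset (Ix F w D)) : lfgW s * lfgW s = lfgW s := by
  unfold lfgW
  split_ifs
  · rw [mul_one]
  · rw [mul_zero]

private theorem lfgW_anti {w D : ℕ} {s t : Finset (Ix F w D)} (h : s ⊆ t) : lfgW t ≤ lfgW s := by
  unfold lfgW
  have h1 : dgI s ≤ dgI t := Finset.sum_le_sum_of_subset h
  by_cases h2 : dgI t ≤ D
  · rw [if_pos h2, if_pos (h1.trans h2)]
  · rw [if_neg h2]
    split_ifs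
    · exact zero_le_one
    · exact le_rfl

private theorem lfg_GG (w D : ℕ) (m : F[X]) :
    GG w D m = ∑ s : Finset (Ix F w D), lfgW s * ∏ P ∈ s, uu P.1 m := by
  unfold GG
  rw [sum_PS]
  refine Finset.sum_congr rfl fun s _ => ?_
  rw [prod_vl s (fun P => uu P m)]
  unfold lfgW
  split_ifs
  · rw [one_mul]
  · rw [zero_mul]

private theorem lfg_SS (w D : ℕ) :
    SS F w D = ∑ s : Finset (Ix F w D), lfgW s * ∏ P ∈ s, vP P.1 := by
  unfold SS
  rw [sum_PS]
  refine Finset.sum_congr rfl fun s _ => ?_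
  rw [prod_vl s (fun P => vP P)]
  unfold lfgW
  split_ifs
  · rw [one_mul]
  · rw [zero_mul]

/-- weight of a global pattern -/
private noncomputable def lfgWt {I : Type} [Fintype I] {w D : ℕ}
    (c : Ix F w D → I → Bool × Bool) : ℝ := ∏ i, (lfgW (lfgT1 c i) * lfgW (lfgT2 c i))

private theorem lfgWt_nonneg {I : Type} [Fintype I] {w D : ℕ}
    (c : Ix F w D → I → Bool × Bool) : 0 ≤ lfgWt c :=
  Finset.prod_nonneg fun _ _ => mul_nonneg (lfgW_nonneg _) (lfgW_nonneg _)

private theorem lfg_ind {X A I : Type} [AddCommGroup X] [Fintype X] [Fintype I]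
    (p : A → X →+ F[X]) (L : ℕ)
    (hL : ∀ g : A → F[X], (∀ a, (g a).degree < L) → ∃ z : X, ∀ a, p a z = g a)
    (w D : ℕ) (n : I → X → F[X])
    (hper : ∀ P ∈ PR F w D, ∀ x y, (∀ a, P ∣ p a x - p a y) → ∀ i, (P ∣ n i x ↔ P ∣ n i y))
    (hD : 2 * Fintype.card I * D ≤ L) (c : Ix F w D → I → Bool × Bool) (hc : lfgWt c ≠ 0) :
    av (fun x => ∏ P : Ix F w D, ∏ i, lfgFac P.1 (n i x) (c P i)) =
      ∏ P : Ix F w D, eloc n P.1 (c P) := by
  have : Nonempty X := ⟨0⟩
  set s0 : Finset (Ix F w D) := univ.filter (fun P => c P ≠ fun _ => (false, false)) with hs0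
  let c' : F[X] → I → Bool × Bool := fun Q =>
    if h : Q ∈ PR F w D then c ⟨Q, h⟩ else fun _ => (false, false)
  have hc' : ∀ P : Ix F w D, c' P.1 = c P := fun P => dif_pos P.2
  let f : F[X] → X → ℝ := fun Q x => ∏ i, lfgFac Q (n i x) (c' Q i)
  have hf : ∀ (P : Ix F w D) (x : X), f P.1 x = ∏ i, lfgFac P.1 (n i x) (c P i) := by
    intro P x
    change ∏ i, lfgFac P.1 (n i x) (c' P.1 i) = _
    rw [hc']
  have e1 : (fun x => ∏ P : Ix F w D, ∏ i, lfgFac P.1 (n i x) (c P i)) =
      fun x => ∏ Q ∈ vl s0, f Q x := by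
    funext x
    rw [prod_vl s0 (fun Q => f Q x)]
    symm
    rw [Finset.prod_congr rfl fun P _ => hf P x]
    refine Finset.prod_subset (Finset.subset_univ _) fun P _ hP => ?_
    have hP' : c P = fun _ => (false, false) := by
      by_contra hcon
      exact hP (Finset.mem_filter.2 ⟨Finset.mem_univ _, hcon⟩)
    rw [hP']
    exact Finset.prod_eq_one fun i _ => lfgFac_ff _ _
  have hmemPR : ∀ Q ∈ vl s0, Q ∈ PR F w D := by
    intro Q hQ
    unfold vl at hQ
    rw [Finset.mem_map] at hQ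
    obtain ⟨P, _, rfl⟩ := hQ
    exact P.2
  have hW : ∀ i, lfgW (lfgT1 c i) ≠ 0 ∧ lfgW (lfgT2 c i) ≠ 0 := by
    intro i
    have h3 := (Finset.prod_ne_zero_iff.1 hc) i (Finset.mem_univ i)
    exact ⟨left_ne_zero_of_mul h3, right_ne_zero_of_mul h3⟩
  have hdg1 : ∀ i, ∑ P ∈ lfgT1 c i, P.1.natDegree ≤ D := by
    intro i
    by_contra hcon
    exact (hW i).1 (if_neg hcon)
  have hdg2 : ∀ i, ∑ P ∈ lfgT2 c i, P.1.natDegree ≤ D := by
    intro i
    by_contra hcon
    exact (hW i).2 (if_neg hcon)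
  rw [e1, indep_prod p L hL (vl s0) (fun P hP => ⟨(mem_PR.1 (hmemPR P hP)).1,
    (mem_PR.1 (hmemPR P hP)).2.1⟩) ?_ f ?_]
  · rw [prod_vl s0 (fun Q => av (f Q))]
    have e2 : ∀ P : Ix F w D, av (f P.1) = eloc n P.1 (c P) := by
      intro P
      rw [lfg_eloc]
      congr 1
      funext x
      exact hf P x
    rw [Finset.prod_congr rfl fun P _ => e2 P]
    refine Finset.prod_subset (Finset.subset_univ _) fun P _ hP => ?_
    have hP' : c P = fun _ => (false, false) := by
      by_contra hcon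
      exact hP (Finset.mem_filter.2 ⟨Finset.mem_univ _, hcon⟩)
    rw [hP']
    exact eloc_zero n P.1
  · rw [dg_vl]
    exact (lfg_deg (fun P : Ix F w D => P.1.natDegree) c D hdg1 hdg2).trans hD
  · intro P hP x y hxy
    have h3 := hper P (hmemPR P hP) x y hxy
    refine Finset.prod_congr rfl fun i _ => ?_
    have h4 : uu P (n i x) = uu P (n i y) := by
      unfold uu
      by_cases h5 : P ∣ n i x
      · rw [if_pos h5, if_pos ((h3 i).1 h5)]
      · rw [if_neg h5, if_neg (fun h6 => h5 ((h3 i).2 h6))]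
    unfold lfgFac
    rw [h4]

private theorem lfg_av_expand {X A I : Type} [AddCommGroup X] [Fintype X] [Fintype I]
    [DecidableEq I]
    (p : A → X →+ F[X]) (L : ℕ)
    (hL : ∀ g : A → F[X], (∀ a, (g a).degree < L) → ∃ z : X, ∀ a, p a z = g a)
    (w D : ℕ) (n : I → X → F[X])
    (hper : ∀ P ∈ PR F w D, ∀ x y, (∀ a, P ∣ p a x - p a y) → ∀ i, (P ∣ n i x ↔ P ∣ n i y))
    (hD : 2 * Fintype.card I * D ≤ L) :
    av (fun x => ∏ i, GG w D (n i x) ^ 2) =
      ∑ c : Ix F w D → I → Bool × Bool, lfgWt c * ∏ P : Ix F w D, eloc n P.1 (c P) := by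
  have h1 : (fun x => ∏ i, GG w D (n i x) ^ 2) = fun x =>
      ∏ i, (∑ s : Finset (Ix F w D), lfgW s * ∏ P ∈ s, uu P.1 (n i x)) ^ 2 := by
    funext x
    exact Finset.prod_congr rfl fun i _ => by rw [lfg_GG w D (n i x)]
  have h2 := lfg_av_expand_gen (ι := Ix F w D) lfgW (fun (x : X) (i : I) (P : Ix F w D) =>
    uu P.1 (n i x))
  rw [h1]
  refine h2.trans (Finset.sum_congr rfl fun c _ => ?_)
  change lfgWt c * av (fun x => ∏ P : Ix F w D, ∏ i, lfgFac P.1 (n i x) (c P i)) = _
  by_cases hc : lfgWt c = 0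
  · rw [hc, zero_mul, zero_mul]
  · rw [lfg_ind p L hL w D n hper hD c hc]

theorem LFgen {X A I : Type} [AddCommGroup X] [Fintype X] [Fintype I] [DecidableEq I]
    (p : A → X →+ F[X]) (L : ℕ)
    (hL : ∀ g : A → F[X], (∀ a, (g a).degree < L) → ∃ z : X, ∀ a, p a z = g a)
    (w D : ℕ) (n : I → X → F[X])
    (hper : ∀ P ∈ PR F w D, ∀ x y, (∀ a, P ∣ p a x - p a y) → ∀ i, (P ∣ n i x ↔ P ∣ n i y))
    (h1 : ∀ P ∈ PR F w D, ∀ i, av (fun x => if P ∣ n i x then (1 : ℝ) else 0) = 1 / nrm P)
    (h2 : ∀ P ∈ PR F w D, ∀ i j, i ≠ j →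
      av (fun x => if P ∣ n i x ∧ P ∣ n j x then (1 : ℝ) else 0) ≤ 1 / nrm P ^ 2)
    (hD : 2 * Fintype.card I * D ≤ L) :
    |av (fun x => ∏ i, (GG w D (n i x) ^ 2 / SS F w D)) - 1| ≤
      2 * (tt F (6 * 8 ^ Fintype.card I) w D - 1) := by
  have : Nonempty X := ⟨0⟩
  have hS := SS_pos (F := F) w D
  have hmain := lfg_abs_main (ι := Ix F w D) (I := I) lfgW lfgW_nonneg lfgW_sq
    (fun s t h => lfgW_anti h) (fun P ω => eloc n P.1 ω) (fun P => vP P.1)
    (fun P => (vP_pos P.2).le) (fun P => vP_le_one P.2) (fun P => eloc_zero n P.1)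
    (fun P i => eloc_main w D n P.1 P.2 (h1 P.1 P.2) i)
    (fun P ω ha hb => eloc_off w D n P.1 P.2 (h1 P.1 P.2) (h2 P.1 P.2) ω ha hb)
  rw [← lfg_SS] at hmain
  have hA := lfg_av_expand p L hL w D n hper hD
  have hA' : av (fun x => ∏ i, GG w D (n i x) ^ 2) =
      ∑ c : Ix F w D → I → Bool × Bool, (∏ i, (lfgW (lfgT1 c i) * lfgW (lfgT2 c i))) *
        ∏ P : Ix F w D, eloc n P.1 (c P) := hA
  have htt : ∏ P : Ix F w D, (1 + (6 * 8 ^ Fintype.card I : ℝ) * vP P.1 ^ 2) =
      tt F (6 * 8 ^ Fintype.card I) w D :=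
    prod_Ix (fun P => 1 + (6 * 8 ^ Fintype.card I : ℝ) * vP P ^ 2)
  rw [← hA', htt] at hmain
  have hSk : 0 < SS F w D ^ Fintype.card I := pow_pos hS _
  have hdiv : av (fun x => ∏ i, (GG w D (n i x) ^ 2 / SS F w D)) =
      av (fun x => ∏ i, GG w D (n i x) ^ 2) / SS F w D ^ Fintype.card I := by
    have e1 : (fun x => ∏ i, (GG w D (n i x) ^ 2 / SS F w D)) =
        fun x => (SS F w D ^ Fintype.card I)⁻¹ * ∏ i, GG w D (n i x) ^ 2 := by
      funext x
      rw [Finset.prod_div_distrib, Finset.prod_const, Finset.card_univ]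
      ring
    rw [e1, lfg_av_mul]
    ring
  rw [hdiv, div_sub_one hSk.ne', abs_div, abs_of_pos hSk, div_le_iff₀ hSk]
  exact hmain

end Pool.Agent.H10.FF
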