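import Pool.Agent.H10.FF.LFforms
import Pool.Agent.H10.FF.ADefs

/-!
JOB FF-A4 (MP_a1f59e_nt). The two linear forms conditions for the majorant `nu`.

`mulHom c d N` is multiplication by the polynomial `c` from polynomials of degree `< d` to polynomials of degree `< N`
(vectors of coefficients).

PROOF of `lf_n`. Let `S` be a set of pairs `(j, ω)`, `j ∉ ω`; `Z = (Fin N → F) × (Fin κ → Fin d → F) × (Fin κ → Fin d → F)`. `EE2 unif unif F' =
av over Z` (`EE2_av`). `LFforms` with `Λ = S` (as a type), `A = Unit ⊕ Fin κ ⊕ Fin κ`, `p = p3`, `L = d` (`hL_triple`),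
`ℓ (j, ω) z = pol x + ∑ i, (c j - c i) * pol (mix h h' ω i)` (an additive map; `pol (x + La ..) = ℓ`: `pol_mulHom`). `hper`: clear. `hs1`: take
`h = h' = 0` and `pol x = r %ₘ P` (degree `< deg P ≤ D ≤ d ≤ N`). `hs2` for `(j, ω) ≠ (j', ω')`. Case `j ≠ j'`: let `i = j'`. In
`ℓ (j', ω')` the variables `h i, h' i` have coefficient `c j' - c j' = 0`, in `ℓ (j, ω)` one of them (`h i` if `i ∉ ω`, `h' i` otherwise) has
coefficient `c j - c j'`, prime to `P` (nonzero of degree `≤ w < deg P`). Take all other `h, h'` equal to `0`, `pol x ≡ r'`, and this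
variable `≡ (c j - c j')⁻¹ (r - r')` mod `P`. Case `j = j'`, `ω ≠ ω'`: let `i` be in the symmetric difference, `i ≠ j` (as `j ∉ ω ∪ ω'`), say
`i ∈ ω \ ω'` (or conversely): `h' i` has coefficient `c j - c i` in `ℓ (j, ω)` and does not occur in `ℓ (j, ω')`; same choice.
`card S ≤ κ 2 ^ κ`; `tt` is monotone in the constant (`tt_mono`).
PROOF of `lf_y`. Same with `Z = (Fin N → F) × (Fin κ → Fin d' → F) ^ 2`, forms `pol x + Mp * ∑ c, pol (mix y y' ω c)`, `ω ∈ S`, `card S ≤ 2 ^ κ`.
~250 lines.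
-/

namespace Pool.Agent.H10.FF

open Polynomial Finset Pool.Agent.H16.GPS
open scoped Classical

variable {F : Type} [Field F] [Fintype F]

/-- multiplication by `c` on coefficient vectors -/
noncomputable def mulHom (c : F[X]) (d N : ℕ) : (Fin d → F) →+ (Fin N → F) where
  toFun h := fun i => (c * pol h).coeff i
  map_zero' := by
    funext i
    simp [pol_zero]
  map_add' h h' := by
    funext i
    simp [pol_add, mul_add]

theorem pol_mulHom (c : F[X]) (d N : ℕ) (h : c.natDegree + d ≤ N) (x : Fin d → F) :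
    pol (mulHom c d N x) = c * pol x := by
  refine pol_surj (c * pol x) ?_
  by_cases hc : c = 0
  · rw [hc, zero_mul, degree_zero]
    exact WithBot.bot_lt_coe _
  · rw [degree_mul]
    refine lt_of_lt_of_le (WithBot.add_lt_add_left (degree_ne_bot.2 hc) (pol_degree_lt x)) ?_
    rw [degree_eq_natDegree hc]
    exact_mod_cast h

theorem EE2_av {Γ H : Type} [Fintype Γ] [Fintype H] (κ : ℕ)
    (G : Γ → (Fin κ → H) → (Fin κ → H) → ℝ) :
    EE2 (unif Γ) (unif H) G =
      av (fun z : Γ × (Fin κ → H) × (Fin κ → H) => G z.1 z.2.1 z.2.2) := by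
  unfold EE2 av unif
  simp only [Finset.prod_const, Finset.card_univ, Fintype.card_fin, Fintype.sum_prod_type,
    Fintype.card_prod, Fintype.card_fun]
  rw [Finset.sum_div]
  refine Finset.sum_congr rfl fun p _ => ?_
  rw [Finset.sum_div, Finset.mul_sum]
  refine Finset.sum_congr rfl fun h _ => ?_
  rw [Finset.sum_div, Finset.mul_sum, Finset.mul_sum]
  refine Finset.sum_congr rfl fun h' _ => ?_
  push_cast
  rw [one_div, one_div, inv_pow, div_eq_mul_inv, mul_inv, mul_inv]
  ring

/-- the form `pol x + ∑ i, b i * pol (mix h h' ω i)` -/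
noncomputable def frm (F : Type) [Field F] [Fintype F] (N d κ : ℕ) (b : Fin κ → F[X])
    (ω : Finset (Fin κ)) :
    ((Fin N → F) × (Fin κ → Fin d → F) × (Fin κ → Fin d → F)) →+ F[X] where
  toFun z := pol z.1 + ∑ i, b i * pol (mix z.2.1 z.2.2 ω i)
  map_zero' := by
    have h1 : ∀ i, mix (0 : Fin κ → Fin d → F) (0 : Fin κ → Fin d → F) ω i = 0 := by
      intro i
      unfold mix
      split_ifs <;> rfl
    simp only [Prod.fst_zero, Prod.snd_zero, h1, pol_zero, mul_zero, Finset.sum_const_zero,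
      add_zero]
  map_add' z z' := by
    have h1 : ∀ i, mix (z + z').2.1 (z + z').2.2 ω i =
        mix z.2.1 z.2.2 ω i + mix z'.2.1 z'.2.2 ω i := by
      intro i
      unfold mix
      split_ifs <;> rfl
    simp only [h1, pol_add, Prod.fst_add, mul_add, Finset.sum_add_distrib]
    ring

theorem frm_apply (N d κ : ℕ) (b : Fin κ → F[X]) (ω : Finset (Fin κ))
    (z : (Fin N → F) × (Fin κ → Fin d → F) × (Fin κ → Fin d → F)) :
    frm F N d κ b ω z = pol z.1 + ∑ i, b i * pol (mix z.2.1 z.2.2 ω i) := rfl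

private theorem lf_rem {P : F[X]} {w D n : ℕ} (hP : P ∈ PR F w D) (hn : D ≤ n) (r : F[X]) :
    ∃ v : Fin n → F, pol v = r %ₘ P := by
  refine ⟨_, pol_surj (r %ₘ P) ?_⟩
  have h1 := degree_modByMonic_lt r (mem_PR.1 hP).1
  refine lt_of_lt_of_le h1 ?_
  rw [degree_eq_natDegree (mem_PR.1 hP).1.ne_zero]
  exact_mod_cast (mem_PR.1 hP).2.2.2.trans hn

theorem frm_lf {K : Type} [Fintype K] [DecidableEq K] (s : K → F[X])
    {κ : ℕ} {Λ : Type} [Fintype Λ] (b : Λ → Fin κ → F[X]) (ω : Λ → Finset (Fin κ))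
    (w N d D : ℕ) (hs : Dif w D s)
    (hb : ∀ t t', t ≠ t' → ∃ i, b t i ≠ 0 ∧ (b t i).natDegree ≤ w ∧
      (b t' i = 0 ∨ (i ∈ ω t ↔ i ∉ ω t')))
    (hdN : d ≤ N) (hDd : D ≤ d) (C₀ : ℕ) (hC : Fintype.card Λ ≤ C₀)
    (hD : 2 * (C₀ * Fintype.card K) * D ≤ d) :
    |av (fun z => ∏ t, ∏ i : K,
        (GG w D (WW F w * (X ^ N + frm F N d κ (b t) (ω t) z) + s i) ^ 2 / SS F w D)) - 1| ≤
      2 * (tt F (6 * 8 ^ (C₀ * Fintype.card K)) w D - 1) := by
  have hCK : Fintype.card Λ * Fintype.card K ≤ C₀ * Fintype.card K := Nat.mul_le_mul_right _ hC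
  have h := LFforms s (p3 F N d (Fin κ)) d (fun g hg => hL_triple N d hdN (Fin κ) g hg)
    w D N hs (fun t => frm F N d κ (b t) (ω t)) ?_ ?_ ?_
    ((Nat.mul_le_mul_right _ (Nat.mul_le_mul_left _ hCK)).trans hD)
  · refine h.trans ?_
    have h1 : tt F (6 * 8 ^ (Fintype.card Λ * Fintype.card K)) w D ≤
        tt F (6 * 8 ^ (C₀ * Fintype.card K)) w D := by
      refine tt_mono _ _ (by positivity) ?_ w D
      exact mul_le_mul_of_nonneg_left (pow_le_pow_right₀ (by norm_num) hCK) (by norm_num)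
    linarith
  · intro P hP z hz t
    rw [frm_apply]
    refine dvd_add (hz (Sum.inl ())) (Finset.dvd_sum fun i _ => Dvd.dvd.mul_left ?_ _)
    unfold mix
    split_ifs
    · exact hz (Sum.inr (Sum.inr i))
    · exact hz (Sum.inr (Sum.inl i))
  · intro P hP t r
    obtain ⟨v, hv⟩ := lf_rem (n := N) hP (hDd.trans hdN) r
    refine ⟨(v, 0, 0), ?_⟩
    rw [frm_apply]
    have h1 : ∀ i, mix (0 : Fin κ → Fin d → F) (0 : Fin κ → Fin d → F) (ω t) i = 0 := by
      intro i
      unfold mix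
      split_ifs <;> rfl
    simp only [h1, pol_zero, mul_zero, Finset.sum_const_zero, add_zero]
    rw [hv]
    have h2 := modByMonic_add_div r P
    refine ⟨-(r /ₘ P), ?_⟩
    linear_combination h2
  · intro P hP t t' htt r r'
    obtain ⟨i, hi0, hiw, hi2⟩ := hb t t' htt
    have hnd : ¬ P ∣ b t i :=
      not_dvd_of_natDegree_lt hi0 (lt_of_le_of_lt hiw (mem_PR.1 hP).2.2.1)
    obtain ⟨u, e, hue⟩ := ((mem_PR.1 hP).2.1.coprime_iff_not_dvd).2 hnd
    obtain ⟨x, hx⟩ := lf_rem (n := N) hP (hDd.trans hdN) r'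
    obtain ⟨v, hv⟩ := lf_rem (n := d) hP hDd (e * (r - r'))
    refine ⟨(x, Pi.single i (if i ∈ ω t then 0 else v), Pi.single i (if i ∈ ω t then v else 0)),
      ?_⟩
    have hmix : ∀ s : Λ, ∑ l, b s l * pol (mix (Pi.single i (if i ∈ ω t then 0 else v))
        (Pi.single i (if i ∈ ω t then v else 0)) (ω s) l) =
        b s i * pol (if i ∈ ω s then (if i ∈ ω t then v else 0)
          else (if i ∈ ω t then 0 else v)) := by
      intro s
      rw [Finset.sum_eq_single i]
      · unfold mix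
        rw [Pi.single_eq_same, Pi.single_eq_same]
      · intro l _ hl
        unfold mix
        rw [Pi.single_eq_of_ne hl, Pi.single_eq_of_ne hl, ite_self, pol_zero, mul_zero]
      · intro hcon
        exact absurd (Finset.mem_univ i) hcon
    have h2 := modByMonic_add_div r' P
    have h3 := modByMonic_add_div (e * (r - r')) P
    constructor
    · rw [frm_apply]
      simp only
      rw [hmix t]
      have h4 : (if i ∈ ω t then (if i ∈ ω t then v else 0) else (if i ∈ ω t then 0 else v)) = v := by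
        by_cases h : i ∈ ω t
        · rw [if_pos h, if_pos h]
        · rw [if_neg h, if_neg h]
      rw [h4, hx, hv]
      refine ⟨-(r' /ₘ P) - b t i * ((e * (r - r')) /ₘ P) - u * (r - r'), ?_⟩
      linear_combination h2 + b t i * h3 + (r - r') * hue
    · rw [frm_apply]
      simp only
      rw [hmix t']
      have h4 : b t' i * pol (if i ∈ ω t' then (if i ∈ ω t then v else 0)
          else (if i ∈ ω t then 0 else v)) = 0 := by
        rcases hi2 with h | h
        · rw [h, zero_mul]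
        · by_cases h5 : i ∈ ω t'
          · rw [if_pos h5, if_neg (fun h6 => (h.1 h6) h5), pol_zero, mul_zero]
          · rw [if_neg h5, if_pos (h.2 h5), pol_zero, mul_zero]
      rw [h4, add_zero, hx]
      refine ⟨-(r' /ₘ P), ?_⟩
      linear_combination h2

theorem lf_n {K : Type} [Fintype K] [DecidableEq K] (s : K → F[X])
    {κ : ℕ} (c : Fin κ → F[X]) (w N d D : ℕ) (hs : Dif w D s)
    (hc : ∀ i j, i ≠ j → c i ≠ c j ∧ (c i - c j).natDegree ≤ w)
    (hd : ∀ j, (c j).natDegree + d ≤ N) (hdN : d ≤ N) (hDd : D ≤ d)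
    (hD : 2 * (κ * 2 ^ κ * Fintype.card K) * D ≤ d) :
    LFn (fun j => mulHom (c j) d N) (nu w N D s)
      (2 * (tt F (6 * 8 ^ (κ * 2 ^ κ * Fintype.card K)) w D - 1)) := by
  intro S hS
  rw [EE2_av]
  have h := frm_lf (Λ := {q : Fin κ × Finset (Fin κ) // q ∈ S}) s
    (fun t i => c t.1.1 - c i) (fun t => t.1.2) w N d D hs ?_ hdN hDd (κ * 2 ^ κ) ?_ hD
  · refine le_trans (le_of_eq ?_) h
    congr 2
    congr 1
    funext z
    rw [← Finset.prod_coe_sort]
    refine Finset.prod_congr rfl fun t _ => ?_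
    unfold nu nn
    refine Finset.prod_congr rfl fun i _ => ?_
    have h1 : pol (z.1 + La (fun j => mulHom (c j) d N) t.1.1 (mix z.2.1 z.2.2 t.1.2)) =
        frm F N d κ (fun i => c t.1.1 - c i) t.1.2 z := by
      rw [frm_apply, pol_add]
      congr 1
      unfold La
      change polHom F N _ = _
      rw [map_sum]
      refine Finset.sum_congr rfl fun l _ => ?_
      change pol _ = _
      rw [pol_sub, pol_mulHom _ _ _ (hd _), pol_mulHom _ _ _ (hd _), sub_mul]
    rw [h1]
  · rintro ⟨⟨j, ω⟩, hq⟩ ⟨⟨j', ω'⟩, hq'⟩ hne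
    have h1 := hS _ hq
    have h1' := hS _ hq'
    simp only at h1 h1'
    by_cases hj : j = j'
    · subst hj
      have hω : ω ≠ ω' := fun h => hne (by rw [Subtype.mk_eq_mk, h])
      have h2 : ∃ i, ¬ (i ∈ ω ↔ i ∈ ω') := by
        by_contra hcon
        push Not at hcon
        exact hω (Finset.ext hcon)
      obtain ⟨i, hi⟩ := h2
      have hij : j ≠ i := by
        rintro rfl
        exact hi ⟨fun h => absurd h h1, fun h => absurd h h1'⟩
      refine ⟨i, sub_ne_zero.2 (hc j i hij).1, (hc j i hij).2, Or.inr ?_⟩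
      simp only
      tauto
    · exact ⟨j', sub_ne_zero.2 (hc j j' hj).1, (hc j j' hj).2, Or.inl (sub_self _)⟩
  · rw [Fintype.card_coe]
    have h1 := Finset.card_le_univ S
    rw [Fintype.card_prod, Fintype.card_fin, Fintype.card_finset, Fintype.card_fin] at h1
    exact h1

theorem lf_y {K : Type} [Fintype K] [DecidableEq K] (s : K → F[X])
    (κ : ℕ) (Mp : F[X]) (w N d D : ℕ) (hs : Dif w D s) (hM : Mp ≠ 0 ∧ Mp.natDegree ≤ w)
    (hd : Mp.natDegree + d ≤ N) (hDd : D ≤ d)
    (hD : 2 * (2 ^ κ * Fintype.card K) * D ≤ d) :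
    LFy κ (mulHom Mp d N) (nu w N D s)
      (2 * (tt F (6 * 8 ^ (2 ^ κ * Fintype.card K)) w D - 1)) := by
  intro S
  rw [EE2_av]
  have h := frm_lf (Λ := {q : Finset (Fin κ) // q ∈ S}) s
    (fun _ _ => Mp) (fun t => t.1) w N d D hs ?_ (by omega) hDd (2 ^ κ) ?_ hD
  · refine le_trans (le_of_eq ?_) h
    congr 2
    congr 1
    funext z
    rw [← Finset.prod_coe_sort]
    refine Finset.prod_congr rfl fun t _ => ?_
    unfold nu nn
    refine Finset.prod_congr rfl fun i _ => ?_
    have h1 : pol (z.1 + ∑ c : Fin κ, mulHom Mp d N (mix z.2.1 z.2.2 t.1 c)) =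
        frm F N d κ (fun _ => Mp) t.1 z := by
      rw [frm_apply, pol_add]
      congr 1
      change polHom F N _ = _
      rw [map_sum]
      refine Finset.sum_congr rfl fun l _ => ?_
      change pol _ = _
      rw [pol_mulHom _ _ _ hd]
    rw [h1]
  · rintro ⟨ω, hq⟩ ⟨ω', hq'⟩ hne
    have hω : ω ≠ ω' := fun h => hne (by rw [Subtype.mk_eq_mk, h])
    have h2 : ∃ i, ¬ (i ∈ ω ↔ i ∈ ω') := by
      by_contra hcon
      push Not at hcon
      exact hω (Finset.ext hcon)
    obtain ⟨i, hi⟩ := h2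
    refine ⟨i, hM.1, hM.2, Or.inr ?_⟩
    simp only
    tauto
  · rw [Fintype.card_coe]
    have h1 := Finset.card_le_univ S
    rw [Fintype.card_finset, Fintype.card_fin] at h1
    exact h1

/-- the majorant on good points -/
theorem nu_good {K : Type} [Fintype K] (s : K → F[X]) (w N D : ℕ) (x : Fin N → F)
    (h : ∀ i, ∀ P ∈ PR F w D, ¬ P ∣ nn w N s x i) : nu w N D s x = SS F w D ^ Fintype.card K := by
  unfold nu
  have h1 : ∀ i, GG w D (nn w N s x i) = SS F w D := by
    intro i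
    unfold GG SS
    refine Finset.sum_congr rfl fun t ht => Finset.prod_congr rfl fun P hP => ?_
    have h2 : P ∈ PR F w D := by
      unfold PS at ht
      exact Finset.mem_powerset.1 (Finset.mem_filter.1 ht).1 hP
    unfold uu
    rw [if_neg (h i P h2)]
  have h3 : SS F w D ≠ 0 := (SS_pos w D).ne'
  rw [Finset.prod_congr rfl (fun i _ => by rw [h1 i]), Finset.prod_const, Finset.card_univ]
  congr 1
  field_simp

theorem nu_nonneg {K : Type} [Fintype K] (s : K → F[X]) (w N D : ℕ) (x : Fin N → F) :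
    0 ≤ nu w N D s x := by
  unfold nu
  exact Finset.prod_nonneg fun i _ => div_nonneg (sq_nonneg _) (SS_pos w D).le

end Pool.Agent.H10.FF
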