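import Pool.Agent.H10.FF.EEng

/-!
# Project FF, block E: final theorem

`engine` gives, for each finite set `S` of multipliers and each `N`, one set `T` with `0, 1 ∈ T` and one pair `f, g`. Since `F` has
finitely many subsets one `T` serves all `S` and `N`.
-/

namespace Pool.Agent.H10.FF

open Polynomial Finset
open scoped Classical

/-- the conclusion for one set `T` -/
def Good {F : Type} [Field F] (h : F[X]) (T : Finset F) (S : Finset F[X]) (N : ℕ) : Prop :=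
  ∃ f g : F[X], g ≠ 0 ∧ N ≤ f.natDegree ∧ N ≤ g.natDegree ∧
    ∀ c ∈ S, (c * g).natDegree < f.natDegree ∧ ∀ t ∈ T, Irreducible (f + c * g + C t * h)

theorem Good.mono {F : Type} [Field F] {h : F[X]} {T : Finset F} {S S' : Finset F[X]} {N N' : ℕ}
    (hG : Good h T S' N') (hS : S ⊆ S') (hN : N ≤ N') : Good h T S N := by
  obtain ⟨f, g, hg, hf1, hg1, hc⟩ := hG
  exact ⟨f, g, hg, hN.trans hf1, hN.trans hg1, fun c hcS => hc c (hS hcS)⟩

theorem good_set (m : ℕ) (hm : 2 ≤ m) : ∃ Q : ℕ, ∀ (F : Type) [Field F] [Fintype F],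
    Q ≤ Fintype.card F → ∀ h : F[X], h ≠ 0 → ∀ (S : Finset F[X]) (N : ℕ), ∃ T : Finset F,
      m ≤ T.card ∧ (0 : F) ∈ T ∧ (1 : F) ∈ T ∧ Good h T S N := by
  obtain ⟨k, hmk, heng⟩ := engine m hm
  refine ⟨k + 1, ?_⟩
  intro F _ _ hQ h hh S N
  -- distinct elements
  obtain ⟨U, -, hUk⟩ := Finset.exists_subset_card_eq (s := (univ : Finset F)) (n := k)
    (by rw [Finset.card_univ]; omega)
  set e := U.equivFinOfCardEq hUk with he
  set a : Fin k → F := fun i => ((e.symm i : U) : F) with ha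
  have hainj : Function.Injective a := fun i j h => e.symm.injective (Subtype.ext h)
  -- the multipliers
  set S' : Finset F[X] := S ∪ {0, 1} with hS'
  set ec := S'.equivFin with hec
  set c : Fin S'.card → F[X] := fun j => ((ec.symm j : S') : F[X]) with hc
  have hcinj : Function.Injective c := fun i j h => ec.symm.injective (Subtype.ext h)
  have hS2 : 2 ≤ S'.card := by
    have h1 : ({0, 1} : Finset F[X]).card = 2 := Finset.card_pair zero_ne_one
    rw [← h1]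
    exact Finset.card_le_card Finset.subset_union_right
  obtain ⟨T, hT, h0, h1, f, g, hg, hfN, hgN, hj⟩ :=
    heng F a hainj (by omega) h hh S'.card hS2 c hcinj N
  refine ⟨T, hT, h0, h1, f, g, hg, hfN, hgN, ?_⟩
  intro p hp
  have hpS' : p ∈ S' := Finset.mem_union_left _ hp
  have hcp : c (ec ⟨p, hpS'⟩) = p := by
    rw [hc]
    dsimp only
    rw [Equiv.symm_apply_apply]
  have h2 := hj (ec ⟨p, hpS'⟩)
  rw [hcp] at h2
  exact h2

theorem good_unif {F : Type} [Field F] [Fintype F] (h : F[X]) (m : ℕ)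
    (hG : ∀ (S : Finset F[X]) (N : ℕ), ∃ T : Finset F, m ≤ T.card ∧ (0 : F) ∈ T ∧
      (1 : F) ∈ T ∧ Good h T S N) :
    ∃ T : Finset F, m ≤ T.card ∧ (0 : F) ∈ T ∧ (1 : F) ∈ T ∧ ∀ S N, Good h T S N := by
  by_contra hcon
  push Not at hcon
  have h1 : ∀ T : Finset F, ∃ (S : Finset F[X]) (N : ℕ),
      m ≤ T.card → (0 : F) ∈ T → (1 : F) ∈ T → ¬ Good h T S N := by
    intro T
    by_cases hT : m ≤ T.card ∧ (0 : F) ∈ T ∧ (1 : F) ∈ T
    · obtain ⟨S, N, hSN⟩ := hcon T hT.1 hT.2.1 hT.2.2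
      exact ⟨S, N, fun _ _ _ => hSN⟩
    · exact ⟨∅, 0, fun a b c => absurd ⟨a, b, c⟩ hT⟩
  choose SS NN hSN using h1
  obtain ⟨T, hT, h0, h1, hgood⟩ := hG ((univ : Finset (Finset F)).biUnion SS)
    ((univ : Finset (Finset F)).sup NN)
  refine hSN T hT h0 h1 (hgood.mono ?_ ?_)
  · exact Finset.subset_biUnion_of_mem SS (Finset.mem_univ T)
  · exact Finset.le_sup (f := NN) (Finset.mem_univ T)

theorem main (m : ℕ) (hm : 2 ≤ m) : ∃ Q : ℕ, ∀ (F : Type) [Field F] [Fintype F],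
    Q ≤ Fintype.card F → ∀ h : F[X], h ≠ 0 →
    ∃ T : Finset F, m ≤ T.card ∧ (0 : F) ∈ T ∧ (1 : F) ∈ T ∧
    ∀ (S : Finset F[X]) (N : ℕ), ∃ f g : F[X], g ≠ 0 ∧ N ≤ f.natDegree ∧ N ≤ g.natDegree ∧
      ∀ c ∈ S, (c * g).natDegree < f.natDegree ∧ ∀ t ∈ T, Irreducible (f + c * g + C t * h) := by
  obtain ⟨Q, hQ⟩ := good_set m hm
  refine ⟨Q, ?_⟩
  intro F _ _ hF h hh
  exact good_unif h m (hQ F hF h hh)

end Pool.Agent.H10.FF
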