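import Mathlib

/-!
JOB FF-C10 (MP_a1f59e_nt). Choice of the parameters, and the abstract conclusion (pure real analysis / finite sums).

PROOF of `params`. For `a → ∞` let `k = ⌊a / (352 log (1 + a))⌋`. Then `k ≥ a / (352 log (1+a)) - 1 ≥ a / (704 log (1+a))` for large `a`, `k → ∞`, and
`k log² (1 + a/4) / a ≥ log² (1 + a/4) / (704 log (1+a)) → ∞` (`log (1 + a/4) ≥ log (1+a) - log 4 ≥ (1/2) log (1+a)` for large `a`).
PROOF of `abs_concl`. Let `J x = #{l | I l x}`. `∑_l 1_{I l x} ≤ (m - 1) + k 1_{m ≤ J x}`, so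
`2 m G ≤ ∑_l av (1_{I l} Φ²) ≤ (m - 1) av Φ² + k av (1_{m ≤ J} Φ²) ≤ 2 (m - 1) G + k av (1_{m ≤ J} Φ²)`: `av (1_{m ≤ J} Φ²) ≥ 2 G / k ≥ G / k`. Subtract the bad
points: `av (1_{¬Bad, m ≤ J} Φ²) ≥ G / k - G / (2 k) = G / (2 k)`, and it is `≤ B² av (1_{¬Bad, m ≤ J})`. ~120 lines.
-/

namespace Pool.Agent.H10.FF

open Finset
open scoped Classical

theorem params (m : ℕ) : ∃ (k : ℕ) (a : ℝ), m ≤ k ∧ 1 ≤ k ∧ 1 ≤ a ∧
    352 * k * Real.log (1 + a) ≤ a ∧
    3168 * a * (2 * m + 1) ≤ k * Real.log (1 + a / 4) ^ 2 := by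
  have hm0 : (0 : ℝ) ≤ m := Nat.cast_nonneg m
  have e1 : Filter.Tendsto (fun a : ℝ => 1 + a) Filter.atTop Filter.atTop :=
    Filter.tendsto_atTop_add_const_left _ _ Filter.tendsto_id
  have e2 : Filter.Tendsto (fun a : ℝ => Real.log (1 + a)) Filter.atTop Filter.atTop :=
    Real.tendsto_log_atTop.comp e1
  have e3 : ∀ᶠ a : ℝ in Filter.atTop, ‖Real.log (1 + a)‖ ≤ 1 / (1408 * (m + 1)) * ‖(1 + a)‖ := by
    have h := Real.isLittleO_log_id_atTop.bound (show (0 : ℝ) < 1 / (1408 * (m + 1)) by positivity)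
    exact e1.eventually h
  obtain ⟨a, ha1, ha3, haL⟩ := ((Filter.eventually_ge_atTop (1 : ℝ)).and
    (e3.and (e2.eventually_ge_atTop (2 * Real.log 4 + 2816 * 3168 * (2 * m + 1))))).exists
  have hlog4 : 0 < Real.log 4 := Real.log_pos (by norm_num)
  set L : ℝ := Real.log (1 + a) with hL
  have hLpos : 0 < L := by
    have : (0 : ℝ) < 2 * Real.log 4 + 2816 * 3168 * (2 * m + 1) := by positivity
    linarith
  have hLup : 704 * (m + 1) * L ≤ a := by
    rw [Real.norm_of_nonneg hLpos.le, Real.norm_of_nonneg (by linarith : (0 : ℝ) ≤ 1 + a)] at ha3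
    have hmp : (0 : ℝ) < 1408 * (m + 1) := by positivity
    rw [div_mul_eq_mul_div, one_mul, le_div_iff₀ hmp] at ha3
    nlinarith
  have hlog : L / 2 ≤ Real.log (1 + a / 4) := by
    have h1 : Real.log ((1 + a) / 4) ≤ Real.log (1 + a / 4) :=
      Real.log_le_log (by linarith) (by linarith)
    rw [Real.log_div (by linarith) (by norm_num)] at h1
    have h2 : (0 : ℝ) ≤ 2816 * 3168 * (2 * m + 1) := by positivity
    linarith
  set q : ℝ := a / (352 * L) with hq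
  have hq2 : 2 * ((m : ℝ) + 1) ≤ q := by
    rw [hq, le_div_iff₀ (by positivity)]
    linarith
  have hq0 : 0 ≤ q := by linarith
  have hk1 : (⌊q⌋₊ : ℝ) ≤ q := Nat.floor_le hq0
  have hk2 : q < ⌊q⌋₊ + 1 := Nat.lt_floor_add_one q
  have hkq : q / 2 ≤ ⌊q⌋₊ := by linarith
  refine ⟨⌊q⌋₊, a, ?_, ?_, ha1, ?_, ?_⟩
  · apply Nat.le_floor
    linarith
  · apply Nat.le_floor
    push_cast
    linarith
  · have h1 : (⌊q⌋₊ : ℝ) * (352 * L) ≤ a := by
      calc (⌊q⌋₊ : ℝ) * (352 * L) ≤ q * (352 * L) := by gcongr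
        _ = a := by rw [hq]; field_simp
    linarith
  · have hqL : q / 2 * (L / 2) ^ 2 = a * L / 2816 := by
      rw [hq]
      field_simp
      ring
    have h2 : 2816 * 3168 * (2 * m + 1) ≤ L := by linarith
    calc 3168 * a * (2 * m + 1) = a * (2816 * 3168 * (2 * m + 1)) / 2816 := by ring
      _ ≤ a * L / 2816 := by gcongr
      _ = q / 2 * (L / 2) ^ 2 := hqL.symm
      _ ≤ ⌊q⌋₊ * Real.log (1 + a / 4) ^ 2 := by gcongr

theorem abs_concl {X : Type} [Fintype X] [Nonempty X] (k m : ℕ) (hk : 1 ≤ k) (hm : 1 ≤ m)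
    (I : Fin k → X → Prop) (Bad : X → Prop) (Φ : X → ℝ) (G B : ℝ) (hG : 0 < G) (hB : 0 < B)
    (h1 : (∑ x, Φ x ^ 2) / (Fintype.card X : ℝ) ≤ 2 * G)
    (h2 : 2 * m * G ≤ ∑ l, (∑ x, (if I l x then (1 : ℝ) else 0) * Φ x ^ 2) / (Fintype.card X : ℝ))
    (h3 : (∑ x, (if Bad x then (1 : ℝ) else 0) * Φ x ^ 2) / (Fintype.card X : ℝ) ≤ G / (2 * k))
    (h4 : ∀ x, ¬ Bad x → |Φ x| ≤ B) :
    G / (2 * k * B ^ 2) ≤ (∑ x, if ¬ Bad x ∧ m ≤ (univ.filter (fun l => I l x)).card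
      then (1 : ℝ) else 0) / (Fintype.card X : ℝ) := by
  have hN : (0 : ℝ) < (Fintype.card X : ℝ) := by exact_mod_cast Fintype.card_pos
  have hk0 : (0 : ℝ) < k := by exact_mod_cast hk
  set N : ℝ := (Fintype.card X : ℝ) with hNdef
  set J : X → ℕ := fun x => (univ.filter (fun l => I l x)).card with hJ
  have hJle : ∀ x, J x ≤ k := fun x => by
    have := Finset.card_filter_le (univ : Finset (Fin k)) (fun l => I l x)
    simpa [hJ] using this
  have hsum : ∀ x, ∑ l, (if I l x then (1 : ℝ) else 0) = J x := fun x => by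
    rw [Finset.sum_ite, Finset.sum_const_zero, add_zero, Finset.sum_const, nsmul_eq_mul, mul_one]
  have hpt : ∀ x, (J x : ℝ) ≤ (m - 1) + k * (if m ≤ J x then (1 : ℝ) else 0) := fun x => by
    by_cases h : m ≤ J x
    · rw [if_pos h]
      have h5 : (J x : ℝ) ≤ k := by exact_mod_cast hJle x
      have h6 : (1 : ℝ) ≤ m := by exact_mod_cast hm
      linarith
    · rw [if_neg h]
      have h5 : J x + 1 ≤ m := by omega
      have h6 : (J x : ℝ) + 1 ≤ m := by exact_mod_cast h5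
      linarith
  have hS : ∑ l, (∑ x, (if I l x then (1 : ℝ) else 0) * Φ x ^ 2) / N
      ≤ (m - 1) * ((∑ x, Φ x ^ 2) / N)
        + k * ((∑ x, (if m ≤ J x then (1 : ℝ) else 0) * Φ x ^ 2) / N) := by
    rw [← Finset.sum_div, Finset.sum_comm]
    have : ∑ x, ∑ l, (if I l x then (1 : ℝ) else 0) * Φ x ^ 2
        ≤ (m - 1) * (∑ x, Φ x ^ 2) + k * (∑ x, (if m ≤ J x then (1 : ℝ) else 0) * Φ x ^ 2) := by
      rw [Finset.mul_sum, Finset.mul_sum, ← Finset.sum_add_distrib]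
      apply Finset.sum_le_sum
      intro x _
      rw [← Finset.sum_mul, hsum x]
      have := mul_le_mul_of_nonneg_right (hpt x) (sq_nonneg (Φ x))
      linarith
    calc (∑ x, ∑ l, (if I l x then (1 : ℝ) else 0) * Φ x ^ 2) / N
        ≤ ((m - 1) * (∑ x, Φ x ^ 2) + k * (∑ x, (if m ≤ J x then (1 : ℝ) else 0) * Φ x ^ 2)) / N := by
          gcongr
      _ = _ := by ring
  have hm1 : (0 : ℝ) ≤ m - 1 := by
    have : (1 : ℝ) ≤ m := by exact_mod_cast hm
    linarith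
  have hA : 2 * G / k ≤ (∑ x, (if m ≤ J x then (1 : ℝ) else 0) * Φ x ^ 2) / N := by
    rw [div_le_iff₀ hk0]
    have h7 := mul_le_mul_of_nonneg_left h1 hm1
    linarith [h2.trans hS]
  have hsub : (∑ x, (if m ≤ J x then (1 : ℝ) else 0) * Φ x ^ 2) / N
      ≤ (∑ x, (if Bad x then (1 : ℝ) else 0) * Φ x ^ 2) / N
        + (∑ x, (if ¬ Bad x ∧ m ≤ J x then (1 : ℝ) else 0) * Φ x ^ 2) / N := by
    rw [← add_div, ← Finset.sum_add_distrib]
    gcongr with x _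
    have h5 : (0 : ℝ) ≤ Φ x ^ 2 := sq_nonneg _
    by_cases hb : Bad x
    · by_cases h : m ≤ J x <;> simp [hb, h, h5]
    · by_cases h : m ≤ J x <;> simp [hb, h]
  have hup : (∑ x, (if ¬ Bad x ∧ m ≤ J x then (1 : ℝ) else 0) * Φ x ^ 2) / N
      ≤ B ^ 2 * ((∑ x, if ¬ Bad x ∧ m ≤ J x then (1 : ℝ) else 0) / N) := by
    rw [← mul_div_assoc, Finset.mul_sum]
    refine div_le_div_of_nonneg_right (Finset.sum_le_sum fun x _ => ?_) hN.le
    by_cases h : ¬ Bad x ∧ m ≤ J x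
    · rw [if_pos h, one_mul, mul_one, ← sq_abs]
      exact pow_le_pow_left₀ (abs_nonneg _) (h4 x h.1) 2
    · rw [if_neg h, zero_mul, mul_zero]
  have hfin : G / (2 * k) ≤ B ^ 2 * ((∑ x, if ¬ Bad x ∧ m ≤ J x then (1 : ℝ) else 0) / N) := by
    have h8 : 2 * G / k = 4 * (G / (2 * k)) := by
      field_simp
      ring
    have h9 : 0 < G / (2 * k) := by positivity
    linarith [hsub, hup, hA, h3]
  have hB2 : 0 < B ^ 2 := by positivity
  calc G / (2 * k * B ^ 2) = G / (2 * k) / B ^ 2 := by rw [div_div]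
    _ ≤ _ := by
      rw [div_le_iff₀ hB2]
      linarith [hfin]

end Pool.Agent.H10.FF
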