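import Pool.Agent.H10.FF.E2
import Pool.Agent.H10.FF.Loc
import Pool.Agent.H10.FF.Good

/-!
JOB FF-C6 (MP_a1f59e_nt). Expansion of the second moment restricted to `n l` irreducible.

PROOF of `S2_pair`. If `n l` is irreducible (and monic) of degree `M > R` then `P ∤ n l` for the `P` of the index type (monic
irreducibles of smaller degree). So `∏_P (UU P c * UU P c') = ∏_P ∑_j Aco P l (c P) (c' P) j * ind P n j`
(`UU_expand`, `not_dvd_both`) `= ∑_{j : Ix → Option K} ∏_P Aco .. (j P) * ind P n (j P)` (`Finset.prod_univ_sum`).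
PROOF of `S2_expand`. Expand `Phi ^ 2`; by `S2_pair` the average is `∑_{c,c'} BB c BB c' ∑_j (∏ Aco) Cn j`; with `Cn j = π * ∏_{j P ≠ none} v_P + Er j`
the first part is `π ∑ BB BB' ∏_P e2` (`Finset.prod_univ_sum` backwards, `e2 = Aco none + ∑_i Aco (some i) v`). In the second part
exchange the sums: for fixed `j` (`j P ≠ some l` for all `P`, otherwise the product of the `Aco` vanishes, `Aco_l`),
`∑_{c,c'} BB c BB c' ∏_P |Aco P l (c P) (c' P) (j P)| ≤ [dgt j ≤ 2 R] ∑_{c, c'} ∏_P (..) ≤ [..] ∏_P (∑_{o,o'} |Aco P l o o' (j P)|)`: `BB ≤ 1`; if `BB c BB c' ≠ 0` and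
the product does not vanish then `j P ≠ none → c P ≠ none ∨ c' P ≠ none` (`Aco_some`), so `dgt j ≤ dgt c + dgt c' ≤ 2 R`; and
`∑_{o,o'} |Aco (none)| ≤ 1 + (card K + 1) ^ 2 v`, `∑_{o,o'} |Aco (some i)| ≤ 2 (card K + 1) ^ 2`. ~220 lines.
-/

namespace Pool.Agent.H10.FF

open Polynomial Finset
open scoped Classical

variable {F : Type} [Field F] [Fintype F] {K : Type} [Fintype K] [DecidableEq K]

/-- density of the `x` with `n l` irreducible and the divisibilities prescribed by `j` -/
noncomputable def Cn (w N R : ℕ) (a : K → F[X]) (l : K) (j : Ix F w R → Option K) : ℝ :=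
  av (fun x : Fin N → F => (if Irreducible (nn w N a x l) then (1 : ℝ) else 0) *
    ∏ P : Ix F w R, ind P.1 (nn w N a x) (j P))

/-- the model density of irreducible values: `π (M) / (q ^ N φ (W))` -/
noncomputable def pst (F : Type) [Field F] [Fintype F] (w N : ℕ) : ℝ :=
  ((irrs F (N + (WW F w).natDegree)).card : ℝ) / ((Fintype.card F : ℝ) ^ N * phi (PR F 0 w))

/-- error in the distribution of irreducibles -/
noncomputable def Er (w N R : ℕ) (a : K → F[X]) (l : K) (j : Ix F w R → Option K) : ℝ :=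
  Cn w N R a l j - pst F w N * ∏ P : Ix F w R, (j P).elim 1 (fun _ => vP P.1)

private theorem s2_av_sum {X J : Type} [Fintype X] [Fintype J] (A : J → ℝ) (g : J → X → ℝ) :
    av (fun x => ∑ j, A j * g j x) = ∑ j, A j * av (g j) := by
  unfold av
  rw [Finset.sum_comm, Finset.sum_div]
  refine Finset.sum_congr rfl fun j _ => ?_
  rw [← Finset.mul_sum, mul_div_assoc]

private theorem s2_not_dvd {w R : ℕ} (N : ℕ) (hN : 1 ≤ N) (hR : R < N + (WW F w).natDegree)
    (a : K → F[X]) (hd : ∀ i, (a i).natDegree < N + (WW F w).natDegree) (l : K) (x : Fin N → F)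
    (h : Irreducible (nn w N a x l)) {P : F[X]}
    (hP : P ∈ PR F w R) : ¬ P ∣ nn w N a x l := by
  intro hdv
  have h1 := mem_PR.1 hP
  have h2 := base_eq_of_dvd ⟨h1.1, h1.2.1⟩ ⟨nn_monic w N a hd x l, h⟩ hdv
  have h3 := nn_natDegree w N a hd x l
  rw [← h2] at h3
  omega

omit [DecidableEq K] in
private theorem s2_prod_sum {w R : ℕ} (f : Ix F w R → Option K → Option K → ℝ) :
    ∑ c : Ix F w R → Option K, ∑ c' : Ix F w R → Option K, ∏ P, f P (c P) (c' P) =
      ∏ P, ∑ ω : Option K × Option K, f P ω.1 ω.2 := by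
  rw [Finset.prod_univ_sum, Fintype.piFinset_univ]
  rw [← (Equiv.arrowProdEquivProdArrow (Ix F w R) (fun _ => Option K)
      (fun _ => Option K)).symm.sum_comp, Fintype.sum_prod_type]
  rfl

theorem S2_pair {w R : ℕ} (N : ℕ) (hN : 1 ≤ N) (hR : R < N + (WW F w).natDegree) (a : K → F[X])
    (ha : Dif w R a) (hd : ∀ i, (a i).natDegree < N + (WW F w).natDegree) (l : K)
    (c c' : Ix F w R → Option K) :
    av (fun x : Fin N → F => (if Irreducible (nn w N a x l) then (1 : ℝ) else 0) *
        ((∏ P : Ix F w R, UU P.1 (nn w N a x) (c P)) *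
          ∏ P : Ix F w R, UU P.1 (nn w N a x) (c' P))) =
      ∑ j : Ix F w R → Option K, (∏ P : Ix F w R, Aco P.1 l (c P) (c' P) (j P)) *
        Cn w N R a l j := by
  unfold Cn
  rw [← s2_av_sum]
  congr 1
  funext x
  by_cases h : Irreducible (nn w N a x l)
  · simp only [if_pos h, one_mul]
    rw [← Finset.prod_mul_distrib]
    have h1 : ∀ P : Ix F w R, UU P.1 (nn w N a x) (c P) * UU P.1 (nn w N a x) (c' P) =
        ∑ j : Option K, Aco P.1 l (c P) (c' P) j * ind P.1 (nn w N a x) j := fun P =>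
      UU_expand P.2 l _ (s2_not_dvd N hN hR a hd l x h P.2)
        (fun i j hij hd => not_dvd_both N a ha P.2 i j hij x hd) _ _
    rw [Finset.prod_congr rfl fun P _ => h1 P, Finset.prod_univ_sum, Fintype.piFinset_univ]
    refine Finset.sum_congr rfl fun j _ => ?_
    rw [Finset.prod_mul_distrib]
  · simp only [if_neg h, zero_mul, mul_zero, Finset.sum_const_zero]

private theorem s2_dgt {w R : ℕ} (l : K) (c c' j : Ix F w R → Option K)
    (h : ∏ P : Ix F w R, |Aco P.1 l (c P) (c' P) (j P)| ≠ 0) : dgt j ≤ dgt c + dgt c' := by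
  unfold dgt
  rw [← Finset.sum_add_distrib]
  refine Finset.sum_le_sum fun P _ => ?_
  have h1 := (Finset.prod_ne_zero_iff.1 h) P (Finset.mem_univ _)
  rcases hj : j P with _ | i
  · rw [if_pos rfl]
    exact Nat.zero_le _
  · rw [if_neg (by simp)]
    rw [hj] at h1
    have h2 := Aco_some P.2 l (c P) (c' P) i
    by_cases h3 : c P = none ∧ c' P = none
    · rw [if_pos h3] at h2
      exact absurd (le_antisymm h2 (abs_nonneg _)) h1
    · by_cases h4 : c P = none
      · have h5 : c' P ≠ none := fun h5 => h3 ⟨h4, h5⟩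
        rw [if_pos h4, if_neg h5]
        omega
      · rw [if_neg h4]
        exact Nat.le_add_right _ _

private theorem s2_local {w R : ℕ} (l : K) (P : Ix F w R) (o : Option K) :
    ∑ ω : Option K × Option K, |Aco P.1 l ω.1 ω.2 o| ≤
      o.elim (1 + ((Fintype.card K : ℝ) + 1) ^ 2 * vP P.1)
        (fun _ => 2 * ((Fintype.card K : ℝ) + 1) ^ 2) := by
  have hv : 0 ≤ vP P.1 := (vP_pos P.2).le
  have hcard : (Fintype.card (Option K × Option K) : ℝ) = ((Fintype.card K : ℝ) + 1) ^ 2 := by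
    rw [Fintype.card_prod, Fintype.card_option]
    push_cast
    ring
  rcases o with _ | i
  · change _ ≤ 1 + ((Fintype.card K : ℝ) + 1) ^ 2 * vP P.1
    calc ∑ ω : Option K × Option K, |Aco P.1 l ω.1 ω.2 none|
        ≤ ∑ ω : Option K × Option K, ((if ω = (none, none) then (1 : ℝ) else 0) + vP P.1) := by
          refine Finset.sum_le_sum fun ω _ => (Aco_none P.2 l ω.1 ω.2).trans ?_
          by_cases h : ω.1 = none ∧ ω.2 = none
          · rw [if_pos h, if_pos (Prod.ext h.1 h.2)]
            linarith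
          · rw [if_neg h, if_neg (fun h2 => h (by rw [h2]; exact ⟨rfl, rfl⟩))]
            linarith
      _ = 1 + ((Fintype.card K : ℝ) + 1) ^ 2 * vP P.1 := by
          rw [Finset.sum_add_distrib, Finset.sum_ite_eq', if_pos (Finset.mem_univ _),
            Finset.sum_const, Finset.card_univ, nsmul_eq_mul, hcard]
  · change _ ≤ 2 * ((Fintype.card K : ℝ) + 1) ^ 2
    calc ∑ ω : Option K × Option K, |Aco P.1 l ω.1 ω.2 (some i)|
        ≤ ∑ _ω : Option K × Option K, (2 : ℝ) := by
          refine Finset.sum_le_sum fun ω _ => (Aco_some P.2 l ω.1 ω.2 i).trans ?_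
          split_ifs
          · norm_num
          · exact le_rfl
      _ = 2 * ((Fintype.card K : ℝ) + 1) ^ 2 := by
          rw [Finset.sum_const, Finset.card_univ, nsmul_eq_mul, hcard]
          ring

private theorem s2_T {w R : ℕ} (l : K) (α : ℝ) (hα : 0 ≤ α) (j : Ix F w R → Option K) :
    ∑ c : Ix F w R → Option K, ∑ c' : Ix F w R → Option K,
        BB α c * BB α c' * ∏ P : Ix F w R, |Aco P.1 l (c P) (c' P) (j P)| ≤
      if (∀ P, j P ≠ some l) ∧ dgt j ≤ 2 * R then
        ∏ P : Ix F w R, (j P).elim (1 + ((Fintype.card K : ℝ) + 1) ^ 2 * vP P.1)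
          (fun _ => 2 * ((Fintype.card K : ℝ) + 1) ^ 2) else 0 := by
  split_ifs with h
  · calc _ ≤ ∑ c : Ix F w R → Option K, ∑ c' : Ix F w R → Option K,
          ∏ P : Ix F w R, |Aco P.1 l (c P) (c' P) (j P)| := by
          refine Finset.sum_le_sum fun c _ => Finset.sum_le_sum fun c' _ => ?_
          have h1 : BB α c * BB α c' ≤ 1 :=
            mul_le_one₀ ((BB_le_Bs hα c).trans (Bs_le_one hα c)) (BB_nonneg hα c')
              ((BB_le_Bs hα c').trans (Bs_le_one hα c'))
          have h2 : 0 ≤ ∏ P : Ix F w R, |Aco P.1 l (c P) (c' P) (j P)| :=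
            Finset.prod_nonneg fun P _ => abs_nonneg _
          exact mul_le_of_le_one_left h2 h1
      _ = ∏ P : Ix F w R, ∑ ω : Option K × Option K, |Aco P.1 l ω.1 ω.2 (j P)| :=
          s2_prod_sum (fun P o o' => |Aco P.1 l o o' (j P)|)
      _ ≤ _ := Finset.prod_le_prod
          (fun P _ => Finset.sum_nonneg fun ω _ => abs_nonneg _) fun P _ => s2_local l P (j P)
  · refine le_of_eq (Finset.sum_eq_zero fun c _ => Finset.sum_eq_zero fun c' _ => ?_)
    by_contra hne
    have h1 := left_ne_zero_of_mul hne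
    have h2 := right_ne_zero_of_mul hne
    apply h
    refine ⟨fun P hP => ?_, ?_⟩
    · have h3 := (Finset.prod_ne_zero_iff.1 h2) P (Finset.mem_univ _)
      rw [hP, Aco_l, abs_zero] at h3
      exact h3 rfl
    · have h3 := s2_dgt l c c' j h2
      have h4 : dgt c ≤ R := by
        by_contra h5
        exact left_ne_zero_of_mul h1 (BB_eq_zero c (not_le.1 h5))
      have h5 : dgt c' ≤ R := by
        by_contra h5
        exact right_ne_zero_of_mul h1 (BB_eq_zero c' (not_le.1 h5))
      omega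

theorem S2_expand {w R : ℕ} (N : ℕ) (hN : 1 ≤ N) (hR : R < N + (WW F w).natDegree) (a : K → F[X])
    (ha : Dif w R a)
    (hd : ∀ i, (a i).natDegree < N + (WW F w).natDegree) (l : K) (α : ℝ) (hα : 0 ≤ α) :
    |av (fun x : Fin N → F => (if Irreducible (nn w N a x l) then (1 : ℝ) else 0) *
        Phi w R α (nn w N a x) ^ 2) -
      pst F w N * ∑ c : Ix F w R → Option K, ∑ c' : Ix F w R → Option K,
        BB α c * BB α c' * ∏ P : Ix F w R, e2 P.1 l (c P) (c' P)| ≤
      ∑ j ∈ univ.filter (fun j : Ix F w R → Option K => (∀ P, j P ≠ some l) ∧ dgt j ≤ 2 * R),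
        (∏ P : Ix F w R, (j P).elim (1 + ((Fintype.card K : ℝ) + 1) ^ 2 * vP P.1)
          (fun _ => 2 * ((Fintype.card K : ℝ) + 1) ^ 2)) * |Er w N R a l j| := by
  have hphi : ∀ x : Fin N → F, (if Irreducible (nn w N a x l) then (1 : ℝ) else 0) *
      Phi w R α (nn w N a x) ^ 2 =
      ∑ q : (Ix F w R → Option K) × (Ix F w R → Option K), (BB α q.1 * BB α q.2) *
        ((if Irreducible (nn w N a x l) then (1 : ℝ) else 0) *
        ((∏ P : Ix F w R, UU P.1 (nn w N a x) (q.1 P)) *
          ∏ P : Ix F w R, UU P.1 (nn w N a x) (q.2 P))) := by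
    intro x
    unfold Phi
    rw [sq, Finset.sum_mul_sum, Finset.mul_sum, Fintype.sum_prod_type]
    refine Finset.sum_congr rfl fun c _ => ?_
    rw [Finset.mul_sum]
    refine Finset.sum_congr rfl fun c' _ => ?_
    ring
  have h1 : av (fun x : Fin N → F => (if Irreducible (nn w N a x l) then (1 : ℝ) else 0) *
        Phi w R α (nn w N a x) ^ 2) =
      ∑ q : (Ix F w R → Option K) × (Ix F w R → Option K), (BB α q.1 * BB α q.2) *
        ∑ j : Ix F w R → Option K, (∏ P : Ix F w R, Aco P.1 l (q.1 P) (q.2 P) (j P)) *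
        Cn w N R a l j := by
    have h2 : (fun x : Fin N → F => (if Irreducible (nn w N a x l) then (1 : ℝ) else 0) *
        Phi w R α (nn w N a x) ^ 2) = fun x : Fin N → F =>
      ∑ q : (Ix F w R → Option K) × (Ix F w R → Option K), (BB α q.1 * BB α q.2) *
        ((if Irreducible (nn w N a x l) then (1 : ℝ) else 0) *
        ((∏ P : Ix F w R, UU P.1 (nn w N a x) (q.1 P)) *
          ∏ P : Ix F w R, UU P.1 (nn w N a x) (q.2 P))) := funext hphi
    rw [h2]
    rw [s2_av_sum (fun q : (Ix F w R → Option K) × (Ix F w R → Option K) => BB α q.1 * BB α q.2)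
      (fun q x => (if Irreducible (nn w N a x l) then (1 : ℝ) else 0) *
        ((∏ P : Ix F w R, UU P.1 (nn w N a x) (q.1 P)) *
          ∏ P : Ix F w R, UU P.1 (nn w N a x) (q.2 P)))]
    refine Finset.sum_congr rfl fun q _ => ?_
    rw [S2_pair N hN hR a ha hd l q.1 q.2]
  have h3 : ∀ q : (Ix F w R → Option K) × (Ix F w R → Option K),
      ∑ j : Ix F w R → Option K, (∏ P : Ix F w R, Aco P.1 l (q.1 P) (q.2 P) (j P)) *
        Cn w N R a l j =
      pst F w N * ∏ P : Ix F w R, e2 P.1 l (q.1 P) (q.2 P) +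
      ∑ j : Ix F w R → Option K, (∏ P : Ix F w R, Aco P.1 l (q.1 P) (q.2 P) (j P)) *
        Er w N R a l j := by
    intro q
    have h4 : ∏ P : Ix F w R, e2 P.1 l (q.1 P) (q.2 P) =
        ∑ j : Ix F w R → Option K, (∏ P : Ix F w R, Aco P.1 l (q.1 P) (q.2 P) (j P)) *
          ∏ P : Ix F w R, (j P).elim 1 (fun _ => vP P.1) := by
      have h5 : ∀ P : Ix F w R, e2 P.1 l (q.1 P) (q.2 P) =
          ∑ o : Option K, Aco P.1 l (q.1 P) (q.2 P) o * o.elim 1 (fun _ => vP P.1) := by
        intro P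
        rw [Fintype.sum_option]
        unfold e2
        simp
      rw [Finset.prod_congr rfl fun P _ => h5 P, Finset.prod_univ_sum, Fintype.piFinset_univ]
      refine Finset.sum_congr rfl fun j _ => ?_
      rw [Finset.prod_mul_distrib]
    rw [h4, Finset.mul_sum, ← Finset.sum_add_distrib]
    refine Finset.sum_congr rfl fun j _ => ?_
    unfold Er
    ring
  have h6 : av (fun x : Fin N → F => (if Irreducible (nn w N a x l) then (1 : ℝ) else 0) *
        Phi w R α (nn w N a x) ^ 2) -
      pst F w N * ∑ c : Ix F w R → Option K, ∑ c' : Ix F w R → Option K,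
        BB α c * BB α c' * ∏ P : Ix F w R, e2 P.1 l (c P) (c' P) =
      ∑ j : Ix F w R → Option K, Er w N R a l j *
        ∑ c : Ix F w R → Option K, ∑ c' : Ix F w R → Option K,
          BB α c * BB α c' * ∏ P : Ix F w R, Aco P.1 l (c P) (c' P) (j P) := by
    rw [h1]
    have h7 : ∀ j : Ix F w R → Option K,
        ∑ c : Ix F w R → Option K, ∑ c' : Ix F w R → Option K,
          BB α c * BB α c' * ∏ P : Ix F w R, Aco P.1 l (c P) (c' P) (j P) =
        ∑ q : (Ix F w R → Option K) × (Ix F w R → Option K),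
          BB α q.1 * BB α q.2 * ∏ P : Ix F w R, Aco P.1 l (q.1 P) (q.2 P) (j P) := by
      intro j
      rw [Fintype.sum_prod_type]
    have h8 : ∑ c : Ix F w R → Option K, ∑ c' : Ix F w R → Option K,
        BB α c * BB α c' * ∏ P : Ix F w R, e2 P.1 l (c P) (c' P) =
        ∑ q : (Ix F w R → Option K) × (Ix F w R → Option K),
          BB α q.1 * BB α q.2 * ∏ P : Ix F w R, e2 P.1 l (q.1 P) (q.2 P) := by
      rw [Fintype.sum_prod_type]
    rw [h8, Finset.mul_sum, ← Finset.sum_sub_distrib]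
    simp only [h7, Finset.mul_sum]
    rw [Finset.sum_comm]
    refine Finset.sum_congr rfl fun q _ => ?_
    have h9 := h3 q
    rw [← Finset.mul_sum, h9, mul_add, Finset.mul_sum]
    have h10 : ∀ j : Ix F w R → Option K, Er w N R a l j * (BB α q.1 * BB α q.2 *
        ∏ P : Ix F w R, Aco P.1 l (q.1 P) (q.2 P) (j P)) =
        BB α q.1 * BB α q.2 * ((∏ P : Ix F w R, Aco P.1 l (q.1 P) (q.2 P) (j P)) *
          Er w N R a l j) := fun j => by ring
    rw [Finset.sum_congr rfl fun j _ => h10 j]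
    ring
  rw [h6]
  refine (Finset.abs_sum_le_sum_abs _ _).trans ?_
  rw [Finset.sum_filter]
  refine Finset.sum_le_sum fun j _ => ?_
  rw [abs_mul]
  have h11 : |∑ c : Ix F w R → Option K, ∑ c' : Ix F w R → Option K,
          BB α c * BB α c' * ∏ P : Ix F w R, Aco P.1 l (c P) (c' P) (j P)| ≤
      ∑ c : Ix F w R → Option K, ∑ c' : Ix F w R → Option K,
        BB α c * BB α c' * ∏ P : Ix F w R, |Aco P.1 l (c P) (c' P) (j P)| := by
    refine (Finset.abs_sum_le_sum_abs _ _).trans (Finset.sum_le_sum fun c _ => ?_)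
    refine (Finset.abs_sum_le_sum_abs _ _).trans (Finset.sum_le_sum fun c' _ => ?_)
    rw [abs_mul, Finset.abs_prod, abs_of_nonneg (mul_nonneg (BB_nonneg hα c) (BB_nonneg hα c'))]
  have h12 := h11.trans (s2_T l α hα j)
  split_ifs at h12 ⊢ with h
  · rw [mul_comm]
    exact mul_le_mul_of_nonneg_right h12 (abs_nonneg _)
  · rw [le_antisymm h12 (abs_nonneg _), mul_zero]

end Pool.Agent.H10.FF
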