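import Pool.Agent.H10.FF.S2low
import Pool.Agent.H10.FF.Abel
import Pool.Agent.H10.FF.S2exp
import Pool.Agent.H10.FF.Par

/-!
JOB FF-C11 (MP_a1f59e_nt). The sum of the second moments on irreducible values is large.

NOTATION. `k = card K`, `α = A₀ / R`, `ω = om F w`, `Γ = Gam F w R α`, `Y = TS F w R (R / 4) (bet α)`, `M = N + deg WW`.
PROOF. `pst ≥ ω / (2 M)`: `irrs_card_ge`, `om_mul_phi` (`q ^ M = q ^ N q ^ deg WW`). `Y ≥ log (1 + A₀/4) / (ω α)` (`YY_lower`, `α R = A₀`),
`Γ ≤ 11 / (ω α)` (`Gam_upper`), `Γ ≥ 1 / (2 ω α)`, `Γd ≤ 11 log (1 + A₀) / (ω α²)` (`Gamd_upper`). The condition `h` of `S2_low`: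
`8 k Γd ≤ 88 k log (1+A₀) / (ω α²) ≤ A₀ / (2 ω α²) = R / (2 ω α) ≤ R Γ` (`352 k log ≤ A₀`). So
`av (1_irr Φ²) ≥ pst (1/16) Y² Γ^(k-1) - Γ^k / k` and `pst (1/16) Y² Γ^(k-1) ≥ (ω/(32 M)) log² (1+A₀/4)/(ω α)² Γ^(k-1) ≥ ((2 m + 1)/k) (11/(ω α)) Γ^(k-1) ≥
((2m+1)/k) Γ^k`, the middle inequality being `k log² ≥ 352 (2m+1) M α`, which follows from `M ≤ 9 R` and `3168 A₀ (2m+1) ≤ k log²`.
Sum over the `k` values of `l`: `≥ (2m+1) Γ^k - Γ^k`. ~120 lines.
-/

namespace Pool.Agent.H10.FF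

open Polynomial Finset
open scoped Classical

variable {F : Type} [Field F] [Fintype F]

theorem pst_ge (w N : ℕ) (h : 4 ≤ N + (WW F w).natDegree) :
    om F w / (2 * ((N + (WW F w).natDegree : ℕ) : ℝ)) ≤ pst F w N := by
  have hq : (0 : ℝ) < Fintype.card F := by exact_mod_cast Fintype.card_pos
  have h1 := om_mul_phi (F := F) w
  have hom : 0 < om F w := om_pos w
  have hphi : 0 < phi (PR F 0 w) := by
    by_contra hc
    push Not at hc
    have h2 : om F w * phi (PR F 0 w) ≤ 0 := mul_nonpos_of_nonneg_of_nonpos hom.le hc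
    have h3 : (0 : ℝ) < (Fintype.card F : ℝ) ^ (WW F w).natDegree := pow_pos hq _
    linarith
  have hM : (0 : ℝ) < ((N + (WW F w).natDegree : ℕ) : ℝ) := by
    exact_mod_cast (by omega : 0 < N + (WW F w).natDegree)
  have h4 := irrs_card_ge (F := F) (N + (WW F w).natDegree) h
  unfold pst
  rw [le_div_iff₀ (mul_pos (pow_pos hq _) hphi)]
  refine le_trans (le_of_eq ?_) h4
  rw [pow_add, ← h1]
  field_simp

theorem S2_total {k : ℕ} (hk : 1 ≤ k) (m : ℕ) (a : Fin k → F[X]) (w N R : ℕ) (hw : 1 ≤ w)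
    (hR : 1 ≤ R) (A₀ : ℝ) (hA : 1 ≤ A₀) (hA1 : 352 * k * Real.log (1 + A₀) ≤ A₀)
    (hA2 : 3168 * A₀ * (2 * m + 1) ≤ k * Real.log (1 + A₀ / 4) ^ 2)
    (hM4 : 4 ≤ N + (WW F w).natDegree) (hMR : N + (WW F w).natDegree ≤ 9 * R)
    (hαw : 20 * (A₀ / R) * w ≤ 1)
    (ht1 : tt F (3 * ((k : ℝ) + 1) ^ 2) w R ≤ 11 / 10) (ht2 : tt F (6 * 2 ^ k) w R ≤ 11 / 10)
    (herr : ∀ l : Fin k, |av (fun x : Fin N → F =>
        (if Irreducible (nn w N a x l) then (1 : ℝ) else 0) *
        Phi w R (A₀ / R) (nn w N a x) ^ 2) -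
      pst F w N * ∑ c : Ix F w R → Option (Fin k), ∑ c' : Ix F w R → Option (Fin k),
        BB (A₀ / R) c * BB (A₀ / R) c' * ∏ P : Ix F w R, e2 P.1 l (c P) (c' P)| ≤
      Gam F w R (A₀ / R) ^ k / k) :
    2 * m * Gam F w R (A₀ / R) ^ k ≤ ∑ l : Fin k, av (fun x : Fin N → F =>
        (if Irreducible (nn w N a x l) then (1 : ℝ) else 0) *
        Phi w R (A₀ / R) (nn w N a x) ^ 2) := by
  set α : ℝ := A₀ / R with hα
  set Γ : ℝ := Gam F w R α with hΓ
  set M : ℝ := ((N + (WW F w).natDegree : ℕ) : ℝ) with hM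
  have hR0 : (0 : ℝ) < R := by exact_mod_cast hR
  have hk0 : (0 : ℝ) < k := by exact_mod_cast hk
  have hA0 : 0 < A₀ := by linarith
  have hα0 : 0 < α := div_pos hA0 hR0
  have hαR : α * R = A₀ := by
    rw [hα]
    field_simp
  have hom : 0 < om F w := om_pos w
  have hM0 : 0 < M := by
    rw [hM]
    exact_mod_cast (by omega : 0 < N + (WW F w).natDegree)
  have hMR' : M ≤ 9 * R := by
    rw [hM]
    exact_mod_cast hMR
  set x : ℝ := 1 / (om F w * α) with hx
  have hx0 : 0 < x := by positivity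
  have hαw20 : 20 * α * w ≤ 1 := hαw
  have hαw0 : 0 ≤ α * w := by positivity
  have hΓu : Γ ≤ 11 * x := by
    refine (Gam_upper w R hw α hα0 (by linarith)).trans (le_of_eq ?_)
    rw [hx]
    ring
  have hΓl : x / 2 ≤ Γ := by
    refine le_trans (le_of_eq ?_) (Gam_lower w R α hα0 (by rw [hαR]; exact hA))
    rw [hx]
    field_simp
  have hΓ0 : 0 < Γ := by linarith
  have hY : Real.log (1 + A₀ / 4) * x ≤ TS F w R (R / 4) (bet α) := by
    refine le_trans (le_of_eq ?_) (YY_lower w R α hα0)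
    rw [hαR, hx]
    ring
  have hLq : 0 ≤ Real.log (1 + A₀ / 4) := Real.log_nonneg (by linarith)
  have hLg : 0 ≤ Real.log (1 + A₀) := Real.log_nonneg (by linarith)
  have hd : TS F w R R (fun d => d * bet α d ^ 2) ≤ 11 * Real.log (1 + A₀) * x / α := by
    refine (Gamd_upper w R hw α hα0 hαw20 (by rw [hαR]; exact hA)).trans (le_of_eq ?_)
    rw [hαR, hx]
    field_simp
  have hcard : (Fintype.card (Fin k) : ℝ) = k := by rw [Fintype.card_fin]
  have hcond : 8 * (Fintype.card (Fin k) : ℝ) * TS F w R R (fun d => d * bet α d ^ 2) ≤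
      R * Gam F w R α := by
    rw [hcard]
    calc 8 * (k : ℝ) * TS F w R R (fun d => d * bet α d ^ 2)
        ≤ 8 * (k : ℝ) * (11 * Real.log (1 + A₀) * x / α) := by
          exact mul_le_mul_of_nonneg_left hd (by positivity)
      _ = (352 * k * Real.log (1 + A₀)) * (x / (4 * α)) := by
          field_simp
          ring
      _ ≤ A₀ * (x / (4 * α)) := mul_le_mul_of_nonneg_right hA1 (by positivity)
      _ = R * (x / 4) := by
          rw [← hαR]
          field_simp
      _ ≤ R * Γ := mul_le_mul_of_nonneg_left (by linarith) hR0.le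
  have hmain : ∀ l : Fin k, ((2 * m + 1) / k) * Γ ^ k ≤
      pst F w N * ∑ c : Ix F w R → Option (Fin k), ∑ c' : Ix F w R → Option (Fin k),
        BB α c * BB α c' * ∏ P : Ix F w R, e2 P.1 l (c P) (c' P) := by
    intro l
    have h1 := S2_low (F := F) (K := Fin k) w R α hα0.le l hcond (by rw [hcard]; exact ht1)
      (by rw [Fintype.card_fin]; exact ht2)
    rw [Fintype.card_fin] at h1
    have h2 : (1 / 16) * (Real.log (1 + A₀ / 4) * x) ^ 2 * Γ ^ (k - 1) ≤
        (1 / 16) * TS F w R (R / 4) (bet α) ^ 2 * Γ ^ (k - 1) := by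
      have h3 : (Real.log (1 + A₀ / 4) * x) ^ 2 ≤ TS F w R (R / 4) (bet α) ^ 2 :=
        pow_le_pow_left₀ (by positivity) hY 2
      exact mul_le_mul_of_nonneg_right (by linarith) (by positivity)
    have h4 := pst_ge (F := F) w N hM4
    rw [← hM] at h4
    have hk1 : Γ ^ k = Γ * Γ ^ (k - 1) := by
      rw [← pow_succ']
      congr 1
      omega
    have h5 : 352 * (2 * m + 1) * (M * α) ≤ k * Real.log (1 + A₀ / 4) ^ 2 := by
      have h6 : M * α ≤ 9 * A₀ := by
        rw [← hαR]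
        calc M * α ≤ 9 * R * α := mul_le_mul_of_nonneg_right hMR' hα0.le
          _ = 9 * (α * R) := by ring
      calc 352 * (2 * (m : ℝ) + 1) * (M * α) ≤ 352 * (2 * (m : ℝ) + 1) * (9 * A₀) :=
            mul_le_mul_of_nonneg_left h6 (by positivity)
        _ = 3168 * A₀ * (2 * m + 1) := by ring
        _ ≤ _ := hA2
    calc ((2 * (m : ℝ) + 1) / k) * Γ ^ k = ((2 * (m : ℝ) + 1) / k * Γ) * Γ ^ (k - 1) := by
          rw [hk1]; ring
      _ ≤ ((2 * (m : ℝ) + 1) / k * (11 * x)) * Γ ^ (k - 1) := by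
          refine mul_le_mul_of_nonneg_right ?_ (by positivity)
          exact mul_le_mul_of_nonneg_left hΓu (by positivity)
      _ ≤ (om F w / (2 * M) * ((1 / 16) * (Real.log (1 + A₀ / 4) * x) ^ 2)) * Γ ^ (k - 1) := by
          refine mul_le_mul_of_nonneg_right ?_ (by positivity)
          have e1 : om F w / (2 * M) * ((1 / 16) * (Real.log (1 + A₀ / 4) * x) ^ 2) =
              (k * Real.log (1 + A₀ / 4) ^ 2) * (x / (32 * k * (M * α))) := by
            rw [hx]
            field_simp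
            ring
          have e2 : (2 * (m : ℝ) + 1) / k * (11 * x) =
              (352 * (2 * m + 1) * (M * α)) * (x / (32 * k * (M * α))) := by
            field_simp
            ring
          rw [e1, e2]
          exact mul_le_mul_of_nonneg_right h5 (by positivity)
      _ = om F w / (2 * M) * ((1 / 16) * (Real.log (1 + A₀ / 4) * x) ^ 2 * Γ ^ (k - 1)) := by ring
      _ ≤ pst F w N * _ := mul_le_mul h4 (h2.trans h1) (by positivity)
          (le_trans (by positivity) h4)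
  calc 2 * (m : ℝ) * Γ ^ k = ∑ _l : Fin k, (((2 * m + 1) / k) * Γ ^ k - Γ ^ k / k) := by
        rw [Finset.sum_const, Finset.card_univ, Fintype.card_fin, nsmul_eq_mul]
        field_simp
        ring
    _ ≤ _ := by
        refine Finset.sum_le_sum fun l _ => ?_
        have h1 := (abs_le.1 (herr l)).1
        have h2 := hmain l
        linarith

end Pool.Agent.H10.FF
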