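import Pool.Agent.H10.FF.Bad
import Pool.Agent.H10.FF.Good
import Pool.Agent.H10.FF.Abel
import Pool.Agent.H10.FF.Tail

/-!
JOB FF-C12 (MP_a1f59e_nt). Bad points and good points.

PROOF of `bad_total`. `1_Bad ≤ ∑_{i₀} ∑_{P₀ ∈ PR F w D} 1_{P₀ ∣ nn i₀}` (`PR F w D ⊆ PR F w R`). `bad_le`:
`≤ ∑_{i₀} ∑_{P₀} (1/|P₀|) (d₀ (α + 1/R) + k v)² tt Γ^k ≤ k * (11/10) * (2 (α + 1/R)² ∑ d₀²/|P₀| + 2 k² ∑ v²) Γ^k`. `∑_{P₀ ∈ PR F w D} d₀²/|P₀| ≤ ∑_{d ≤ D} d ≤ D²`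
(`sum_PR_le`), `∑ v² ≤ 4 / 2 ^ w` (`sum_vP_sq`), `(α + 1/R) D = (A₀ + 1) D / R ≤ (A₀ + 1) 9 δ ≤ 9 / (100 k)`. Total
`≤ (11/10) k (162 / (10 ^ 4 k²) + 8 k² / 2 ^ w) Γ^k ≤ Γ^k / (2 k)` as `8 k² / 2 ^ w ≤ 1/(10 k²)` (`hw2`).
PROOF of `good_total`. `Phi_le` with `few_primes` (`#Z (D + 1) ≤ M < (L + 1) (D + 1)`), `nn_natDegree`, `SS_upper`
(`10 (w + R) / ω ≤ 11 R / ω`). ~120 lines.
-/

namespace Pool.Agent.H10.FF

open Polynomial Finset
open scoped Classical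

variable {F : Type} [Field F] [Fintype F]

private theorem mb_av_le {X : Type} [Fintype X] (f g : X → ℝ) (h : ∀ x, f x ≤ g x) :
    av f ≤ av g := by
  unfold av
  exact div_le_div_of_nonneg_right (Finset.sum_le_sum fun x _ => h x) (Nat.cast_nonneg _)

private theorem mb_av_sum {X ι : Type} [Fintype X] (s : Finset ι) (f : ι → X → ℝ) :
    av (fun x => ∑ i ∈ s, f i x) = ∑ i ∈ s, av (f i) := by
  unfold av
  rw [Finset.sum_comm, Finset.sum_div]

private theorem mb_union {k : ℕ} (n : Fin k → F[X]) (S : Finset F[X]) :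
    (if ∃ i, ∃ P ∈ S, P ∣ n i then (1 : ℝ) else 0) ≤
      ∑ i, ∑ P ∈ S, (if P ∣ n i then (1 : ℝ) else 0) := by
  have h0 : ∀ i, 0 ≤ ∑ P ∈ S, (if P ∣ n i then (1 : ℝ) else 0) := fun i =>
    Finset.sum_nonneg fun P _ => by split_ifs <;> norm_num
  split_ifs with h
  · obtain ⟨i, P, hP, hd⟩ := h
    refine le_trans ?_ (Finset.single_le_sum (fun i _ => h0 i) (Finset.mem_univ i))
    refine le_trans ?_ (Finset.single_le_sum (f := fun P => if P ∣ n i then (1 : ℝ) else 0)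
      (fun P _ => by split_ifs <;> norm_num) hP)
    rw [if_pos hd]
  · exact Finset.sum_nonneg fun i _ => h0 i

private theorem mb_Gam (w R : ℕ) (α : ℝ) : 0 ≤ Gam F w R α := by
  unfold Gam TS
  refine Finset.sum_nonneg fun t ht => mul_nonneg (sq_nonneg _) (Finset.prod_nonneg fun P hP => ?_)
  unfold PS at ht
  exact (vP_pos (Finset.mem_powerset.1 (Finset.mem_filter.1 ht).1 hP)).le

theorem bad_total {k : ℕ} (hk : 1 ≤ k) (a : Fin k → F[X])
    (w N R D : ℕ) (ha : Dif w R a) (hR : 1 ≤ R) (hDR : D ≤ R) (hN : 3 * R ≤ N) (A₀ δ : ℝ) (hA : 1 ≤ A₀)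
    (hδ : 0 < δ) (hδ1 : 100 * k * (A₀ + 1) * δ ≤ 1) (hD : (D : ℝ) ≤ 9 * δ * R)
    (ht1 : tt F (((k : ℝ) + 1) ^ 2) w R ≤ 11 / 10) (hw2 : 80 * (k : ℝ) ^ 4 ≤ 2 ^ w) :
    av (fun x : Fin N → F => (if ∃ i, ∃ P ∈ PR F w D, P ∣ nn w N a x i then (1 : ℝ) else 0) *
        Phi w R (A₀ / R) (nn w N a x) ^ 2) ≤ Gam F w R (A₀ / R) ^ k / (2 * k) := by
  have hk1 : (1 : ℝ) ≤ k := by exact_mod_cast hk
  have hR1 : (1 : ℝ) ≤ R := by exact_mod_cast hR
  have hα0 : 0 ≤ A₀ / R := by positivity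
  have hG0 : 0 ≤ Gam F w R (A₀ / R) ^ k := pow_nonneg (mb_Gam w R _) k
  generalize hα : A₀ / (R : ℝ) = α at hα0 hG0 ⊢
  generalize hG : Gam F w R α ^ k = G at hG0
  -- union bound
  have h1 : av (fun x : Fin N → F =>
      (if ∃ i, ∃ P ∈ PR F w D, P ∣ nn w N a x i then (1 : ℝ) else 0) *
        Phi w R α (nn w N a x) ^ 2) ≤
      ∑ i : Fin k, ∑ P ∈ PR F w D, av (fun x : Fin N → F =>
        (if P ∣ nn w N a x i then (1 : ℝ) else 0) * Phi w R α (nn w N a x) ^ 2) := by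
    refine (mb_av_le _ (fun x : Fin N → F => ∑ i : Fin k, ∑ P ∈ PR F w D,
      (if P ∣ nn w N a x i then (1 : ℝ) else 0) * Phi w R α (nn w N a x) ^ 2) fun x => ?_).trans
      (le_of_eq ?_)
    · simp only [← Finset.sum_mul]
      exact mul_le_mul_of_nonneg_right (mb_union _ _) (sq_nonneg _)
    · rw [mb_av_sum]
      exact Finset.sum_congr rfl fun i _ => mb_av_sum _ _
  refine h1.trans ?_
  -- each term
  have h2 : ∀ i : Fin k, ∀ P ∈ PR F w D, av (fun x : Fin N → F =>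
        (if P ∣ nn w N a x i then (1 : ℝ) else 0) * Phi w R α (nn w N a x) ^ 2) ≤
      (2 * ((A₀ + 1) / R) ^ 2 * ((P.natDegree : ℝ) ^ 2 / nrm P) + 2 * (k : ℝ) ^ 2 * vP P ^ 2) *
        (11 / 10 * G) := by
    intro i P hP
    have hP' : P ∈ PR F w R := PR_subset le_rfl hDR hP
    have h3 := bad_le N a ha hN α hα0 ⟨P, hP'⟩ i
    rw [Fintype.card_fin] at h3
    refine h3.trans ?_
    rw [hG]
    have hv := vP_pos hP
    have hn := nrm_ge_two hP
    have hd0 : (0 : ℝ) ≤ P.natDegree := Nat.cast_nonneg _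
    have h4 : α * (P.natDegree : ℝ) + (P.natDegree : ℝ) / R = (A₀ + 1) / R * P.natDegree := by
      rw [← hα]
      field_simp
    have h5 : (α * (P.natDegree : ℝ) + (P.natDegree : ℝ) / R + k * vP P) ^ 2 ≤
        2 * ((A₀ + 1) / R) ^ 2 * (P.natDegree : ℝ) ^ 2 + 2 * (k : ℝ) ^ 2 * vP P ^ 2 := by
      rw [h4]
      nlinarith [sq_nonneg ((A₀ + 1) / R * (P.natDegree : ℝ) - k * vP P)]
    have h6 : tt F (((k : ℝ) + 1) ^ 2) w R * G ≤ 11 / 10 * G :=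
      mul_le_mul_of_nonneg_right ht1 hG0
    have h7 : 1 / nrm P * (α * (P.natDegree : ℝ) + (P.natDegree : ℝ) / R + k * vP P) ^ 2 ≤
        2 * ((A₀ + 1) / R) ^ 2 * ((P.natDegree : ℝ) ^ 2 / nrm P) + 2 * (k : ℝ) ^ 2 * vP P ^ 2 := by
      calc 1 / nrm P * (α * (P.natDegree : ℝ) + (P.natDegree : ℝ) / R + k * vP P) ^ 2
          ≤ 1 / nrm P * (2 * ((A₀ + 1) / R) ^ 2 * (P.natDegree : ℝ) ^ 2 +
              2 * (k : ℝ) ^ 2 * vP P ^ 2) :=
            mul_le_mul_of_nonneg_left h5 (by positivity)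
        _ = 2 * ((A₀ + 1) / R) ^ 2 * ((P.natDegree : ℝ) ^ 2 / nrm P) +
              1 / nrm P * (2 * (k : ℝ) ^ 2 * vP P ^ 2) := by ring
        _ ≤ _ := by
            have h8 : 1 / nrm P ≤ 1 := by
              rw [div_le_one (by linarith)]
              linarith
            have h9 : 0 ≤ 2 * (k : ℝ) ^ 2 * vP P ^ 2 := by positivity
            have h10 := mul_le_mul_of_nonneg_right h8 h9
            linarith
    have h8 : 0 ≤ tt F (((k : ℝ) + 1) ^ 2) w R * G :=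
      mul_nonneg (by linarith [one_le_tt (F := F) (((k : ℝ) + 1) ^ 2) (by positivity) w R]) hG0
    refine mul_le_mul h7 h6 h8 ?_
    have : 0 ≤ nrm P := by linarith
    positivity
  have h3 : ∑ i : Fin k, ∑ P ∈ PR F w D, av (fun x : Fin N → F =>
        (if P ∣ nn w N a x i then (1 : ℝ) else 0) * Phi w R α (nn w N a x) ^ 2) ≤
      ∑ _i : Fin k, ∑ P ∈ PR F w D,
        (2 * ((A₀ + 1) / R) ^ 2 * ((P.natDegree : ℝ) ^ 2 / nrm P) + 2 * (k : ℝ) ^ 2 * vP P ^ 2) *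
        (11 / 10 * G) :=
    Finset.sum_le_sum fun i _ => Finset.sum_le_sum fun P hP => h2 i P hP
  refine h3.trans ?_
  rw [Finset.sum_const, Finset.card_univ, Fintype.card_fin, nsmul_eq_mul, ← Finset.sum_mul,
    Finset.sum_add_distrib, ← Finset.mul_sum, ← Finset.mul_sum]
  have h4 : ∑ P ∈ PR F w D, (P.natDegree : ℝ) ^ 2 / nrm P ≤ (D : ℝ) ^ 2 := by
    refine (sum_PR_le w D (fun d => (d : ℝ) ^ 2) (fun d => sq_nonneg _)).trans ?_
    calc ∑ d ∈ Finset.Ioc w D, (d : ℝ) ^ 2 / d ≤ ∑ _d ∈ Finset.Ioc w D, (D : ℝ) := by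
          refine Finset.sum_le_sum fun d hd => ?_
          rw [Finset.mem_Ioc] at hd
          have hd1 : (0 : ℝ) < d := by exact_mod_cast (by omega : 0 < d)
          have hd2 : (d : ℝ) ≤ D := by exact_mod_cast hd.2
          rw [div_le_iff₀ hd1]
          nlinarith
      _ = ((D - w : ℕ) : ℝ) * D := by rw [Finset.sum_const, Nat.card_Ioc, nsmul_eq_mul]
      _ ≤ (D : ℝ) * D := by
          refine mul_le_mul_of_nonneg_right ?_ (Nat.cast_nonneg _)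
          exact_mod_cast Nat.sub_le D w
      _ = (D : ℝ) ^ 2 := by ring
  have h5 : ∑ P ∈ PR F w D, vP P ^ 2 ≤ 4 / 2 ^ w := sum_vP_sq w D
  have h6 : (A₀ + 1) / R * D ≤ 9 / (100 * k) := by
    have h7 : (A₀ + 1) / R * D ≤ (A₀ + 1) / R * (9 * δ * R) :=
      mul_le_mul_of_nonneg_left hD (by positivity)
    refine h7.trans ?_
    rw [le_div_iff₀ (by positivity)]
    have h8 : (A₀ + 1) / R * (9 * δ * R) = 9 * ((A₀ + 1) * δ) := by field_simp
    rw [h8]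
    nlinarith
  have h7 : 2 * ((A₀ + 1) / R) ^ 2 * ∑ P ∈ PR F w D, (P.natDegree : ℝ) ^ 2 / nrm P ≤
      162 / (10000 * (k : ℝ) ^ 2) := by
    calc 2 * ((A₀ + 1) / R) ^ 2 * ∑ P ∈ PR F w D, (P.natDegree : ℝ) ^ 2 / nrm P
        ≤ 2 * ((A₀ + 1) / R) ^ 2 * (D : ℝ) ^ 2 := mul_le_mul_of_nonneg_left h4 (by positivity)
      _ = 2 * ((A₀ + 1) / R * D) ^ 2 := by ring
      _ ≤ 2 * (9 / (100 * k)) ^ 2 := by
          refine mul_le_mul_of_nonneg_left ?_ (by norm_num)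
          exact pow_le_pow_left₀ (by positivity) h6 2
      _ = 162 / (10000 * (k : ℝ) ^ 2) := by
          field_simp
          norm_num
  have h8 : 2 * (k : ℝ) ^ 2 * ∑ P ∈ PR F w D, vP P ^ 2 ≤ 1 / (10 * (k : ℝ) ^ 2) := by
    calc 2 * (k : ℝ) ^ 2 * ∑ P ∈ PR F w D, vP P ^ 2 ≤ 2 * (k : ℝ) ^ 2 * (4 / 2 ^ w) :=
          mul_le_mul_of_nonneg_left h5 (by positivity)
      _ = 8 * (k : ℝ) ^ 2 / 2 ^ w := by ring
      _ ≤ 1 / (10 * (k : ℝ) ^ 2) := by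
          rw [div_le_div_iff₀ (by positivity) (by positivity)]
          nlinarith [sq_nonneg ((k : ℝ) ^ 2)]
  have hkk : (0 : ℝ) < k := by linarith
  calc (k : ℝ) * ((2 * ((A₀ + 1) / R) ^ 2 * ∑ P ∈ PR F w D, (P.natDegree : ℝ) ^ 2 / nrm P +
        2 * (k : ℝ) ^ 2 * ∑ P ∈ PR F w D, vP P ^ 2) * (11 / 10 * G))
      ≤ (k : ℝ) * ((162 / (10000 * (k : ℝ) ^ 2) + 1 / (10 * (k : ℝ) ^ 2)) * (11 / 10 * G)) := by
        refine mul_le_mul_of_nonneg_left ?_ hkk.le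
        exact mul_le_mul_of_nonneg_right (by linarith) (by positivity)
    _ = (12782 / 100000) * (G / k) := by
        field_simp
        ring
    _ ≤ (1 / 2) * (G / k) := mul_le_mul_of_nonneg_right (by norm_num) (by positivity)
    _ = G / (2 * k) := by
        field_simp

theorem good_total {k : ℕ} (a : Fin k → F[X]) (w N R D L : ℕ)
    (hd : ∀ i, (a i).natDegree < N + (WW F w).natDegree) (hw : 1 ≤ w) (hR : 1 ≤ R)
    (hwR : 10 * w ≤ R) (α : ℝ) (hα : 0 ≤ α)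
    (hL : N + (WW F w).natDegree < (L + 1) * (D + 1)) (x : Fin N → F)
    (hx : ¬ ∃ i, ∃ P ∈ PR F w D, P ∣ nn w N a x i) :
    |Phi w R α (nn w N a x)| ≤ (2 ^ L * (11 * R / om F w)) ^ k := by
  have hom := om_pos (F := F) w
  have h1 : ∀ i, ((PR F w R).filter (fun P => P ∣ nn w N a x i)).card ≤ L := by
    intro i
    have h2 := few_primes w D R (nn w N a x i) (nn_monic w N a hd x i).ne_zero
      (fun P hP hd => hx ⟨i, P, hP, hd⟩)
    rw [nn_natDegree w N a hd x i] at h2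
    by_contra h3
    push Not at h3
    have h4 : (L + 1) * (D + 1) ≤ ((PR F w R).filter (fun P => P ∣ nn w N a x i)).card * (D + 1) :=
      Nat.mul_le_mul_right _ h3
    omega
  have h2 := Phi_le α hα (nn w N a x) L h1
  rw [Fintype.card_fin] at h2
  refine h2.trans ?_
  have h3 := SS_upper (F := F) w R R hw le_rfl
  have h4 : (10 * ((w : ℝ) + R)) / om F w ≤ 11 * R / om F w := by
    have h5 : 10 * (w : ℝ) ≤ R := by exact_mod_cast hwR
    exact div_le_div_of_nonneg_right (by linarith) hom.le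
  have h6 : 0 ≤ TS F w R R (fun _ => 1) := by
    unfold TS
    refine Finset.sum_nonneg fun t ht => mul_nonneg zero_le_one (Finset.prod_nonneg fun P hP => ?_)
    unfold PS at ht
    exact (vP_pos (Finset.mem_powerset.1 (Finset.mem_filter.1 ht).1 hP)).le
  refine pow_le_pow_left₀ (by positivity) ?_ k
  exact mul_le_mul_of_nonneg_left (h3.trans h4) (by positivity)

end Pool.Agent.H10.FF
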