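import Pool.Agent.H10.FF.Num

/-!
JOB FF-B5 (MP_a1f59e_nt). Mertens type bounds for sums over sets of primes of degree `> w`.

`PS F w R J` = sets of primes with degrees in `(w, R]` and total degree `≤ J`, `TS F w R J g = ∑ g (dg t) ∏ v_P`,
`om = ∏_{deg ≤ w} (1 + v_P)`.

PROOFS. `om_le` : `om F J = ∏_{deg P ≤ J} (1 + v_P) ≤ exp (∑ v_P)`, `v_P = 1 / (q ^ d - 1)`,
`∑_{deg P = d} v_P ≤ (q ^ d / d) / (q ^ d - 1) = 1/d + 1/(d (q ^ d - 1)) ≤ 1/d + 1/(d (2 ^ d - 1))`; `∑_{d ≤ J} 1/d ≤ 1 + log J`,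
`∑ 1/(d (2 ^ d - 1)) ≤ 1 + 1/6 + ∑_{d ≥ 3} 1 / (3 (2 ^ d - 1)) ≤ 1 + 1/6 + (1/3)(1/7)·2 ≤ 1.27`
(`2 ^ d - 1 ≥ 7 · 2 ^ (d-3)`), `exp 2.27 ≤ 9.7 ≤ 10`.
`SS_lower`: every monic `n` with `deg n ≤ J` (there are `q ^ j` of degree `j`, so `∑ 1/|n| = J + 1`) has prime divisors `t` of degree `> w`
(`dg t ≤ J`, `t ⊆ PR F w R` as `J ≤ R`) and `s` of degree `≤ w`; the sum of `1/|n|` over the `n` (of degree `≤ J`) with exactly these
prime divisors is at most `∏_{P ∈ s ∪ t} (∑_{e = 1}^{J} |P| ^ (-e)) ≤ ∏_{P ∈ s ∪ t} v_P`. (`n = ∏ P ^ e_P`, `e_P` = multiplicity, `n` is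
determined by `s ∪ t` and the exponents.) So `J + 1 ≤ (∑_{t ∈ PS F w R J} ∏ v) (∑_{s ⊆ PR F 0 w} ∏ v) = TS * om`.
ALTERNATIVE for the lower bound (maybe easier in Lean): `Z_j := ∑_{n monic, deg n = j} 1/|n| = 1`; the generating identity can be
replaced by induction on the finite set of primes: for a finite set `S` of primes and `J` let `A(S,J) = ∑` of `1/|n|` over monic `n`
with `deg n ≤ J` all of whose prime factors are in `S`; `A(S ∪ {P}, J) ≤ A(S, J) + v_P * A(S, J)`-type inequalities with truncated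
sums `B(S, J) = ∑_{t ⊆ S, dg t ≤ J} ∏ v`: `A(S, J) ≤ B(S, J)` by `A(S ∪ {P}, J) = ∑_e |P| ^ (-e) A(S, J - e deg P) ≤ B(S, J) +
v_P B(S, J - deg P) = B(S ∪ {P}, J)`.
`SS_upper`: `TS ≤ ∏_{P ∈ PR F w J} (1 + v_P) = om F J / om F w` (a set with `dg t ≤ J` only has primes of degree `≤ J`), for `J ≥ w`; for
`J < w` only `t = ∅` contributes, `1 ≤ 10 w / om F w`. In both cases `TS F w R J 1 ≤ 10 (w + J) / om F w`.
~250 lines.
-/

namespace Pool.Agent.H10.FF

open Polynomial Finset
open scoped Classical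

variable {F : Type} [Field F] [Fintype F]

theorem sums_PR {P : F[X]} (hP : P.Monic ∧ Irreducible P) : P ∈ PR F 0 P.natDegree :=
  mem_PR.2 ⟨hP.1, hP.2, base_not_unit hP, le_rfl⟩

theorem sums_exp : Real.exp (227 / 100) ≤ 10 := by
  have h1 : Real.exp (135 / 1000) ≤ 1000 / 865 := by
    have h2 : 1 - (135 / 1000 : ℝ) ≤ Real.exp (-(135 / 1000)) := Real.one_sub_le_exp_neg _
    rw [Real.exp_neg] at h2
    have h3 : 0 < Real.exp (135 / 1000) := Real.exp_pos _
    have h4 : (865 / 1000 : ℝ) * Real.exp (135 / 1000) ≤ 1 := by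
      calc (865 / 1000 : ℝ) * Real.exp (135 / 1000) = (1 - 135 / 1000) * Real.exp (135 / 1000) := by
            norm_num
        _ ≤ (Real.exp (135 / 1000))⁻¹ * Real.exp (135 / 1000) :=
            mul_le_mul_of_nonneg_right h2 h3.le
        _ = 1 := inv_mul_cancel₀ h3.ne'
    linarith
  have h5 : Real.exp (227 / 100) = Real.exp 1 ^ 2 * Real.exp (135 / 1000) ^ 2 := by
    rw [← Real.exp_nat_mul, ← Real.exp_nat_mul, ← Real.exp_add]
    congr 1
    norm_num
  rw [h5]
  have h6 : Real.exp 1 ≤ 2.7182818286 := Real.exp_one_lt_d9.le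
  calc Real.exp 1 ^ 2 * Real.exp (135 / 1000) ^ 2 ≤ 2.7182818286 ^ 2 * (1000 / 865) ^ 2 :=
        mul_le_mul (pow_le_pow_left₀ (Real.exp_pos _).le h6 2)
          (pow_le_pow_left₀ (Real.exp_pos _).le h1 2) (by positivity) (by positivity)
    _ ≤ 10 := by norm_num

theorem sums_num (J : ℕ) (hJ : 2 ≤ J) :
    ∑ d ∈ Finset.Ioc 0 J, 1 / ((d : ℝ) * (2 ^ d - 1)) ≤ 127 / 100 - 8 / 21 * (1 / 2) ^ J := by
  induction J, hJ using Nat.le_induction with
  | base =>
    have h : Finset.Ioc 0 2 = {1, 2} := by decide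
    rw [h, Finset.sum_pair (by norm_num)]
    norm_num
  | succ n hn ih =>
    rw [← Finset.insert_Ioc_right_eq_Ioc_add_one (Nat.zero_le n), Finset.sum_insert (by simp)]
    have h8 : (8 : ℝ) ≤ 2 ^ (n + 1) := by
      calc (8 : ℝ) = 2 ^ 3 := by norm_num
        _ ≤ 2 ^ (n + 1) := pow_le_pow_right₀ (by norm_num) (by omega)
    have hn3 : (3 : ℝ) ≤ ((n + 1 : ℕ) : ℝ) := by exact_mod_cast (by omega : 3 ≤ n + 1)
    have h9 : (3 : ℝ) * (7 / 8 * 2 ^ (n + 1)) ≤ ((n + 1 : ℕ) : ℝ) * (2 ^ (n + 1) - 1) := by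
      apply mul_le_mul hn3 (by linarith) (by linarith) (by linarith)
    have h10 : 1 / (((n + 1 : ℕ) : ℝ) * (2 ^ (n + 1) - 1)) ≤ 1 / ((3 : ℝ) * (7 / 8 * 2 ^ (n + 1))) :=
      one_div_le_one_div_of_le (by positivity) h9
    have h11 : 1 / ((3 : ℝ) * (7 / 8 * 2 ^ (n + 1))) = 8 / 21 * (1 / 2) ^ (n + 1) := by
      rw [one_div_pow]
      field_simp
      norm_num
    have h12 : (1 / 2 : ℝ) ^ (n + 1) = (1 / 2) ^ n / 2 := by
      rw [pow_succ]
      ring
    rw [h11] at h10
    rw [h12] at h10 ⊢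
    linarith

theorem sums_num' (J : ℕ) :
    ∑ d ∈ Finset.Ioc 0 J, 1 / ((d : ℝ) * (2 ^ d - 1)) ≤ 127 / 100 := by
  rcases Nat.lt_or_ge J 2 with h | h
  · interval_cases J
    · norm_num
    · norm_num
  · have := sums_num J h
    have h2 : (0 : ℝ) < (1 / 2) ^ J := by positivity
    linarith

theorem sums_v (J : ℕ) (hJ : 1 ≤ J) : ∑ P ∈ PR F 0 J, vP P ≤ 1 + Real.log J + 127 / 100 := by
  rw [sum_PR]
  have h1 : ∀ d ∈ Finset.Ioc 0 J, ∑ P ∈ irrs F d, vP P ≤ 1 / (d : ℝ) + 1 / ((d : ℝ) * (2 ^ d - 1)) := by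
    intro d hd
    rw [Finset.mem_Ioc] at hd
    have hd1 : (1 : ℝ) ≤ d := by exact_mod_cast hd.1
    have h2 : ∀ P ∈ irrs F d, vP P = 1 / ((Fintype.card F : ℝ) ^ d - 1) := by
      intro P hP
      rw [vP, nrm, (mem_irrs.1 hP).2.2]
    rw [Finset.sum_congr rfl h2, Finset.sum_const, nsmul_eq_mul]
    set q : ℝ := (Fintype.card F : ℝ) ^ d with hq
    have hqd : (2 : ℝ) ^ d ≤ q := pow_le_pow_left₀ (by norm_num) card_ge_two d
    have h2d : (2 : ℝ) ≤ 2 ^ d := by
      calc (2 : ℝ) = 2 ^ 1 := (pow_one _).symm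
        _ ≤ 2 ^ d := pow_le_pow_right₀ (by norm_num) hd.1
    have hc := irrs_card_le (F := F) d
    rw [← hq] at hc
    have hc' : ((irrs F d).card : ℝ) ≤ q / d := by
      rw [le_div_iff₀ (by linarith)]
      linarith
    have hq1 : 0 < q - 1 := by linarith
    calc ((irrs F d).card : ℝ) * (1 / (q - 1)) ≤ q / d * (1 / (q - 1)) :=
          mul_le_mul_of_nonneg_right hc' (by positivity)
      _ = 1 / d + 1 / (d * (q - 1)) := by
          field_simp
          ring
      _ ≤ 1 / d + 1 / (d * (2 ^ d - 1)) := by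
          have h3 : 1 / (d * (q - 1)) ≤ 1 / (d * (2 ^ d - 1)) := by
            apply one_div_le_one_div_of_le
            · apply mul_pos (by linarith) (by linarith)
            · exact mul_le_mul_of_nonneg_left (by linarith) (by linarith)
          linarith
  refine (Finset.sum_le_sum h1).trans ?_
  rw [Finset.sum_add_distrib]
  have h4 : ∑ d ∈ Finset.Ioc 0 J, 1 / (d : ℝ) ≤ 1 + Real.log J := by
    have h5 := harmonic_le_one_add_log J
    have h6 : ((harmonic J : ℚ) : ℝ) = ∑ d ∈ Finset.Ioc 0 J, 1 / (d : ℝ) := by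
      rw [harmonic_eq_sum_Icc]
      push_cast
      have h7 : Finset.Icc 1 J = Finset.Ioc 0 J := by
        ext k
        rw [Finset.mem_Icc, Finset.mem_Ioc]
        omega
      rw [h7]
      refine Finset.sum_congr rfl fun d _ => ?_
      rw [one_div]
    rw [← h6]
    exact h5
  have h8 := sums_num' J
  linarith

theorem om_le (J : ℕ) (hJ : 1 ≤ J) : om F J ≤ 10 * J := by
  have hJ1 : (1 : ℝ) ≤ J := by exact_mod_cast hJ
  have h1 : om F J ≤ Real.exp (∑ P ∈ PR F 0 J, vP P) := by
    unfold om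
    rw [Real.exp_sum]
    refine Finset.prod_le_prod (fun P hP => ?_) (fun P hP => ?_)
    · have := vP_pos hP
      linarith
    · rw [add_comm]
      exact Real.add_one_le_exp _
  refine h1.trans ?_
  refine (Real.exp_le_exp.mpr (sums_v J hJ)).trans ?_
  have h2 : Real.exp (1 + Real.log J + 127 / 100) = J * Real.exp (227 / 100) := by
    rw [show (1 : ℝ) + Real.log J + 127 / 100 = Real.log J + 227 / 100 by ring, Real.exp_add,
      Real.exp_log (by linarith)]
  rw [h2, mul_comm]
  exact mul_le_mul_of_nonneg_right sums_exp (by linarith)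

/-! ### sums over monic polynomials -/

theorem sums_mem_img {j : ℕ} {n : F[X]} :
    n ∈ Finset.univ.image (fun v : Fin j → F => X ^ j + pol v) ↔ n.Monic ∧ n.natDegree = j := by
  rw [Finset.mem_image]
  constructor
  · rintro ⟨v, _, hv⟩
    subst hv
    refine ⟨monic_X_pow_add (pol_degree_lt v), ?_⟩
    rw [natDegree_add_eq_left_of_degree_lt (by rw [degree_X_pow]; exact pol_degree_lt v),
      natDegree_X_pow]
  · rintro ⟨hm, hn⟩
    refine ⟨fun i => n.coeff i, Finset.mem_univ _, ?_⟩
    ext k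
    rw [coeff_add, coeff_X_pow, pol_coeff_gen]
    rcases lt_trichotomy k j with h | h | h
    · rw [if_neg h.ne, dif_pos h, zero_add]
    · subst h
      rw [if_pos rfl, dif_neg (lt_irrefl _), add_zero]
      have := hm.coeff_natDegree
      rw [hn] at this
      exact this.symm
    · rw [if_neg h.ne', dif_neg (not_lt.2 h.le), add_zero]
      exact (coeff_eq_zero_of_natDegree_lt (by rw [hn]; exact h)).symm

/-- monic polynomials of degree at most `J` -/
noncomputable def sumsM (F : Type) [Field F] [Fintype F] (J : ℕ) : Finset F[X] :=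
  (Finset.range (J + 1)).biUnion
    (fun j => Finset.univ.image (fun v : Fin j → F => X ^ j + pol v))

theorem sums_mem_M {J : ℕ} {n : F[X]} : n ∈ sumsM F J ↔ n.Monic ∧ n.natDegree ≤ J := by
  unfold sumsM
  rw [Finset.mem_biUnion]
  constructor
  · rintro ⟨j, hj, hn⟩
    rw [sums_mem_img] at hn
    rw [Finset.mem_range] at hj
    exact ⟨hn.1, by omega⟩
  · rintro ⟨h1, h2⟩
    exact ⟨n.natDegree, Finset.mem_range.2 (by omega), sums_mem_img.2 ⟨h1, rfl⟩⟩

theorem sums_M (J : ℕ) : ∑ n ∈ sumsM F J, 1 / nrm n = (J : ℝ) + 1 := by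
  unfold sumsM
  rw [Finset.sum_biUnion]
  · have h1 : ∀ j ∈ Finset.range (J + 1),
        ∑ n ∈ Finset.univ.image (fun v : Fin j → F => X ^ j + pol v), 1 / nrm n = 1 := by
      intro j _
      have h2 : ∀ n ∈ Finset.univ.image (fun v : Fin j → F => X ^ j + pol v),
          1 / nrm n = 1 / (Fintype.card F : ℝ) ^ j := by
        intro n hn
        rw [nrm, (sums_mem_img.1 hn).2]
      have hinj : Function.Injective (fun v : Fin j → F => X ^ j + pol v) :=
        fun v v' h => pol_inj (add_left_cancel h)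
      rw [Finset.sum_congr rfl h2, Finset.sum_const, Finset.card_image_of_injective _ hinj,
        Finset.card_univ, Fintype.card_fun, Fintype.card_fin, nsmul_eq_mul, Nat.cast_pow]
      have h3 : (Fintype.card F : ℝ) ^ j ≠ 0 := by
        have := card_ge_two (F := F)
        positivity
      rw [mul_one_div, div_self h3]
    rw [Finset.sum_congr rfl h1, Finset.sum_const, Finset.card_range, nsmul_eq_mul, mul_one]
    push_cast
    ring
  · intro i _ j _ hij
    rw [Function.onFun, Finset.disjoint_left]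
    intro n hn hn'
    exact hij ((sums_mem_img.1 hn).2.symm.trans (sums_mem_img.1 hn').2)

/-- sums of products over subsets of total degree at most `J` -/
noncomputable def sumsB (S : Finset F[X]) (J : ℕ) : ℝ :=
  ∑ t ∈ S.powerset, if dg t ≤ J then ∏ P ∈ t, vP P else 0

theorem sumsB_insert {S : Finset F[X]} {P : F[X]} (hP : P ∉ S) (J : ℕ) :
    sumsB (insert P S) J = sumsB S J +
      if P.natDegree ≤ J then vP P * sumsB S (J - P.natDegree) else 0 := by
  unfold sumsB
  rw [Finset.sum_powerset_insert hP]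
  congr 1
  by_cases h : P.natDegree ≤ J
  · rw [if_pos h, Finset.mul_sum]
    refine Finset.sum_congr rfl fun t ht => ?_
    have hPt : P ∉ t := fun h' => hP (Finset.mem_powerset.1 ht h')
    have h1 : dg (insert P t) = P.natDegree + dg t := by
      unfold dg
      rw [Finset.sum_insert hPt]
    rw [h1, Finset.prod_insert hPt]
    by_cases h2 : dg t ≤ J - P.natDegree
    · rw [if_pos h2, if_pos (by omega)]
    · rw [if_neg h2, if_neg (by omega), mul_zero]
  · rw [if_neg h]
    refine Finset.sum_eq_zero fun t ht => ?_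
    have hPt : P ∉ t := fun h' => hP (Finset.mem_powerset.1 ht h')
    have h1 : dg (insert P t) = P.natDegree + dg t := by
      unfold dg
      rw [Finset.sum_insert hPt]
    rw [if_neg (by omega)]

theorem sumsB_nonneg {S : Finset F[X]} (hS : ∀ P ∈ S, P.Monic ∧ Irreducible P) (J : ℕ) :
    0 ≤ sumsB S J := by
  refine Finset.sum_nonneg fun t ht => ?_
  split_ifs
  · exact Finset.prod_nonneg fun P hP =>
      (vP_pos (sums_PR (hS P (Finset.mem_powerset.1 ht hP)))).le
  · exact le_rfl

theorem sumsB_mono {S : Finset F[X]} (hS : ∀ P ∈ S, P.Monic ∧ Irreducible P) {J J' : ℕ}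
    (h : J ≤ J') : sumsB S J ≤ sumsB S J' := by
  refine Finset.sum_le_sum fun t ht => ?_
  have h1 : 0 ≤ ∏ P ∈ t, vP P := Finset.prod_nonneg fun P hP =>
      (vP_pos (sums_PR (hS P (Finset.mem_powerset.1 ht hP)))).le
  by_cases h2 : dg t ≤ J
  · rw [if_pos h2, if_pos (h2.trans h)]
  · rw [if_neg h2]
    split_ifs
    · exact h1
    · exact le_rfl

/-- sums over the monic polynomials with all prime factors in `S` -/
noncomputable def sumsA (S : Finset F[X]) (J : ℕ) : ℝ :=
  ∑ n ∈ (sumsM F J).filter (fun n => ∀ Q : F[X], Q.Monic → Irreducible Q → Q ∣ n → Q ∈ S),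
    1 / nrm n

theorem sumsA_insert {S : Finset F[X]} {P : F[X]} (hP : P.Monic ∧ Irreducible P) (J : ℕ) :
    sumsA (insert P S) J ≤ sumsA S J +
      if P.natDegree ≤ J then 1 / nrm P * sumsA (insert P S) (J - P.natDegree) else 0 := by
  unfold sumsA
  rw [← Finset.sum_filter_not_add_sum_filter _ (fun n => P ∣ n)]
  apply add_le_add
  · apply Finset.sum_le_sum_of_subset_of_nonneg
    · intro n hn
      rw [Finset.mem_filter, Finset.mem_filter] at hn
      rw [Finset.mem_filter]
      refine ⟨hn.1.1, fun Q h1 h2 h3 => ?_⟩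
      rcases Finset.mem_insert.1 (hn.1.2 Q h1 h2 h3) with h4 | h4
      · subst h4
        exact absurd h3 hn.2
      · exact h4
    · intro n _ _
      exact (one_div_pos.2 (nrm_pos n)).le
  · by_cases h : P.natDegree ≤ J
    · rw [if_pos h, Finset.mul_sum]
      have h1 : (((sumsM F J).filter (fun n => ∀ Q : F[X], Q.Monic → Irreducible Q → Q ∣ n →
          Q ∈ insert P S)).filter (fun n => P ∣ n)) ⊆
          ((sumsM F (J - P.natDegree)).filter (fun n => ∀ Q : F[X], Q.Monic → Irreducible Q →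
            Q ∣ n → Q ∈ insert P S)).image (fun m => P * m) := by
        intro n hn
        rw [Finset.mem_filter, Finset.mem_filter, sums_mem_M] at hn
        obtain ⟨⟨⟨h2, h3⟩, h4⟩, m, rfl⟩ := hn
        have hm : m.Monic := hP.1.of_mul_monic_left h2
        rw [hP.1.natDegree_mul hm] at h3
        refine Finset.mem_image.2 ⟨m, ?_, rfl⟩
        rw [Finset.mem_filter, sums_mem_M]
        exact ⟨⟨hm, by omega⟩, fun Q h5 h6 h7 => h4 Q h5 h6 (h7.mul_left P)⟩
      refine (Finset.sum_le_sum_of_subset_of_nonneg h1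
        (fun n _ _ => (one_div_pos.2 (nrm_pos n)).le)).trans ?_
      rw [Finset.sum_image (fun a _ b _ hab => mul_left_cancel₀ hP.1.ne_zero hab)]
      refine Finset.sum_le_sum fun m hm => ?_
      rw [Finset.mem_filter, sums_mem_M] at hm
      rw [nrm_mul hP.1.ne_zero hm.1.1.ne_zero]
      have h8 := nrm_pos P
      have h9 := nrm_pos m
      rw [one_div_mul_one_div]
    · rw [if_neg h]
      refine (Finset.sum_eq_zero fun n hn => ?_).le
      exfalso
      rw [Finset.mem_filter, Finset.mem_filter, sums_mem_M] at hn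
      exact h ((natDegree_le_of_dvd hn.2 hn.1.1.1.ne_zero).trans hn.1.1.2)

theorem sums_main (S : Finset F[X]) : (∀ P ∈ S, P.Monic ∧ Irreducible P) → ∀ J,
    sumsA S J ≤ sumsB S J := by
  induction S using Finset.induction_on with
  | empty =>
    intro _ J
    have h1 : sumsB (∅ : Finset F[X]) J = 1 := by
      unfold sumsB
      rw [Finset.powerset_empty, Finset.sum_singleton, if_pos, Finset.prod_empty]
      unfold dg
      rw [Finset.sum_empty]
      exact Nat.zero_le J
    rw [h1]
    unfold sumsA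
    have h2 : (sumsM F J).filter (fun n => ∀ Q : F[X], Q.Monic → Irreducible Q → Q ∣ n →
        Q ∈ (∅ : Finset F[X])) ⊆ {1} := by
      intro n hn
      rw [Finset.mem_filter, sums_mem_M] at hn
      rw [Finset.mem_singleton]
      by_contra hne
      have h3 : ¬ IsUnit n := by
        rw [hn.1.1.isUnit_iff]
        exact hne
      obtain ⟨Q, h4, h5, h6⟩ := exists_monic_irreducible_factor n h3
      exact absurd (hn.2 Q h4 h5 h6) (Finset.notMem_empty Q)
    refine (Finset.sum_le_sum_of_subset_of_nonneg h2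
      (fun n _ _ => (one_div_pos.2 (nrm_pos n)).le)).trans ?_
    rw [Finset.sum_singleton, nrm, natDegree_one, pow_zero, div_one]
  | insert P S hPS ih =>
    intro hS
    have hP : P.Monic ∧ Irreducible P := hS P (Finset.mem_insert_self P S)
    have hS' : ∀ Q ∈ S, Q.Monic ∧ Irreducible Q := fun Q hQ => hS Q (Finset.mem_insert_of_mem hQ)
    have hv : 0 < vP P := vP_pos (sums_PR hP)
    have hd : 0 < P.natDegree := base_not_unit hP
    intro J
    induction J using Nat.strong_induction_on with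
    | _ J ihJ =>
      refine (sumsA_insert hP J).trans ?_
      rw [sumsB_insert hPS]
      apply add_le_add (ih hS' J)
      by_cases h : P.natDegree ≤ J
      · rw [if_pos h, if_pos h]
        have h1 := ihJ (J - P.natDegree) (by omega)
        have h2 : sumsB (insert P S) (J - P.natDegree) ≤
            (1 + vP P) * sumsB S (J - P.natDegree) := by
          rw [sumsB_insert hPS, add_mul, one_mul]
          apply add_le_add le_rfl
          split_ifs
          · exact mul_le_mul_of_nonneg_left (sumsB_mono hS' (by omega)) hv.le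
          · exact mul_nonneg hv.le (sumsB_nonneg hS' _)
        have h3 : vP P * sumsB S (J - P.natDegree) =
            1 / nrm P * ((1 + vP P) * sumsB S (J - P.natDegree)) := by
          conv_lhs => rw [vP_eq (sums_PR hP)]
          ring
        rw [h3]
        exact mul_le_mul_of_nonneg_left (h1.trans h2) (one_div_pos.2 (nrm_pos P)).le
      · rw [if_neg h, if_neg h]

theorem sums_split (w R J : ℕ) (hJ : J ≤ R) :
    sumsB (PR F 0 J) J ≤ om F w * TS F w R J (fun _ => 1) := by
  have h1 : om F w = ∑ s ∈ (PR F 0 w).powerset, ∏ P ∈ s, vP P := by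
    unfold om
    rw [Finset.prod_one_add]
  have h2 : TS F w R J (fun _ => 1) = ∑ t ∈ PS F w R J, ∏ P ∈ t, vP P := by
    unfold TS
    refine Finset.sum_congr rfl fun t _ => ?_
    rw [one_mul]
  rw [h1, h2, Finset.sum_mul_sum, ← Finset.sum_product']
  unfold sumsB
  rw [← Finset.sum_filter]
  set T := (PR F 0 J).powerset.filter (fun t => dg t ≤ J) with hT
  have h3 : ∀ t ∈ T, ∏ P ∈ t, vP P =
      (fun x : Finset F[X] × Finset F[X] => (∏ P ∈ x.1, vP P) * ∏ P ∈ x.2, vP P)
        ((t.filter (fun P => P.natDegree ≤ w), t.filter (fun P => ¬ P.natDegree ≤ w))) := by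
    intro t _
    exact (Finset.prod_filter_mul_prod_filter_not t _ _).symm
  rw [Finset.sum_congr rfl h3]
  rw [← Finset.sum_image (g := fun t : Finset F[X] =>
    (t.filter (fun P => P.natDegree ≤ w), t.filter (fun P => ¬ P.natDegree ≤ w)))
    (f := fun x : Finset F[X] × Finset F[X] => (∏ P ∈ x.1, vP P) * ∏ P ∈ x.2, vP P)
    (s := T)]
  · apply Finset.sum_le_sum_of_subset_of_nonneg
    · intro x hx
      obtain ⟨t, ht, rfl⟩ := Finset.mem_image.1 hx
      rw [hT, Finset.mem_filter, Finset.mem_powerset] at ht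
      rw [Finset.mem_product]
      constructor
      · rw [Finset.mem_powerset]
        intro P hP
        rw [Finset.mem_filter] at hP
        have h4 := mem_PR.1 (ht.1 hP.1)
        exact mem_PR.2 ⟨h4.1, h4.2.1, h4.2.2.1, hP.2⟩
      · unfold PS
        rw [Finset.mem_filter, Finset.mem_powerset]
        constructor
        · intro P hP
          rw [Finset.mem_filter] at hP
          have h4 := mem_PR.1 (ht.1 hP.1)
          exact mem_PR.2 ⟨h4.1, h4.2.1, not_le.1 hP.2, h4.2.2.2.trans hJ⟩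
        · refine le_trans ?_ ht.2
          unfold dg
          exact Finset.sum_le_sum_of_subset (Finset.filter_subset _ _)
    · intro x hx _
      rw [Finset.mem_product, Finset.mem_powerset] at hx
      unfold PS at hx
      rw [Finset.mem_filter, Finset.mem_powerset] at hx
      apply mul_nonneg
      · exact Finset.prod_nonneg fun P hP => (vP_pos (hx.1 hP)).le
      · exact Finset.prod_nonneg fun P hP => (vP_pos (hx.2.1 hP)).le
  · intro t _ t' _ h
    have h4 : t.filter (fun P => P.natDegree ≤ w) = t'.filter (fun P => P.natDegree ≤ w) :=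
      congrArg Prod.fst h
    have h5 : t.filter (fun P => ¬ P.natDegree ≤ w) = t'.filter (fun P => ¬ P.natDegree ≤ w) :=
      congrArg Prod.snd h
    rw [← Finset.filter_union_filter_not_eq (fun P => P.natDegree ≤ w) t, h4, h5,
      Finset.filter_union_filter_not_eq]

/-- number of monic polynomials of degree `≤ J` in terms of sets of primes -/
theorem SS_lower (w R J : ℕ) (hJ : J ≤ R) :
    ((J : ℝ) + 1) / om F w ≤ TS F w R J (fun _ => 1) := by
  rw [div_le_iff₀ (om_pos w), mul_comm]
  refine le_trans ?_ (sums_split w R J hJ)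
  have h1 : sumsA (PR F 0 J) J = (J : ℝ) + 1 := by
    unfold sumsA
    rw [Finset.filter_true_of_mem, sums_M]
    intro n hn Q h2 h3 h4
    rw [sums_mem_M] at hn
    exact mem_PR.2 ⟨h2, h3, base_not_unit ⟨h2, h3⟩,
      (natDegree_le_of_dvd h4 hn.1.ne_zero).trans hn.2⟩
  rw [← h1]
  exact sums_main _ (fun P hP => ⟨(mem_PR.1 hP).1, (mem_PR.1 hP).2.1⟩) J

theorem SS_upper (w R J : ℕ) (hw : 1 ≤ w) (hJ : J ≤ R) :
    TS F w R J (fun _ => 1) ≤ 10 * ((w : ℝ) + J) / om F w := by
  have h2 : TS F w R J (fun _ => 1) = ∑ t ∈ PS F w R J, ∏ P ∈ t, vP P := by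
    unfold TS
    refine Finset.sum_congr rfl fun t _ => ?_
    rw [one_mul]
  have hdeg : ∀ t ∈ PS F w R J, t ⊆ PR F w J := by
    intro t ht P hP
    unfold PS at ht
    rw [Finset.mem_filter, Finset.mem_powerset] at ht
    have h3 := mem_PR.1 (ht.1 hP)
    have h4 : P.natDegree ≤ dg t := by
      unfold dg
      exact Finset.single_le_sum (f := fun P : F[X] => P.natDegree) (fun _ _ => Nat.zero_le _) hP
    exact mem_PR.2 ⟨h3.1, h3.2.1, h3.2.2.1, h4.trans ht.2⟩
  have h5 : TS F w R J (fun _ => 1) ≤ ∏ P ∈ PR F w J, (1 + vP P) := by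
    rw [h2, Finset.prod_one_add]
    apply Finset.sum_le_sum_of_subset_of_nonneg
    · intro t ht
      exact Finset.mem_powerset.2 (hdeg t ht)
    · intro t ht _
      exact Finset.prod_nonneg fun P hP => (vP_pos (Finset.mem_powerset.1 ht hP)).le
  have hw1 : (1 : ℝ) ≤ w := by exact_mod_cast hw
  have hJ0 : (0 : ℝ) ≤ J := by positivity
  have hom := om_pos (F := F) w
  rw [le_div_iff₀ hom]
  rcases le_or_gt w J with h | h
  · have h6 : (∏ P ∈ PR F w J, (1 + vP P)) * om F w = om F J := by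
      unfold om
      rw [PR_split h, Finset.prod_union PR_disj, mul_comm]
    calc TS F w R J (fun _ => 1) * om F w ≤ (∏ P ∈ PR F w J, (1 + vP P)) * om F w :=
          mul_le_mul_of_nonneg_right h5 hom.le
      _ = om F J := h6
      _ ≤ 10 * J := om_le J (hw.trans h)
      _ ≤ 10 * ((w : ℝ) + J) := by linarith
  · have h7 : PR F w J = ∅ := by
      rw [Finset.eq_empty_iff_forall_notMem]
      intro P hP
      have := mem_PR.1 hP
      omega
    rw [h7, Finset.prod_empty] at h5
    calc TS F w R J (fun _ => 1) * om F w ≤ 1 * om F w :=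
          mul_le_mul_of_nonneg_right h5 hom.le
      _ = om F w := one_mul _
      _ ≤ 10 * w := om_le w hw
      _ ≤ 10 * ((w : ℝ) + J) := by linarith

end Pool.Agent.H10.FF
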