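import Pool.Agent.H10.FF.S2err
import Pool.Agent.H10.FF.Sums
import Pool.Agent.H10.FF.Abel

/-!
JOB FF-C13 (MP_a1f59e_nt). The error term, for infinitely many degrees.

PROOF of `prod_bd`. `1 + C v ≤ (1 + v) ^ C` (Bernoulli), `∏_{PR F w R} (1 + v) ≤ om F R ≤ 10 R`.
PROOF of `err_total`. `bv` with `C2 = 2 k (k+1)²`, `A = (k+1)² + 2`, `w`, `M₀' = max M₀ ..`. Let `M` be the degree obtained, `N = M - deg WW`,
`R = M / 8`. By `S2_expand`, `S2_err` (8 R ≤ M) and `bv` the difference is at most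
`(10 R) ^ ((k+1)²) * q ^ M / M ^ A / q ^ N = (10 R) ^ ((k+1)²) q ^ (deg WW) / M ^ A ≤ 10 ^ ((k+1)²) q ^ (deg WW) / M² ≤ ε` for `M` large
(depending on `k, w, q, ε`). The index `c` in `bv` is the `cc` of `S2_err` (it depends on `l`, but `bv` holds for all `c` with the same `M`).
~120 lines.
-/

namespace Pool.Agent.H10.FF

open Polynomial Finset
open scoped Classical

variable {F : Type} [Field F] [Fintype F]

theorem prod_bd (w R C : ℕ) (hR : 1 ≤ R) :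
    ∏ P ∈ PR F w R, (1 + (C : ℝ) * vP P) ≤ (10 * (R : ℝ)) ^ C := by
  have h1 : ∏ P ∈ PR F w R, (1 + (C : ℝ) * vP P) ≤ (∏ P ∈ PR F w R, (1 + vP P)) ^ C := by
    rw [← Finset.prod_pow]
    refine Finset.prod_le_prod (fun P hP => ?_) (fun P hP => ?_)
    · have := vP_pos hP
      positivity
    · have := vP_pos hP
      exact one_add_mul_le_pow (by linarith) C
  have h2 : ∏ P ∈ PR F w R, (1 + vP P) ≤ om F R := by
    unfold om
    rw [← Finset.prod_sdiff (PR_subset (F := F) (R := R) (Nat.zero_le w) le_rfl)]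
    refine le_mul_of_one_le_left (Finset.prod_nonneg fun P hP => ?_) ?_
    · have := vP_pos hP
      linarith
    · have h0 : ∏ P ∈ PR F 0 R \ PR F w R, (1 : ℝ) ≤ ∏ P ∈ PR F 0 R \ PR F w R, (1 + vP P) :=
        Finset.prod_le_prod (fun P _ => zero_le_one) (fun P hP => by
          have := vP_pos (Finset.mem_sdiff.1 hP).1
          linarith)
      rwa [Finset.prod_const_one] at h0
  have h3 : 0 ≤ ∏ P ∈ PR F w R, (1 + vP P) := Finset.prod_nonneg fun P hP => by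
    have := vP_pos hP
    linarith
  exact h1.trans (pow_le_pow_left₀ h3 (h2.trans (om_le R hR)) C)

theorem err_total (F : Type) [Field F] [Fintype F] {k : ℕ} (hk : 1 ≤ k) (w : ℕ)
    (hw : (2 * (k : ℝ) * ((k : ℝ) + 1) ^ 2) ^ 10 ≤ (Fintype.card F : ℝ) ^ w) (ε : ℝ)
    (hε : 0 < ε) (N₀ : ℕ) :
    ∃ N : ℕ, N₀ ≤ N ∧ ∀ (a : Fin k → F[X]), (∀ i, ∀ P ∈ PR F 0 w, ¬ P ∣ a i) →
    (∀ i, (a i).natDegree < N + (WW F w).natDegree) →
    ∀ (l : Fin k) (R : ℕ) (α : ℝ), Dif w R a → 0 ≤ α → R = (N + (WW F w).natDegree) / 8 →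
    |av (fun x : Fin N → F => (if Irreducible (nn w N a x l) then (1 : ℝ) else 0) *
        Phi w R α (nn w N a x) ^ 2) -
      pst F w N * ∑ c : Ix F w R → Option (Fin k), ∑ c' : Ix F w R → Option (Fin k),
        BB α c * BB α c' * ∏ P : Ix F w R, e2 P.1 l (c P) (c' P)| ≤ ε := by
  have hk1 : (1 : ℝ) ≤ k := by exact_mod_cast hk
  have hq : (2 : ℝ) ≤ (Fintype.card F : ℝ) := card_ge_two
  set dW := (WW F w).natDegree with hdW
  set B : ℕ := (k + 1) ^ 2 with hB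
  have hBr : (B : ℝ) = ((k : ℝ) + 1) ^ 2 := by rw [hB]; push_cast; ring
  set M₁ : ℕ := ⌈10 ^ B * (Fintype.card F : ℝ) ^ dW / ε⌉₊ with hM₁
  have hC2 : (1 : ℝ) ≤ 2 * (k : ℝ) * ((k : ℝ) + 1) ^ 2 := by nlinarith
  obtain ⟨M, hM0, hM⟩ := bv F (2 * (k : ℝ) * ((k : ℝ) + 1) ^ 2) ((B + 2 : ℕ) : ℝ) w
    (N₀ + dW + 8 + M₁) hC2 hw
  refine ⟨M - dW, by omega, ?_⟩
  intro a ha0 hd l R α ha hα hR
  have hMN : M - dW + dW = M := by omega
  rw [hMN] at hR
  have hN1 : 1 ≤ M - dW := by omega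
  have h1 := S2_expand (R := R) (M - dW) hN1 (by rw [← hdW, hMN]; omega) a ha hd l α hα
  obtain ⟨cc, hcc, h2⟩ := S2_err (R := R) (M - dW) (by rw [← hdW, hMN]; omega) a ha ha0 hd l
  rw [← hdW, hMN] at hcc h2
  have h3 := hM cc hcc
  rw [Fintype.card_fin] at h1 h2
  refine h1.trans (h2.trans ?_)
  have h4 : ∏ P ∈ PR F w R, (1 + ((k : ℝ) + 1) ^ 2 * vP P) ≤ (10 * (R : ℝ)) ^ B := by
    rw [← hBr]
    exact prod_bd w R B (by omega)
  have h5 : ∑ D ∈ (PR F w M).powerset.filter (fun D => 4 * dg D ≤ M),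
      (2 * (k : ℝ) * ((k : ℝ) + 1) ^ 2) ^ D.card * Ebv F w M (cc D) D ≤
      (Fintype.card F : ℝ) ^ M / (M : ℝ) ^ (B + 2) := by
    rw [Real.rpow_natCast] at h3
    exact h3
  have h6 : 0 ≤ ∑ D ∈ (PR F w M).powerset.filter (fun D => 4 * dg D ≤ M),
      (2 * (k : ℝ) * ((k : ℝ) + 1) ^ 2) ^ D.card * Ebv F w M (cc D) D :=
    Finset.sum_nonneg fun D _ => mul_nonneg (by positivity) (abs_nonneg _)
  have hM1 : (1 : ℝ) ≤ M := by
    have : 1 ≤ M := by omega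
    exact_mod_cast this
  have hRM : (R : ℝ) ≤ M := by
    have : R ≤ M := by omega
    exact_mod_cast this
  have hMM : 10 ^ B * (Fintype.card F : ℝ) ^ dW / ε ≤ M := by
    refine (Nat.le_ceil _).trans ?_
    have h7 : M₁ ≤ M := by omega
    exact Nat.cast_le.2 h7
  have hqN : (Fintype.card F : ℝ) ^ M = (Fintype.card F : ℝ) ^ (M - dW) * (Fintype.card F : ℝ) ^ dW := by
    rw [← pow_add, hMN]
  calc (∏ P ∈ PR F w R, (1 + ((k : ℝ) + 1) ^ 2 * vP P)) *
        (∑ D ∈ (PR F w M).powerset.filter (fun D => 4 * dg D ≤ M),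
          (2 * (k : ℝ) * ((k : ℝ) + 1) ^ 2) ^ D.card * Ebv F w M (cc D) D) /
          (Fintype.card F : ℝ) ^ (M - dW)
      ≤ (10 * (M : ℝ)) ^ B * ((Fintype.card F : ℝ) ^ M / (M : ℝ) ^ (B + 2)) /
          (Fintype.card F : ℝ) ^ (M - dW) := by
        refine div_le_div_of_nonneg_right ?_ (by positivity)
        refine mul_le_mul (h4.trans ?_) h5 h6 (by positivity)
        exact pow_le_pow_left₀ (by positivity) (by linarith) B
    _ = 10 ^ B * (Fintype.card F : ℝ) ^ dW / (M : ℝ) ^ 2 := by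
        rw [hqN, mul_pow, pow_add]
        field_simp
    _ ≤ ε := by
        rw [div_le_iff₀ (by positivity)]
        rw [div_le_iff₀ hε] at hMM
        nlinarith [mul_le_mul_of_nonneg_left hM1 (mul_nonneg (by linarith : (0:ℝ) ≤ M) hε.le)]

end Pool.Agent.H10.FF
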