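import Pool.Agent.H10.FF.MayA
import Pool.Agent.H10.FF.MayB
import Pool.Agent.H10.FF.MayC

/-!
# Project FF, block C: conclusion (Maynard-Tao with constants, Pintz condition)

`k` depends only on `m`; `δ` can be taken arbitrarily small; the density constant `c` depends only on `m, δ`; `w₀` may depend on
everything, then `N` arbitrarily large.
-/

namespace Pool.Agent.H10.FF

open Polynomial Finset
open scoped Classical

/-- numerical part of the conclusion -/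
theorem may_num (k L : ℕ) (hk : 1 ≤ k) (A₀ ω R M G : ℝ) (hA : 1 ≤ A₀) (hω : 0 < ω) (hR : 0 < R)
    (hRM : R ≤ M) (hG : 1 / (2 * ω * (A₀ / R)) ≤ G) :
    (1 / (2 * k) * (1 / (2 * A₀)) ^ k * (1 / (2 ^ L * 11)) ^ (2 * k)) * (ω / M) ^ k ≤
      G ^ k / (2 * k * ((2 ^ L * (11 * R / ω)) ^ k) ^ 2) := by
  have hk0 : (0 : ℝ) < k := by exact_mod_cast hk
  have hA0 : 0 < A₀ := by linarith
  have hM : 0 < M := by linarith
  have h1 : (ω / M) ^ k ≤ (ω / R) ^ k := by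
    apply pow_le_pow_left₀ (by positivity)
    exact div_le_div_of_nonneg_left hω.le hR hRM
  have h2 : (R / (2 * ω * A₀)) ^ k ≤ G ^ k := by
    apply pow_le_pow_left₀ (by positivity)
    refine le_trans (le_of_eq ?_) hG
    field_simp
  have h3 : (1 / (2 * k) * (1 / (2 * A₀)) ^ k * (1 / (2 ^ L * 11)) ^ (2 * k)) * (ω / R) ^ k =
      (R / (2 * ω * A₀)) ^ k / (2 * k * ((2 ^ L * (11 * R / ω)) ^ k) ^ 2) := by
    rw [← pow_mul, mul_comm k 2]
    have e1 : (1 / (2 * A₀)) ^ k * (ω / R) ^ k = (R / (2 * ω * A₀)) ^ k * (ω / R) ^ (2 * k) := by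
      rw [← mul_pow, pow_mul, ← mul_pow]
      congr 1
      field_simp
    have e2 : (2 ^ L * (11 * R / ω)) ^ (2 * k) * (ω / R) ^ (2 * k) = (2 ^ L * 11) ^ (2 * k) := by
      rw [← mul_pow]
      congr 1
      field_simp
    have e3 : (0 : ℝ) < (2 ^ L * (11 * R / ω)) ^ (2 * k) := by positivity
    have e4 : (0 : ℝ) < (2 ^ L * 11) ^ (2 * k) := by positivity
    rw [eq_div_iff (by positivity)]
    calc 1 / (2 * (k : ℝ)) * (1 / (2 * A₀)) ^ k * (1 / (2 ^ L * 11)) ^ (2 * k) * (ω / R) ^ k *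
          (2 * k * (2 ^ L * (11 * R / ω)) ^ (2 * k))
        = (1 / (2 * (k : ℝ)) * (2 * k)) * ((1 / (2 * A₀)) ^ k * (ω / R) ^ k) *
          ((1 / (2 ^ L * 11)) ^ (2 * k) * (2 ^ L * (11 * R / ω)) ^ (2 * k)) := by ring
      _ = (R / (2 * ω * A₀)) ^ k * ((1 / (2 ^ L * 11)) ^ (2 * k) *
          ((2 ^ L * (11 * R / ω)) ^ (2 * k) * (ω / R) ^ (2 * k))) := by
          rw [e1]
          have : 1 / (2 * (k : ℝ)) * (2 * k) = 1 := by field_simp
          rw [this]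
          ring
      _ = (R / (2 * ω * A₀)) ^ k := by
          rw [e2, one_div, inv_pow, inv_mul_cancel₀ e4.ne', mul_one]
  calc _ ≤ (1 / (2 * k) * (1 / (2 * A₀)) ^ k * (1 / (2 ^ L * 11)) ^ (2 * k)) * (ω / R) ^ k :=
        mul_le_mul_of_nonneg_left h1 (by positivity)
    _ = _ := h3
    _ ≤ _ := div_le_div_of_nonneg_right h2 (by positivity)

theorem maynard (m : ℕ) (hm : 2 ≤ m) : ∃ k : ℕ, m ≤ k ∧ ∀ δ₀ : ℝ, 0 < δ₀ →
    ∃ δ : ℝ, 0 < δ ∧ δ ≤ δ₀ ∧ ∃ c : ℝ, 0 < c ∧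
    ∀ (F : Type) [Field F] [Fintype F],
    ∃ w₀ : ℕ, ∀ w : ℕ, w₀ ≤ w → ∀ N₀ : ℕ, ∃ M N D : ℕ, N₀ ≤ N ∧
      M = N + (WW F w).natDegree ∧ (D : ℝ) ≤ δ * M ∧ δ * M < D + 1 ∧
      ∀ a : Fin k → F[X], (∀ i, ∀ P ∈ PR F 0 w, ¬ P ∣ a i) →
      (∀ i j, i ≠ j → ∀ P : F[X], P.Monic → Irreducible P → w < P.natDegree → ¬ P ∣ a i - a j) →
      (∀ i, (a i).natDegree < M) →
      c * (om F w / M) ^ k ≤ av (fun x : Fin N → F =>
        if (∀ i, ∀ P ∈ PR F w D, ¬ P ∣ nn w N a x i) ∧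
          m ≤ (univ.filter (fun i => Irreducible (nn w N a x i))).card then (1 : ℝ) else 0) := by
  obtain ⟨k, A₀, hmk, hk, hA, h352, h3168⟩ := params m
  have hk0 : (0 : ℝ) < k := by exact_mod_cast hk
  have hk1 : (1 : ℝ) ≤ k := by exact_mod_cast hk
  have hA0 : 0 < A₀ := by linarith
  refine ⟨k, hmk, fun δ₀ hδ₀ => ?_⟩
  obtain ⟨δ, hδ, hδδ, hδ1⟩ : ∃ δ : ℝ, 0 < δ ∧ δ ≤ δ₀ ∧ 100 * k * (A₀ + 1) * δ ≤ 1 := by
    refine ⟨min δ₀ (1 / (100 * k * (A₀ + 1))), by positivity, min_le_left _ _, ?_⟩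
    calc 100 * k * (A₀ + 1) * min δ₀ (1 / (100 * k * (A₀ + 1)))
        ≤ 100 * k * (A₀ + 1) * (1 / (100 * k * (A₀ + 1))) :=
          mul_le_mul_of_nonneg_left (min_le_right _ _) (by positivity)
      _ = 1 := by field_simp
  obtain ⟨L, hL⟩ := exists_nat_gt (1 / δ)
  refine ⟨δ, hδ, hδδ, 1 / (2 * k) * (1 / (2 * A₀)) ^ k * (1 / (2 ^ L * 11)) ^ (2 * k),
    by positivity, ?_⟩
  intro F _ _
  have hq2 : (2 : ℝ) ≤ Fintype.card F := card_ge_two
  -- the size of `w`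
  obtain ⟨w₁, hw₁⟩ := tt_small (max (3 * ((k : ℝ) + 1) ^ 2) (6 * 2 ^ k)) (1 / 10)
    (le_max_of_le_left (by positivity)) (by norm_num)
  obtain ⟨w₂, hw₂⟩ := exists_nat_ge (80 * (k : ℝ) ^ 4)
  obtain ⟨w₃, hw₃⟩ := exists_nat_ge ((2 * (k : ℝ) * ((k : ℝ) + 1) ^ 2) ^ 10)
  refine ⟨max (max w₁ w₂) (max w₃ 1), fun w hw N₀ => ?_⟩
  have hw1 : w₁ ≤ w := (le_max_left _ _).trans ((le_max_left _ _).trans hw)
  have hw2 : w₂ ≤ w := (le_max_right _ _).trans ((le_max_left _ _).trans hw)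
  have hw3 : w₃ ≤ w := (le_max_left _ _).trans ((le_max_right _ _).trans hw)
  have hw4 : 1 ≤ w := (le_max_right _ _).trans ((le_max_right _ _).trans hw)
  have h2w : (w : ℝ) ≤ 2 ^ w := by exact_mod_cast (Nat.lt_two_pow_self (n := w)).le
  have hC1 : 80 * (k : ℝ) ^ 4 ≤ 2 ^ w := by
    have : (w₂ : ℝ) ≤ w := by exact_mod_cast hw2
    linarith
  have hC2 : (2 * (k : ℝ) * ((k : ℝ) + 1) ^ 2) ^ 10 ≤ (Fintype.card F : ℝ) ^ w := by
    have h1 : (w₃ : ℝ) ≤ w := by exact_mod_cast hw3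
    have h2 : (2 : ℝ) ^ w ≤ (Fintype.card F : ℝ) ^ w := pow_le_pow_left₀ (by norm_num) hq2 w
    linarith
  have htC : ∀ C : ℝ, 0 ≤ C → C ≤ max (3 * ((k : ℝ) + 1) ^ 2) (6 * 2 ^ k) → ∀ R : ℕ,
      tt F C w R ≤ 11 / 10 := by
    intro C hC hCm R
    have h1 := tt_mono (F := F) C _ hC hCm w R
    have h2 := hw₁ w hw1 F R
    linarith
  have ht1 : ∀ R : ℕ, tt F (3 * ((k : ℝ) + 1) ^ 2) w R ≤ 11 / 10 := fun R =>
    htC _ (by positivity) (le_max_left _ _) R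
  have ht2 : ∀ R : ℕ, tt F (6 * 2 ^ k) w R ≤ 11 / 10 := fun R =>
    htC _ (by positivity) (le_max_right _ _) R
  have ht3 : ∀ R : ℕ, tt F (((k : ℝ) + 1) ^ 2) w R ≤ 11 / 10 := fun R =>
    htC _ (by positivity) (le_max_of_le_left (by nlinarith [sq_nonneg ((k : ℝ) + 1)])) R
  -- the degree
  obtain ⟨N₁, hN₁⟩ := exists_nat_ge (9 * (20 * A₀ * w + 10 * w + 2 * om F w * A₀ + 8))
  obtain ⟨N, hN, herr⟩ := err_total F hk w hC2 (1 / k) (by positivity)
    (max N₀ (max N₁ (max (WW F w).natDegree 72)))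
  have hN0 : N₀ ≤ N := (le_max_left _ _).trans hN
  have hN1 : N₁ ≤ N := (le_max_left _ _).trans ((le_max_right _ _).trans hN)
  have hN2 : (WW F w).natDegree ≤ N :=
    (le_max_left _ _).trans ((le_max_right _ _).trans ((le_max_right _ _).trans hN))
  have hN3 : 72 ≤ N :=
    (le_max_right _ _).trans ((le_max_right _ _).trans ((le_max_right _ _).trans hN))
  obtain ⟨M, hM⟩ : ∃ M, M = N + (WW F w).natDegree := ⟨_, rfl⟩
  obtain ⟨R, hR⟩ : ∃ R, R = M / 8 := ⟨_, rfl⟩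
  have hMR : M ≤ 9 * R := by omega
  have hRM : 8 * R ≤ M := by omega
  have hR1 : 1 ≤ R := by omega
  have h3R : 3 * R ≤ N := by omega
  have hMR' : (M : ℝ) ≤ 9 * R := by exact_mod_cast hMR
  have hRM' : (R : ℝ) ≤ M := by exact_mod_cast (by omega : R ≤ M)
  have hR0 : (0 : ℝ) < R := by exact_mod_cast hR1
  have hM0 : (0 : ℝ) < M := by linarith
  have hω : 0 < om F w := om_pos w
  have hw0 : (0 : ℝ) ≤ w := Nat.cast_nonneg _
  have hRbig : 20 * A₀ * w + 10 * w + 2 * om F w * A₀ + 8 ≤ R := by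
    have h1 : (N₁ : ℝ) ≤ N := by exact_mod_cast hN1
    have h2 : (N : ℝ) ≤ M := by exact_mod_cast (by omega : N ≤ M)
    linarith
  have hαw : 20 * (A₀ / R) * w ≤ 1 := by
    have : 20 * (A₀ / R) * w = 20 * A₀ * w / R := by ring
    rw [this, div_le_one hR0]
    have : 0 ≤ om F w * A₀ := by positivity
    linarith
  have hwR : 10 * w ≤ R := by
    have h1 : 10 * (w : ℝ) ≤ R := by
      have : 0 ≤ om F w * A₀ := by positivity
      have : 0 ≤ A₀ * w := by positivity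
      linarith
    exact_mod_cast h1
  have hα0 : 0 < A₀ / R := by positivity
  have hαR : 1 ≤ A₀ / R * R := by
    rw [div_mul_cancel₀ _ hR0.ne']
    exact hA
  have hGlow := Gam_lower (F := F) w R (A₀ / R) hα0 hαR
  have hG1 : 1 ≤ Gam F w R (A₀ / R) := by
    refine le_trans ?_ hGlow
    rw [le_div_iff₀ (by positivity), one_mul]
    have : 2 * om F w * (A₀ / R) = 2 * om F w * A₀ / R := by ring
    rw [this, div_le_one hR0]
    have : 0 ≤ A₀ * w := by positivity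
    linarith
  have hGk : 1 ≤ Gam F w R (A₀ / R) ^ k := one_le_pow₀ hG1
  have hGk0 : 0 < Gam F w R (A₀ / R) ^ k := by linarith
  have hDle : (⌊δ * M⌋₊ : ℝ) ≤ δ * M := Nat.floor_le (by positivity)
  have hDlt : δ * M < (⌊δ * M⌋₊ : ℝ) + 1 := Nat.lt_floor_add_one _
  obtain ⟨D, hD⟩ : ∃ D, D = ⌊δ * (M : ℝ)⌋₊ := ⟨_, rfl⟩
  rw [← hD] at hDle hDlt
  have hδ2 : δ ≤ 1 / 100 := by
    have h1 : (1 : ℝ) * 1 ≤ k * (A₀ + 1) := mul_le_mul hk1 (by linarith) (by norm_num) (by linarith)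
    have h2 : 1 * (100 * δ) ≤ k * (A₀ + 1) * (100 * δ) :=
      mul_le_mul_of_nonneg_right (by linarith) (by linarith)
    linarith
  have hD9 : (D : ℝ) ≤ 9 * δ * R := by
    have := mul_le_mul_of_nonneg_left hMR' hδ.le
    linarith
  have hDR : D ≤ R := by
    have h1 : (D : ℝ) ≤ R := by
      have := mul_le_mul_of_nonneg_right hδ2 hR0.le
      linarith
    exact_mod_cast h1
  have hLM : N + (WW F w).natDegree < (L + 1) * (D + 1) := by
    rw [← hM]
    have h1 : (M : ℝ) < (D + 1) * L := by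
      have h2 : (M : ℝ) < (D + 1) / δ := by
        rw [lt_div_iff₀ hδ]
        linarith
      have h3 : ((D : ℝ) + 1) / δ ≤ (D + 1) * L := by
        rw [div_eq_mul_one_div]
        exact mul_le_mul_of_nonneg_left hL.le (by positivity)
      linarith
    have h4 : M < (D + 1) * L := by exact_mod_cast h1
    have h5 : (D + 1) * L ≤ (L + 1) * (D + 1) := by nlinarith
    omega
  refine ⟨M, N, D, hN0, hM, hDle, hDlt, ?_⟩
  intro a ha0 hdif hdeg
  have hd : ∀ i, (a i).natDegree < N + (WW F w).natDegree := fun i => hM ▸ hdeg i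
  have ha : Dif w R a := fun i j hij P hP => hdif i j hij P (mem_PR.1 hP).1 (mem_PR.1 hP).2.1
    (mem_PR.1 hP).2.2.1
  -- apply the abstract conclusion
  have hconc := abs_concl (X := Fin N → F) k m hk (by omega)
    (fun l x => Irreducible (nn w N a x l))
    (fun x => ∃ i, ∃ P ∈ PR F w D, P ∣ nn w N a x i)
    (fun x => Phi w R (A₀ / R) (nn w N a x)) (Gam F w R (A₀ / R) ^ k)
    ((2 ^ L * (11 * R / om F w)) ^ k) hGk0 (by positivity) ?_ ?_ ?_ ?_
  · refine (may_num k L hk A₀ (om F w) R M (Gam F w R (A₀ / R)) hA hω hR0 hRM' hGlow).trans ?_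
    refine hconc.trans (le_of_eq ?_)
    unfold av
    congr 1
    refine Finset.sum_congr rfl fun x _ => ?_
    congr 1
    simp only [not_exists, not_and]
  · have h1 := S1_le (w := w) (R := R) N a ha (by omega) (A₀ / R) hα0.le
    rw [Fintype.card_fin] at h1
    have h2 := ht3 R
    unfold av at h1
    refine h1.trans ?_
    have := mul_le_mul_of_nonneg_right h2 hGk0.le
    linarith
  · have h1 := S2_total hk m a w N R hw4 hR1 A₀ hA h352 h3168 (by omega) (by omega) hαw (ht1 R)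
      (ht2 R) (fun l => (herr a ha0 hd l R (A₀ / R) ha hα0.le (by rw [hR, hM])).trans
        (div_le_div_of_nonneg_right hGk hk0.le))
    unfold av at h1
    exact h1
  · have h1 := bad_total hk a w N R D ha hR1 hDR h3R A₀ δ hA hδ hδ1 hD9 (ht3 R) hC1
    unfold av at h1
    convert h1 using 4
    congr!
  · intro x hx
    exact good_total a w N R D L hd hw4 hR1 hwR (A₀ / R) hα0.le hLM x hx

end Pool.Agent.H10.FF
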