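import Pool.Agent.H10.FF.Base

/-!
JOB FF-B2 (MP_a1f59e_nt). Number of monic irreducible polynomials of degree `n`.

PROOF of `irrs_card_sum`. Let `E = X ^ (q ^ n) - X`. It is separable (`galois_poly_separable`, or derivative `-1`), so
squarefree, nonzero, of degree `q ^ n`. A monic irreducible `P` divides `E` iff `natDegree P ∣ n`
(`Irreducible.natDegree_dvd_iff_dvd_X_pow_card_pow_sub_X`). `E` is monic and squarefree, so it is the product of its distinct
monic irreducible divisors (e.g. `(normalizedFactors E)` is `Nodup`, `prod_normalizedFactors`); take degrees: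
`q ^ n = ∑ P, natDegree P = ∑ d ∣ n, d * #irrs d`.
`irrs_card_le`: keep `d = n`. `irrs_card_ge`: `n #irrs n = q ^ n - ∑ d ∣ n, d < n, d #irrs d ≥ q ^ n - ∑ d ≤ n / 2, q ^ d
≥ q ^ n - 2 q ^ (n / 2) ≥ q ^ n / 2` as `q ^ (n / 2) ≥ 4`... (for `n ≥ 4`: `q ^ n = q ^ (n - n / 2) q ^ (n / 2) ≥ 4 q ^ (n / 2)`).
~120 lines.
-/

namespace Pool.Agent.H10.FF

open Polynomial Finset
open scoped Classical

variable {F : Type} [Field F] [Fintype F]

theorem num_disj (s : Set ℕ) : s.PairwiseDisjoint (irrs F) := by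
  intro a _ b _ hab
  rw [Function.onFun, Finset.disjoint_left]
  intro P h1 h2
  rw [mem_irrs] at h1 h2
  exact hab (h1.2.2.symm.trans h2.2.2)

theorem num_sum_irrs (d : ℕ) : ∑ P ∈ irrs F d, P.natDegree = d * (irrs F d).card := by
  rw [Finset.sum_congr rfl fun P hP => (mem_irrs.1 hP).2.2, Finset.sum_const, smul_eq_mul,
    mul_comm]

theorem num_squarefree (n : ℕ) (hn : 1 ≤ n) :
    Squarefree (X ^ (Fintype.card F ^ n) - X : F[X]) := by
  obtain ⟨p, hp⟩ := CharP.exists F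
  have h1 : p ∣ Fintype.card F ^ n :=
    (((CharP.cast_eq_zero_iff F p _).1 (FiniteField.cast_card_eq_zero F))).trans
      (dvd_pow_self _ (by omega))
  exact (galois_poly_separable p _ h1).squarefree

theorem irrs_card_sum (n : ℕ) (hn : 1 ≤ n) :
    ∑ d ∈ n.divisors, d * (irrs F d).card = Fintype.card F ^ n := by
  have hn0 : n ≠ 0 := by omega
  set T : Finset F[X] := n.divisors.biUnion (irrs F) with hT
  have hTm : ∀ P, P ∈ T ↔ P.Monic ∧ Irreducible P ∧ P.natDegree ∣ n := by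
    intro P
    rw [hT, Finset.mem_biUnion]
    constructor
    · rintro ⟨d, hd, hP⟩
      rw [mem_irrs] at hP
      exact ⟨hP.1, hP.2.1, by rw [hP.2.2]; exact Nat.dvd_of_mem_divisors hd⟩
    · rintro ⟨h1, h2, h3⟩
      exact ⟨P.natDegree, Nat.mem_divisors.2 ⟨h3, hn0⟩, mem_irrs.2 ⟨h1, h2, rfl⟩⟩
  set E : F[X] := X ^ (Fintype.card F ^ n) - X with hE
  have hE0 : E ≠ 0 := FiniteField.X_pow_card_pow_sub_X_ne_zero _ hn0 Fintype.one_lt_card
  have hEd : E.natDegree = Fintype.card F ^ n :=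
    FiniteField.X_pow_card_pow_sub_X_natDegree_eq _ hn0 Fintype.one_lt_card
  have hdvd : ∀ P : F[X], Irreducible P → (P.natDegree ∣ n ↔ P ∣ E) := by
    intro P hP
    have h := hP.natDegree_dvd_iff_dvd_X_pow_card_pow_sub_X (n := n)
    rwa [Nat.card_eq_fintype_card] at h
  have h1 : (∏ P ∈ T, P) ∣ E := prod_dvd_of_forall T
    (fun P hP => ⟨((hTm P).1 hP).1, ((hTm P).1 hP).2.1⟩) E
    (fun P hP => (hdvd P ((hTm P).1 hP).2.1).1 ((hTm P).1 hP).2.2)
  obtain ⟨R, hR⟩ := h1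
  have hprod0 : (∏ P ∈ T, P) ≠ 0 := by
    rintro h
    rw [h, zero_mul] at hR
    exact hE0 hR
  have hR0 : R ≠ 0 := by
    rintro rfl
    rw [mul_zero] at hR
    exact hE0 hR
  have hRu : IsUnit R := by
    by_contra hu
    obtain ⟨Q, hQi, hQR⟩ := WfDvdMonoid.exists_irreducible_factor hu hR0
    have hQ' : Irreducible (Q * C Q.leadingCoeff⁻¹) := irreducible_mul_leadingCoeff_inv.2 hQi
    have hQm : (Q * C Q.leadingCoeff⁻¹).Monic := monic_mul_leadingCoeff_inv hQi.ne_zero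
    have hlc : IsUnit (C Q.leadingCoeff⁻¹ : F[X]) := isUnit_C.2
      (isUnit_iff_ne_zero.2 (inv_ne_zero (leadingCoeff_ne_zero.2 hQi.ne_zero)))
    have hQR' : Q * C Q.leadingCoeff⁻¹ ∣ R := (hlc.mul_right_dvd).2 hQR
    have hQE : Q * C Q.leadingCoeff⁻¹ ∣ E := hQR'.trans ⟨_, by rw [hR, mul_comm]⟩
    have hQT : Q * C Q.leadingCoeff⁻¹ ∈ T := (hTm _).2 ⟨hQm, hQ', (hdvd _ hQ').2 hQE⟩
    have h2 : (Q * C Q.leadingCoeff⁻¹) * (Q * C Q.leadingCoeff⁻¹) ∣ E := by
      rw [hR]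
      exact mul_dvd_mul (Finset.dvd_prod_of_mem (fun P => P) hQT) hQR'
    exact hQ'.not_isUnit (num_squarefree n hn _ h2)
  have h3 : E.natDegree = dg T := by
    rw [hR, natDegree_mul hprod0 hR0, natDegree_eq_zero_of_isUnit hRu, add_zero,
      prod_natDegree T fun P hP => ⟨((hTm P).1 hP).1, ((hTm P).1 hP).2.1⟩]
  rw [← hEd, h3, dg, hT, Finset.sum_biUnion (num_disj _)]
  exact Finset.sum_congr rfl fun d _ => (num_sum_irrs d).symm

theorem num_card_le (n : ℕ) (hn : 1 ≤ n) : n * (irrs F n).card ≤ Fintype.card F ^ n := by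
  rw [← irrs_card_sum n hn]
  exact Finset.single_le_sum (f := fun d => d * (irrs F d).card) (fun _ _ => Nat.zero_le _)
    (Nat.mem_divisors.2 ⟨dvd_rfl, by omega⟩)

theorem irrs_card_le (n : ℕ) : (n : ℝ) * ((irrs F n).card : ℝ) ≤ (Fintype.card F : ℝ) ^ n := by
  rcases Nat.eq_zero_or_pos n with h | h
  · subst h
    simp
  · exact_mod_cast num_card_le n h

theorem irrs_card_ge (n : ℕ) (hn : 4 ≤ n) :
    (Fintype.card F : ℝ) ^ n / (2 * n) ≤ ((irrs F n).card : ℝ) := by
  have hq : 2 ≤ Fintype.card F := Fintype.one_lt_card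
  have h1 := irrs_card_sum (F := F) n (by omega)
  rw [← Nat.insert_self_properDivisors (by omega), Finset.sum_insert
    (fun h => absurd (Nat.mem_properDivisors.1 h).2 (lt_irrefl n))] at h1
  have h2 : ∑ d ∈ n.properDivisors, d * (irrs F d).card ≤
      ∑ d ∈ n.properDivisors, Fintype.card F ^ d := by
    refine Finset.sum_le_sum fun d hd => ?_
    exact num_card_le d (Nat.pos_of_mem_properDivisors hd)
  have h3 : ∑ d ∈ n.properDivisors, Fintype.card F ^ d < Fintype.card F ^ (n / 2 + 1) := by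
    refine Nat.geomSum_lt hq fun d hd => ?_
    obtain ⟨⟨k, hk⟩, h4⟩ := Nat.mem_properDivisors.1 hd
    have h5 : 2 ≤ k := by
      by_contra h6
      have h7 : k = 0 ∨ k = 1 := by omega
      rcases h7 with h7 | h7
      · rw [h7, mul_zero] at hk
        omega
      · rw [h7, mul_one] at hk
        omega
    have h8 : d * 2 ≤ n := by
      rw [hk]
      exact Nat.mul_le_mul_left d h5
    omega
  have h4 : 2 * Fintype.card F ^ (n / 2 + 1) ≤ Fintype.card F ^ n := by
    calc 2 * Fintype.card F ^ (n / 2 + 1) ≤ Fintype.card F * Fintype.card F ^ (n / 2 + 1) :=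
          Nat.mul_le_mul_right _ hq
      _ = Fintype.card F ^ (n / 2 + 1 + 1) := by rw [pow_succ' (Fintype.card F) (n / 2 + 1)]
      _ ≤ Fintype.card F ^ n := Nat.pow_le_pow_right (by omega) (by omega)
  have h5 : Fintype.card F ^ n ≤ 2 * (n * (irrs F n).card) := by omega
  have h6 : (Fintype.card F : ℝ) ^ n ≤ 2 * (n * ((irrs F n).card : ℝ)) := by exact_mod_cast h5
  have hn0 : (0 : ℝ) < n := by exact_mod_cast (by omega : 0 < n)
  rw [div_le_iff₀ (by positivity)]
  linarith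

/-- sums over primes by degree -/
theorem sum_PR (w R : ℕ) (f : F[X] → ℝ) :
    ∑ P ∈ PR F w R, f P = ∑ d ∈ Finset.Ioc w R, ∑ P ∈ irrs F d, f P := by
  unfold PR
  exact Finset.sum_biUnion (num_disj _)

/-- a sum of a function of the degree over the primes -/
theorem sum_PR_le (w R : ℕ) (g : ℕ → ℝ) (hg : ∀ d, 0 ≤ g d) :
    ∑ P ∈ PR F w R, g P.natDegree / nrm P ≤ ∑ d ∈ Finset.Ioc w R, g d / d := by
  rw [sum_PR]
  refine Finset.sum_le_sum fun d hd => ?_
  rw [Finset.mem_Ioc] at hd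
  have h1 : ∀ P ∈ irrs F d, g P.natDegree / nrm P = g d / (Fintype.card F : ℝ) ^ d := by
    intro P hP
    unfold nrm
    rw [(mem_irrs.1 hP).2.2]
  rw [Finset.sum_congr rfl h1, Finset.sum_const, nsmul_eq_mul]
  have h2 := irrs_card_le (F := F) d
  have h3 : (0 : ℝ) < (Fintype.card F : ℝ) ^ d :=
    pow_pos (lt_of_lt_of_le two_pos (card_ge_two (F := F))) _
  have h4 : (0 : ℝ) < d := by exact_mod_cast (by omega : 0 < d)
  rw [← mul_div_assoc, div_le_div_iff₀ h3 h4]
  nlinarith [mul_le_mul_of_nonneg_left h2 (hg d)]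

end Pool.Agent.H10.FF
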