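import Pool.Agent.H10.FF.Ixs

/-!
JOB FF-C1 (MP_a1f59e_nt). The quadratic form of the sieve: upper bound.

PROOF of `col_Gam`. `col_le_tuple` with `f i P = vP P.1` and `Wt t = ∏ i, (if dgI (t i) ≤ R then bet α (dgI (t i)) ^ 2 else 0)`;
`Bs α c ^ 2 ≤ Wt (cls c)` because `dgt c ≤ R` implies `dgi c i = dgI (cls c i) ≤ R` (`dgt_eq`, `dgi_eq`); then `tuple_prod` and `TS_eq`.
PROOF of `S1comb`. `∑ c, ∑ c'` = sum over patterns `Ix → Option K × Option K` (`Equiv.arrowProdEquivProdArrow`). `core_le` with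
`o0 = (none, none)`, `M0 = {ω | ω.1 = ω.2}`, `e P ω = e1 P.1 ω.1 ω.2`, `τ P = vP P.1 ^ 2` (off the diagonal `e1` is `0` or `-(v ^ 2)`),
`wt = b (fst) b (snd)`, `Wt = κ₀ ^ 2 Bs (fst) Bs (snd)` (`Bs_anti`: `res` only uncolours), `card Ω = (card K + 1) ^ 2`. The main sum is
`∑ c, κ₀ ^ 2 Bs c ^ 2 ∏ e1 (c P) (c P)`, then `col_Gam`. Product over `Ix`: `prod_Ix`. ~120 lines.
-/

namespace Pool.Agent.H10.FF

open Polynomial Finset
open scoped Classical

variable {F : Type} [Field F] [Fintype F]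

theorem col_Gam {K : Type} [Fintype K] [DecidableEq K] (w R : ℕ) (α : ℝ) (hα : 0 ≤ α) :
    ∑ c : Ix F w R → Option K, Bs α c ^ 2 * ∏ P : Ix F w R, (c P).elim 1 (fun _ => vP P.1) ≤
      Gam F w R α ^ Fintype.card K := by
  set Wt : (K → Finset (Ix F w R)) → ℝ :=
    fun t => ∏ i, (if dgI (t i) ≤ R then bet α (dgI (t i)) ^ 2 else 0) with hWt
  have hW : ∀ t, 0 ≤ Wt t := fun t => Finset.prod_nonneg fun i _ => by
    split_ifs
    · positivity
    · exact le_rfl
  have hv : ∀ P : Ix F w R, 0 ≤ vP P.1 := fun P => (vP_pos P.2).le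
  have h1 : ∀ c : Ix F w R → Option K, Bs α c ^ 2 ≤ Wt (cls c) := by
    intro c
    unfold Bs
    split_ifs with h
    · rw [← Finset.prod_pow, hWt]
      refine Finset.prod_le_prod (fun i _ => by positivity) fun i _ => ?_
      have h2 : dgI (cls c i) ≤ R := by
        rw [← dgi_eq]
        refine le_trans ?_ h
        rw [dgt_eq]
        exact Finset.single_le_sum (f := fun i => dgi c i) (fun _ _ => Nat.zero_le _)
          (Finset.mem_univ i)
      rw [if_pos h2, dgi_eq]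
    · rw [zero_pow two_ne_zero]
      exact hW _
  have h2 : ∀ c : Ix F w R → Option K, 0 ≤ ∏ P : Ix F w R, (c P).elim 1 (fun _ => vP P.1) := by
    intro c
    refine Finset.prod_nonneg fun P _ => ?_
    rcases c P with _ | j
    · exact zero_le_one
    · exact hv P
  have hG : Gam F w R α = ∑ s : Finset (Ix F w R),
      (if dgI s ≤ R then bet α (dgI s) ^ 2 else 0) * ∏ P ∈ s, vP P.1 := by
    unfold Gam
    rw [TS_eq]
    refine Finset.sum_congr rfl fun s _ => ?_
    split_ifs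
    · rfl
    · rw [zero_mul]
  calc ∑ c : Ix F w R → Option K, Bs α c ^ 2 * ∏ P : Ix F w R, (c P).elim 1 (fun _ => vP P.1)
      ≤ ∑ c : Ix F w R → Option K, Wt (cls c) *
          ∏ P : Ix F w R, (c P).elim 1 (fun i => (fun (_ : K) (P : Ix F w R) => vP P.1) i P) :=
        Finset.sum_le_sum fun c _ => mul_le_mul_of_nonneg_right (h1 c) (h2 c)
    _ ≤ ∑ t : K → Finset (Ix F w R), Wt t *
          ∏ i, ∏ P ∈ t i, (fun (_ : K) (P : Ix F w R) => vP P.1) i P :=
        col_le_tuple Wt hW _ fun _ P => hv P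
    _ = ∑ t : K → Finset (Ix F w R), ∏ i, (fun (_ : K) (s : Finset (Ix F w R)) =>
          (if dgI s ≤ R then bet α (dgI s) ^ 2 else 0) * ∏ P ∈ s, vP P.1) i (t i) := by
        refine Finset.sum_congr rfl fun t _ => ?_
        rw [hWt, ← Finset.prod_mul_distrib]
    _ = ∏ _i : K, ∑ s : Finset (Ix F w R),
          (if dgI s ≤ R then bet α (dgI s) ^ 2 else 0) * ∏ P ∈ s, vP P.1 :=
        tuple_prod (fun (_ : K) (s : Finset (Ix F w R)) =>
          (if dgI s ≤ R then bet α (dgI s) ^ 2 else 0) * ∏ P ∈ s, vP P.1)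
    _ = Gam F w R α ^ Fintype.card K := by
        rw [Finset.prod_const, Finset.card_univ, ← hG]

private theorem s1_e1_diag {K : Type} (P : F[X]) (o : Option K) :
    e1 P o o = o.elim 1 (fun _ => vP P) := by
  unfold e1
  rcases o with _ | j
  · simp
  · simp

theorem S1comb {K : Type} [Fintype K] [DecidableEq K] (w R : ℕ) (α : ℝ) (hα : 0 ≤ α)
    (b : (Ix F w R → Option K) → ℝ) (κ₀ : ℝ) (hκ : 0 ≤ κ₀) (hb : ∀ c, |b c| ≤ κ₀ * Bs α c) :
    |∑ c : Ix F w R → Option K, ∑ c' : Ix F w R → Option K,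
        b c * b c' * ∏ P : Ix F w R, e1 P.1 (c P) (c' P)| ≤
      κ₀ ^ 2 * tt F (((Fintype.card K : ℝ) + 1) ^ 2) w R * Gam F w R α ^ Fintype.card K := by
  set o0 : Option K × Option K := (none, none) with ho0
  set M0 : Finset (Option K × Option K) := univ.filter (fun ω => ω.1 = ω.2) with hM0
  set e : Ix F w R → Option K × Option K → ℝ := fun P ω => e1 P.1 ω.1 ω.2 with he
  set wt : (Ix F w R → Option K × Option K) → ℝ :=
    fun γ => b (fun P => (γ P).1) * b (fun P => (γ P).2) with hwt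
  set Wt : (Ix F w R → Option K × Option K) → ℝ :=
    fun γ => κ₀ ^ 2 * (Bs α (fun P => (γ P).1) * Bs α (fun P => (γ P).2)) with hWt
  have hv : ∀ P : Ix F w R, 0 ≤ vP P.1 := fun P => (vP_pos P.2).le
  have hsum : ∑ c : Ix F w R → Option K, ∑ c' : Ix F w R → Option K,
        b c * b c' * ∏ P : Ix F w R, e1 P.1 (c P) (c' P) =
      ∑ γ : Ix F w R → Option K × Option K, wt γ * ∏ P, e P (γ P) := by
    rw [← (Equiv.arrowProdEquivProdArrow (Ix F w R) (fun _ => Option K)
      (fun _ => Option K)).symm.sum_comp, Fintype.sum_prod_type]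
    rfl
  have ho : o0 ∈ M0 := by
    rw [hM0, Finset.mem_filter]
    exact ⟨Finset.mem_univ _, rfl⟩
  have he0 : ∀ P, e P o0 = 1 := by
    intro P
    rw [he, ho0]
    exact s1_e1_diag _ _
  have hτ : ∀ P, ∀ ω ∉ M0, |e P ω| ≤ vP P.1 ^ 2 := by
    intro P ω hω
    have hne : ω.1 ≠ ω.2 := fun h => hω (by
      rw [hM0, Finset.mem_filter]
      exact ⟨Finset.mem_univ _, h⟩)
    change |e1 P.1 ω.1 ω.2| ≤ _
    unfold e1
    rw [if_neg hne]
    split_ifs
    · rw [abs_zero]
      positivity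
    · rw [abs_neg, abs_of_nonneg (by positivity)]
  have hres : ∀ γ : Ix F w R → Option K × Option K, ∀ P,
      res o0 M0 γ P = o0 ∨ res o0 M0 γ P = γ P := by
    intro γ P
    unfold res
    split_ifs
    · exact Or.inr rfl
    · exact Or.inl rfl
  have hw : ∀ γ, |wt γ| ≤ Wt (res o0 M0 γ) := by
    intro γ
    change |b _ * b _| ≤ κ₀ ^ 2 * (Bs α _ * Bs α _)
    rw [abs_mul]
    have h1 : |b (fun P => (γ P).1)| ≤ κ₀ * Bs α (fun P => (res o0 M0 γ P).1) := by
      refine (hb _).trans (mul_le_mul_of_nonneg_left (Bs_anti hα _ _ fun P => ?_) hκ)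
      rcases hres γ P with h | h
      · left; rw [h]
      · right; rw [h]
    have h2 : |b (fun P => (γ P).2)| ≤ κ₀ * Bs α (fun P => (res o0 M0 γ P).2) := by
      refine (hb _).trans (mul_le_mul_of_nonneg_left (Bs_anti hα _ _ fun P => ?_) hκ)
      rcases hres γ P with h | h
      · left; rw [h]
      · right; rw [h]
    calc |b (fun P => (γ P).1)| * |b (fun P => (γ P).2)|
        ≤ (κ₀ * Bs α (fun P => (res o0 M0 γ P).1)) * (κ₀ * Bs α (fun P => (res o0 M0 γ P).2)) :=
          mul_le_mul h1 h2 (abs_nonneg _) (mul_nonneg hκ (Bs_nonneg hα _))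
      _ = _ := by ring
  have hW : ∀ γ, 0 ≤ Wt γ := fun γ =>
    mul_nonneg (sq_nonneg _) (mul_nonneg (Bs_nonneg hα _) (Bs_nonneg hα _))
  have key := core_le o0 M0 ho e he0 (fun P => vP P.1 ^ 2) (fun P => sq_nonneg _) hτ wt Wt hw hW
  have hmain : ∑ γ ∈ univ.filter (fun γ : Ix F w R → Option K × Option K => ∀ P, γ P ∈ M0),
      Wt γ * ∏ P, |e P (γ P)| =
      κ₀ ^ 2 * ∑ c : Ix F w R → Option K,
        Bs α c ^ 2 * ∏ P : Ix F w R, (c P).elim 1 (fun _ => vP P.1) := by
    rw [Finset.mul_sum]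
    symm
    refine Finset.sum_nbij (fun c P => (c P, c P)) ?_ ?_ ?_ ?_
    · intro c _
      rw [Finset.mem_filter]
      refine ⟨Finset.mem_univ _, fun P => ?_⟩
      rw [hM0, Finset.mem_filter]
      exact ⟨Finset.mem_univ _, rfl⟩
    · intro c _ c' _ h
      funext P
      exact congrArg Prod.fst (congrFun h P)
    · intro γ hγ
      have hγ' : ∀ P, γ P ∈ M0 := (Finset.mem_filter.1 (Finset.mem_coe.1 hγ)).2
      refine ⟨fun P => (γ P).1, Finset.mem_coe.2 (Finset.mem_univ _), ?_⟩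
      funext P
      have h1 := (Finset.mem_filter.1 (hγ' P)).2
      exact Prod.ext rfl h1
    · intro c _
      change κ₀ ^ 2 * (Bs α c ^ 2 * _) = κ₀ ^ 2 * (Bs α (fun P => c P) * Bs α (fun P => c P)) *
        ∏ P : Ix F w R, |e1 P.1 (c P) (c P)|
      have h1 : ∏ P : Ix F w R, |e1 P.1 (c P) (c P)| =
          ∏ P : Ix F w R, (c P).elim 1 (fun _ => vP P.1) := by
        refine Finset.prod_congr rfl fun P _ => ?_
        rw [s1_e1_diag]
        rcases c P with _ | j
        · exact abs_one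
        · exact abs_of_nonneg (hv P)
      rw [h1]
      ring
  have htt : ∏ P : Ix F w R, (1 + (Fintype.card (Option K × Option K) : ℝ) * vP P.1 ^ 2) =
      tt F (((Fintype.card K : ℝ) + 1) ^ 2) w R := by
    unfold tt
    rw [prod_Ix (fun P => 1 + (Fintype.card (Option K × Option K) : ℝ) * vP P ^ 2)]
    refine Finset.prod_congr rfl fun P _ => ?_
    rw [Fintype.card_prod, Fintype.card_option]
    push_cast
    ring
  rw [hmain, htt] at key
  rw [hsum]
  refine key.trans ?_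
  have htt0 : 0 ≤ tt F (((Fintype.card K : ℝ) + 1) ^ 2) w R := by
    rw [← htt]
    exact Finset.prod_nonneg fun P _ => by positivity
  calc tt F (((Fintype.card K : ℝ) + 1) ^ 2) w R * (κ₀ ^ 2 * ∑ c : Ix F w R → Option K,
        Bs α c ^ 2 * ∏ P : Ix F w R, (c P).elim 1 (fun _ => vP P.1))
      ≤ tt F (((Fintype.card K : ℝ) + 1) ^ 2) w R * (κ₀ ^ 2 * Gam F w R α ^ Fintype.card K) :=
        mul_le_mul_of_nonneg_left (mul_le_mul_of_nonneg_left (col_Gam w R α hα) (sq_nonneg _)) htt0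
    _ = _ := by ring

end Pool.Agent.H10.FF
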