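import Pool.Agent.H10.FF.S2exp
import Pool.Agent.H10.FF.BV

/-!
JOB FF-C7 (MP_a1f59e_nt). The error of the second moment in terms of the distribution of irreducibles.

PROOF of `Cn_count`. `x ↦ nn w N a x l = WW * (X ^ N + pol x) + a l` is a bijection from `Fin N → F` onto the monic polynomials `n` of
degree `M` with `WW ∣ n - a l`, equivalently `P ∣ n - a l` for all `P ∈ PR F 0 w` (`prod_dvd_of_forall`); for the
inverse divide: `n - a l = WW * y`, `y` monic of degree `N`, `y = X ^ N + pol x`. And `nn i = nn l - (a l - a i)`, so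
`P ∣ nn i ↔ P ∣ n - (a l - a i)`. `cc` is the residue function: `a l` on `PR F 0 w`, `(a l - a i)` if `j P = some i`, and `1` elsewhere.
PROOF of `Er_eq`. `pst * ∏_{j P ≠ none} v_P = q ^ (-N) #irrs M / phi (PR F 0 w ∪ D)`, `D = supp j` (disjoint from `PR F 0 w`).
PROOF of `S2_err`. For every finset `D ⊆ PR F w R` the colourings `j` with support `D` and values `≠ some l` are at most `k ^ #D`; let
`j_D` be one with the largest `|Er|` (if there is one; `card K = 1` and `D ≠ ∅`: none) and `cc D = cc (j_D)` (and `1` if there is none, or `D` not a subset).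
`¬ P ∣ cc D P` because these are nonzero constants (`a l ≠ 0`, `a l ≠ a i`, `not_dvd_C`). The sum over `j` with `dgt j ≤ 2 R` is at
most `∑_D k ^ #D (2 (k+1)^2) ^ #D ∏_{P ∉ D} (1 + (k+1)^2 v_P) |Er j_D|`, `8 R ≤ M` gives `4 dg D ≤ M`. ~250 lines.
-/

namespace Pool.Agent.H10.FF

open Polynomial Finset
open scoped Classical

variable {F : Type} [Field F] [Fintype F] {K : Type} [Fintype K] [DecidableEq K]

/-- the error term of `bv` -/
noncomputable def Ebv (F : Type) [Field F] [Fintype F] (w M : ℕ) (c : F[X] → F[X])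
    (D : Finset F[X]) : ℝ :=
  |((((irrs F M).filter (fun n => ∀ P ∈ PR F 0 w ∪ D, P ∣ n - c P)).card : ℕ) : ℝ) -
    ((irrs F M).card : ℝ) / phi (PR F 0 w ∪ D)|

/-- residues prescribed by a colouring -/
noncomputable def cj {w R : ℕ} (a : K → F[X]) (l : K) (j : Ix F w R → Option K) (P : F[X]) : F[X] :=
  if h : P ∈ PR F w R then (j ⟨P, h⟩).elim 1 (fun i => (a l - a i)) else
    if P ∈ PR F 0 w then a l else 1

private theorem s2err_ind_one {w R : ℕ} (n : K → F[X]) (j : Ix F w R → Option K)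
    (h : ∀ (P : Ix F w R) (i : K), j P = some i → P.1 ∣ n i) :
    ∏ P : Ix F w R, ind P.1 n (j P) = 1 := by
  refine Finset.prod_eq_one fun P _ => ?_
  rcases hj : j P with _ | i
  · rfl
  · change (if P.1 ∣ n i then (1 : ℝ) else 0) = 1
    rw [if_pos (h P i hj)]

private theorem s2err_ind_zero {w R : ℕ} (n : K → F[X]) (j : Ix F w R → Option K)
    (h : ¬ ∀ (P : Ix F w R) (i : K), j P = some i → P.1 ∣ n i) :
    ∏ P : Ix F w R, ind P.1 n (j P) = 0 := by
  push Not at h
  obtain ⟨P, i, hj, hd⟩ := h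
  refine Finset.prod_eq_zero (Finset.mem_univ P) ?_
  rw [hj]
  change (if P.1 ∣ n i then (1 : ℝ) else 0) = 0
  rw [if_neg hd]

private theorem s2err_cj_small {w R : ℕ} (a : K → F[X]) (l : K) (j : Ix F w R → Option K)
    {P : F[X]} (hP : P ∈ PR F 0 w) : cj a l j P = a l := by
  unfold cj
  rw [dif_neg (Finset.disjoint_left.1 PR_disj hP), if_pos hP]

private theorem s2err_cj_ix {w R : ℕ} (a : K → F[X]) (l : K) (j : Ix F w R → Option K)
    {P : Ix F w R} {i : K} (h : j P = some i) : cj a l j P.1 = (a l - a i) := by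
  unfold cj
  rw [dif_pos P.2]
  change (j P).elim 1 (fun i => (a l - a i)) = _
  rw [h]
  rfl

private theorem s2err_nn_sub (w N : ℕ) (a : K → F[X]) (l : K) (x : Fin N → F) :
    nn w N a x l - a l = (∏ P ∈ PR F 0 w, P) * (X ^ N + pol x) := by
  unfold nn WW
  ring

private theorem s2err_nn_sub2 (w N : ℕ) (a : K → F[X]) (l i : K) (x : Fin N → F) :
    nn w N a x l - (a l - a i) = nn w N a x i := by
  unfold nn
  ring

theorem Cn_count {w R : ℕ} (N : ℕ) (a : K → F[X])
    (hd : ∀ i, (a i).natDegree < N + (WW F w).natDegree) (l : K)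
    (j : Ix F w R → Option K) :
    Cn w N R a l j = ((((irrs F (N + (WW F w).natDegree)).filter (fun n => ∀ P ∈ PR F 0 w ∪
      vl (univ.filter (fun P : Ix F w R => j P ≠ none)), P ∣ n - cj a l j P)).card : ℕ) : ℝ) /
        (Fintype.card F : ℝ) ^ N := by
  unfold Cn av
  rw [Fintype.card_fun, Fintype.card_fin, Nat.cast_pow]
  congr 1
  have h1 : ∀ x : Fin N → F, (if Irreducible (nn w N a x l) then (1 : ℝ) else 0) *
      ∏ P : Ix F w R, ind P.1 (nn w N a x) (j P) =
      if (Irreducible (nn w N a x l) ∧ ∀ (P : Ix F w R) (i : K), j P = some i →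
        P.1 ∣ nn w N a x i) then 1 else 0 := by
    intro x
    by_cases h2 : ∀ (P : Ix F w R) (i : K), j P = some i → P.1 ∣ nn w N a x i
    · rw [s2err_ind_one _ j h2, mul_one]
      by_cases h3 : Irreducible (nn w N a x l)
      · rw [if_pos h3, if_pos ⟨h3, h2⟩]
      · rw [if_neg h3, if_neg (fun h => h3 h.1)]
    · rw [s2err_ind_zero _ j h2, mul_zero, if_neg (fun h => h2 h.2)]
  rw [Finset.sum_congr rfl fun x _ => h1 x, Finset.sum_boole]
  congr 1
  refine Finset.card_bij (fun x _ => nn w N a x l) ?_ ?_ ?_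
  · intro x hx
    obtain ⟨-, hirr, hdv⟩ := Finset.mem_filter.1 hx
    refine Finset.mem_filter.2 ⟨mem_irrs.2 ⟨nn_monic w N a hd x l, hirr,
      nn_natDegree w N a hd x l⟩, ?_⟩
    intro P hP
    rcases Finset.mem_union.1 hP with hP | hP
    · rw [s2err_cj_small a l j hP, s2err_nn_sub]
      exact (Finset.dvd_prod_of_mem _ hP).mul_right _
    · obtain ⟨Q, hQ, rfl⟩ := Finset.mem_map.1 hP
      obtain ⟨i, hi⟩ := Option.ne_none_iff_exists'.1 (Finset.mem_filter.1 hQ).2
      change Q.1 ∣ nn w N a x l - cj a l j Q.1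
      rw [s2err_cj_ix a l j hi, s2err_nn_sub2]
      exact hdv Q i hi
  · intro x _ x' _ h
    have h2 : WW F w * (X ^ N + pol x) = WW F w * (X ^ N + pol x') := add_right_cancel h
    exact pol_inj (add_left_cancel (mul_left_cancel₀ (WW_monic w).ne_zero h2))
  · intro n hn
    obtain ⟨hn, hdv⟩ := Finset.mem_filter.1 hn
    obtain ⟨hm, hirr, hdeg⟩ := mem_irrs.1 hn
    have h2 : WW F w ∣ n - a l := by
      refine prod_dvd_of_forall (PR F 0 w) (fun P hP => ⟨(mem_PR.1 hP).1, (mem_PR.1 hP).2.1⟩)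
        (n - a l) fun P hP => ?_
      have h3 := hdv P (Finset.mem_union_left _ hP)
      rw [s2err_cj_small a l j hP] at h3
      exact h3
    obtain ⟨y, hy⟩ := h2
    have h3 : (n - a l).Monic := by
      refine hm.sub_of_left (lt_of_le_of_lt degree_le_natDegree ?_)
      rw [degree_eq_natDegree hm.ne_zero, hdeg]
      exact_mod_cast hd l
    rw [hy] at h3
    have h4 : y.Monic := (WW_monic w).of_mul_monic_left h3
    have h5 : y.natDegree = N := by
      have h6 : (n - a l).natDegree = N + (WW F w).natDegree := by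
        rw [natDegree_sub_eq_left_of_natDegree_lt (by rw [hdeg]; exact hd l), hdeg]
      rw [hy, (WW_monic w).natDegree_mul h4] at h6
      omega
    have h6 : (y - X ^ N).degree < ((N : ℕ) : WithBot ℕ) := by
      have h7 : y.degree = (X ^ N : F[X]).degree := by
        rw [degree_eq_natDegree h4.ne_zero, h5, degree_X_pow]
      have h8 := degree_sub_lt_left h7 h4.ne_zero (by
        rw [h4.leadingCoeff, (monic_X_pow N).leadingCoeff])
      rw [degree_eq_natDegree h4.ne_zero, h5] at h8
      exact h8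
    have h7 := pol_surj (y - X ^ N) h6
    obtain ⟨x, h8⟩ : ∃ x : Fin N → F, nn w N a x l = n := by
      refine ⟨fun i : Fin N => (y - X ^ N).coeff i, ?_⟩
      unfold nn
      rw [h7, add_sub_cancel, ← hy, sub_add_cancel]
    refine ⟨x, Finset.mem_filter.2 ⟨Finset.mem_univ _, ?_, ?_⟩, h8⟩
    · rw [h8]
      exact hirr
    · intro P i hi
      have h9 := hdv P.1 (Finset.mem_union_right _ (Finset.mem_map.2 ⟨P,
        Finset.mem_filter.2 ⟨Finset.mem_univ _, by rw [hi]; exact Option.some_ne_none i⟩, rfl⟩))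
      rw [s2err_cj_ix a l j hi, ← h8, s2err_nn_sub2] at h9
      exact h9

private theorem s2err_vl_sub {w R : ℕ} (S : Finset (Ix F w R)) : vl S ⊆ PR F w R := by
  intro P hP
  obtain ⟨Q, _, rfl⟩ := Finset.mem_map.1 hP
  exact Q.2

theorem Er_eq {w R : ℕ} (N : ℕ) (a : K → F[X])
    (hd : ∀ i, (a i).natDegree < N + (WW F w).natDegree) (l : K)
    (j : Ix F w R → Option K) :
    |Er w N R a l j| = Ebv F w (N + (WW F w).natDegree) (cj a l j)
      (vl (univ.filter (fun P : Ix F w R => j P ≠ none))) / (Fintype.card F : ℝ) ^ N := by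
  have hsub : vl (univ.filter (fun P : Ix F w R => j P ≠ none)) ⊆ PR F w R := s2err_vl_sub _
  have hdis : Disjoint (PR F 0 w) (vl (univ.filter (fun P : Ix F w R => j P ≠ none))) :=
    Finset.disjoint_of_subset_right hsub PR_disj
  have hphi : phi (PR F 0 w ∪ vl (univ.filter (fun P : Ix F w R => j P ≠ none))) =
      phi (PR F 0 w) * phi (vl (univ.filter (fun P : Ix F w R => j P ≠ none))) := by
    unfold phi
    rw [Finset.prod_union hdis]
  have hprod : ∏ P : Ix F w R, (j P).elim 1 (fun _ => vP P.1) =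
      1 / phi (vl (univ.filter (fun P : Ix F w R => j P ≠ none))) := by
    unfold phi
    rw [one_div, ← Finset.prod_inv_distrib, prod_vl, Finset.prod_filter]
    refine Finset.prod_congr rfl fun P _ => ?_
    rcases h : j P with _ | i
    · rw [if_neg (by simp)]
      rfl
    · rw [if_pos (Option.some_ne_none i), ← one_div]
      rfl
  have hq : (0 : ℝ) < (Fintype.card F : ℝ) ^ N :=
    pow_pos (lt_of_lt_of_le two_pos (card_ge_two (F := F))) _
  have hp1 : 0 < phi (PR F 0 w) := phi_pos _ (Finset.Subset.refl _)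
  have hp2 : 0 < phi (vl (univ.filter (fun P : Ix F w R => j P ≠ none))) := phi_pos _ hsub
  unfold Er Ebv
  rw [Cn_count N a hd l j, hprod, hphi]
  unfold pst
  rw [← abs_of_pos hq, ← abs_div, abs_of_pos hq]
  congr 1
  field_simp

private theorem s2err_not_dvd {w R M : ℕ} (a : K → F[X])
    (ha : Dif w R a) (ha0 : ∀ i, ∀ P ∈ PR F 0 w, ¬ P ∣ a i) (l : K) (j : Ix F w R → Option K)
    (hj : ∀ P, j P ≠ some l) {P : F[X]} (hP : P ∈ PR F 0 M) : ¬ P ∣ cj a l j P := by
  have hone : ¬ P ∣ (1 : F[X]) := fun h =>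
    (mem_PR.1 hP).2.1.not_isUnit (isUnit_of_dvd_one h)
  unfold cj
  by_cases h : P ∈ PR F w R
  · rw [dif_pos h]
    rcases hjP : j ⟨P, h⟩ with _ | i
    · exact hone
    · change ¬ P ∣ (a l - a i)
      refine ha l i ?_ P h
      rintro rfl
      exact hj _ hjP
  · rw [dif_neg h]
    by_cases h2 : P ∈ PR F 0 w
    · rw [if_pos h2]
      exact ha0 l P h2
    · rw [if_neg h2]
      exact hone

private theorem s2err_dgI {w R : ℕ} (j : Ix F w R → Option K) :
    dgI (univ.filter (fun P : Ix F w R => j P ≠ none)) = dgt j := by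
  unfold dgI dgt
  rw [Finset.sum_filter]
  refine Finset.sum_congr rfl fun P _ => ?_
  by_cases h : j P = none
  · rw [if_neg (not_not.2 h), if_pos h]
  · rw [if_pos h, if_neg h]

private theorem s2err_card {w R : ℕ} (S : Finset (Ix F w R)) : (vl S).card = S.card :=
  Finset.card_map _

private theorem s2err_weight {w R : ℕ} (j : Ix F w R → Option K) :
    ∏ P : Ix F w R, (j P).elim (1 + ((Fintype.card K : ℝ) + 1) ^ 2 * vP P.1)
        (fun _ => 2 * ((Fintype.card K : ℝ) + 1) ^ 2) ≤
      (∏ P ∈ PR F w R, (1 + ((Fintype.card K : ℝ) + 1) ^ 2 * vP P)) *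
        (2 * ((Fintype.card K : ℝ) + 1) ^ 2) ^
          (vl (univ.filter (fun P : Ix F w R => j P ≠ none))).card := by
  rw [s2err_card, ← prod_Ix, ← Finset.prod_const, Finset.prod_filter, ← Finset.prod_mul_distrib]
  refine Finset.prod_le_prod (fun P _ => ?_) fun P _ => ?_
  · have h0 := (vP_pos P.2).le
    rcases j P with _ | i
    · change 0 ≤ 1 + ((Fintype.card K : ℝ) + 1) ^ 2 * vP P.1
      positivity
    · change 0 ≤ 2 * ((Fintype.card K : ℝ) + 1) ^ 2
      positivity
  · have h0 := (vP_pos P.2).le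
    rcases j P with _ | i
    · change 1 + ((Fintype.card K : ℝ) + 1) ^ 2 * vP P.1 ≤ _
      rw [if_neg (by simp), mul_one]
    · change 2 * ((Fintype.card K : ℝ) + 1) ^ 2 ≤ _
      rw [if_pos (Option.some_ne_none i)]
      refine le_mul_of_one_le_left (by positivity) ?_
      have : 0 ≤ ((Fintype.card K : ℝ) + 1) ^ 2 * vP P.1 := by positivity
      linarith

private theorem s2err_count {w R : ℕ} (J : Finset (Ix F w R → Option K)) (D : Finset F[X]) :
    ((J.filter (fun j => vl (univ.filter (fun P : Ix F w R => j P ≠ none)) = D)).card : ℝ) ≤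
      (Fintype.card K : ℝ) ^ D.card := by
  rcases Finset.eq_empty_or_nonempty (J.filter (fun j : Ix F w R → Option K => vl (univ.filter
      (fun P : Ix F w R => j P ≠ none)) = D)) with h | ⟨j0, hj0⟩
  · rw [h, Finset.card_empty, Nat.cast_zero]
    positivity
  · have h0 := (Finset.mem_filter.1 hj0).2
    set S := univ.filter (fun P : Ix F w R => j0 P ≠ none) with hS
    have h1 : J.filter (fun j => vl (univ.filter (fun P : Ix F w R => j P ≠ none)) = D) ⊆
        Fintype.piFinset (fun P : Ix F w R => if P ∈ S then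
          (univ : Finset K).image some else {none}) := by
      intro j hj
      have h2 := (Finset.mem_filter.1 hj).2
      have h3 : univ.filter (fun P : Ix F w R => j P ≠ none) = S :=
        Finset.map_injective _ (h2.trans h0.symm)
      rw [Fintype.mem_piFinset]
      intro P
      by_cases hP : P ∈ S
      · rw [if_pos hP]
        rw [← h3] at hP
        obtain ⟨i, hi⟩ := Option.ne_none_iff_exists'.1 (Finset.mem_filter.1 hP).2
        rw [hi]
        exact Finset.mem_image_of_mem _ (Finset.mem_univ i)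
      · rw [if_neg hP, Finset.mem_singleton]
        rw [← h3] at hP
        by_contra h4
        exact hP (Finset.mem_filter.2 ⟨Finset.mem_univ _, h4⟩)
    have h2 := Finset.card_le_card h1
    rw [Fintype.card_piFinset] at h2
    have h3 : ∏ P : Ix F w R, (if P ∈ S then (univ : Finset K).image some else {none}).card =
        Fintype.card K ^ D.card := by
      rw [← h0, s2err_card, ← Finset.prod_const, ← Finset.prod_filter_mul_prod_filter_not univ
        (fun P => P ∈ S)]
      have h4 : ∏ P ∈ univ.filter (fun P => P ∉ S), (if P ∈ S then (univ : Finset K).image some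
          else {none}).card = 1 :=
        Finset.prod_eq_one fun P hP => by
          rw [if_neg (Finset.mem_filter.1 hP).2, Finset.card_singleton]
      rw [h4, mul_one, Finset.filter_mem_eq_inter, Finset.univ_inter]
      refine Finset.prod_congr rfl fun P hP => ?_
      rw [if_pos hP, Finset.card_image_of_injective _ (Option.some_injective K), Finset.card_univ]
    rw [h3] at h2
    exact_mod_cast h2

theorem S2_err {w R : ℕ} (N : ℕ) (hR : 8 * R ≤ N + (WW F w).natDegree) (a : K → F[X])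
    (ha : Dif w R a) (ha0 : ∀ i, ∀ P ∈ PR F 0 w, ¬ P ∣ a i)
    (hd : ∀ i, (a i).natDegree < N + (WW F w).natDegree) (l : K) :
    ∃ cc : Finset F[X] → F[X] → F[X],
      (∀ D, ∀ P ∈ PR F 0 (N + (WW F w).natDegree), ¬ P ∣ cc D P) ∧
      ∑ j ∈ univ.filter (fun j : Ix F w R → Option K => (∀ P, j P ≠ some l) ∧ dgt j ≤ 2 * R),
        (∏ P : Ix F w R, (j P).elim (1 + ((Fintype.card K : ℝ) + 1) ^ 2 * vP P.1)
          (fun _ => 2 * ((Fintype.card K : ℝ) + 1) ^ 2)) * |Er w N R a l j| ≤
      (∏ P ∈ PR F w R, (1 + ((Fintype.card K : ℝ) + 1) ^ 2 * vP P)) *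
        (∑ D ∈ (PR F w (N + (WW F w).natDegree)).powerset.filter
            (fun D => 4 * dg D ≤ N + (WW F w).natDegree),
          (2 * Fintype.card K * ((Fintype.card K : ℝ) + 1) ^ 2) ^ D.card *
            Ebv F w (N + (WW F w).natDegree) (cc D) D) / (Fintype.card F : ℝ) ^ N := by
  have hq : (0 : ℝ) < (Fintype.card F : ℝ) ^ N :=
    pow_pos (lt_of_lt_of_le two_pos (card_ge_two (F := F))) _
  have key : ∀ D : Finset F[X], ∃ c : F[X] → F[X],
      (∀ P ∈ PR F 0 (N + (WW F w).natDegree), ¬ P ∣ c P) ∧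
      ∀ j : Ix F w R → Option K, (∀ P, j P ≠ some l) →
        vl (univ.filter (fun P : Ix F w R => j P ≠ none)) = D →
        |Er w N R a l j| ≤ Ebv F w (N + (WW F w).natDegree) c D / (Fintype.card F : ℝ) ^ N := by
    intro D
    by_cases hne : (univ.filter (fun j : Ix F w R → Option K => (∀ P, j P ≠ some l) ∧
        vl (univ.filter (fun P : Ix F w R => j P ≠ none)) = D)).Nonempty
    · obtain ⟨j0, hj0, hmax⟩ := Finset.exists_max_image _ (fun j => |Er w N R a l j|) hne
      obtain ⟨-, hj1, hj2⟩ := Finset.mem_filter.1 hj0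
      refine ⟨cj a l j0, fun P hP => s2err_not_dvd a ha ha0 l j0 hj1 hP, fun j h1 h2 => ?_⟩
      refine (hmax j (Finset.mem_filter.2 ⟨Finset.mem_univ _, h1, h2⟩)).trans ?_
      change |Er w N R a l j0| ≤ _
      rw [Er_eq N a hd l j0, hj2]
    · refine ⟨fun _ => 1, fun P hP h => (mem_PR.1 hP).2.1.not_isUnit (isUnit_of_dvd_one h),
        fun j h1 h2 => ?_⟩
      exact absurd ⟨j, Finset.mem_filter.2 ⟨Finset.mem_univ _, h1, h2⟩⟩ hne
  choose cc hcc1 hcc2 using key
  refine ⟨cc, hcc1, ?_⟩
  have hk : (0 : ℝ) ≤ Fintype.card K := Nat.cast_nonneg _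
  have hPi : 0 ≤ ∏ P ∈ PR F w R, (1 + ((Fintype.card K : ℝ) + 1) ^ 2 * vP P) :=
    Finset.prod_nonneg fun P hP => by
      have := vP_pos hP
      positivity
  set Q0 := ∏ P ∈ PR F w R, (1 + ((Fintype.card K : ℝ) + 1) ^ 2 * vP P) with hQ0
  have hEbv : ∀ D, 0 ≤ Ebv F w (N + (WW F w).natDegree) (cc D) D := fun D => abs_nonneg _
  set J := univ.filter (fun j : Ix F w R → Option K => (∀ P, j P ≠ some l) ∧ dgt j ≤ 2 * R)
    with hJ
  set T := (PR F w (N + (WW F w).natDegree)).powerset.filter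
    (fun D => 4 * dg D ≤ N + (WW F w).natDegree) with hT
  have h1 : ∀ j ∈ J, (∏ P : Ix F w R, (j P).elim (1 + ((Fintype.card K : ℝ) + 1) ^ 2 * vP P.1)
        (fun _ => 2 * ((Fintype.card K : ℝ) + 1) ^ 2)) * |Er w N R a l j| ≤
      (fun D => Q0 * ((2 * ((Fintype.card K : ℝ) + 1) ^ 2) ^ D.card *
        (Ebv F w (N + (WW F w).natDegree) (cc D) D / (Fintype.card F : ℝ) ^ N)))
        (vl (univ.filter (fun P : Ix F w R => j P ≠ none))) := by
    intro j hj
    obtain ⟨-, hj1, hj2⟩ := Finset.mem_filter.1 hj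
    have h2 := s2err_weight j
    have h3 := hcc2 _ j hj1 rfl
    calc _ ≤ (Q0 * (2 * ((Fintype.card K : ℝ) + 1) ^ 2) ^
          (vl (univ.filter (fun P : Ix F w R => j P ≠ none))).card) *
          (Ebv F w (N + (WW F w).natDegree)
            (cc (vl (univ.filter (fun P : Ix F w R => j P ≠ none))))
            (vl (univ.filter (fun P : Ix F w R => j P ≠ none))) / (Fintype.card F : ℝ) ^ N) :=
          mul_le_mul h2 h3 (abs_nonneg _) (mul_nonneg hPi (by positivity))
      _ = _ := mul_assoc _ _ _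
  have hmaps : ∀ j ∈ J, vl (univ.filter (fun P : Ix F w R => j P ≠ none)) ∈ T := by
    intro j hj
    obtain ⟨-, hj1, hj2⟩ := Finset.mem_filter.1 hj
    refine Finset.mem_filter.2 ⟨Finset.mem_powerset.2 ((s2err_vl_sub _).trans
      (PR_subset le_rfl (by omega))), ?_⟩
    rw [dg_vl, s2err_dgI]
    omega
  refine (Finset.sum_le_sum h1).trans ?_
  rw [← Finset.sum_fiberwise_of_maps_to hmaps]
  have h4 : ∀ D ∈ T, ∑ j ∈ J.filter (fun j => vl (univ.filter (fun P : Ix F w R => j P ≠ none)) = D),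
      (fun D => Q0 * ((2 * ((Fintype.card K : ℝ) + 1) ^ 2) ^ D.card *
        (Ebv F w (N + (WW F w).natDegree) (cc D) D / (Fintype.card F : ℝ) ^ N)))
        (vl (univ.filter (fun P : Ix F w R => j P ≠ none))) ≤
      Q0 * ((2 * Fintype.card K * ((Fintype.card K : ℝ) + 1) ^ 2) ^ D.card *
        Ebv F w (N + (WW F w).natDegree) (cc D) D / (Fintype.card F : ℝ) ^ N) := by
    intro D _
    rw [Finset.sum_congr rfl fun j hj => by rw [(Finset.mem_filter.1 hj).2], Finset.sum_const,
      nsmul_eq_mul]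
    have h5 := s2err_count J D
    have h6 : 0 ≤ Q0 * ((2 * ((Fintype.card K : ℝ) + 1) ^ 2) ^ D.card *
        (Ebv F w (N + (WW F w).natDegree) (cc D) D / (Fintype.card F : ℝ) ^ N)) :=
      mul_nonneg hPi (mul_nonneg (by positivity) (div_nonneg (hEbv D) hq.le))
    refine (mul_le_mul_of_nonneg_right h5 h6).trans (le_of_eq ?_)
    have h7 : (2 * (Fintype.card K : ℝ) * ((Fintype.card K : ℝ) + 1) ^ 2) ^ D.card =
        (Fintype.card K : ℝ) ^ D.card * (2 * ((Fintype.card K : ℝ) + 1) ^ 2) ^ D.card := by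
      rw [← mul_pow]
      congr 1
      ring
    rw [h7]
    ring
  refine (Finset.sum_le_sum h4).trans (le_of_eq ?_)
  rw [← Finset.mul_sum, ← Finset.sum_div, mul_div_assoc]

end Pool.Agent.H10.FF
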