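import Pool.Agent.H10.FF.S2main
import Pool.Agent.H10.FF.Tail

/-!
JOB FF-C9 (MP_a1f59e_nt). Lower bound for the main term of the second moment, second part.

NOTATION. `v' = v / (1 + v) ^ 2`, `Y = TS F w R (R / 4) (bet α)`, `Γ = Gam F w R α`, `Γd = TS F w R R (d ↦ d * bet α d ^ 2)`.
PROOF of `inner_low`. Let `4 dgt c0 ≤ R`. For `s ∈ fre c0` with `dgI s ≤ R / 4`: the colour classes of `cmb l c0 s` are `s` (colour `l`) and
those of `c0`, so `BB (cmb l c0 s) = (∏ bet (dgi c0 i)) bet (dgI s) (1 - (dgt c0 + dgI s)/R) ≥ (1/2) (∏ ..) bet (dgI s)`. And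
`Y = ∑_{s, dgI s ≤ R/4} bet (dgI s) ∏_s v ≤ ∏_{supp c0} (1 + v) * ∑_{s ∈ fre c0, dgI s ≤ R/4} bet (dgI s) ∏_s v`: split `s` into
`s₁ = s ∩ supp c0` and `s₂ = s \ supp c0`, `bet (dgI s) ≤ bet (dgI s₂)`, `∑_{s₁ ⊆ supp c0} ∏ v = ∏ (1 + v)`.
PROOF of `outer_low`. `tuple_le_col` (colours `L`, `v' = v / (1+v)^2`, `v - v' ≤ 3 v ^ 2`) with `Wt t = (∏ i, bet (dgI (t i)) ^ 2) [4 ∑ i, dgI (t i) ≤ R]`:
`tt * (sum over c0) ≥ ∑_t Wt t ∏ v ≥ ∑_{t, all dgI (t i) ≤ R} (∏ bet ^ 2 ∏ v) (1 - 4 ∑ dgI (t i) / R) = Γ ^ k' - (4/R) k' Γd Γ ^ (k' - 1)`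
(`tuple_prod`; for the term with `dgI (t i)` the factor `i` is `Γd`), and this is `≥ Γ ^ k' / 2` if `8 k' Γd ≤ R Γ`, `k' = card L`. (`k' = 0`: clear.)
PROOF of `S2_low`. `S2_core`, `S2_triples`, keep the `c0` with `4 dgt c0 ≤ R`, `inner_low` squared:
`∏ v * (1/4) ∏ bet ^ 2 Y ^ 2 / ∏ (1+v) ^ 2`, then `outer_low` with `L = {i // i ≠ l}` (`card = card K - 1`, `card K ≥ 1`):
`(2 - 11/10) (1/4) Y² (1/2) Γ^(k-1) / (11/10) ≥ (1/16) Y² Γ^(k-1)`. ~300 lines (may be split).
-/

namespace Pool.Agent.H10.FF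

open Polynomial Finset
open scoped Classical

variable {F : Type} [Field F] [Fintype F] {K : Type} [Fintype K] [DecidableEq K]

omit [Fintype K] [DecidableEq K] in
private theorem sl_cmb {w R : ℕ} (l : K) (c0 : Ix F w R → Option {i : K // i ≠ l})
    (s : Finset (Ix F w R)) (P : Ix F w R) : cmb l c0 s P = some l ↔ P ∈ s := by
  unfold cmb
  by_cases h : P ∈ s
  · rw [if_pos h]
    exact ⟨fun _ => h, fun _ => rfl⟩
  · rw [if_neg h]
    refine ⟨fun h2 => ?_, fun h2 => absurd h2 h⟩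
    rw [Option.map_eq_some_iff] at h2
    obtain ⟨a, _, ha⟩ := h2
    exact absurd ha a.2

private theorem sl_fre {w R : ℕ} {L : Type} {c0 : Ix F w R → Option L} {s : Finset (Ix F w R)}
    (hs : s ∈ fre c0) {P : Ix F w R} (hP : P ∈ s) : c0 P = none :=
  (Finset.mem_filter.1 hs).2 P hP

omit [Fintype K] [DecidableEq K] in
private theorem sl_cmb' {w R : ℕ} (l : K) (c0 : Ix F w R → Option {i : K // i ≠ l})
    {s : Finset (Ix F w R)} (hs : s ∈ fre c0) (i : {i : K // i ≠ l}) (P : Ix F w R) :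
    cmb l c0 s P = some i.1 ↔ c0 P = some i := by
  unfold cmb
  by_cases h : P ∈ s
  · rw [if_pos h, sl_fre hs h]
    refine ⟨fun h2 => absurd (Option.some.inj h2).symm i.2, fun h2 => absurd h2 (by simp)⟩
  · rw [if_neg h, Option.map_eq_some_iff]
    constructor
    · rintro ⟨a, ha, hai⟩
      rw [ha, Subtype.ext hai]
    · intro h2
      exact ⟨i, h2, rfl⟩

omit [Fintype K] [DecidableEq K] in
private theorem sl_cmb_none {w R : ℕ} (l : K) (c0 : Ix F w R → Option {i : K // i ≠ l})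
    (s : Finset (Ix F w R)) (P : Ix F w R) (hP : P ∉ s) : cmb l c0 s P = none ↔ c0 P = none := by
  unfold cmb
  rw [if_neg hP, Option.map_eq_none_iff]

omit [Fintype K] in
private theorem sl_dgi_l {w R : ℕ} (l : K) (c0 : Ix F w R → Option {i : K // i ≠ l})
    (s : Finset (Ix F w R)) : dgi (cmb l c0 s) l = dgI s := by
  rw [dgi_eq]
  congr 1
  ext P
  rw [cls, Finset.mem_filter]
  exact ⟨fun h => (sl_cmb l c0 s P).1 h.2, fun h => ⟨Finset.mem_univ _, (sl_cmb l c0 s P).2 h⟩⟩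

omit [Fintype K] in
private theorem sl_dgi_i {w R : ℕ} (l : K) (c0 : Ix F w R → Option {i : K // i ≠ l})
    {s : Finset (Ix F w R)} (hs : s ∈ fre c0) (i : {i : K // i ≠ l}) :
    dgi (cmb l c0 s) i.1 = dgi c0 i := by
  unfold dgi
  refine Finset.sum_congr rfl fun P _ => ?_
  by_cases h : c0 P = some i
  · rw [if_pos h, if_pos ((sl_cmb' l c0 hs i P).2 h)]
  · rw [if_neg h, if_neg fun h2 => h ((sl_cmb' l c0 hs i P).1 h2)]

omit [Fintype K] [DecidableEq K] in
private theorem sl_dgt {w R : ℕ} (l : K) (c0 : Ix F w R → Option {i : K // i ≠ l})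
    {s : Finset (Ix F w R)} (hs : s ∈ fre c0) : dgt (cmb l c0 s) = dgI s + dgt c0 := by
  have h1 : dgI s = ∑ P : Ix F w R, if P ∈ s then P.1.natDegree else 0 := by
    unfold dgI
    rw [← Finset.sum_filter]
    congr 1
    ext P
    simp
  rw [h1]
  unfold dgt
  rw [← Finset.sum_add_distrib]
  refine Finset.sum_congr rfl fun P _ => ?_
  by_cases hP : P ∈ s
  · rw [if_pos hP, if_pos (sl_fre hs hP), if_neg, Nat.add_zero]
    rw [(sl_cmb l c0 s P).2 hP]
    simp
  · rw [if_neg hP, Nat.zero_add]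
    by_cases h : c0 P = none
    · rw [if_pos h, if_pos ((sl_cmb_none l c0 s P hP).2 h)]
    · rw [if_neg h, if_neg fun h2 => h ((sl_cmb_none l c0 s P hP).1 h2)]

private theorem sl_BB {w R : ℕ} {α : ℝ} (hα : 0 ≤ α) (l : K)
    (c0 : Ix F w R → Option {i : K // i ≠ l}) (h : 4 * dgt c0 ≤ R)
    {s : Finset (Ix F w R)} (hs : s ∈ fre c0) (hd : dgI s ≤ R / 4) :
    (1 / 2) * ((∏ i, bet α (dgi c0 i)) * bet α (dgI s)) ≤ BB α (cmb l c0 s) := by
  unfold BB
  have h1 : ∏ i : K, bet α (dgi (cmb l c0 s) i) =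
      bet α (dgI s) * ∏ i : {i : K // i ≠ l}, bet α (dgi c0 i) := by
    rw [Fintype.prod_eq_mul_prod_subtype_ne (fun i => bet α (dgi (cmb l c0 s) i)) l, sl_dgi_l]
    congr 1
    exact Finset.prod_congr rfl fun i _ => by rw [sl_dgi_i l c0 hs i]
  have h2 : (1 / 2 : ℝ) ≤ max 0 (1 - (dgt (cmb l c0 s) : ℝ) / (R : ℝ)) := by
    refine le_trans ?_ (le_max_right _ _)
    rw [sl_dgt l c0 hs]
    have h3 : 2 * (dgI s + dgt c0) ≤ R := by omega
    have h4 : (2 : ℝ) * ((dgI s + dgt c0 : ℕ) : ℝ) ≤ R := by exact_mod_cast h3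
    have h5 : ((dgI s + dgt c0 : ℕ) : ℝ) / (R : ℝ) ≤ 1 / 2 :=
      div_le_of_le_mul₀ (Nat.cast_nonneg R) (by norm_num) (by linarith)
    linarith
  have h6 : 0 ≤ bet α (dgI s) * ∏ i : {i : K // i ≠ l}, bet α (dgi c0 i) :=
    mul_nonneg (bet_pos hα _).le (Finset.prod_nonneg fun _ _ => (bet_pos hα _).le)
  rw [h1]
  calc (1 / 2) * ((∏ i, bet α (dgi c0 i)) * bet α (dgI s))
      = bet α (dgI s) * (∏ i : {i : K // i ≠ l}, bet α (dgi c0 i)) * (1 / 2) := by ring
    _ ≤ _ := mul_le_mul_of_nonneg_left h2 h6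

private theorem sl_split {w R : ℕ} {L : Type} (c0 : Ix F w R → Option L)
    (G : Finset (Ix F w R) → ℝ) (hG0 : ∀ s, 0 ≤ G s)
    (hG : ∀ s, G s ≤ (∏ P ∈ s.filter (fun P => ¬ c0 P = none), vP P.1) *
      G (s.filter (fun P => c0 P = none))) :
    ∑ s, G s ≤ (∏ P : Ix F w R, (c0 P).elim 1 (fun _ => 1 + vP P.1)) * ∑ s ∈ fre c0, G s := by
  set S1 : Finset (Ix F w R) := univ.filter (fun P => ¬ c0 P = none) with hS1
  have h1 : ∏ P : Ix F w R, (c0 P).elim 1 (fun _ => 1 + vP P.1) =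
      ∑ t ∈ S1.powerset, ∏ P ∈ t, vP P.1 := by
    rw [← Finset.prod_one_add, hS1, Finset.prod_filter]
    refine Finset.prod_congr rfl fun P _ => ?_
    rcases h : c0 P with _ | j
    · simp
    · simp
  rw [h1, Finset.sum_mul_sum, ← Finset.sum_product']
  set φ : Finset (Ix F w R) → Finset (Ix F w R) × Finset (Ix F w R) := fun s =>
    (s.filter (fun P => ¬ c0 P = none), s.filter (fun P => c0 P = none)) with hφ
  have hinj : Function.Injective φ := by
    intro s t h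
    ext P
    by_cases hc : c0 P = none
    · have h2 : s.filter (fun P => c0 P = none) = t.filter (fun P => c0 P = none) :=
        congrArg Prod.snd h
      have h3 : P ∈ s.filter (fun P => c0 P = none) ↔ P ∈ t.filter (fun P => c0 P = none) := by
        rw [h2]
      simpa [hc] using h3
    · have h2 : s.filter (fun P => ¬ c0 P = none) = t.filter (fun P => ¬ c0 P = none) :=
        congrArg Prod.fst h
      have h3 : P ∈ s.filter (fun P => ¬ c0 P = none) ↔
          P ∈ t.filter (fun P => ¬ c0 P = none) := by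
        rw [h2]
      simpa [hc] using h3
  calc ∑ s, G s ≤ ∑ s, (∏ P ∈ (φ s).1, vP P.1) * G (φ s).2 :=
        Finset.sum_le_sum fun s _ => hG s
    _ = ∑ p ∈ univ.image φ, (∏ P ∈ p.1, vP P.1) * G p.2 := by
        rw [Finset.sum_image fun a _ b _ h => hinj h]
    _ ≤ _ := by
        refine Finset.sum_le_sum_of_subset_of_nonneg ?_ fun p _ _ => ?_
        · intro p hp
          rw [Finset.mem_image] at hp
          obtain ⟨s, _, rfl⟩ := hp
          rw [Finset.mem_product, Finset.mem_powerset]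
          refine ⟨?_, ?_⟩
          · intro P hP
            exact Finset.mem_filter.2 ⟨Finset.mem_univ _, (Finset.mem_filter.1 hP).2⟩
          · exact Finset.mem_filter.2 ⟨Finset.mem_univ _, fun P hP => (Finset.mem_filter.1 hP).2⟩
        · exact mul_nonneg (Finset.prod_nonneg fun P _ => (vP_pos P.2).le) (hG0 _)

theorem inner_low {w R : ℕ} (α : ℝ) (hα : 0 ≤ α) (l : K)
    (c0 : Ix F w R → Option {i : K // i ≠ l}) (h : 4 * dgt c0 ≤ R) :
    (1 / 2) * (∏ i, bet α (dgi c0 i)) * TS F w R (R / 4) (bet α) ≤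
      (∏ P : Ix F w R, (c0 P).elim 1 (fun _ => 1 + vP P.1)) *
        ∑ s ∈ fre c0, (∏ P ∈ s, vP P.1) * BB α (cmb l c0 s) := by
  set G : Finset (Ix F w R) → ℝ := fun s =>
    if dgI s ≤ R / 4 then bet α (dgI s) * ∏ P ∈ s, vP P.1 else 0 with hG
  have hv : ∀ s : Finset (Ix F w R), 0 ≤ ∏ P ∈ s, vP P.1 := fun s =>
    Finset.prod_nonneg fun P _ => (vP_pos P.2).le
  have h0 : ∀ s, 0 ≤ G s := by
    intro s
    rw [hG]
    dsimp only
    split_ifs
    · exact mul_nonneg (bet_pos hα _).le (hv s)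
    · exact le_rfl
  have hB : 0 ≤ ∏ i, bet α (dgi c0 i) := Finset.prod_nonneg fun _ _ => (bet_pos hα _).le
  have h1 := sl_split c0 G h0 (by
    intro s
    by_cases hs : dgI s ≤ R / 4
    · have hd : dgI (s.filter (fun P => c0 P = none)) ≤ dgI s :=
        Finset.sum_le_sum_of_subset (Finset.filter_subset _ _)
      have e1 : G s = bet α (dgI s) * ∏ P ∈ s, vP P.1 := by
        rw [hG]
        dsimp only
        rw [if_pos hs]
      have e2 : G (s.filter (fun P => c0 P = none)) =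
          bet α (dgI (s.filter (fun P => c0 P = none))) *
            ∏ P ∈ s.filter (fun P => c0 P = none), vP P.1 := by
        rw [hG]
        dsimp only
        rw [if_pos (hd.trans hs)]
      rw [e1, e2, ← Finset.prod_filter_mul_prod_filter_not s (fun P => c0 P = none)]
      have e3 := bet_anti hα hd
      calc _ ≤ bet α (dgI (s.filter (fun P => c0 P = none))) *
            ((∏ P ∈ s.filter (fun P => c0 P = none), vP P.1) *
              ∏ P ∈ s.filter (fun P => ¬ c0 P = none), vP P.1) :=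
            mul_le_mul_of_nonneg_right e3 (mul_nonneg (hv _) (hv _))
        _ = _ := by ring
    · have e1 : G s = 0 := by
        rw [hG]
        dsimp only
        rw [if_neg hs]
      rw [e1]
      exact mul_nonneg (hv _) (h0 _))
  have h2 : ∀ s ∈ fre c0, (1 / 2) * (∏ i, bet α (dgi c0 i)) * G s ≤
      (∏ P ∈ s, vP P.1) * BB α (cmb l c0 s) := by
    intro s hs
    by_cases hd : dgI s ≤ R / 4
    · have e1 : G s = bet α (dgI s) * ∏ P ∈ s, vP P.1 := by
        rw [hG]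
        dsimp only
        rw [if_pos hd]
      rw [e1]
      calc _ = (∏ P ∈ s, vP P.1) * ((1 / 2) * ((∏ i, bet α (dgi c0 i)) * bet α (dgI s))) := by
            ring
        _ ≤ _ := mul_le_mul_of_nonneg_left (sl_BB hα l c0 h hs hd) (hv s)
    · have e1 : G s = 0 := by
        rw [hG]
        dsimp only
        rw [if_neg hd]
      rw [e1, mul_zero]
      exact mul_nonneg (hv s) (BB_nonneg hα _)
  have hP1 : 0 ≤ ∏ P : Ix F w R, (c0 P).elim 1 (fun _ => 1 + vP P.1) := by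
    refine Finset.prod_nonneg fun P _ => ?_
    have := vP_pos P.2
    rcases c0 P with _ | j
    · exact zero_le_one
    · show 0 ≤ 1 + vP P.1
      linarith
  rw [TS_eq]
  calc _ ≤ (1 / 2) * (∏ i, bet α (dgi c0 i)) *
        ((∏ P : Ix F w R, (c0 P).elim 1 (fun _ => 1 + vP P.1)) * ∑ s ∈ fre c0, G s) :=
        mul_le_mul_of_nonneg_left h1 (mul_nonneg (by norm_num) hB)
    _ = (∏ P : Ix F w R, (c0 P).elim 1 (fun _ => 1 + vP P.1)) *
        ∑ s ∈ fre c0, (1 / 2) * (∏ i, bet α (dgi c0 i)) * G s := by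
        rw [← Finset.mul_sum]
        ring
    _ ≤ _ := mul_le_mul_of_nonneg_left (Finset.sum_le_sum h2) hP1

private theorem sl_final (Y2 G S T t0 : ℝ) (hY2 : 0 ≤ Y2) (hG : 0 ≤ G) (hS : 0 ≤ S)
    (h1 : G / 2 ≤ 11 / 10 * S) (hT : 1 / 4 * Y2 * S ≤ T) (ht : t0 ≤ 11 / 10) :
    (1 / 16) * Y2 * G ≤ (2 - t0) * T := by
  have hT0 : 0 ≤ T := le_trans (mul_nonneg (mul_nonneg (by norm_num) hY2) hS) hT
  have hS2 : 5 / 11 * G ≤ S := by linarith
  have h3 : 0 ≤ Y2 * G := mul_nonneg hY2 hG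
  have h4 : Y2 * (5 / 11 * G) ≤ Y2 * S := mul_le_mul_of_nonneg_left hS2 hY2
  have h5 : 9 / 10 * T ≤ (2 - t0) * T := mul_le_mul_of_nonneg_right (by linarith) hT0
  linarith

private theorem sl_prod_ite {L : Type} [Fintype L] [DecidableEq L] (j : L) (a b : ℝ) :
    ∏ i : L, (if i = j then a else b) = a * b ^ (Fintype.card L - 1) := by
  rw [← Finset.mul_prod_erase univ _ (Finset.mem_univ j), if_pos rfl]
  congr 1
  rw [Finset.prod_congr rfl fun i hi => if_neg (Finset.ne_of_mem_erase hi), Finset.prod_const,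
    Finset.card_erase_of_mem (Finset.mem_univ j), Finset.card_univ]

/-- lower bound for the sum over tuples -/
private theorem sl_tuple {L : Type} [Fintype L] [DecidableEq L] (w R : ℕ) (α : ℝ) :
    Gam F w R α ^ Fintype.card L - 4 / R * (Fintype.card L *
      (TS F w R R (fun d => d * bet α d ^ 2) * Gam F w R α ^ (Fintype.card L - 1))) ≤
      ∑ t : L → Finset (Ix F w R),
        (if 4 * ∑ i, dgI (t i) ≤ R then ∏ i, bet α (dgI (t i)) ^ 2 else 0) *
          ∏ i, ∏ P ∈ t i, vP P.1 := by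
  set G : Finset (Ix F w R) → ℝ := fun s =>
    if dgI s ≤ R then bet α (dgI s) ^ 2 * ∏ P ∈ s, vP P.1 else 0 with hG
  set Gd : Finset (Ix F w R) → ℝ := fun s =>
    if dgI s ≤ R then (dgI s : ℝ) * bet α (dgI s) ^ 2 * ∏ P ∈ s, vP P.1 else 0 with hGd
  have hv : ∀ s : Finset (Ix F w R), 0 ≤ ∏ P ∈ s, vP P.1 := fun s =>
    Finset.prod_nonneg fun P _ => (vP_pos P.2).le
  have hGG : ∀ s, Gd s = (dgI s : ℝ) * G s := by
    intro s
    rw [hG, hGd]
    dsimp only
    split_ifs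
    · ring
    · rw [mul_zero]
  have h1 : Gam F w R α = ∑ s, G s := by
    rw [Gam, TS_eq]
  have h2 : TS F w R R (fun d => d * bet α d ^ 2) = ∑ s, Gd s := by
    rw [TS_eq]
  have h3 : Gam F w R α ^ Fintype.card L = ∑ t : L → Finset (Ix F w R), ∏ i, G (t i) := by
    rw [tuple_prod (fun _ => G), Finset.prod_const, ← h1, Finset.card_univ]
  have h4 : ∀ j : L, TS F w R R (fun d => d * bet α d ^ 2) * Gam F w R α ^ (Fintype.card L - 1) =
      ∑ t : L → Finset (Ix F w R), (dgI (t j) : ℝ) * ∏ i, G (t i) := by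
    intro j
    have e1 : ∀ t : L → Finset (Ix F w R), (dgI (t j) : ℝ) * ∏ i, G (t i) =
        ∏ i, (if i = j then Gd (t i) else G (t i)) := by
      intro t
      have e2 : ∀ i, (if i = j then Gd (t i) else G (t i)) =
          (if i = j then (dgI (t i) : ℝ) else 1) * G (t i) := by
        intro i
        by_cases hi : i = j
        · rw [if_pos hi, if_pos hi, hGG]
        · rw [if_neg hi, if_neg hi, one_mul]
      rw [Finset.prod_congr rfl fun i _ => e2 i, Finset.prod_mul_distrib]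
      congr 1
      rw [Finset.prod_ite_eq' univ j (fun i => (dgI (t i) : ℝ)), if_pos (Finset.mem_univ j)]
    rw [Finset.sum_congr rfl fun t _ => e1 t,
      tuple_prod (fun i s => if i = j then Gd s else G s), h1, h2]
    rw [← sl_prod_ite j (∑ s, Gd s) (∑ s, G s)]
    refine Finset.prod_congr rfl fun i _ => ?_
    by_cases hi : i = j
    · simp only [if_pos hi]
    · simp only [if_neg hi]
  have h5 : (Fintype.card L : ℝ) * (TS F w R R (fun d => d * bet α d ^ 2) *
      Gam F w R α ^ (Fintype.card L - 1)) =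
      ∑ t : L → Finset (Ix F w R), (∑ j, (dgI (t j) : ℝ)) * ∏ i, G (t i) := by
    have e0 : ∀ X : ℝ, (Fintype.card L : ℝ) * X = ∑ _j : L, X := by
      intro X
      rw [Finset.sum_const, Finset.card_univ, nsmul_eq_mul]
    rw [e0, Finset.sum_congr rfl fun j _ => h4 j, Finset.sum_comm]
    exact Finset.sum_congr rfl fun t _ => by rw [Finset.sum_mul]
  rw [h5, h3, Finset.mul_sum, ← Finset.sum_sub_distrib]
  refine Finset.sum_le_sum fun t _ => ?_
  have hW : 0 ≤ ∏ i, bet α (dgI (t i)) ^ 2 := Finset.prod_nonneg fun i _ => sq_nonneg _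
  have hV : 0 ≤ ∏ i, ∏ P ∈ t i, vP P.1 := Finset.prod_nonneg fun i _ => hv (t i)
  have hrhs : 0 ≤ (if 4 * ∑ i, dgI (t i) ≤ R then ∏ i, bet α (dgI (t i)) ^ 2 else 0) *
      ∏ i, ∏ P ∈ t i, vP P.1 := by
    refine mul_nonneg ?_ hV
    split_ifs
    · exact hW
    · exact le_rfl
  by_cases hall : ∀ i, dgI (t i) ≤ R
  · have e1 : ∏ i, G (t i) = (∏ i, bet α (dgI (t i)) ^ 2) * ∏ i, ∏ P ∈ t i, vP P.1 := by
      rw [← Finset.prod_mul_distrib]
      refine Finset.prod_congr rfl fun i _ => ?_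
      rw [hG]
      dsimp only
      rw [if_pos (hall i)]
    rw [e1]
    set Q : ℝ := (∏ i, bet α (dgI (t i)) ^ 2) * ∏ i, ∏ P ∈ t i, vP P.1 with hQ
    have hQ0 : 0 ≤ Q := mul_nonneg hW hV
    have e2 : (0 : ℝ) ≤ 4 / R * ∑ j, (dgI (t j) : ℝ) := by positivity
    split_ifs with h
    · rw [← hQ]
      have : 0 ≤ 4 / R * (∑ j, (dgI (t j) : ℝ)) * Q := mul_nonneg e2 hQ0
      linarith
    · have hR : R ≠ 0 := by
        rintro rfl
        apply h
        have e0 : ∑ i, dgI (t i) = 0 := Finset.sum_eq_zero fun i _ => Nat.le_zero.1 (hall i)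
        rw [e0]
      have hR' : (0 : ℝ) < R := by exact_mod_cast Nat.pos_of_ne_zero hR
      have e3 : (R : ℝ) < 4 * ∑ j, (dgI (t j) : ℝ) := by
        have := not_le.1 h
        exact_mod_cast this
      have e4 : (1 : ℝ) ≤ 4 / R * ∑ j, (dgI (t j) : ℝ) := by
        rw [div_mul_eq_mul_div, one_le_div hR']
        exact e3.le
      rw [zero_mul]
      have e5 : (1 - 4 / R * ∑ j, (dgI (t j) : ℝ)) * Q ≤ 0 :=
        mul_nonpos_of_nonpos_of_nonneg (by linarith) hQ0
      linarith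
  · rw [not_forall] at hall
    obtain ⟨i, hi⟩ := hall
    have e1 : ∏ i, G (t i) = 0 := by
      refine Finset.prod_eq_zero (Finset.mem_univ i) ?_
      rw [hG]
      dsimp only
      rw [if_neg hi]
    rw [e1]
    simpa using hrhs

theorem outer_low {L : Type} [Fintype L] [DecidableEq L] (w R : ℕ) (α : ℝ) (hα : 0 ≤ α)
    (h : 8 * Fintype.card L * TS F w R R (fun d => d * bet α d ^ 2) ≤ R * Gam F w R α) :
    Gam F w R α ^ Fintype.card L / 2 ≤ tt F (6 * 2 ^ Fintype.card L) w R *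
      ∑ c0 ∈ univ.filter (fun c0 : Ix F w R → Option L => 4 * dgt c0 ≤ R),
        (∏ i, bet α (dgi c0 i) ^ 2) *
          ∏ P : Ix F w R, (c0 P).elim 1 (fun _ => vP P.1 / (1 + vP P.1) ^ 2) := by
  set Wt : (L → Finset (Ix F w R)) → ℝ := fun t =>
    if 4 * ∑ i, dgI (t i) ≤ R then ∏ i, bet α (dgI (t i)) ^ 2 else 0 with hWt
  have hW0 : ∀ t, 0 ≤ Wt t := by
    intro t
    rw [hWt]
    dsimp only
    split_ifs
    · exact Finset.prod_nonneg fun i _ => sq_nonneg _
    · exact le_rfl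
  have hWm : ∀ t t' : L → Finset (Ix F w R), (∀ i, t i ⊆ t' i) → Wt t' ≤ Wt t := by
    intro t t' htt
    have hd : ∀ i, dgI (t i) ≤ dgI (t' i) := fun i => Finset.sum_le_sum_of_subset (htt i)
    by_cases h1 : 4 * ∑ i, dgI (t' i) ≤ R
    · have h2 : 4 * ∑ i, dgI (t i) ≤ R :=
        (Nat.mul_le_mul_left 4 (Finset.sum_le_sum fun i _ => hd i)).trans h1
      rw [hWt]
      dsimp only
      rw [if_pos h1, if_pos h2]
      exact Finset.prod_le_prod (fun i _ => sq_nonneg _) fun i _ =>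
        pow_le_pow_left₀ (bet_pos hα _).le (bet_anti hα (hd i)) 2
    · have : Wt t' = 0 := by
        rw [hWt]
        dsimp only
        rw [if_neg h1]
      rw [this]
      exact hW0 t
  have hv0 : ∀ P : Ix F w R, 0 ≤ vP P.1 := fun P => (vP_pos P.2).le
  have key := tuple_le_col Wt hW0 hWm (fun P : Ix F w R => vP P.1)
    (fun P => vP P.1 / (1 + vP P.1) ^ 2) hv0 (fun P => vP_le_one P.2)
    (fun P => div_nonneg (hv0 P) (sq_nonneg _))
    (fun P => div_le_self (hv0 P) (one_le_pow₀ (by linarith [hv0 P])))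
    (fun P => by
      have h0 := hv0 P
      have h1 := vP_le_one P.2
      have h2 : (0 : ℝ) < (1 + vP P.1) ^ 2 := by positivity
      show vP P.1 - vP P.1 / (1 + vP P.1) ^ 2 ≤ 3 * vP P.1 ^ 2
      rw [sub_le_iff_le_add, ← sub_le_iff_le_add', le_div_iff₀ h2]
      nlinarith [mul_nonneg h0 h0, mul_nonneg (mul_nonneg h0 h0) h0,
        mul_nonneg (mul_nonneg h0 h0) (mul_nonneg h0 h0), mul_nonneg h0 (sub_nonneg.2 h1)])
  have h1 : ∏ P : Ix F w R, (1 + (6 * 2 ^ Fintype.card L : ℝ) * vP P.1 ^ 2) =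
      tt F (6 * 2 ^ Fintype.card L) w R := by
    rw [tt]
    exact prod_Ix (fun P => 1 + (6 * 2 ^ Fintype.card L : ℝ) * vP P ^ 2)
  have h2 : ∑ c : Ix F w R → Option L, Wt (cls c) *
      ∏ P, (c P).elim 1 (fun _ => vP P.1 / (1 + vP P.1) ^ 2) =
      ∑ c0 ∈ univ.filter (fun c0 : Ix F w R → Option L => 4 * dgt c0 ≤ R),
        (∏ i, bet α (dgi c0 i) ^ 2) *
          ∏ P : Ix F w R, (c0 P).elim 1 (fun _ => vP P.1 / (1 + vP P.1) ^ 2) := by
    rw [Finset.sum_filter]
    refine Finset.sum_congr rfl fun c _ => ?_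
    have e1 : dgt c = ∑ i, dgI (cls c i) := by
      rw [dgt_eq]
      exact Finset.sum_congr rfl fun i _ => dgi_eq c i
    have e2 : ∏ i, bet α (dgI (cls c i)) ^ 2 = ∏ i, bet α (dgi c i) ^ 2 :=
      Finset.prod_congr rfl fun i _ => by rw [dgi_eq]
    rw [hWt]
    dsimp only
    rw [← e1, e2]
    split_ifs
    · rfl
    · rw [zero_mul]
  rw [h1, h2] at key
  refine le_trans ?_ key
  refine le_trans ?_ (sl_tuple (L := L) w R α)
  have hΓ : 0 ≤ Gam F w R α := by
    rw [Gam, TS_eq]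
    refine Finset.sum_nonneg fun s _ => ?_
    split_ifs
    · exact mul_nonneg (sq_nonneg _) (Finset.prod_nonneg fun P _ => hv0 P)
    · exact le_rfl
  set Γ := Gam F w R α with hΓd
  set D := TS F w R R (fun d => d * bet α d ^ 2) with hD
  rcases Nat.eq_zero_or_pos (Fintype.card L) with hk | hk
  · rw [hk]
    norm_num
  · have e1 : Γ ^ Fintype.card L = Γ * Γ ^ (Fintype.card L - 1) := by
      rw [← pow_succ', Nat.sub_add_cancel hk]
    have e2 : 4 / (R : ℝ) * (Fintype.card L * D) ≤ Γ / 2 := by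
      rcases Nat.eq_zero_or_pos R with rfl | hR
      · rw [Nat.cast_zero, div_zero, zero_mul]
        linarith
      · have hR' : (0 : ℝ) < R := by exact_mod_cast hR
        rw [div_mul_eq_mul_div, div_le_iff₀ hR']
        linarith
    have e3 : 0 ≤ Γ ^ (Fintype.card L - 1) := pow_nonneg hΓ _
    have e4 := mul_le_mul_of_nonneg_right e2 e3
    rw [e1]
    linarith

theorem S2_low (w R : ℕ) (α : ℝ) (hα : 0 ≤ α) (l : K)
    (h : 8 * Fintype.card K * TS F w R R (fun d => d * bet α d ^ 2) ≤ R * Gam F w R α)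
    (h1 : tt F (3 * ((Fintype.card K : ℝ) + 1) ^ 2) w R ≤ 11 / 10)
    (h2 : tt F (6 * 2 ^ Fintype.card K) w R ≤ 11 / 10) :
    (1 / 16) * TS F w R (R / 4) (bet α) ^ 2 * Gam F w R α ^ (Fintype.card K - 1) ≤
      ∑ c : Ix F w R → Option K, ∑ c' : Ix F w R → Option K,
        BB α c * BB α c' * ∏ P : Ix F w R, e2 P.1 l (c P) (c' P) := by
  refine le_trans ?_ (S2_core w R α hα l)
  have hv0 : ∀ P : Ix F w R, 0 ≤ vP P.1 := fun P => (vP_pos P.2).le
  set D := TS F w R R (fun d => d * bet α d ^ 2) with hD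
  set Y := TS F w R (R / 4) (bet α) with hY
  set Γ := Gam F w R α with hΓd
  have hΓ : 0 ≤ Γ := by
    rw [hΓd, Gam, TS_eq]
    refine Finset.sum_nonneg fun s _ => ?_
    split_ifs
    · exact mul_nonneg (sq_nonneg _) (Finset.prod_nonneg fun P _ => hv0 P)
    · exact le_rfl
  have hD0 : 0 ≤ D := by
    rw [hD, TS_eq]
    refine Finset.sum_nonneg fun s _ => ?_
    split_ifs
    · exact mul_nonneg (mul_nonneg (Nat.cast_nonneg _) (sq_nonneg _))
        (Finset.prod_nonneg fun P _ => hv0 P)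
    · exact le_rfl
  have hY0 : 0 ≤ Y := by
    rw [hY, TS_eq]
    refine Finset.sum_nonneg fun s _ => ?_
    split_ifs
    · exact mul_nonneg (bet_pos hα _).le (Finset.prod_nonneg fun P _ => hv0 P)
    · exact le_rfl
  have hcard : Fintype.card {i : K // i ≠ l} = Fintype.card K - 1 := by
    rw [Fintype.card_subtype_compl, Fintype.card_subtype_eq]
  have hle : ((Fintype.card {i : K // i ≠ l} : ℕ) : ℝ) ≤ Fintype.card K := by
    exact_mod_cast Fintype.card_subtype_le _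
  have hh : 8 * (Fintype.card {i : K // i ≠ l} : ℝ) * D ≤ R * Γ :=
    le_trans (mul_le_mul_of_nonneg_right (by linarith) hD0) h
  have ho := outer_low (F := F) (L := {i : K // i ≠ l}) w R α hα hh
  have htt : tt F (6 * 2 ^ Fintype.card {i : K // i ≠ l}) w R ≤ 11 / 10 := by
    refine le_trans (tt_mono _ _ (by positivity) ?_ w R) h2
    have : (2 : ℝ) ^ Fintype.card {i : K // i ≠ l} ≤ 2 ^ Fintype.card K :=
      pow_le_pow_right₀ (by norm_num) (Fintype.card_subtype_le _)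
    linarith
  rw [hcard, ← hΓd] at ho
  rw [hcard] at htt
  set S : ℝ := ∑ c0 ∈ univ.filter (fun c0 : Ix F w R → Option {i : K // i ≠ l} => 4 * dgt c0 ≤ R),
        (∏ i, bet α (dgi c0 i) ^ 2) *
          ∏ P : Ix F w R, (c0 P).elim 1 (fun _ => vP P.1 / (1 + vP P.1) ^ 2) with hS
  have hel : ∀ (c0 : Ix F w R → Option {i : K // i ≠ l}) (f : Ix F w R → ℝ), (∀ P, 0 ≤ f P) →
      0 ≤ ∏ P : Ix F w R, (c0 P).elim 1 (fun _ => f P) := by
    intro c0 f hf
    refine Finset.prod_nonneg fun P _ => ?_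
    rcases c0 P with _ | j
    · exact zero_le_one
    · exact hf P
  have hS0 : 0 ≤ S := by
    refine Finset.sum_nonneg fun c0 _ => ?_
    exact mul_nonneg (Finset.prod_nonneg fun i _ => sq_nonneg _)
      (hel c0 _ fun P => div_nonneg (hv0 P) (sq_nonneg _))
  have hS1 : Γ ^ (Fintype.card K - 1) / 2 ≤ 11 / 10 * S :=
    ho.trans (mul_le_mul_of_nonneg_right htt hS0)
  have hT : 1 / 4 * Y ^ 2 * S ≤ T2 (F := F) w R α l := by
    refine le_trans ?_ (S2_triples w R α hα l)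
    rw [hS, Finset.mul_sum]
    refine le_trans ?_ (Finset.sum_le_sum_of_subset_of_nonneg (Finset.filter_subset
      (fun c0 : Ix F w R → Option {i : K // i ≠ l} => 4 * dgt c0 ≤ R) univ) fun c0 _ _ =>
        mul_nonneg (hel c0 _ hv0) (sq_nonneg _))
    refine Finset.sum_le_sum fun c0 hc0 => ?_
    have hc := (Finset.mem_filter.1 hc0).2
    have hin := inner_low α hα l c0 hc
    set A := ∑ s ∈ fre c0, (∏ P ∈ s, vP P.1) * BB α (cmb l c0 s) with hA
    set B := ∏ i, bet α (dgi c0 i) with hB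
    set U := ∏ P : Ix F w R, (c0 P).elim 1 (fun _ => 1 + vP P.1) with hU
    set V := ∏ P : Ix F w R, (c0 P).elim 1 (fun _ => vP P.1) with hV
    have hB0 : 0 ≤ B := Finset.prod_nonneg fun _ _ => (bet_pos hα _).le
    have hU0 : 0 < U := by
      refine Finset.prod_pos fun P _ => ?_
      rcases c0 P with _ | j
      · exact zero_lt_one
      · show 0 < 1 + vP P.1
        linarith [hv0 P]
    have hV0 : 0 ≤ V := hel c0 _ hv0
    have e1 : ∏ P : Ix F w R, (c0 P).elim 1 (fun _ => vP P.1 / (1 + vP P.1) ^ 2) = V / U ^ 2 := by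
      rw [hV, hU, ← Finset.prod_pow, ← Finset.prod_div_distrib]
      refine Finset.prod_congr rfl fun P _ => ?_
      rcases c0 P with _ | j
      · simp
      · rfl
    have e2 : ∏ i, bet α (dgi c0 i) ^ 2 = B ^ 2 := by
      rw [hB, Finset.prod_pow]
    rw [e1, e2]
    have e3 : ((1 / 2) * B * Y) ^ 2 ≤ (U * A) ^ 2 :=
      pow_le_pow_left₀ (mul_nonneg (mul_nonneg (by norm_num) hB0) hY0) hin 2
    have e4 : 1 / 4 * Y ^ 2 * (B ^ 2 * (V / U ^ 2)) = V * (((1 / 2) * B * Y) ^ 2 / U ^ 2) := by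
      ring
    rw [e4]
    refine mul_le_mul_of_nonneg_left ?_ hV0
    rw [div_le_iff₀ (by positivity)]
    calc _ ≤ (U * A) ^ 2 := e3
      _ = A ^ 2 * U ^ 2 := by ring
  exact sl_final _ _ _ _ _ (sq_nonneg Y) (pow_nonneg hΓ _) hS0 hS1 hT h1

end Pool.Agent.H10.FF
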