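import Pool.Agent.H10.FF.E2

/-!
JOB FF-C8 (MP_a1f59e_nt). Lower bound for the main term of the second moment, first part.

PROOF of `S2_core`. Sum over patterns `Ix → Option K × Option K` (`Equiv.arrowProdEquivProdArrow`); `core_ge` with `o0 = (none, none)`,
`M0 = M2 l` (as a finset: `univ.filter (· ∈ M2 l)`), `e P ω = e2 P.1 l ω.1 ω.2`, `τ P = 3 v ^ 2` (`e2_off`, `e2_nonneg`, `e2_none`),
`wt = BB (fst) BB (snd)` (`BB_anti`: `res` uncolours), `card Ω = (card K + 1) ^ 2`.
PROOF of `S2_triples`. To `(c0, s, s')` with `s, s'` disjoint from `supp c0` associate the pattern `P ↦ (cmb l c0 s P, cmb l c0 s' P)`; it is a main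
pattern (`M2 l`), the map is injective, and `∏ e2 ≥ ∏_{c0} v * ∏_{s} v * ∏_{s'} v` (`e2_diag`, `e2_l`). All terms are `≥ 0`, so the main sum is
`≥ ∑_{c0} ∏_{c0} v (∑_s v_s BB (cmb l c0 s)) ^ 2` (expand the square as a double sum). ~180 lines.
-/

namespace Pool.Agent.H10.FF

open Polynomial Finset
open scoped Classical

variable {F : Type} [Field F] [Fintype F] {K : Type} [Fintype K] [DecidableEq K]

/-- colour `s` with `l`, the rest according to `c0` -/
noncomputable def cmb {w R : ℕ} (l : K) (c0 : Ix F w R → Option {i : K // i ≠ l})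
    (s : Finset (Ix F w R)) (P : Ix F w R) : Option K :=
  if P ∈ s then some l else (c0 P).map Subtype.val

/-- sets of primes not coloured by `c0` -/
noncomputable def fre {w R : ℕ} {L : Type} (c0 : Ix F w R → Option L) :
    Finset (Finset (Ix F w R)) := univ.filter (fun s => ∀ P ∈ s, c0 P = none)

/-- the main sum -/
noncomputable def T2 (w R : ℕ) (α : ℝ) (l : K) : ℝ :=
  ∑ p ∈ univ.filter (fun p : Ix F w R → Option K × Option K => ∀ P, p P ∈ M2 l),
    (BB α (fun P => (p P).1) * BB α (fun P => (p P).2)) *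
      ∏ P : Ix F w R, e2 P.1 l (p P).1 (p P).2

/-- the weight of a pair of patterns -/
private noncomputable def s2m_wt {w R : ℕ} (α : ℝ) (p : Ix F w R → Option K × Option K) : ℝ :=
  BB α (fun P => (p P).1) * BB α (fun P => (p P).2)

private theorem s2m_wt_nonneg {w R : ℕ} {α : ℝ} (hα : 0 ≤ α) (p : Ix F w R → Option K × Option K) :
    0 ≤ s2m_wt α p := mul_nonneg (BB_nonneg hα _) (BB_nonneg hα _)

private theorem s2m_sum {w R : ℕ} (G : (Ix F w R → Option K × Option K) → ℝ) :
    ∑ p : Ix F w R → Option K × Option K, G p =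
      ∑ c : Ix F w R → Option K, ∑ c' : Ix F w R → Option K, G (fun P => (c P, c' P)) := by
  rw [← (Equiv.arrowProdEquivProdArrow (Ix F w R) (fun _ => Option K)
    (fun _ => Option K)).symm.sum_comp, Fintype.sum_prod_type]
  rfl

theorem S2_core (w R : ℕ) (α : ℝ) (hα : 0 ≤ α) (l : K) :
    (2 - tt F (3 * ((Fintype.card K : ℝ) + 1) ^ 2) w R) * T2 (F := F) w R α l ≤
      ∑ c : Ix F w R → Option K, ∑ c' : Ix F w R → Option K,
        BB α c * BB α c' * ∏ P : Ix F w R, e2 P.1 l (c P) (c' P) := by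
  set M0 : Finset (Option K × Option K) := univ.filter (fun o => o ∈ M2 l) with hM0
  have hmem : ∀ o, o ∈ M0 ↔ o ∈ M2 l := by
    intro o
    rw [hM0, Finset.mem_filter]
    exact ⟨fun h => h.2, fun h => ⟨Finset.mem_univ _, h⟩⟩
  have key := core_ge (ι := Ix F w R) (Ω := Option K × Option K) (none, none) M0
    ((hmem _).2 (Or.inl rfl)) (fun P ω => e2 P.1 l ω.1 ω.2) (fun P => e2_none l)
    (fun P ω hω => e2_nonneg P.2 l ω ((hmem _).1 hω)) (fun P => 3 * vP P.1 ^ 2)
    (fun P => by positivity) (fun P ω hω => e2_off P.2 l ω (fun h => hω ((hmem _).2 h)))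
    (s2m_wt α) (s2m_wt_nonneg hα)
    (fun c => by
      have h : ∀ P, res ((none, none) : Option K × Option K) M0 c P = (none, none) ∨
          res ((none, none) : Option K × Option K) M0 c P = c P := by
        intro P
        unfold res
        by_cases hc : c P ∈ M0
        · exact Or.inr (if_pos hc)
        · exact Or.inl (if_neg hc)
      refine mul_le_mul (BB_anti hα _ _ fun P => ?_) (BB_anti hα _ _ fun P => ?_)
        (BB_nonneg hα _) (BB_nonneg hα _)
      · rcases h P with h1 | h1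
        · exact Or.inl (congrArg Prod.fst h1)
        · exact Or.inr (congrArg Prod.fst h1)
      · rcases h P with h1 | h1
        · exact Or.inl (congrArg Prod.snd h1)
        · exact Or.inr (congrArg Prod.snd h1))
  have hprod : ∏ P : Ix F w R, (1 + (Fintype.card (Option K × Option K) : ℝ) *
      (3 * vP P.1 ^ 2)) = tt F (3 * ((Fintype.card K : ℝ) + 1) ^ 2) w R := by
    unfold tt
    rw [← prod_Ix (fun P : F[X] => 1 + 3 * ((Fintype.card K : ℝ) + 1) ^ 2 * vP P ^ 2)]
    refine Finset.prod_congr rfl fun P _ => ?_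
    rw [Fintype.card_prod, Fintype.card_option]
    push_cast
    ring
  rw [hprod] at key
  have hT : ∑ c ∈ univ.filter (fun c : Ix F w R → Option K × Option K => ∀ P, c P ∈ M0),
      s2m_wt α c * ∏ P, e2 P.1 l (c P).1 (c P).2 = T2 (F := F) w R α l := by
    unfold T2
    refine Finset.sum_congr ?_ fun c _ => rfl
    ext c
    rw [Finset.mem_filter, Finset.mem_filter]
    constructor
    · rintro ⟨h1, h2⟩
      exact ⟨h1, fun P => (hmem _).1 (h2 P)⟩
    · rintro ⟨h1, h2⟩
      exact ⟨h1, fun P => (hmem _).2 (h2 P)⟩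
  rw [hT] at key
  refine key.trans (le_of_eq ?_)
  exact s2m_sum (fun p => s2m_wt α p * ∏ P : Ix F w R, e2 P.1 l (p P).1 (p P).2)

private theorem s2m_cmb_some {w R : ℕ} (l : K) (c0 : Ix F w R → Option {i : K // i ≠ l})
    (s : Finset (Ix F w R)) (hs : s ∈ fre c0) (P : Ix F w R) (i : {i : K // i ≠ l})
    (h : c0 P = some i) : cmb l c0 s P = some i.1 := by
  unfold fre at hs
  rw [Finset.mem_filter] at hs
  unfold cmb
  rw [if_neg, h]
  · rfl
  · intro hP
    rw [hs.2 P hP] at h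
    exact absurd h (by simp)

private theorem s2m_cmb_none {w R : ℕ} (l : K) (c0 : Ix F w R → Option {i : K // i ≠ l})
    (s : Finset (Ix F w R)) (P : Ix F w R) (h : c0 P = none) :
    cmb l c0 s P = if P ∈ s then some l else none := by
  unfold cmb
  rw [h]
  rfl

private theorem s2m_main {w R : ℕ} (l : K) (c0 : Ix F w R → Option {i : K // i ≠ l})
    (s s' : Finset (Ix F w R)) (hs : s ∈ fre c0) (hs' : s' ∈ fre c0) (P : Ix F w R) :
    (cmb l c0 s P, cmb l c0 s' P) ∈ M2 l := by
  rcases h : c0 P with _ | i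
  · rw [s2m_cmb_none l c0 s P h, s2m_cmb_none l c0 s' P h]
    right
    constructor
    · by_cases h1 : P ∈ s
      · exact Or.inr (if_pos h1)
      · exact Or.inl (if_neg h1)
    · by_cases h1 : P ∈ s'
      · exact Or.inr (if_pos h1)
      · exact Or.inl (if_neg h1)
  · left
    show cmb l c0 s P = cmb l c0 s' P
    rw [s2m_cmb_some l c0 s hs P i h, s2m_cmb_some l c0 s' hs' P i h]

private theorem s2m_loc {w R : ℕ} (l : K) (c0 : Ix F w R → Option {i : K // i ≠ l})
    (s s' : Finset (Ix F w R)) (hs : s ∈ fre c0) (hs' : s' ∈ fre c0) (P : Ix F w R) :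
    (c0 P).elim 1 (fun _ => vP P.1) * ((if P ∈ s then vP P.1 else 1) *
      (if P ∈ s' then vP P.1 else 1)) ≤ e2 P.1 l (cmb l c0 s P) (cmb l c0 s' P) := by
  rcases h : c0 P with _ | i
  · rw [s2m_cmb_none l c0 s P h, s2m_cmb_none l c0 s' P h, Option.elim_none, one_mul]
    have h1 := e2_l P.2 l (decide (P ∈ s)) (decide (P ∈ s'))
    simp only [decide_eq_true_eq] at h1
    exact h1.ge
  · have hn : ∀ t : Finset (Ix F w R), t ∈ fre c0 → P ∉ t := by
      intro t ht hP
      unfold fre at ht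
      rw [Finset.mem_filter] at ht
      rw [ht.2 P hP] at h
      exact absurd h (by simp)
    rw [s2m_cmb_some l c0 s hs P i h, s2m_cmb_some l c0 s' hs' P i h, if_neg (hn s hs),
      if_neg (hn s' hs'), mul_one, mul_one, Option.elim_some]
    exact e2_diag P.2 l i.1 i.2

private theorem s2m_s {w R : ℕ} (l : K) (c0 : Ix F w R → Option {i : K // i ≠ l})
    (s : Finset (Ix F w R)) (P : Ix F w R) : P ∈ s ↔ cmb l c0 s P = some l := by
  unfold cmb
  by_cases h : P ∈ s
  · rw [if_pos h]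
    exact ⟨fun _ => rfl, fun _ => h⟩
  · rw [if_neg h]
    refine ⟨fun h1 => absurd h1 h, fun h1 => ?_⟩
    exfalso
    rcases h2 : c0 P with _ | i
    · rw [h2] at h1
      exact absurd h1 (by simp)
    · rw [h2] at h1
      exact i.2 (Option.some.inj h1)

private theorem s2m_c {w R : ℕ} (l : K) (c0 : Ix F w R → Option {i : K // i ≠ l})
    (s : Finset (Ix F w R)) (hs : s ∈ fre c0) (P : Ix F w R) (i : {i : K // i ≠ l}) :
    c0 P = some i ↔ cmb l c0 s P = some i.1 := by
  constructor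
  · exact s2m_cmb_some l c0 s hs P i
  · intro h1
    unfold cmb at h1
    by_cases h : P ∈ s
    · rw [if_pos h] at h1
      exact absurd (Option.some.inj h1).symm i.2
    · rw [if_neg h] at h1
      rcases h2 : c0 P with _ | j
      · rw [h2] at h1
        exact absurd h1 (by simp)
      · rw [h2] at h1
        have h3 : j.1 = i.1 := Option.some.inj h1
        rw [Subtype.ext h3]

theorem S2_triples (w R : ℕ) (α : ℝ) (hα : 0 ≤ α) (l : K) :
    ∑ c0 : Ix F w R → Option {i : K // i ≠ l},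
      (∏ P : Ix F w R, (c0 P).elim 1 (fun _ => vP P.1)) *
        (∑ s ∈ fre c0, (∏ P ∈ s, vP P.1) * BB α (cmb l c0 s)) ^ 2 ≤ T2 (F := F) w R α l := by
  set f : (Ix F w R → Option K × Option K) → ℝ := fun p =>
    (BB α (fun P => (p P).1) * BB α (fun P => (p P).2)) *
      ∏ P : Ix F w R, e2 P.1 l (p P).1 (p P).2 with hf
  set X : Finset (Σ _ : (Ix F w R → Option {i : K // i ≠ l}),
      Finset (Ix F w R) × Finset (Ix F w R)) := univ.sigma (fun c0 => fre c0 ×ˢ fre c0) with hX
  set Φ : (Σ _ : (Ix F w R → Option {i : K // i ≠ l}),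
      Finset (Ix F w R) × Finset (Ix F w R)) → (Ix F w R → Option K × Option K) :=
    fun x P => (cmb l x.1 x.2.1 P, cmb l x.1 x.2.2 P) with hΦ
  have hXm : ∀ x ∈ X, x.2.1 ∈ fre x.1 ∧ x.2.2 ∈ fre x.1 := by
    intro x hx
    rw [hX, Finset.mem_sigma, Finset.mem_product] at hx
    exact hx.2
  have h1 : ∑ c0 : Ix F w R → Option {i : K // i ≠ l},
      (∏ P : Ix F w R, (c0 P).elim 1 (fun _ => vP P.1)) *
        (∑ s ∈ fre c0, (∏ P ∈ s, vP P.1) * BB α (cmb l c0 s)) ^ 2 =
      ∑ x ∈ X, (∏ P : Ix F w R, (x.1 P).elim 1 (fun _ => vP P.1)) *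
        (((∏ P ∈ x.2.1, vP P.1) * BB α (cmb l x.1 x.2.1)) *
          ((∏ P ∈ x.2.2, vP P.1) * BB α (cmb l x.1 x.2.2))) := by
    rw [hX, Finset.sum_sigma]
    refine Finset.sum_congr rfl fun c0 _ => ?_
    rw [pow_two, Finset.sum_mul_sum, ← Finset.sum_product', Finset.mul_sum]
  have h2 : ∀ x ∈ X, (∏ P : Ix F w R, (x.1 P).elim 1 (fun _ => vP P.1)) *
        (((∏ P ∈ x.2.1, vP P.1) * BB α (cmb l x.1 x.2.1)) *
          ((∏ P ∈ x.2.2, vP P.1) * BB α (cmb l x.1 x.2.2))) ≤ f (Φ x) := by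
    intro x hx
    obtain ⟨hs, hs'⟩ := hXm x hx
    have h3 : ∀ s : Finset (Ix F w R), ∏ P ∈ s, vP P.1 =
        ∏ P : Ix F w R, (if P ∈ s then vP P.1 else 1) := by
      intro s
      rw [Finset.prod_ite_mem, Finset.univ_inter]
    have h4 : (∏ P : Ix F w R, (x.1 P).elim 1 (fun _ => vP P.1)) *
        (((∏ P ∈ x.2.1, vP P.1) * BB α (cmb l x.1 x.2.1)) *
          ((∏ P ∈ x.2.2, vP P.1) * BB α (cmb l x.1 x.2.2))) =
        (BB α (cmb l x.1 x.2.1) * BB α (cmb l x.1 x.2.2)) *
          ∏ P : Ix F w R, ((x.1 P).elim 1 (fun _ => vP P.1) * ((if P ∈ x.2.1 then vP P.1 else 1) *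
            (if P ∈ x.2.2 then vP P.1 else 1))) := by
      rw [Finset.prod_mul_distrib, Finset.prod_mul_distrib, h3, h3]
      ring
    rw [h4]
    refine mul_le_mul_of_nonneg_left ?_ (mul_nonneg (BB_nonneg hα _) (BB_nonneg hα _))
    refine Finset.prod_le_prod (fun P _ => ?_) (fun P _ => s2m_loc l x.1 x.2.1 x.2.2 hs hs' P)
    have hv := (vP_pos P.2).le
    refine mul_nonneg ?_ (mul_nonneg ?_ ?_)
    · rcases x.1 P with _ | i
      · exact zero_le_one
      · exact hv
    · split_ifs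
      · exact hv
      · exact zero_le_one
    · split_ifs
      · exact hv
      · exact zero_le_one
  have hinj : Set.InjOn Φ (X : Set _) := by
    rintro ⟨c0, s, s'⟩ hx ⟨d0, t, t'⟩ hy h
    obtain ⟨hs, hs'⟩ := hXm _ (Finset.mem_coe.1 hx)
    obtain ⟨ht, ht'⟩ := hXm _ (Finset.mem_coe.1 hy)
    have ha : ∀ P, cmb l c0 s P = cmb l d0 t P := fun P => congrArg Prod.fst (congrFun h P)
    have hb : ∀ P, cmb l c0 s' P = cmb l d0 t' P := fun P => congrArg Prod.snd (congrFun h P)
    have e1 : s = t := by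
      ext P
      rw [s2m_s l c0 s P, s2m_s l d0 t P, ha P]
    have e2' : s' = t' := by
      ext P
      rw [s2m_s l c0 s' P, s2m_s l d0 t' P, hb P]
    have e3 : c0 = d0 := by
      funext P
      apply Option.ext
      intro i
      rw [s2m_c l c0 s hs P i, s2m_c l d0 t ht P i, ha P]
    subst e1 e2' e3
    rfl
  have hf0 : ∀ p ∈ univ.filter (fun p : Ix F w R → Option K × Option K => ∀ P, p P ∈ M2 l),
      0 ≤ f p := by
    intro p hp
    have hp2 := (Finset.mem_filter.1 hp).2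
    exact mul_nonneg (mul_nonneg (BB_nonneg hα _) (BB_nonneg hα _))
      (Finset.prod_nonneg fun P _ => e2_nonneg P.2 l (p P) (hp2 P))
  rw [h1]
  refine (Finset.sum_le_sum h2).trans ?_
  rw [← Finset.sum_image (f := f) (g := Φ) (fun a ha b hb hab => hinj (Finset.mem_coe.2 ha)
    (Finset.mem_coe.2 hb) hab)]
  unfold T2
  refine Finset.sum_le_sum_of_subset_of_nonneg ?_ (fun p hp _ => hf0 p hp)
  intro p hp
  obtain ⟨x, hx, rfl⟩ := Finset.mem_image.1 hp
  obtain ⟨hs, hs'⟩ := hXm x hx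
  rw [Finset.mem_filter]
  exact ⟨Finset.mem_univ _, fun P => s2m_main l x.1 x.2.1 x.2.2 hs hs' P⟩

end Pool.Agent.H10.FF
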